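import Pool.Agent.H506R3.LW.Defs

/-!
# Averages over cells as functionals on `L_∞`
-/

set_option autoImplicit false

open Finset MeasureTheory
open scoped BigOperators ENNReal

namespace H506W

/-- the one-dimensional normalised measure -/
noncomputable def AV_mu : Measure ℝ :=
  ENNReal.ofReal (2 * Real.pi)⁻¹ • volume.restrict (Set.Ico 0 (2 * Real.pi))

theorem AV_TP (d : ℕ) : HypVol.TP d = Measure.pi (fun _ : Fin d => AV_mu) := rfl

/-- one side of a cell -/
def AV_c (n x : ℕ) : Set ℝ :=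
  Set.Ico (2 * Real.pi * ((x : ℝ) / 2 ^ (n + 1))) (2 * Real.pi * (((x : ℝ) + 1) / 2 ^ (n + 1)))

theorem AV_c_sub {n x : ℕ} (hx : x < 2 ^ (n + 1)) : AV_c n x ⊆ Set.Ico 0 (2 * Real.pi) := by
  have hp := Real.pi_pos
  apply Set.Ico_subset_Ico
  · positivity
  · have h : ((x : ℝ) + 1) / 2 ^ (n + 1) ≤ 1 := by
      rw [div_le_one (by positivity)]
      exact_mod_cast hx
    nlinarith

theorem AV_restrict {n x : ℕ} (hx : x < 2 ^ (n + 1)) :
    AV_mu.restrict (AV_c n x) = ENNReal.ofReal (2 * Real.pi)⁻¹ • volume.restrict (AV_c n x) := by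
  unfold AV_mu
  rw [Measure.restrict_smul, Measure.restrict_restrict (show MeasurableSet (AV_c n x) from measurableSet_Ico),
    Set.inter_eq_left.2 (AV_c_sub hx)]

theorem AV_meas {n x : ℕ} (hx : x < 2 ^ (n + 1)) :
    AV_mu (AV_c n x) = ENNReal.ofReal (1 / 2 ^ (n + 1)) := by
  have h := AV_restrict hx
  have h2 : AV_mu (AV_c n x) = (AV_mu.restrict (AV_c n x)) Set.univ := by
    rw [Measure.restrict_apply_univ]
  rw [h2, h, Measure.smul_apply, Measure.restrict_apply_univ, AV_c, Real.volume_Ico, smul_eq_mul,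
    ← ENNReal.ofReal_mul (by positivity)]
  congr 1
  have hp := Real.pi_ne_zero
  field_simp
  ring

/-- cell -/
def AV_Q {d n : ℕ} (x : Gd d n) : Set (Fin d → ℝ) :=
  Set.pi Set.univ (fun j => AV_c n ((x j : Fin (2 ^ (n + 1))) : ℕ))

instance AV_fin_mu : IsFiniteMeasure AV_mu := by
  unfold AV_mu
  constructor
  rw [Measure.smul_apply, Measure.restrict_apply_univ, Real.volume_Ico, smul_eq_mul]
  exact ENNReal.mul_lt_top ENNReal.ofReal_lt_top ENNReal.ofReal_lt_top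

instance AV_fin_TP (d : ℕ) : IsFiniteMeasure (HypVol.TP d) := by
  rw [AV_TP]
  infer_instance

theorem AV_measQ {d n : ℕ} (x : Gd d n) :
    (HypVol.TP d).real (AV_Q x) = 1 / 2 ^ ((n + 1) * d) := by
  unfold Measure.real
  rw [AV_TP, AV_Q, Measure.pi_pi]
  have : ∀ j : Fin d, AV_mu (AV_c n ((x j : Fin (2 ^ (n + 1))) : ℕ)) =
      ENNReal.ofReal (1 / 2 ^ (n + 1)) := fun j => AV_meas (x j).2
  simp only [this]
  rw [Finset.prod_const, Finset.card_univ, Fintype.card_fin, ENNReal.toReal_pow,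
    ENNReal.toReal_ofReal (by positivity), div_pow, one_pow, pow_mul]

theorem AV_bound {d : ℕ} (F : Lp ℂ ⊤ (HypVol.TP d)) :
    ∀ᵐ y ∂(HypVol.TP d), ‖F y‖ ≤ ‖F‖ := by
  have h := ae_le_eLpNormEssSup (f := (F : (Fin d → ℝ) → ℂ)) (μ := HypVol.TP d)
  filter_upwards [h] with y hy
  rw [Lp.norm_def, eLpNorm_exponent_top]
  have hfin : eLpNormEssSup (F : (Fin d → ℝ) → ℂ) (HypVol.TP d) ≠ ⊤ := by
    have := (Lp.memLp F).eLpNorm_ne_top
    rwa [eLpNorm_exponent_top] at this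
  have := ENNReal.toReal_mono hfin hy
  rwa [toReal_enorm] at this

theorem AV_integrable {d : ℕ} (F : Lp ℂ ⊤ (HypVol.TP d)) : Integrable F (HypVol.TP d) :=
  (Lp.memLp F).integrable le_top

/-- the functional -/
noncomputable def AV_av {d n : ℕ} (x : Gd d n) : Lp ℂ ⊤ (HypVol.TP d) →L[ℂ] ℂ :=
  LinearMap.mkContinuous
    { toFun := fun F => (2 : ℂ) ^ ((n + 1) * d) * ∫ y in AV_Q x, F y ∂(HypVol.TP d)
      map_add' := by
        intro F G
        rw [← mul_add, ← integral_add (AV_integrable F).integrableOn (AV_integrable G).integrableOn]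
        congr 1
        apply integral_congr_ae
        filter_upwards [ae_restrict_of_ae (Lp.coeFn_add F G)] with y hy
        rw [hy, Pi.add_apply]
      map_smul' := by
        intro c F
        rw [RingHom.id_apply, smul_eq_mul, mul_left_comm, ← integral_const_mul c]
        congr 1
        apply integral_congr_ae
        filter_upwards [ae_restrict_of_ae (Lp.coeFn_smul c F)] with y hy
        rw [hy, Pi.smul_apply, smul_eq_mul] } 1 (by
    intro F
    show ‖(2 : ℂ) ^ ((n + 1) * d) * ∫ y in AV_Q x, F y ∂(HypVol.TP d)‖ ≤ 1 * ‖F‖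
    rw [norm_mul, norm_pow]
    have h1 : ‖∫ y in AV_Q x, F y ∂(HypVol.TP d)‖ ≤ ‖F‖ * (HypVol.TP d).real (AV_Q x) :=
      norm_setIntegral_le_of_norm_le_const_ae (measure_lt_top _ _)
        (ae_restrict_of_ae (AV_bound F))
    rw [AV_measQ] at h1
    have h2 : ‖(2 : ℂ)‖ = 2 := by simp
    rw [h2]
    calc (2 : ℝ) ^ ((n + 1) * d) * ‖∫ y in AV_Q x, F y ∂(HypVol.TP d)‖
        ≤ 2 ^ ((n + 1) * d) * (‖F‖ * (1 / 2 ^ ((n + 1) * d))) := by gcongr
      _ = 1 * ‖F‖ := by field_simp)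

theorem AV_av_apply {d n : ℕ} (x : Gd d n) (F : Lp ℂ ⊤ (HypVol.TP d)) :
    AV_av x F = (2 : ℂ) ^ ((n + 1) * d) * ∫ y in AV_Q x, F y ∂(HypVol.TP d) := rfl

theorem AV_av_norm {d n : ℕ} (x : Gd d n) (F : Lp ℂ ⊤ (HypVol.TP d)) : ‖AV_av x F‖ ≤ ‖F‖ := by
  have h := (AV_av x).le_opNorm F
  have h1 : ‖AV_av x‖ ≤ 1 := LinearMap.mkContinuous_norm_le _ zero_le_one _
  calc ‖AV_av x F‖ ≤ ‖AV_av x‖ * ‖F‖ := h
    _ ≤ 1 * ‖F‖ := mul_le_mul_of_nonneg_right h1 (norm_nonneg _)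
    _ = ‖F‖ := one_mul _

/-- one coordinate -/
theorem AV_one (f : ℝ → ℝ) {n s k x : ℕ} (hx : x < 2 ^ (n + 1)) :
    2 ^ (n + 1) * ∫ t, psi f s k t ∂(AV_mu.restrict (AV_c n x)) = pz f n s k x := by
  have hp := Real.pi_pos
  have h2p : 0 < 2 * Real.pi := by positivity
  rw [AV_restrict hx, integral_smul_measure, ENNReal.toReal_ofReal (by positivity), smul_eq_mul]
  unfold pz
  congr 1
  have hle : 2 * Real.pi * ((x : ℝ) / 2 ^ (n + 1)) ≤ 2 * Real.pi * (((x : ℝ) + 1) / 2 ^ (n + 1)) := by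
    apply mul_le_mul_of_nonneg_left _ h2p.le
    apply div_le_div_of_nonneg_right _ (by positivity)
    linarith
  have e1 : ∫ t in AV_c n x, psi f s k t = ∫ t in AV_c n x,
      (fun y => f (2 ^ s * y - k)) (t / (2 * Real.pi)) := by
    apply setIntegral_congr_fun measurableSet_Ico
    intro t ht
    have ht2 := AV_c_sub hx ht
    unfold psi
    have h1 : Int.fract (t / (2 * Real.pi)) = t / (2 * Real.pi) := by
      rw [Int.fract_eq_self]
      refine ⟨div_nonneg ht2.1 h2p.le, ?_⟩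
      rw [div_lt_one h2p]
      exact ht2.2
    simp only [h1]
  rw [e1, AV_c, integral_Ico_eq_integral_Ioo, ← integral_Ioc_eq_integral_Ioo,
    ← intervalIntegral.integral_of_le hle,
    intervalIntegral.integral_comp_div (fun y => f (2 ^ s * y - k)) h2p.ne', smul_eq_mul,
    mul_div_cancel_left₀ _ h2p.ne', mul_div_cancel_left₀ _ h2p.ne', ← mul_assoc,
    inv_mul_cancel₀ h2p.ne', one_mul]

theorem AV_proof : S_AV := by
  intro B d n
  refine ⟨fun x => AV_av x, fun x F => AV_av_norm x F, ?_⟩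
  intro p x hM
  rw [AV_av_apply]
  have e1 : ∫ y in AV_Q x, (hM.toLp _) y ∂(HypVol.TP d) =
      ∫ y in AV_Q x, ((Ph B.f p y : ℝ) : ℂ) ∂(HypVol.TP d) := by
    apply integral_congr_ae
    exact ae_restrict_of_ae hM.coeFn_toLp
  have e2 : ∫ y in AV_Q x, (Ph B.f p y : ℝ) ∂(HypVol.TP d) =
      ∏ j, ∫ t, psi B.f (rs p j) (rk p j) t ∂(AV_mu.restrict
        (AV_c n ((x j : Fin (2 ^ (n + 1))) : ℕ))) := by
    rw [AV_TP, AV_Q, Measure.restrict_pi_pi]
    unfold Ph
    exact integral_fintype_prod_eq_prod (𝕜 := ℝ) (fun j t => psi B.f (rs p j) (rk p j) t)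
  rw [e1, integral_complex_ofReal, e2]
  have e3 : (2 : ℂ) ^ ((n + 1) * d) = (((∏ _j : Fin d, (2 : ℝ) ^ (n + 1)) : ℝ) : ℂ) := by
    rw [Finset.prod_const, Finset.card_univ, Fintype.card_fin, ← pow_mul]
    push_cast
    rfl
  rw [e3, ← Complex.ofReal_mul, ← Finset.prod_mul_distrib]
  congr 1
  apply Finset.prod_congr rfl
  intro j _
  exact AV_one B.f (x j).2

end H506W
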