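import Pool.Agent.H506R3.LW.Defs

/-!
# Task B: masses of rectangles
-/

set_option autoImplicit false

open Finset MeasureTheory
open scoped BigOperators

namespace H506W

section B
variable {X ι σ : Type} [Fintype X] [DecidableEq X] [Fintype ι] [Fintype σ]

/-- the rectangles of one shape are disjoint -/
lemma B_disj (S : Sys X ι σ) (u : X → ℝ) (hu : ∀ x, 0 ≤ u x) (t : σ) (J : Finset ι)
    (hJ : ∀ j ∈ J, S.sh j = t) (A : Finset X) :
    ∑ j ∈ J, ∑ x ∈ A ∩ S.R j, u x ≤ ∑ x ∈ A, u x := by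
  classical
  rw [← Finset.sum_biUnion]
  · apply Finset.sum_le_sum_of_subset_of_nonneg
    · intro x hx
      simp only [Finset.mem_biUnion, Finset.mem_inter] at hx
      obtain ⟨_, _, h, _⟩ := hx
      exact h
    · intro x _ _
      exact hu x
  · intro j hj k hk hjk
    have := S.disj j k hjk (by rw [hJ j hj, hJ k hk])
    exact Finset.disjoint_of_subset_left Finset.inter_subset_right
      (Finset.disjoint_of_subset_right Finset.inter_subset_right this)

/-- one row -/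
lemma B_row (S : Sys X ι σ) (u : X → ℝ) (lam M : ℝ) (hM : 0 < M) (hlam : 0 < lam)
    (hu : ∀ x, 0 ≤ u x) (hul : ∀ x, u x ≤ lam) (huM : ∑ x, u x ≤ M) (i : ι) (t : σ) (J : Finset ι)
    (hJ : ∀ j ∈ J, S.sh j = t) (hJi : ∀ j ∈ J, ∑ x ∈ S.R j, u x ≤ ∑ x ∈ S.R i, u x) :
    ∑ j ∈ J, (∑ x ∈ S.R j, u x) ^ (1 / 2 : ℝ) * ∑ x ∈ S.R i ∩ S.R j, u x ≤
      (∑ x ∈ S.R i, u x) ^ (5 / 4 : ℝ) * ((M * (lam * S.V)) ^ (1 / 8 : ℝ) * S.kap (S.sh i) t ^ (1 / 8 : ℝ)) := by
  set Y : ℝ := ∑ j ∈ J, (∑ x ∈ S.R j, u x) ^ (1 / 2 : ℝ) * ∑ x ∈ S.R i ∩ S.R j, u x with hY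
  set Ui : ℝ := ∑ x ∈ S.R i, u x with hUi
  have Ui0 : 0 ≤ Ui := Finset.sum_nonneg fun x _ => hu x
  have U0 : ∀ j, 0 ≤ ∑ x ∈ S.R j, u x := fun j => Finset.sum_nonneg fun x _ => hu x
  have I0 : ∀ j, 0 ≤ ∑ x ∈ S.R i ∩ S.R j, u x := fun j => Finset.sum_nonneg fun x _ => hu x
  have Y0 : 0 ≤ Y := Finset.sum_nonneg fun j _ => mul_nonneg (Real.rpow_nonneg (U0 j) _) (I0 j)
  have k0 := S.kap_nonneg (S.sh i) t
  have V0 := S.V_pos
  have hI : ∑ j ∈ J, ∑ x ∈ S.R i ∩ S.R j, u x ≤ Ui := B_disj S u hu t J hJ (S.R i)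
  have hS : ∑ j ∈ J, ∑ x ∈ S.R j, u x ≤ M := by
    have := B_disj S u hu t J hJ univ
    simp only [Finset.univ_inter] at this
    exact this.trans huM
  -- (a)
  have ha : Y ≤ Ui ^ (3 / 2 : ℝ) := by
    have e : Ui ^ (3 / 2 : ℝ) = Ui ^ (1 / 2 : ℝ) * Ui := by
      have := Real.rpow_add_of_nonneg Ui0 (show (0:ℝ) ≤ 1 / 2 by norm_num) (show (0:ℝ) ≤ 1 by norm_num)
      rw [Real.rpow_one] at this
      rw [← this]
      norm_num
    rw [e]
    calc Y ≤ ∑ j ∈ J, Ui ^ (1 / 2 : ℝ) * ∑ x ∈ S.R i ∩ S.R j, u x := by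
          refine Finset.sum_le_sum fun j hj => ?_
          exact mul_le_mul_of_nonneg_right (Real.rpow_le_rpow (U0 j) (hJi j hj) (by norm_num)) (I0 j)
      _ = Ui ^ (1 / 2 : ℝ) * ∑ j ∈ J, ∑ x ∈ S.R i ∩ S.R j, u x := by rw [Finset.mul_sum]
      _ ≤ Ui ^ (1 / 2 : ℝ) * Ui := mul_le_mul_of_nonneg_left hI (Real.rpow_nonneg Ui0 _)
  -- (b)
  have hb : Y ^ 2 ≤ (M * (lam * S.V)) * S.kap (S.sh i) t * Ui := by
    have cs := Finset.sum_sq_le_sum_mul_sum_of_sq_le_mul J
      (r := fun j => (∑ x ∈ S.R j, u x) ^ (1 / 2 : ℝ) * ∑ x ∈ S.R i ∩ S.R j, u x)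
      (f := fun j => (∑ x ∈ S.R j, u x) * ∑ x ∈ S.R i ∩ S.R j, u x)
      (g := fun j => ∑ x ∈ S.R i ∩ S.R j, u x)
      (fun j _ => mul_nonneg (U0 j) (I0 j)) (fun j _ => I0 j)
      (fun j _ => by
        rw [mul_pow, ← Real.rpow_natCast, ← Real.rpow_mul (U0 j)]
        norm_num
        apply le_of_eq
        ring)
    refine cs.trans ?_
    have h1 : ∑ j ∈ J, (∑ x ∈ S.R j, u x) * ∑ x ∈ S.R i ∩ S.R j, u x ≤ M * (lam * S.V) * S.kap (S.sh i) t := by
      calc ∑ j ∈ J, (∑ x ∈ S.R j, u x) * ∑ x ∈ S.R i ∩ S.R j, u x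
          ≤ ∑ j ∈ J, (∑ x ∈ S.R j, u x) * (lam * (S.V * S.kap (S.sh i) t)) := by
            refine Finset.sum_le_sum fun j hj => mul_le_mul_of_nonneg_left ?_ (U0 j)
            calc ∑ x ∈ S.R i ∩ S.R j, u x ≤ ∑ x ∈ S.R i ∩ S.R j, lam :=
                  Finset.sum_le_sum fun x _ => hul x
              _ = lam * ((S.R i ∩ S.R j).card : ℝ) := by
                  rw [Finset.sum_const, nsmul_eq_mul, mul_comm]
              _ ≤ lam * (S.V * S.kap (S.sh i) t) := by
                  refine mul_le_mul_of_nonneg_left ?_ hlam.le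
                  have := S.ov i j
                  rwa [hJ j hj] at this
        _ = (∑ j ∈ J, ∑ x ∈ S.R j, u x) * (lam * (S.V * S.kap (S.sh i) t)) := by rw [Finset.sum_mul]
        _ ≤ M * (lam * (S.V * S.kap (S.sh i) t)) :=
            mul_le_mul_of_nonneg_right hS (by positivity)
        _ = M * (lam * S.V) * S.kap (S.sh i) t := by ring
    exact mul_le_mul h1 hI (Finset.sum_nonneg fun j _ => I0 j) (by positivity)
  -- combine
  have eY : Y = Y ^ (3 / 4 : ℝ) * (Y ^ 2) ^ (1 / 8 : ℝ) := by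
    rw [← Real.rpow_natCast, ← Real.rpow_mul Y0]
    have := Real.rpow_add_of_nonneg Y0 (show (0:ℝ) ≤ 3 / 4 by norm_num) (show (0:ℝ) ≤ 1 / 4 by norm_num)
    norm_num at this ⊢
    exact this
  rw [eY]
  have h3 : Y ^ (3 / 4 : ℝ) ≤ Ui ^ (9 / 8 : ℝ) := by
    refine (Real.rpow_le_rpow Y0 ha (by norm_num)).trans ?_
    rw [← Real.rpow_mul Ui0]
    norm_num
  have h4 : (Y ^ 2) ^ (1 / 8 : ℝ) ≤
      (M * (lam * S.V)) ^ (1 / 8 : ℝ) * S.kap (S.sh i) t ^ (1 / 8 : ℝ) * Ui ^ (1 / 8 : ℝ) := by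
    refine (Real.rpow_le_rpow (by positivity) hb (by norm_num)).trans ?_
    rw [Real.mul_rpow (by positivity) Ui0, Real.mul_rpow (by positivity) k0]
  have e5 : Ui ^ (5 / 4 : ℝ) = Ui ^ (9 / 8 : ℝ) * Ui ^ (1 / 8 : ℝ) := by
    have := Real.rpow_add_of_nonneg Ui0 (show (0:ℝ) ≤ 9 / 8 by norm_num) (show (0:ℝ) ≤ 1 / 8 by norm_num)
    rw [← this]
    norm_num
  rw [e5]
  refine (mul_le_mul h3 h4 (by positivity) (by positivity)).trans (le_of_eq ?_)
  ring

end B

theorem B_proof : S_B := by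
  intro X ι σ _ _ _ _ S u lam M hM hlam hu0 hul huM
  classical
  set U : ι → ℝ := fun i => ∑ x ∈ S.R i, u x with hU
  have U0 : ∀ i, 0 ≤ U i := fun i => Finset.sum_nonneg fun x _ => hu0 x
  have UM : ∀ i, U i ≤ M := fun i =>
    (Finset.sum_le_sum_of_subset_of_nonneg (Finset.subset_univ _) fun x _ _ => hu0 x).trans huM
  set w : ι → ℝ := fun i => (U i) ^ (1 / 2 : ℝ) with hw
  have w0 : ∀ i, 0 ≤ w i := fun i => Real.rpow_nonneg (U0 i) _
  have e32 : ∀ i, U i ^ (3 / 2 : ℝ) = w i * U i := by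
    intro i
    have := Real.rpow_add_of_nonneg (U0 i) (show (0:ℝ) ≤ 1 / 2 by norm_num) (show (0:ℝ) ≤ 1 by norm_num)
    rw [Real.rpow_one] at this
    rw [hw]
    simp only
    rw [← this]
    norm_num
  set I : ι → ι → ℝ := fun i j => ∑ x ∈ S.R i ∩ S.R j, u x with hI
  have I0 : ∀ i j, 0 ≤ I i j := fun i j => Finset.sum_nonneg fun x _ => hu0 x
  have Isymm : ∀ i j, I i j = I j i := fun i j => by simp only [hI, Finset.inter_comm]
  set F : X → ℝ := fun x => ∑ i, if x ∈ S.R i then w i else 0 with hF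
  set S0 : ℝ := ∑ i, U i ^ (3 / 2 : ℝ) with hS0
  have S00 : 0 ≤ S0 := Finset.sum_nonneg fun i _ => Real.rpow_nonneg (U0 i) _
  have e1 : S0 = ∑ x, u x * F x := by
    calc S0 = ∑ i, ∑ x, (if x ∈ S.R i then u x * w i else 0) := by
          refine Finset.sum_congr rfl fun i _ => ?_
          rw [e32, hU]
          simp only
          rw [Finset.mul_sum, ← Finset.sum_filter, Finset.filter_mem_eq_inter, Finset.univ_inter]
          exact Finset.sum_congr rfl fun x _ => mul_comm _ _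
      _ = ∑ x, ∑ i, (if x ∈ S.R i then u x * w i else 0) := Finset.sum_comm
      _ = ∑ x, u x * F x := by
          refine Finset.sum_congr rfl fun x _ => ?_
          rw [hF]
          simp only
          rw [Finset.mul_sum]
          refine Finset.sum_congr rfl fun i _ => ?_
          split_ifs <;> simp
  have e2 : ∑ x, u x * F x ^ 2 = ∑ i, ∑ j, w i * w j * I i j := by
    calc ∑ x, u x * F x ^ 2
        = ∑ x, ∑ i, ∑ j, (if x ∈ S.R i ∩ S.R j then w i * w j * u x else 0) := by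
          refine Finset.sum_congr rfl fun x _ => ?_
          rw [hF, sq]
          simp only
          rw [Finset.sum_mul_sum, Finset.mul_sum]
          refine Finset.sum_congr rfl fun i _ => ?_
          rw [Finset.mul_sum]
          refine Finset.sum_congr rfl fun j _ => ?_
          by_cases h1 : x ∈ S.R i <;> by_cases h2 : x ∈ S.R j <;> simp [h1, h2]
          ring
      _ = ∑ i, ∑ x, ∑ j, (if x ∈ S.R i ∩ S.R j then w i * w j * u x else 0) := Finset.sum_comm
      _ = ∑ i, ∑ j, ∑ x, (if x ∈ S.R i ∩ S.R j then w i * w j * u x else 0) :=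
          Finset.sum_congr rfl fun i _ => Finset.sum_comm
      _ = ∑ i, ∑ j, w i * w j * I i j := by
          refine Finset.sum_congr rfl fun i _ => Finset.sum_congr rfl fun j _ => ?_
          rw [← Finset.sum_filter, Finset.filter_mem_eq_inter, Finset.univ_inter, hI]
          simp only
          rw [Finset.mul_sum]
  have cs : S0 ^ 2 ≤ M * ∑ i, ∑ j, w i * w j * I i j := by
    rw [e1, ← e2]
    have := Finset.sum_sq_le_sum_mul_sum_of_sq_le_mul (univ : Finset X)
      (r := fun x => u x * F x) (f := fun x => u x) (g := fun x => u x * F x ^ 2)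
      (fun x _ => hu0 x) (fun x _ => mul_nonneg (hu0 x) (sq_nonneg _))
      (fun x _ => le_of_eq (by ring))
    refine this.trans (mul_le_mul_of_nonneg_right huM ?_)
    exact Finset.sum_nonneg fun x _ => mul_nonneg (hu0 x) (sq_nonneg _)
  -- symmetry
  have sym : ∑ i, ∑ j, w i * w j * I i j ≤
      2 * ∑ i, w i * ∑ j ∈ univ.filter (fun j => U j ≤ U i), w j * I i j := by
    have h1 : ∀ i j, w i * w j * I i j ≤ (if U j ≤ U i then w i * (w j * I i j) else 0) +
        (if U i ≤ U j then w j * (w i * I j i) else 0) := by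
      intro i j
      have p : 0 ≤ w i * (w j * I i j) := mul_nonneg (w0 i) (mul_nonneg (w0 j) (I0 i j))
      have p2 : w j * (w i * I j i) = w i * (w j * I i j) := by rw [Isymm j i]; ring
      have p3 : w i * w j * I i j = w i * (w j * I i j) := by ring
      rw [p2, p3]
      rcases le_total (U i) (U j) with h | h
      · rw [if_pos h]
        split_ifs <;> linarith
      · rw [if_pos h]
        split_ifs <;> linarith
    calc ∑ i, ∑ j, w i * w j * I i j
        ≤ ∑ i, ∑ j, ((if U j ≤ U i then w i * (w j * I i j) else 0) +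
          (if U i ≤ U j then w j * (w i * I j i) else 0)) :=
          Finset.sum_le_sum fun i _ => Finset.sum_le_sum fun j _ => h1 i j
      _ = ∑ i, ∑ j, (if U j ≤ U i then w i * (w j * I i j) else 0) +
          ∑ i, ∑ j, (if U i ≤ U j then w j * (w i * I j i) else 0) := by
          simp only [Finset.sum_add_distrib]
      _ = ∑ i, ∑ j, (if U j ≤ U i then w i * (w j * I i j) else 0) +
          ∑ j, ∑ i, (if U i ≤ U j then w j * (w i * I j i) else 0) := by
          congr 1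
          exact Finset.sum_comm
      _ = 2 * ∑ i, w i * ∑ j ∈ univ.filter (fun j => U j ≤ U i), w j * I i j := by
          rw [← two_mul]
          congr 1
          refine Finset.sum_congr rfl fun i _ => ?_
          rw [← Finset.sum_filter, Finset.mul_sum]
  -- rows
  have row : ∀ i, ∑ j ∈ univ.filter (fun j => U j ≤ U i), w j * I i j ≤
      U i ^ (5 / 4 : ℝ) * ((M * (lam * S.V)) ^ (1 / 8 : ℝ) * S.C1) := by
    intro i
    rw [← Finset.sum_fiberwise (univ.filter (fun j => U j ≤ U i)) S.sh]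
    calc ∑ t, ∑ j ∈ (univ.filter (fun j => U j ≤ U i)).filter (fun j => S.sh j = t), w j * I i j
        ≤ ∑ t, U i ^ (5 / 4 : ℝ) * ((M * (lam * S.V)) ^ (1 / 8 : ℝ) * S.kap (S.sh i) t ^ (1 / 8 : ℝ)) := by
          refine Finset.sum_le_sum fun t _ => ?_
          refine B_row S u lam M hM hlam hu0 hul huM i t _ ?_ ?_
          · intro j hj
            exact (Finset.mem_filter.mp hj).2
          · intro j hj
            exact (Finset.mem_filter.mp (Finset.mem_filter.mp hj).1).2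
      _ = U i ^ (5 / 4 : ℝ) * ((M * (lam * S.V)) ^ (1 / 8 : ℝ) * ∑ t, S.kap (S.sh i) t ^ (1 / 8 : ℝ)) := by
          rw [Finset.mul_sum, Finset.mul_sum]
      _ ≤ U i ^ (5 / 4 : ℝ) * ((M * (lam * S.V)) ^ (1 / 8 : ℝ) * S.C1) := by
          have V0 := S.V_pos
          refine mul_le_mul_of_nonneg_left (mul_le_mul_of_nonneg_left (S.sumk _) (by positivity))
            (Real.rpow_nonneg (U0 i) _)
  set c : ℝ := (M * (lam * S.V)) ^ (1 / 8 : ℝ) * S.C1 with hc
  have V0 := S.V_pos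
  have C0 := S.C1_pos
  have c0 : 0 ≤ c := by positivity
  have tot : ∑ i, w i * ∑ j ∈ univ.filter (fun j => U j ≤ U i), w j * I i j ≤ c * M ^ (1 / 4 : ℝ) * S0 := by
    calc ∑ i, w i * ∑ j ∈ univ.filter (fun j => U j ≤ U i), w j * I i j
        ≤ ∑ i, w i * (U i ^ (5 / 4 : ℝ) * c) :=
          Finset.sum_le_sum fun i _ => mul_le_mul_of_nonneg_left (row i) (w0 i)
      _ ≤ ∑ i, c * M ^ (1 / 4 : ℝ) * U i ^ (3 / 2 : ℝ) := by
          refine Finset.sum_le_sum fun i _ => ?_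
          have e : U i ^ (5 / 4 : ℝ) = U i ^ (1 / 4 : ℝ) * U i := by
            have := Real.rpow_add_of_nonneg (U0 i) (show (0:ℝ) ≤ 1 / 4 by norm_num) (show (0:ℝ) ≤ 1 by norm_num)
            rw [Real.rpow_one] at this
            rw [← this]
            norm_num
          rw [e, e32]
          have h5 : U i ^ (1 / 4 : ℝ) ≤ M ^ (1 / 4 : ℝ) := Real.rpow_le_rpow (U0 i) (UM i) (by norm_num)
          have h6 : 0 ≤ c * (w i * U i) := mul_nonneg c0 (mul_nonneg (w0 i) (U0 i))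
          calc w i * (U i ^ (1 / 4 : ℝ) * U i * c) = U i ^ (1 / 4 : ℝ) * (c * (w i * U i)) := by ring
            _ ≤ M ^ (1 / 4 : ℝ) * (c * (w i * U i)) := mul_le_mul_of_nonneg_right h5 h6
            _ = c * M ^ (1 / 4 : ℝ) * (w i * U i) := by ring
      _ = c * M ^ (1 / 4 : ℝ) * S0 := by rw [← Finset.mul_sum]
  have fin : S0 ^ 2 ≤ (2 * (M * (c * M ^ (1 / 4 : ℝ)))) * S0 := by
    refine cs.trans ?_
    have := mul_le_mul_of_nonneg_left (sym.trans (mul_le_mul_of_nonneg_left tot (by norm_num : (0:ℝ) ≤ 2))) hM.le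
    refine this.trans (le_of_eq ?_)
    ring
  have eC : 2 * (M * (c * M ^ (1 / 4 : ℝ))) = 2 * S.C1 * (M ^ (11 / 8 : ℝ) * (lam * S.V) ^ (1 / 8 : ℝ)) := by
    rw [hc, Real.mul_rpow hM.le (by positivity)]
    have e : M ^ (11 / 8 : ℝ) = M * M ^ (1 / 8 : ℝ) * M ^ (1 / 4 : ℝ) := by
      have h1 := Real.rpow_add hM 1 (1 / 8 : ℝ)
      rw [Real.rpow_one] at h1
      rw [← h1, ← Real.rpow_add hM]
      norm_num
    rw [e]
    ring
  rw [eC] at fin
  rcases S00.eq_or_lt with h | h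
  · rw [← h]
    positivity
  · rw [sq] at fin
    exact le_of_mul_le_mul_right fin h

end H506W
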