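import Pool.Agent.H506R3.LW.Defs

/-! Task BAD (helper862): measure of the bad sets. -/

set_option autoImplicit false

open Finset MeasureTheory
open scoped BigOperators ENNReal

namespace H506W

variable {X ι σ : Type} [Fintype X] [DecidableEq X] [Fintype ι] [Fintype σ]

open Classical in
/-- the part of the bad set with given `i, l` -/
noncomputable def bad_pt (S : Sys X ι σ) (u : ι → X → ℝ) (M : ℝ) (j i : ι) (l : ℕ) : Finset X :=
  if M / 2 ^ l ≤ ∑ y ∈ S.R j, lev (u i) l y then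
    (S.R j).filter (fun x => 2 ^ l ≤ u i x ∧ u i x < 2 ^ (l + 1)) else ∅

omit [Fintype X] [DecidableEq X] in
theorem bad_lev_nonneg (u : X → ℝ) (hu : ∀ x, 0 ≤ u x) (l : ℕ) (x : X) : 0 ≤ lev u l x := by
  unfold lev
  split_ifs
  · exact hu x
  · exact le_rfl

theorem bad_pt_card (S : Sys X ι σ) (u : ι → X → ℝ) (M : ℝ) (hM : 0 < M)
    (hu : ∀ i x, 0 ≤ u i x) (j i : ι) (l : ℕ) :
    ((bad_pt S u M j i l).card : ℝ) ≤
      (2 ^ l)⁻¹ * (2 ^ l / M) ^ (1 / 2 : ℝ) * (∑ y ∈ S.R j, lev (u i) l y) ^ (3 / 2 : ℝ) := by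
  classical
  set Y := ∑ y ∈ S.R j, lev (u i) l y with hY
  have hY0 : 0 ≤ Y := sum_nonneg fun x _ => bad_lev_nonneg _ (hu i) l x
  unfold bad_pt
  rw [← hY]
  by_cases h : M / 2 ^ l ≤ Y
  · rw [if_pos h]
    have h2 : (0 : ℝ) < 2 ^ l := by positivity
    have hYpos : 0 < Y := lt_of_lt_of_le (by positivity) h
    set F := (S.R j).filter (fun x => 2 ^ l ≤ u i x ∧ u i x < 2 ^ (l + 1)) with hF
    have h1 : (2 ^ l : ℝ) * F.card ≤ Y := by
      calc (2 ^ l : ℝ) * F.card = ∑ x ∈ F, (2 ^ l : ℝ) := by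
            rw [sum_const, nsmul_eq_mul, mul_comm]
        _ ≤ ∑ x ∈ F, lev (u i) l x := by
            refine sum_le_sum fun x hx => ?_
            rw [hF, mem_filter] at hx
            unfold lev
            rw [if_pos hx.2]
            exact hx.2.1
        _ ≤ Y := sum_le_sum_of_subset_of_nonneg (filter_subset _ _)
            fun x _ _ => bad_lev_nonneg _ (hu i) l x
    have h3 : (F.card : ℝ) ≤ (2 ^ l)⁻¹ * Y := by
      rw [inv_mul_eq_div, le_div_iff₀ h2]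
      linarith
    have h4 : 1 ≤ (2 ^ l / M * Y) ^ (1 / 2 : ℝ) := by
      apply Real.one_le_rpow _ (by norm_num)
      have h5 : M / 2 ^ l * (2 ^ l / M) = 1 := by field_simp
      have h6 : 0 < 2 ^ l / M := by positivity
      nlinarith
    calc (F.card : ℝ) ≤ (2 ^ l)⁻¹ * Y := h3
      _ ≤ (2 ^ l)⁻¹ * Y * (2 ^ l / M * Y) ^ (1 / 2 : ℝ) :=
          le_mul_of_one_le_right (by positivity) h4
      _ = (2 ^ l)⁻¹ * (2 ^ l / M) ^ (1 / 2 : ℝ) * Y ^ (3 / 2 : ℝ) := by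
          rw [Real.mul_rpow (by positivity) hY0]
          have h7 : Y ^ (3 / 2 : ℝ) = Y * Y ^ (1 / 2 : ℝ) := by
            rw [show (3 / 2 : ℝ) = 1 + 1 / 2 by norm_num, Real.rpow_add hYpos, Real.rpow_one]
          rw [h7]
          ring
  · rw [if_neg h]
    simp only [card_empty, Nat.cast_zero]
    positivity

theorem bad_card (S : Sys X ι σ) (I0 : Finset ι) (u : ι → X → ℝ) (M : ℝ) (hM : 0 < M)
    (hu : ∀ i x, 0 ≤ u i x) (L : ℕ) (j : ι) :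
    ((bad S I0 u M L j).card : ℝ) ≤ ∑ i ∈ I0, ∑ l ∈ range L,
      (2 ^ l)⁻¹ * (2 ^ l / M) ^ (1 / 2 : ℝ) * (∑ y ∈ S.R j, lev (u i) l y) ^ (3 / 2 : ℝ) := by
  classical
  have hsub : bad S I0 u M L j ⊆ I0.biUnion fun i => (range L).biUnion fun l =>
      bad_pt S u M j i l := by
    intro x hx
    unfold bad at hx
    rw [mem_filter] at hx
    obtain ⟨hxR, i, hi, l, hl, hx1, hx2⟩ := hx
    rw [mem_biUnion]
    refine ⟨i, hi, ?_⟩
    rw [mem_biUnion]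
    refine ⟨l, hl, ?_⟩
    unfold bad_pt
    rw [if_pos hx2, mem_filter]
    exact ⟨hxR, hx1⟩
  calc ((bad S I0 u M L j).card : ℝ)
      ≤ ((∑ i ∈ I0, ∑ l ∈ range L, (bad_pt S u M j i l).card : ℕ) : ℝ) := by
        have h1 : (bad S I0 u M L j).card ≤ ∑ i ∈ I0, ∑ l ∈ range L, (bad_pt S u M j i l).card := by
          refine (card_le_card hsub).trans (card_biUnion_le.trans ?_)
          exact sum_le_sum fun i _ => card_biUnion_le
        exact_mod_cast h1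
    _ = ∑ i ∈ I0, ∑ l ∈ range L, ((bad_pt S u M j i l).card : ℝ) := by push_cast; rfl
    _ ≤ _ := sum_le_sum fun i _ => sum_le_sum fun l _ => bad_pt_card S u M hM hu j i l

theorem bad_term (M V C1 : ℝ) (hM : 0 < M) (hV : 0 < V) (l : ℕ) :
    (2 ^ l)⁻¹ * (2 ^ l / M) ^ (1 / 2 : ℝ) *
      (2 * C1 * (M ^ (11 / 8 : ℝ) * (2 ^ (l + 1) * V) ^ (1 / 8 : ℝ))) =
    (2 * 2 ^ (1 / 8 : ℝ) * ((2 : ℝ) ^ (-(3 / 8) : ℝ)) ^ l) * (C1 * (M ^ (7 / 8 : ℝ) * V ^ (1 / 8 : ℝ))) := by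
  have h2 : (0 : ℝ) < 2 := by norm_num
  have e1 : ((2 : ℝ) ^ l / M) ^ (1 / 2 : ℝ) = (2 : ℝ) ^ ((l : ℝ) / 2) / M ^ (1 / 2 : ℝ) := by
    rw [Real.div_rpow (by positivity) hM.le, ← Real.rpow_natCast, ← Real.rpow_mul h2.le]
    congr 2
    ring
  have e2 : ((2 : ℝ) ^ (l + 1) * V) ^ (1 / 8 : ℝ) =
      (2 : ℝ) ^ ((l : ℝ) / 8) * 2 ^ (1 / 8 : ℝ) * V ^ (1 / 8 : ℝ) := by
    rw [Real.mul_rpow (by positivity) hV.le, ← Real.rpow_natCast, ← Real.rpow_mul h2.le,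
      ← Real.rpow_add h2]
    congr 2
    push_cast
    ring
  have e3 : M ^ (11 / 8 : ℝ) = M ^ (7 / 8 : ℝ) * M ^ (1 / 2 : ℝ) := by
    rw [← Real.rpow_add hM]; norm_num
  have e4 : ((2 : ℝ) ^ l)⁻¹ = (2 : ℝ) ^ (-(l : ℝ)) := by
    rw [Real.rpow_neg h2.le, Real.rpow_natCast]
  have e5 : ((2 : ℝ) ^ (-(3 / 8) : ℝ)) ^ l = (2 : ℝ) ^ (-(l : ℝ)) * (2 : ℝ) ^ ((l : ℝ) / 2) *
      (2 : ℝ) ^ ((l : ℝ) / 8) := by
    rw [← Real.rpow_natCast, ← Real.rpow_mul h2.le, ← Real.rpow_add h2, ← Real.rpow_add h2]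
    congr 1
    ring
  have hM2 : (0 : ℝ) < M ^ (1 / 2 : ℝ) := by positivity
  rw [e1, e2, e3, e4, e5]
  field_simp

theorem bad_geom (L : ℕ) :
    ∑ l ∈ range L, (2 * 2 ^ (1 / 8 : ℝ) * ((2 : ℝ) ^ (-(3 / 8) : ℝ)) ^ l) ≤ 16 := by
  have h2 : (0 : ℝ) < 2 := by norm_num
  set q : ℝ := (2 : ℝ) ^ (-(3 / 8) : ℝ) with hq
  have hq0 : 0 < q := by positivity
  have hq8 : q ^ 8 = 1 / 8 := by
    rw [hq, ← Real.rpow_natCast, ← Real.rpow_mul h2.le]
    norm_num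
  have hq1 : q ≤ 78 / 100 := by
    by_contra h
    push Not at h
    have h1 : (78 / 100 : ℝ) ^ 8 < q ^ 8 := pow_lt_pow_left₀ h (by norm_num) (by norm_num)
    rw [hq8] at h1
    norm_num at h1
  set r : ℝ := (2 : ℝ) ^ (1 / 8 : ℝ) with hr
  have hr0 : 0 < r := by positivity
  have hr8 : r ^ 8 = 2 := by
    rw [hr, ← Real.rpow_natCast, ← Real.rpow_mul h2.le]
    norm_num
  have hr1 : r ≤ 11 / 10 := by
    by_contra h
    push Not at h
    have h1 : (11 / 10 : ℝ) ^ 8 < r ^ 8 := pow_lt_pow_left₀ h (by norm_num) (by norm_num)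
    rw [hr8] at h1
    norm_num at h1
  have hgeo : ∀ L : ℕ, (1 - q) * ∑ l ∈ range L, q ^ l ≤ 1 := by
    intro L
    have h := mul_neg_geom_sum q L
    rw [h]
    have : 0 ≤ q ^ L := by positivity
    linarith
  rw [← mul_sum]
  have h1 := hgeo L
  have h3 : 0 ≤ ∑ l ∈ range L, q ^ l := sum_nonneg fun l _ => by positivity
  have h4 : ∑ l ∈ range L, q ^ l ≤ 100 / 22 := by
    rw [le_div_iff₀ (by norm_num)]
    nlinarith
  calc 2 * r * ∑ l ∈ range L, q ^ l ≤ 2 * (11 / 10) * (100 / 22) := by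
        apply mul_le_mul _ h4 h3 (by norm_num)
        linarith
    _ ≤ 16 := by norm_num

theorem BAD_proof : S_BAD := by
  intro hB X ι σ _ _ _ _ S I0 u M L hM hu hsum
  have key : ∀ i ∈ I0, ∀ l : ℕ, ∑ j, (∑ y ∈ S.R j, lev (u i) l y) ^ (3 / 2 : ℝ) ≤
      2 * S.C1 * (M ^ (11 / 8 : ℝ) * (2 ^ (l + 1) * S.V) ^ (1 / 8 : ℝ)) := by
    intro i hi l
    refine hB X ι σ S (lev (u i) l) (2 ^ (l + 1)) M hM (by positivity)
      (fun x => bad_lev_nonneg _ (hu i) l x) ?_ ?_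
    · intro x
      unfold lev
      split_ifs with h
      · exact h.2.le
      · positivity
    · refine le_trans (sum_le_sum fun x _ => ?_) (hsum i hi)
      unfold lev
      split_ifs
      · exact le_rfl
      · exact hu i x
  calc ∑ j, ((bad S I0 u M L j).card : ℝ)
      ≤ ∑ j, ∑ i ∈ I0, ∑ l ∈ range L,
        (2 ^ l)⁻¹ * (2 ^ l / M) ^ (1 / 2 : ℝ) * (∑ y ∈ S.R j, lev (u i) l y) ^ (3 / 2 : ℝ) :=
        sum_le_sum fun j _ => bad_card S I0 u M hM hu L j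
    _ = ∑ i ∈ I0, ∑ l ∈ range L,
        (2 ^ l)⁻¹ * (2 ^ l / M) ^ (1 / 2 : ℝ) * ∑ j, (∑ y ∈ S.R j, lev (u i) l y) ^ (3 / 2 : ℝ) := by
        rw [sum_comm]
        refine sum_congr rfl fun i _ => ?_
        rw [sum_comm]
        refine sum_congr rfl fun l _ => ?_
        rw [mul_sum]
    _ ≤ ∑ i ∈ I0, ∑ l ∈ range L,
        (2 * 2 ^ (1 / 8 : ℝ) * ((2 : ℝ) ^ (-(3 / 8) : ℝ)) ^ l) *
          (S.C1 * (M ^ (7 / 8 : ℝ) * S.V ^ (1 / 8 : ℝ))) := by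
        refine sum_le_sum fun i hi => sum_le_sum fun l _ => ?_
        rw [← bad_term M S.V S.C1 hM S.V_pos l]
        exact mul_le_mul_of_nonneg_left (key i hi l) (by positivity)
    _ ≤ ∑ i ∈ I0, 16 * (S.C1 * (M ^ (7 / 8 : ℝ) * S.V ^ (1 / 8 : ℝ))) := by
        refine sum_le_sum fun i _ => ?_
        rw [← sum_mul]
        have h1 := S.C1_pos
        have h2 := S.V_pos
        exact mul_le_mul_of_nonneg_right (bad_geom L) (by positivity)
    _ = 16 * S.C1 * I0.card * (M ^ (7 / 8 : ℝ) * S.V ^ (1 / 8 : ℝ)) := by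
        rw [sum_const, nsmul_eq_mul]
        ring

end H506W
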