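import Pool.Agent.H506R3.LW.Defs

/-!
# Biorthogonality (helper196)
-/

set_option autoImplicit false

open Finset MeasureTheory
open scoped BigOperators ENNReal

namespace H506W

theorem BIO_sum_prod {d N : ℕ} (F : Fin d → ℕ → ℝ) :
    ∑ x : Fin d → Fin N, ∏ j, F j ((x j : Fin N) : ℕ) = ∏ j, ∑ x ∈ range N, F j x := by
  have h := Finset.prod_univ_sum (fun _ : Fin d => (univ : Finset (Fin N)))
    (fun j x => F j ((x : Fin N) : ℕ))
  rw [Fintype.piFinset_univ] at h
  rw [← h]
  refine Finset.prod_congr rfl (fun j _ => ?_)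
  exact Fin.sum_univ_eq_sum_range (F j) N

theorem BIO_proof : S_BIO := by
  intro hPZ hPH B d n p q
  have hps : ∀ (p : Rc d n) (j : Fin d), rs p j ≤ n := fun p j => by
    unfold rs
    have := (p.1.1 j).2
    omega
  have hsum : ∀ p : Rc d n, ∑ j, rs p j = n := by
    intro p
    have := p.2.1
    simp only [HypVol.Sh, mem_filter, mem_univ, true_and] at this
    exact this
  have h1 : ∑ x : Gd d n, (∏ j, pz B.f n (rs p j) (rk p j) ((x j : Fin (2 ^ (n + 1))) : ℕ)) *
      Hr q x = ∏ j, ∑ x ∈ range (2 ^ (n + 1)), pz B.f n (rs p j) (rk p j) x *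
        hz n (rs q j) (rk q j) x := by
    rw [← BIO_sum_prod (fun j x => pz B.f n (rs p j) (rk p j) x * hz n (rs q j) (rk q j) x)]
    refine Finset.sum_congr rfl (fun x _ => ?_)
    rw [Hr, Finset.prod_mul_distrib]
  rw [h1]
  by_cases hpq : p = q
  · subst hpq
    rw [if_pos rfl]
    have h2 : ∀ j, ∑ x ∈ range (2 ^ (n + 1)), pz B.f n (rs p j) (rk p j) x *
        hz n (rs p j) (rk p j) x = 2 ^ (n + 1) / 2 ^ (rs p j) * B.c :=
      fun j => (hPH B n).1 (rs p j) (rk p j) (hps p j) (p.2.2 j)
    have h3 : ∏ j, (2 : ℝ) ^ (rs p j) = 2 ^ n := by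
      rw [Finset.prod_pow_eq_pow_sum, hsum p]
    rw [Finset.prod_congr rfl (fun j _ => h2 j), Finset.prod_mul_distrib, Finset.prod_div_distrib,
      h3]
    simp only [Finset.prod_const, Finset.card_univ, Fintype.card_fin]
    unfold VV
    rw [pow_mul]
    ring
  · rw [if_neg hpq]
    by_cases hsh : ∀ j, rs p j = rs q j
    · have hk : ∃ j, rk p j ≠ rk q j := by
        by_contra hcon
        push Not at hcon
        apply hpq
        apply Subtype.ext
        apply Prod.ext
        · funext j; exact Fin.ext (hsh j)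
        · funext j; exact Fin.ext (hcon j)
      obtain ⟨j, hj⟩ := hk
      apply Finset.prod_eq_zero (mem_univ j)
      apply Finset.sum_eq_zero
      intro x _
      by_cases hx : x / 2 ^ (n + 1 - rs p j) = rk p j
      · have : hz n (rs q j) (rk q j) x = 0 := by
          unfold hz
          rw [if_neg]
          rw [← hsh j, hx]
          exact hj
        rw [this, mul_zero]
      · rw [(hPZ B n (rs p j) (rk p j) x (hps p j)).2 hx, zero_mul]
    · have hlt : ∃ j, rs q j < rs p j := by
        by_contra hcon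
        push Not at hcon
        apply hsh
        have h3 : ∑ j, rs p j = ∑ j, rs q j := by rw [hsum p, hsum q]
        have h4 := (Finset.sum_eq_sum_iff_of_le (fun j _ => hcon j)).mp h3
        exact fun j => h4 j (mem_univ j)
      obtain ⟨j, hj⟩ := hlt
      apply Finset.prod_eq_zero (mem_univ j)
      exact (hPH B n).2 (rs p j) (rs q j) (rk p j) (rk q j) hj (hps p j) (p.2.2 j)

end H506W
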