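import Pool.Agent.H506R3.LW.Defs2

/-!
# Task BLK (project LW of helper506): size of the blocks (helper819)
-/

set_option autoImplicit false

open Finset MeasureTheory
open scoped BigOperators ENNReal

namespace H506W

namespace BLK

theorem T1_finite : IsFiniteMeasure T1 := by
  unfold T1
  have : IsFiniteMeasure ((volume : Measure ℝ).restrict (Set.Ico 0 (2 * Real.pi))) :=
    ⟨by rw [Measure.restrict_apply_univ]; exact measure_Ico_lt_top⟩
  exact Measure.smul_finite _ ENNReal.ofReal_ne_top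

theorem ae_T1 : ∀ᵐ t ∂T1, t ∈ Set.Ico (0 : ℝ) (2 * Real.pi) := by
  unfold T1
  apply Measure.ae_smul_measure
  exact ae_restrict_mem measurableSet_Ico

theorem integrable_T1 {g : ℝ → ℝ} (hg : Continuous g) : Integrable g T1 := by
  unfold T1
  refine Integrable.smul_measure ?_ ENNReal.ofReal_ne_top
  exact (hg.integrableOn_Icc (a := 0) (b := 2 * Real.pi)).mono_set Set.Ico_subset_Icc_self

theorem continuous_dd : Continuous dd := by
  unfold dd
  fun_prop

theorem dd_nonneg {t : ℝ} (ht : t ∈ Set.Ico (0 : ℝ) (2 * Real.pi)) : 0 ≤ dd t := by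
  unfold dd
  exact le_min ht.1 (by linarith [ht.2])

theorem continuous_ddr {r : ℝ} (hr : 0 < r) : Continuous fun t => dd t ^ r :=
  continuous_dd.rpow_const fun _ => Or.inr hr.le

theorem continuous_rho {r : ℝ} (K : Ker r) (s : ℕ) : Continuous (K.rho s) := by
  have h : K.rho s = fun t => (∑ k ∈ Finset.Icc (-(2 : ℤ) ^ s) (2 ^ s),
      K.b s k * Complex.exp (-(Complex.I * ((k * t : ℝ) : ℂ)))).re := by
    funext t
    rw [← K.eq s t, Complex.ofReal_re]
  rw [h]
  fun_prop

theorem continuous_kd {r : ℝ} (K : Ker r) (s : ℕ) : Continuous (kd K s) := by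
  unfold kd
  by_cases hs : s = 0
  · simp only [if_pos hs, sub_zero]
    exact continuous_rho K s
  · simp only [if_neg hs]
    exact (continuous_rho K s).sub (continuous_rho K (s - 1))

/-- the one-dimensional majorant -/
noncomputable def gg {r : ℝ} (K : Ker r) (s : ℕ) (t : ℝ) : ℝ :=
  (if s ≠ 0 then dd t ^ r else 1) * |kd K s t|

theorem continuous_gg {r : ℝ} (hr : 0 < r) (K : Ker r) (s : ℕ) : Continuous (gg K s) := by
  unfold gg
  by_cases hs : s ≠ 0
  · simp only [if_pos hs]
    exact (continuous_ddr hr).mul (continuous_kd K s).abs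
  · simp only [if_neg hs, one_mul]
    exact (continuous_kd K s).abs

theorem int_gg {r : ℝ} (hr : 0 < r) (K : Ker r) (s : ℕ) :
    ∫ t, gg K s t ∂T1 ≤ max 1 (K.C * (1 + 2 ^ r)) * (2 : ℝ) ^ (-(r * (s : ℝ))) := by
  by_cases hs : s = 0
  · subst hs
    have h1 : ∀ t, gg K 0 t = K.rho 0 t := by
      intro t
      unfold gg kd
      rw [if_neg (by simp), if_pos rfl, one_mul, sub_zero, abs_of_nonneg (K.nonneg 0 t)]
    simp only [h1]
    rw [K.int 0]
    simp
  · have hi : ∀ s', Integrable (fun t => K.rho s' t * dd t ^ r) T1 := fun s' =>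
      integrable_T1 ((continuous_rho K s').mul (continuous_ddr hr))
    have h1 : ∫ t, gg K s t ∂T1 ≤
        ∫ t, (K.rho s t * dd t ^ r + K.rho (s - 1) t * dd t ^ r) ∂T1 := by
      apply integral_mono_ae (integrable_T1 (continuous_gg hr K s)) ((hi s).add (hi (s - 1)))
      filter_upwards [ae_T1] with t ht
      have hd : 0 ≤ dd t ^ r := Real.rpow_nonneg (dd_nonneg ht) r
      unfold gg kd
      rw [if_pos hs, if_neg hs]
      change dd t ^ r * |K.rho s t - K.rho (s - 1) t| ≤
        K.rho s t * dd t ^ r + K.rho (s - 1) t * dd t ^ r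
      rw [← add_mul, mul_comm]
      refine mul_le_mul_of_nonneg_right ?_ hd
      have h2 := K.nonneg s t
      have h3 := K.nonneg (s - 1) t
      rw [abs_le]
      constructor <;> linarith
    rw [integral_add (hi s) (hi (s - 1))] at h1
    have h2 := K.mom s
    have h3 := K.mom (s - 1)
    have h4 : (2 : ℝ) ^ (-(r * ((s - 1 : ℕ) : ℝ))) = 2 ^ r * (2 : ℝ) ^ (-(r * (s : ℝ))) := by
      rw [← Real.rpow_add (by norm_num), Nat.cast_sub (by omega)]
      congr 1
      push_cast
      ring
    rw [h4] at h3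
    have h5 : (0 : ℝ) < (2 : ℝ) ^ (-(r * (s : ℝ))) := by positivity
    calc ∫ t, gg K s t ∂T1 ≤ K.C * (2 : ℝ) ^ (-(r * (s : ℝ))) +
          K.C * (2 ^ r * (2 : ℝ) ^ (-(r * (s : ℝ)))) := by linarith
      _ = (K.C * (1 + 2 ^ r)) * (2 : ℝ) ^ (-(r * (s : ℝ))) := by ring
      _ ≤ _ := mul_le_mul_of_nonneg_right (le_max_right _ _) h5.le

end BLK

open BLK in
theorem BLK_proof : S_BLK := by
  intro hW1 hW2 d r K l hr hrl
  have hfin := T1_finite
  have hC0 : (0 : ℝ) < max 1 (K.C * (1 + 2 ^ r)) := lt_of_lt_of_le one_pos (le_max_left _ _)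
  refine ⟨2 ^ (l * d) * (max 1 (K.C * (1 + 2 ^ r))) ^ d, by positivity, ?_⟩
  intro f hf s
  have hW := hW2 d r l hr hrl f hf (univ.filter fun j => s j ≠ 0)
  filter_upwards [hW] with x hx
  rw [hW1 d r K l s f hf.2.1 hf.2.2.1 x]
  have hTP : HypVol.TP d = Measure.pi (fun _ : Fin d => T1) := rfl
  rw [hTP] at hx ⊢
  have hint : Integrable (fun t : Fin d → ℝ => (2 : ℝ) ^ (l * d) * ∏ j, gg K (s j) (t j))
      (Measure.pi (fun _ : Fin d => T1)) := by
    apply Integrable.const_mul
    exact Integrable.fintype_prod (f := fun j => gg K (s j))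
      (fun j => integrable_T1 (continuous_gg hr K (s j)))
  have h1 := norm_integral_le_of_norm_le hint (f := fun t =>
    SSe l (univ.filter fun j => s j ≠ 0) f x t * ((∏ j, kd K (s j) (t j) : ℝ) : ℂ)) (by
      filter_upwards [hx] with t ht
      have e : (2 : ℝ) ^ (l * d) * ∏ j, gg K (s j) (t j) =
          (2 ^ (l * d) * ∏ j ∈ univ.filter (fun j => s j ≠ 0), (dd (t j)) ^ r) *
            ∏ j, |kd K (s j) (t j)| := by
        unfold gg
        rw [Finset.prod_mul_distrib, Finset.prod_filter, mul_assoc]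
      rw [norm_mul, Complex.norm_real, Real.norm_eq_abs, Finset.abs_prod, e]
      exact mul_le_mul_of_nonneg_right ht (Finset.prod_nonneg fun j _ => abs_nonneg _))
  refine h1.trans ?_
  rw [integral_const_mul, integral_fintype_prod_eq_prod (fun j => gg K (s j)), mul_assoc]
  refine mul_le_mul_of_nonneg_left ?_ (by positivity)
  have h2 : ∏ j, ∫ t, gg K (s j) t ∂T1 ≤
      ∏ j, (max 1 (K.C * (1 + 2 ^ r)) * (2 : ℝ) ^ (-(r * (s j : ℝ)))) := by
    refine Finset.prod_le_prod (fun j _ => ?_) (fun j _ => int_gg hr K (s j))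
    apply integral_nonneg_of_ae
    filter_upwards [ae_T1] with t ht
    have hd : 0 ≤ dd t ^ r := Real.rpow_nonneg (dd_nonneg ht) r
    unfold gg
    split_ifs
    · exact mul_nonneg hd (abs_nonneg _)
    · simp
  refine h2.trans ?_
  rw [Finset.prod_mul_distrib, Finset.prod_const, Finset.card_univ, Fintype.card_fin]
  refine mul_le_mul_of_nonneg_left (le_of_eq ?_) (by positivity)
  rw [← Real.rpow_sum_of_pos (by norm_num), Finset.sum_neg_distrib, ← Finset.mul_sum]

end H506W
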