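import Pool.Agent.H506R3.LW.Defs

/-!
# A smooth bump with mean zero
-/

set_option autoImplicit false

open Finset MeasureTheory
open scoped BigOperators ENNReal

namespace H506W

namespace BUMPaux

noncomputable def b : ContDiffBump (0 : ℝ) := ⟨1 / 16, 1 / 8, by norm_num, by norm_num⟩

noncomputable def f (y : ℝ) : ℝ := b (y - 1 / 4) - b (y - 3 / 4)

lemma b_zero {y : ℝ} (h : 1 / 8 ≤ |y|) : b y = 0 := by
  apply b.zero_of_le_dist
  rw [Real.dist_eq, sub_zero]
  exact h

lemma b_smooth (l : ℕ) : ContDiff ℝ l (fun y : ℝ => b y) := b.contDiff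

lemma f_smooth (l : ℕ) : ContDiff ℝ l f := by
  have h1 : ContDiff ℝ l (fun y : ℝ => b (y - 1 / 4)) :=
    (b_smooth l).comp (contDiff_id.sub contDiff_const)
  have h2 : ContDiff ℝ l (fun y : ℝ => b (y - 3 / 4)) :=
    (b_smooth l).comp (contDiff_id.sub contDiff_const)
  exact h1.sub h2

lemma b1 {y : ℝ} (h : y < 1 / 8 ∨ 3 / 8 < y) : b (y - 1 / 4) = 0 := by
  apply b_zero
  rw [le_abs]
  rcases h with h | h
  · right; linarith
  · left; linarith

lemma b3 {y : ℝ} (h : y < 5 / 8 ∨ 7 / 8 < y) : b (y - 3 / 4) = 0 := by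
  apply b_zero
  rw [le_abs]
  rcases h with h | h
  · right; linarith
  · left; linarith

lemma f_supp (y : ℝ) (hy : f y ≠ 0) : 1 / 8 ≤ y ∧ y ≤ 7 / 8 := by
  by_contra hcon
  apply hy
  rw [not_and_or, not_le, not_le] at hcon
  rcases hcon with h | h
  · rw [f, b1 (Or.inl h), b3 (Or.inl (by linarith)), sub_zero]
  · rw [f, b1 (Or.inr (by linarith)), b3 (Or.inr h), sub_zero]

lemma f_bd (y : ℝ) : |f y| ≤ 1 := by
  rw [f]
  rcases le_or_gt y (1 / 2) with h | h
  · rw [b3 (Or.inl (by linarith)), sub_zero, abs_of_nonneg b.nonneg]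
    exact b.le_one
  · rw [b1 (Or.inr (by linarith)), zero_sub, abs_neg, abs_of_nonneg b.nonneg]
    exact b.le_one

lemma cont1 : Continuous (fun y : ℝ => b (y - 1 / 4)) :=
  b.continuous.comp (continuous_id.sub continuous_const)

lemma int_pos : 0 < ∫ y in (0 : ℝ)..(1 / 2), b (y - 1 / 4) := by
  apply intervalIntegral.integral_pos (by norm_num) cont1.continuousOn
  · intro x _
    exact b.nonneg
  · refine ⟨1 / 4, ⟨by norm_num, by norm_num⟩, ?_⟩
    rw [sub_self]
    apply b.pos_of_mem_ball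
    rw [Metric.mem_ball, dist_self]
    exact b.rOut_pos

lemma int_left : ∫ y in (0 : ℝ)..(1 / 2), f y = ∫ y in (0 : ℝ)..(1 / 2), b (y - 1 / 4) := by
  apply intervalIntegral.integral_congr
  intro y hy
  rw [Set.uIcc_of_le (by norm_num), Set.mem_Icc] at hy
  show f y = b (y - 1 / 4)
  rw [f, b3 (Or.inl (by linarith [hy.2])), sub_zero]

lemma int_right : ∫ y in (1 / 2 : ℝ)..1, f y = -∫ y in (0 : ℝ)..(1 / 2), b (y - 1 / 4) := by
  have h1 : ∫ y in (1 / 2 : ℝ)..1, f y = ∫ y in (1 / 2 : ℝ)..1, -(b ((y - 1 / 2) - 1 / 4)) := by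
    apply intervalIntegral.integral_congr
    intro y hy
    rw [Set.uIcc_of_le (by norm_num), Set.mem_Icc] at hy
    show f y = -(b ((y - 1 / 2) - 1 / 4))
    have h2 : y - 1 / 2 - 1 / 4 = y - 3 / 4 := by ring
    rw [f, b1 (Or.inr (by linarith [hy.1])), zero_sub, h2]
  rw [h1, intervalIntegral.integral_neg,
    intervalIntegral.integral_comp_sub_right (fun y => b (y - 1 / 4)) (1 / 2 : ℝ)]
  norm_num

end BUMPaux

open BUMPaux in
theorem BUMP_proof : S_BUMP :=
  ⟨{ f := f
     smooth := f_smooth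
     supp := f_supp
     bd := f_bd
     c := 2 * ∫ y in (0 : ℝ)..(1 / 2), b (y - 1 / 4)
     c_pos := mul_pos two_pos int_pos
     left := by rw [int_left]; ring
     right := by rw [int_right]; ring }⟩

end H506W
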