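import Pool.Agent.H506R3.LW.Defs

set_option autoImplicit false

open Finset

namespace H506W

theorem CARD_fin (N m : ℕ) (h : m ≤ N) : Fintype.card {k : Fin N // (k : ℕ) < m} = m := by
  have e : {k : Fin N // (k : ℕ) < m} ≃ Fin m :=
    { toFun := fun k => ⟨(k.1 : ℕ), k.2⟩
      invFun := fun i => ⟨⟨(i : ℕ), i.2.trans_le h⟩, i.2⟩
      left_inv := fun _ => rfl
      right_inv := fun _ => rfl }
  rw [Fintype.card_congr e, Fintype.card_fin]

theorem CARD_shape (d n : ℕ) (s : Fin d → Fin (n + 1)) (hs : s ∈ HypVol.Sh d n) :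
    Fintype.card {k : Fin d → Fin (2 ^ n) // ∀ j, ((k j : Fin (2 ^ n)) : ℕ) <
      2 ^ ((s j : Fin (n + 1)) : ℕ)} = 2 ^ n := by
  rw [Fintype.card_congr (Equiv.subtypePiEquivPi (p := fun j (k : Fin (2 ^ n)) =>
    (k : ℕ) < 2 ^ ((s j : Fin (n + 1)) : ℕ))), Fintype.card_pi]
  rw [Finset.prod_congr rfl (fun j _ => CARD_fin (2 ^ n) (2 ^ ((s j : Fin (n + 1)) : ℕ))
    (Nat.pow_le_pow_right (by norm_num) (Nat.lt_succ_iff.1 (s j).2)))]
  rw [Finset.prod_pow_eq_pow_sum]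
  congr 1
  unfold HypVol.Sh at hs
  exact (Finset.mem_filter.1 hs).2

theorem CARD_proof : S_CARD := by
  intro d n
  have e : Rc d n ≃ Σ s : {s // s ∈ HypVol.Sh d n}, {k : Fin d → Fin (2 ^ n) //
      ∀ j, ((k j : Fin (2 ^ n)) : ℕ) < 2 ^ ((s.1 j : Fin (n + 1)) : ℕ)} :=
    { toFun := fun p => ⟨⟨p.1.1, p.2.1⟩, ⟨p.1.2, p.2.2⟩⟩
      invFun := fun q => ⟨(q.1.1, q.2.1), q.1.2, q.2.2⟩
      left_inv := fun _ => rfl
      right_inv := fun _ => rfl }
  rw [Fintype.card_congr e, Fintype.card_sigma,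
    Finset.sum_congr rfl (fun s _ => CARD_shape d n s.1 s.2), Finset.sum_const, smul_eq_mul,
    Finset.card_univ, Fintype.card_coe]
  rfl

end H506W
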