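import Pool.Agent.H506R3.LW.Defs

/-! Task CORE (helper202): the core theorem. -/

set_option autoImplicit false

open Finset MeasureTheory
open scoped BigOperators ENNReal

namespace H506W

theorem CORE_bound {X : Type} [Fintype X] [DecidableEq X] (Ri Rj b : Finset X) (f g : X → ℂ)
    (k : X → ℝ) (hf1 : ∀ x, ‖f x‖ ≤ 1) (hf0 : ∀ x, x ∉ Ri → f x = 0) (hk1 : ∀ x, |k x| ≤ 1)
    (hk0 : ∀ x, x ∉ Rj → k x = 0) :
    ‖∑ x, f x * (k x : ℂ) - ∑ x, g x * ((if x ∈ b then 0 else k x : ℝ) : ℂ)‖ ≤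
      ((Ri ∩ b).card : ℝ) + ∑ x ∈ Rj \ b, ‖f x - g x‖ := by
  have h1 : ∀ x, ‖f x * (k x : ℂ) - g x * ((if x ∈ b then 0 else k x : ℝ) : ℂ)‖ ≤
      (if x ∈ Ri ∩ b then (1 : ℝ) else 0) + (if x ∈ Rj \ b then ‖f x - g x‖ else 0) := by
    intro x
    have hk : ‖(k x : ℂ)‖ ≤ 1 := by rw [Complex.norm_real]; exact hk1 x
    by_cases hb : x ∈ b
    · have e2 : x ∉ Rj \ b := by simp [hb]
      rw [if_pos hb, if_neg e2, Complex.ofReal_zero, mul_zero, sub_zero, add_zero]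
      by_cases hR : x ∈ Ri
      · rw [if_pos (Finset.mem_inter.2 ⟨hR, hb⟩), norm_mul]
        exact mul_le_one₀ (hf1 x) (norm_nonneg _) hk
      · rw [hf0 x hR, zero_mul, norm_zero]
        split_ifs <;> norm_num
    · have e1 : x ∉ Ri ∩ b := by simp [hb]
      rw [if_neg hb, if_neg e1, zero_add, ← sub_mul, norm_mul]
      by_cases hR : x ∈ Rj
      · rw [if_pos (Finset.mem_sdiff.2 ⟨hR, hb⟩)]
        exact mul_le_of_le_one_right (norm_nonneg _) hk
      · have e2 : x ∉ Rj \ b := by simp [hR]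
        rw [if_neg e2, hk0 x hR]
        simp
  rw [← Finset.sum_sub_distrib]
  refine (norm_sum_le _ _).trans ((Finset.sum_le_sum fun x _ => h1 x).trans ?_)
  rw [Finset.sum_add_distrib]
  have e1 : ∑ x, (if x ∈ Ri ∩ b then (1 : ℝ) else 0) = ((Ri ∩ b).card : ℝ) := by
    rw [Finset.sum_ite_mem, Finset.univ_inter, Finset.sum_const, nsmul_eq_mul, mul_one]
  have e2 : ∑ x, (if x ∈ Rj \ b then ‖f x - g x‖ else 0) = ∑ x ∈ Rj \ b, ‖f x - g x‖ := by
    rw [Finset.sum_ite_mem, Finset.univ_inter]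
  rw [e1, e2]

theorem CORE_pow {t V : ℝ} (ht : 0 < t) (ht1 : t ≤ 1) (hV : 0 < V) :
    (t ^ 2 * V) ^ (7 / 8 : ℝ) * V ^ (1 / 8 : ℝ) ≤ t * V ∧
    (t ^ 2 * V) ^ (15 / 8 : ℝ) * V ^ (1 / 8 : ℝ) ≤ t * V ^ 2 := by
  have h2 : (0 : ℝ) ≤ t ^ 2 := by positivity
  have ht2 : t ^ 2 = t ^ (2 : ℝ) := by rw [Real.rpow_two]
  constructor
  · rw [Real.mul_rpow h2 hV.le, mul_assoc, ← Real.rpow_add hV, ht2, ← Real.rpow_mul ht.le]
    have e1 : (7 / 8 : ℝ) + 1 / 8 = 1 := by norm_num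
    rw [e1, Real.rpow_one]
    apply mul_le_mul_of_nonneg_right _ hV.le
    calc t ^ ((2 : ℝ) * (7 / 8)) ≤ t ^ (1 : ℝ) :=
          Real.rpow_le_rpow_of_exponent_ge ht ht1 (by norm_num)
      _ = t := Real.rpow_one t
  · rw [Real.mul_rpow h2 hV.le, mul_assoc, ← Real.rpow_add hV, ht2, ← Real.rpow_mul ht.le]
    have e1 : (15 / 8 : ℝ) + 1 / 8 = 2 := by norm_num
    rw [e1, Real.rpow_two]
    apply mul_le_mul_of_nonneg_right _ (by positivity)
    calc t ^ ((2 : ℝ) * (15 / 8)) ≤ t ^ (1 : ℝ) :=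
          Real.rpow_le_rpow_of_exponent_ge ht ht1 (by norm_num)
      _ = t := Real.rpow_one t

/-- rank-nullity -/
theorem CORE_dim {X ι : Type} [Fintype X] [Fintype ι] [DecidableEq ι] (I0 : Finset ι) (a : ι → X → ℂ)
    (P : Submodule ℂ (I0 → ℂ)) (hP : ∀ w : I0 → ℂ, (∀ x, ∑ i : I0, w i * a i x = 0) → w ∈ P) :
    (I0.card : ℝ) ≤ Module.finrank ℂ P + Module.finrank ℂ (Submodule.span ℂ (Set.range a)) := by
  let Φ : (I0 → ℂ) →ₗ[ℂ] (X → ℂ) :=
    { toFun := fun w x => ∑ i : I0, w i * a i x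
      map_add' := by
        intro v w; funext x
        simp only [Pi.add_apply, add_mul, Finset.sum_add_distrib]
      map_smul' := by
        intro c w; funext x
        simp only [Pi.smul_apply, smul_eq_mul, RingHom.id_apply, Finset.mul_sum, mul_assoc] }
  have h1 := LinearMap.finrank_range_add_finrank_ker Φ
  have h2 : Module.finrank ℂ (I0 → ℂ) = I0.card := by
    rw [Module.finrank_fintype_fun_eq_card, Fintype.card_coe]
  have h3 : Module.finrank ℂ (LinearMap.ker Φ) ≤ Module.finrank ℂ P := by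
    apply Submodule.finrank_mono
    intro w hw
    apply hP
    intro x
    exact congrFun (LinearMap.mem_ker.1 hw) x
  have h4 : Module.finrank ℂ (LinearMap.range Φ) ≤
      Module.finrank ℂ (Submodule.span ℂ (Set.range a)) := by
    apply Submodule.finrank_mono
    rintro y ⟨w, rfl⟩
    have e : Φ w = ∑ i : I0, w i • a i := by
      funext x
      simp [Φ, Finset.sum_apply]
    rw [e]
    exact Submodule.sum_mem _ fun i _ => Submodule.smul_mem _ _ (Submodule.subset_span ⟨i, rfl⟩)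
  have h5 : I0.card ≤ Module.finrank ℂ P + Module.finrank ℂ (Submodule.span ℂ (Set.range a)) := by
    omega
  exact_mod_cast h5

theorem CORE_proof : T_CORE := by
  intro hB hBAD hGOOD hHAAR hRANK C1 c0 hC1 hc0
  obtain ⟨K, hK⟩ : ∃ K : ℝ, K = 1 + (64 * C1 ^ 2 + 512 * C1) / c0 ^ 2 := ⟨_, rfl⟩
  have hK1 : 1 ≤ K := by
    rw [hK]
    have : 0 ≤ (64 * C1 ^ 2 + 512 * C1) / c0 ^ 2 := by positivity
    linarith
  obtain ⟨t, ht⟩ : ∃ t : ℝ, t = 1 / (2 * K) := ⟨_, rfl⟩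
  have ht0 : 0 < t := by rw [ht]; positivity
  have htK : t * K = 1 / 2 := by rw [ht]; field_simp
  have ht1 : t ≤ 1 := by nlinarith
  refine ⟨(t ^ 2) ^ 2, by positivity, ?_⟩
  intro X ι σ _ _ _ _ _ S hS φ a h hφ1 hφ0 hh1 hh0 hbi htot
  classical
  have hV := S.V_pos
  obtain ⟨V, hVd⟩ : ∃ V : ℝ, V = S.V := ⟨_, rfl⟩
  rw [← hVd] at hV hbi htot
  obtain ⟨u, hu⟩ : ∃ u : ι → X → ℝ, u = fun i x => ‖φ i x - a i x‖ := ⟨_, rfl⟩
  have hu0 : ∀ i x, 0 ≤ u i x := fun i x => by rw [hu]; exact norm_nonneg _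
  obtain ⟨M, hM⟩ : ∃ M : ℝ, M = t ^ 2 * V := ⟨_, rfl⟩
  have hM0 : 0 < M := by rw [hM]; positivity
  obtain ⟨I0, hI0⟩ : ∃ I0 : Finset ι, I0 = univ.filter (fun i => ∑ x, u i x ≤ M) := ⟨_, rfl⟩
  have hmem : ∀ i ∈ I0, ∑ x, u i x ≤ M := by
    intro i hi; rw [hI0, Finset.mem_filter] at hi; exact hi.2
  obtain ⟨D, hD⟩ : ∃ D : ℝ, D = Fintype.card ι := ⟨_, rfl⟩
  rw [← hD] at htot ⊢
  have hD0 : 0 ≤ D := by rw [hD]; positivity
  -- most indices are in I0
  have hcard : D - t ^ 2 * D ≤ I0.card := by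
    have h1 : ∑ i ∈ univ.filter (fun i => ¬ (∑ x, u i x ≤ M)), M ≤ (t ^ 2) ^ 2 * (D * V) := by
      calc ∑ i ∈ univ.filter (fun i => ¬ (∑ x, u i x ≤ M)), M
          ≤ ∑ i ∈ univ.filter (fun i => ¬ (∑ x, u i x ≤ M)), ∑ x, u i x := by
            apply Finset.sum_le_sum
            intro i hi
            exact (not_le.1 (Finset.mem_filter.1 hi).2).le
        _ ≤ ∑ i, ∑ x, u i x := by
            apply Finset.sum_le_sum_of_subset_of_nonneg (Finset.filter_subset _ _)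
            intro i _ _
            exact Finset.sum_nonneg fun x _ => hu0 i x
        _ = ∑ x, ∑ i, ‖φ i x - a i x‖ := by rw [Finset.sum_comm, hu]
        _ ≤ _ := htot
    rw [Finset.sum_const, nsmul_eq_mul] at h1
    have h2 : (I0.card : ℝ) + ((univ.filter (fun i => ¬ (∑ x, u i x ≤ M))).card : ℝ) = D := by
      rw [hD, hI0, ← Nat.cast_add, Finset.card_filter_add_card_filter_not, Finset.card_univ]
    have h3 : ((univ.filter (fun i => ¬ (∑ x, u i x ≤ M))).card : ℝ) ≤ t ^ 2 * D := by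
      have h4 : ((univ.filter (fun i => ¬ (∑ x, u i x ≤ M))).card : ℝ) * M ≤ (t ^ 2 * D) * M := by
        refine h1.trans (le_of_eq ?_)
        rw [hM]; ring
      exact le_of_mul_le_mul_right h4 hM0
    linarith
  -- L
  obtain ⟨L, hL⟩ : ∃ L : ℕ, ∀ i x, u i x < 2 ^ L := by
    obtain ⟨L, hL⟩ := pow_unbounded_of_one_lt (∑ i, ∑ x, u i x) (by norm_num : (1 : ℝ) < 2)
    refine ⟨L, fun i x => lt_of_le_of_lt ?_ hL⟩
    calc u i x ≤ ∑ x, u i x := Finset.single_le_sum (f := fun x => u i x) (fun x _ => hu0 i x) (Finset.mem_univ x)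
      _ ≤ ∑ i, ∑ x, u i x := Finset.single_le_sum (f := fun i => ∑ x, u i x)
          (fun i _ => Finset.sum_nonneg fun x _ => hu0 i x) (Finset.mem_univ i)
  obtain ⟨b, hb⟩ : ∃ b : ι → Finset X, b = bad S I0 u M L := ⟨_, rfl⟩
  have hbR : ∀ j, b j ⊆ S.R j := by
    intro j; rw [hb]; exact Finset.filter_subset _ _
  have hbV : ∀ j, ((b j).card : ℝ) ≤ V := by
    intro j
    rw [hVd]
    exact le_trans (by exact_mod_cast Finset.card_le_card (hbR j)) (S.card_le j)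
  obtain ⟨p1, p2⟩ := CORE_pow ht0 ht1 hV
  rw [← hM] at p1 p2
  have hI0D : (I0.card : ℝ) ≤ D := by rw [hD]; exact_mod_cast Finset.card_le_univ I0
  have hbad : ∑ j, ((b j).card : ℝ) ≤ 16 * C1 * D * (t * V) := by
    have h1 := hBAD hB X ι σ S I0 u M L hM0 hu0 hmem
    rw [hS, ← hVd, ← hb] at h1
    refine h1.trans ?_
    have h2 : 0 ≤ M ^ (7 / 8 : ℝ) * V ^ (1 / 8 : ℝ) := by positivity
    calc 16 * C1 * I0.card * (M ^ (7 / 8 : ℝ) * V ^ (1 / 8 : ℝ))
        ≤ 16 * C1 * D * (M ^ (7 / 8 : ℝ) * V ^ (1 / 8 : ℝ)) := by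
          apply mul_le_mul_of_nonneg_right _ h2
          exact mul_le_mul_of_nonneg_left hI0D (by positivity)
      _ ≤ 16 * C1 * D * (t * V) := mul_le_mul_of_nonneg_left p1 (by positivity)
  have hgood : ∀ i ∈ I0, ∑ j, (∑ x ∈ S.R j \ b j, u i x) ^ 2 ≤ 256 * C1 * (t * V ^ 2) := by
    intro i hi
    have h1 := hGOOD hB X ι σ S I0 u M L hM0 hu0 hmem i hi (hL i)
    rw [hS, ← hVd, ← hb] at h1
    exact h1.trans (mul_le_mul_of_nonneg_left p2 (by positivity))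
  have hhaar : ∀ j, ∑ i, ((S.R i ∩ b j).card : ℝ) ^ 2 ≤ 2 * C1 * (V * (b j).card) := by
    intro j
    have h1 := hHAAR hB X ι σ S (b j) (by rw [← hVd]; exact hbV j)
    rw [hS, ← hVd] at h1
    exact h1
  -- the error matrix
  obtain ⟨E, hE⟩ : ∃ E : I0 → I0 → ℂ, E = fun (i j : I0) => ∑ x, φ i x * (h j x : ℂ) -
      ∑ x, a i x * ((if x ∈ b j then 0 else h j x : ℝ) : ℂ) := ⟨_, rfl⟩
  have hEb : ∀ i j : I0, ‖E i j‖ ^ 2 ≤ 2 * ((S.R i ∩ b j).card : ℝ) ^ 2 +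
      2 * (∑ x ∈ S.R j \ b j, u i x) ^ 2 := by
    intro i j
    have h1 : ‖E i j‖ ≤ ((S.R i ∩ b j).card : ℝ) + ∑ x ∈ S.R j \ b j, u i x := by
      rw [hE, hu]
      exact CORE_bound (S.R i) (S.R j) (b j) (φ i) (a i) (h j) (hφ1 i) (hφ0 i) (hh1 j) (hh0 j)
    have h2 : ‖E i j‖ ^ 2 ≤ (((S.R i ∩ b j).card : ℝ) + ∑ x ∈ S.R j \ b j, u i x) ^ 2 :=
      pow_le_pow_left₀ (norm_nonneg _) h1 2
    nlinarith [sq_nonneg (((S.R i ∩ b j).card : ℝ) - ∑ x ∈ S.R j \ b j, u i x)]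
  have hEs : ∑ i, ∑ j, ‖E i j‖ ^ 2 ≤ D * V ^ 2 * ((64 * C1 ^ 2 + 512 * C1) * t) := by
    have s1 : ∑ i : I0, ∑ j : I0, ‖E i j‖ ^ 2 ≤
        2 * ∑ j : ι, ∑ i : ι, ((S.R i ∩ b j).card : ℝ) ^ 2 +
        2 * ∑ i : I0, ∑ j : ι, (∑ x ∈ S.R j \ b j, u i x) ^ 2 := by
      calc ∑ i : I0, ∑ j : I0, ‖E i j‖ ^ 2
          ≤ ∑ i : I0, ∑ j : I0, (2 * ((S.R i ∩ b j).card : ℝ) ^ 2 +
            2 * (∑ x ∈ S.R j \ b j, u i x) ^ 2) :=
            Finset.sum_le_sum fun i _ => Finset.sum_le_sum fun j _ => hEb i j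
        _ ≤ ∑ i : I0, ∑ j : ι, (2 * ((S.R i ∩ b j).card : ℝ) ^ 2 +
            2 * (∑ x ∈ S.R j \ b j, u i x) ^ 2) := by
            refine Finset.sum_le_sum fun i _ => ?_
            rw [Finset.sum_coe_sort I0 (fun j => 2 * ((S.R i ∩ b j).card : ℝ) ^ 2 +
              2 * (∑ x ∈ S.R j \ b j, u i x) ^ 2)]
            apply Finset.sum_le_sum_of_subset_of_nonneg (Finset.subset_univ _)
            intro j _ _; positivity
        _ = 2 * ∑ i : I0, ∑ j : ι, ((S.R i ∩ b j).card : ℝ) ^ 2 +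
            2 * ∑ i : I0, ∑ j : ι, (∑ x ∈ S.R j \ b j, u i x) ^ 2 := by
            simp only [Finset.sum_add_distrib, Finset.mul_sum]
        _ ≤ _ := by
            refine add_le_add (mul_le_mul_of_nonneg_left ?_ (by norm_num)) le_rfl
            rw [Finset.sum_coe_sort I0 (fun i => ∑ j : ι, ((S.R i ∩ b j).card : ℝ) ^ 2),
              Finset.sum_comm (s := (univ : Finset ι)) (t := (univ : Finset ι))]
            apply Finset.sum_le_sum_of_subset_of_nonneg (Finset.subset_univ _)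
            intro i _ _; positivity
    have s2 : ∑ j : ι, ∑ i : ι, ((S.R i ∩ b j).card : ℝ) ^ 2 ≤ 2 * C1 * (V * (16 * C1 * D * (t * V))) := by
      calc ∑ j : ι, ∑ i : ι, ((S.R i ∩ b j).card : ℝ) ^ 2 ≤ ∑ j, 2 * C1 * (V * (b j).card) :=
            Finset.sum_le_sum fun j _ => hhaar j
        _ = 2 * C1 * (V * ∑ j, ((b j).card : ℝ)) := by rw [← Finset.mul_sum, ← Finset.mul_sum]
        _ ≤ _ := by
            apply mul_le_mul_of_nonneg_left _ (by positivity)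
            exact mul_le_mul_of_nonneg_left hbad hV.le
    have s3 : ∑ i : I0, ∑ j : ι, (∑ x ∈ S.R j \ b j, u i x) ^ 2 ≤ D * (256 * C1 * (t * V ^ 2)) := by
      calc ∑ i : I0, ∑ j : ι, (∑ x ∈ S.R j \ b j, u i x) ^ 2
          ≤ ∑ i : I0, 256 * C1 * (t * V ^ 2) := Finset.sum_le_sum fun i _ => hgood i i.2
        _ = I0.card * (256 * C1 * (t * V ^ 2)) := by
            rw [Finset.sum_const, Finset.card_univ, Fintype.card_coe, nsmul_eq_mul]
        _ ≤ _ := mul_le_mul_of_nonneg_right hI0D (by positivity)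
    calc _ ≤ _ := s1
      _ ≤ 2 * (2 * C1 * (V * (16 * C1 * D * (t * V)))) + 2 * (D * (256 * C1 * (t * V ^ 2))) := by
          linarith
      _ = D * V ^ 2 * ((64 * C1 ^ 2 + 512 * C1) * t) := by ring
  -- the kernel
  let P : Submodule ℂ (I0 → ℂ) :=
    { carrier := {w | ∀ x, ∑ i : I0, w i * a i x = 0}
      add_mem' := by
        intro v w hv hw x
        simp only [Pi.add_apply, add_mul, Finset.sum_add_distrib]
        rw [hv x, hw x, add_zero]
      zero_mem' := by intro x; simp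
      smul_mem' := by
        intro c w hw x
        simp only [Pi.smul_apply, smul_eq_mul, mul_assoc]
        rw [← Finset.mul_sum, hw x, mul_zero] }
  have hdim := CORE_dim I0 a P (fun w hw => hw)
  have hrank := hRANK I0 E (c0 * V) P (by
    intro w hw j
    have h0 : ∑ i : I0, w i * ∑ x, a i x * ((if x ∈ b j then 0 else h j x : ℝ) : ℂ) = 0 := by
      simp only [Finset.mul_sum]
      rw [Finset.sum_comm]
      apply Finset.sum_eq_zero
      intro x _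
      have h1 : ∑ i : I0, w i * (a i x * ((if x ∈ b j then 0 else h j x : ℝ) : ℂ)) =
          (∑ i : I0, w i * a i x) * ((if x ∈ b j then 0 else h j x : ℝ) : ℂ) := by
        rw [Finset.sum_mul]
        exact Finset.sum_congr rfl fun i _ => by ring
      rw [h1, hw x, zero_mul]
    have h2 : ∀ i : I0, w i * E i j = (if i = j then w i * ((c0 * V : ℝ) : ℂ) else 0) -
        w i * ∑ x, a i x * ((if x ∈ b j then 0 else h j x : ℝ) : ℂ) := by
      intro i
      rw [hE]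
      beta_reduce
      rw [hbi, mul_sub]
      congr 1
      by_cases hij : i = j
      · rw [if_pos hij, if_pos (congrArg _ hij)]
      · rw [if_neg hij, if_neg (fun h => hij (Subtype.ext h)), mul_zero]
    rw [Finset.sum_congr rfl fun i _ => h2 i, Finset.sum_sub_distrib, h0, sub_zero,
      Finset.sum_ite_eq' Finset.univ j, if_pos (Finset.mem_univ _), mul_comm])
  -- conclusion
  obtain ⟨r, hr⟩ : ∃ r : ℝ, r = Module.finrank ℂ P := ⟨_, rfl⟩
  rw [← hr] at hdim hrank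
  have hfin : c0 ^ 2 * r ≤ D * ((64 * C1 ^ 2 + 512 * C1) * t) := by
    have h1 : V ^ 2 * (c0 ^ 2 * r) ≤ V ^ 2 * (D * ((64 * C1 ^ 2 + 512 * C1) * t)) := by
      have h2 := hrank.trans hEs
      calc V ^ 2 * (c0 ^ 2 * r) = (c0 * V) ^ 2 * r := by ring
        _ ≤ _ := h2
        _ = _ := by ring
    exact le_of_mul_le_mul_left h1 (by positivity)
  have hr2 : r ≤ D * (t * (K - 1)) := by
    have h1 : D * (t * (K - 1)) = D * ((64 * C1 ^ 2 + 512 * C1) * t) / c0 ^ 2 := by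
      rw [hK]; field_simp; ring
    rw [h1, le_div_iff₀ (by positivity)]
    linarith
  have h9 : t ^ 2 ≤ t := by nlinarith
  have h10 : D * (t * (K - 1)) = D * (1 / 2) - D * t := by
    have : t * (K - 1) = 1 / 2 - t := by linarith
    rw [this]; ring
  have h11 : t ^ 2 * D ≤ t * D := mul_le_mul_of_nonneg_right h9 hD0
  linarith

end H506W
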