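import Pool.Agent.H506R3.LW.Defs

/-!
# Differences of the one-dimensional periodic building blocks
-/

set_option autoImplicit false

open Finset MeasureTheory Topology Filter
open scoped BigOperators ENNReal

namespace H506W

/-- near every point the periodic block is an affine copy of `f` -/
theorem D1_local (B : Bump) (s k : ℕ) (hk : k < 2 ^ s) (y : ℝ) :
    psi B.f s k =ᶠ[𝓝 y] (fun z => B.f ((2 ^ s / (2 * Real.pi)) * z -
      (2 ^ s * (⌊y / (2 * Real.pi)⌋ : ℝ) + k))) := by
  have hpi : 0 < 2 * Real.pi := by positivity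
  set j : ℤ := ⌊y / (2 * Real.pi)⌋ with hj
  have hzero : ∀ u : ℝ, u < 1 / 8 ∨ 7 / 8 < u → B.f u = 0 := by
    intro u hu
    by_contra hne
    have := B.supp u hne
    rcases hu with h | h <;> linarith
  have hcont : Continuous (fun z : ℝ => z / (2 * Real.pi)) := continuous_id.div_const _
  have h2s : (0 : ℝ) < 2 ^ s := by positivity
  have hrew : ∀ z : ℝ, (2 ^ s / (2 * Real.pi)) * z - (2 ^ s * (j : ℝ) + k) =
      2 ^ s * (z / (2 * Real.pi) - j) - k := by
    intro z; ring
  rcases eq_or_lt_of_le (Int.floor_le (y / (2 * Real.pi))) with h | h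
  · -- integer point
    rw [← hj] at h
    have h1 : ∀ᶠ z in 𝓝 y, |z / (2 * Real.pi) - j| < 1 / (8 * 2 ^ s) := by
      have hc : ContinuousAt (fun z : ℝ => |z / (2 * Real.pi) - j|) y :=
        ((hcont.sub continuous_const).abs).continuousAt
      have h0 : |y / (2 * Real.pi) - j| < 1 / (8 * 2 ^ s) := by
        rw [← h, sub_self, abs_zero]; positivity
      exact hc.eventually_lt continuousAt_const h0
    filter_upwards [h1] with z hz
    rw [hrew]
    have h3 : |2 ^ s * (z / (2 * Real.pi) - j)| < 1 / 8 := by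
      rw [abs_mul, abs_of_pos h2s]
      calc (2 : ℝ) ^ s * |z / (2 * Real.pi) - j| < 2 ^ s * (1 / (8 * 2 ^ s)) := by gcongr
        _ = 1 / 8 := by field_simp
    have h4 := abs_lt.mp h3
    have h5 := abs_lt.mp hz
    have hk0 : (0 : ℝ) ≤ k := Nat.cast_nonneg k
    rw [hzero _ (Or.inl (by linarith : 2 ^ s * (z / (2 * Real.pi) - j) - (k : ℝ) < 1 / 8))]
    unfold psi
    have hk1 : (k : ℝ) + 1 ≤ 2 ^ s := by exact_mod_cast hk
    have hs1 : 1 / (8 * (2 : ℝ) ^ s) ≤ 1 / 8 := by
      apply one_div_le_one_div_of_le (by norm_num)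
      have : (1 : ℝ) ≤ 2 ^ s := one_le_pow₀ (by norm_num)
      linarith
    rcases le_or_gt (j : ℝ) (z / (2 * Real.pi)) with hz0 | hz0
    · have hfl : ⌊z / (2 * Real.pi)⌋ = j := by
        rw [Int.floor_eq_iff]; constructor <;> linarith
      have : Int.fract (z / (2 * Real.pi)) = z / (2 * Real.pi) - j := by
        rw [Int.fract, hfl]
      rw [this]
      exact hzero _ (Or.inl (by linarith))
    · have hfl : ⌊z / (2 * Real.pi)⌋ = j - 1 := by
        rw [Int.floor_eq_iff]; push_cast; constructor <;> linarith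
      have : Int.fract (z / (2 * Real.pi)) = z / (2 * Real.pi) - j + 1 := by
        rw [Int.fract, hfl]; push_cast; ring
      rw [this]
      refine hzero _ (Or.inr ?_)
      have : (2 : ℝ) ^ s * (z / (2 * Real.pi) - j + 1) =
        2 ^ s * (z / (2 * Real.pi) - j) + 2 ^ s := by ring
      rw [this]
      linarith
  · have h1 : ∀ᶠ z in 𝓝 y, (j : ℝ) < z / (2 * Real.pi) :=
      continuousAt_const.eventually_lt hcont.continuousAt h
    have h2 : ∀ᶠ z in 𝓝 y, z / (2 * Real.pi) < (j : ℝ) + 1 :=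
      hcont.continuousAt.eventually_lt continuousAt_const (Int.lt_floor_add_one _)
    filter_upwards [h1, h2] with z hz1 hz2
    have hfl : ⌊z / (2 * Real.pi)⌋ = j := by
      rw [Int.floor_eq_iff]; constructor <;> linarith
    unfold psi
    have : Int.fract (z / (2 * Real.pi)) = z / (2 * Real.pi) - j := by
      rw [Int.fract, hfl]
    rw [this, hrew]

theorem D1_contDiff_aff (B : Bump) (l : ℕ) (a b : ℝ) :
    ContDiff ℝ l (fun z => B.f (a * z - b)) :=
  (B.smooth l).comp ((contDiff_const.mul contDiff_id).sub contDiff_const)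

theorem D1_iter_aff (B : Bump) (l : ℕ) (a b y : ℝ) :
    iteratedDeriv l (fun z => B.f (a * z - b)) y = a ^ l * iteratedDeriv l B.f (a * y - b) := by
  have h1 : ContDiff ℝ l (fun z => B.f (z - b)) :=
    (B.smooth l).comp (contDiff_id.sub contDiff_const)
  have h2 := congrFun (iteratedDeriv_comp_const_mul h1 a) y
  rw [h2]
  congr 1
  have h3 := iteratedDeriv_comp_add_const l B.f (-b)
  simp only [← sub_eq_add_neg] at h3
  rw [h3]

theorem D1_contDiff (B : Bump) (l s k : ℕ) (hk : k < 2 ^ s) : ContDiff ℝ l (psi B.f s k) := by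
  rw [contDiff_iff_contDiffAt]
  intro y
  exact ((D1_contDiff_aff B l _ _).contDiffAt).congr_of_eventuallyEq (D1_local B s k hk y)

theorem D1_bound (B : Bump) (l : ℕ) : ∃ C : ℝ, 0 ≤ C ∧ ∀ (s k : ℕ), k < 2 ^ s → ∀ y,
    |iteratedDeriv l (psi B.f s k) y| ≤ (2 ^ s) ^ l * C := by
  have hcs : HasCompactSupport B.f := by
    apply HasCompactSupport.intro (K := Set.Icc (1 / 8 : ℝ) (7 / 8)) isCompact_Icc
    intro x hx
    by_contra hne
    exact hx (B.supp x hne)
  have hcs2 : HasCompactSupport (iteratedDeriv l B.f) := by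
    induction l with
    | zero => simpa using hcs
    | succ l ih => rw [iteratedDeriv_succ]; exact ih.deriv
  have hc : Continuous (iteratedDeriv l B.f) := (B.smooth l).continuous_iteratedDeriv l le_rfl
  obtain ⟨C, hC⟩ := hcs2.exists_bound_of_continuous hc
  refine ⟨C, (norm_nonneg _).trans (hC 0), ?_⟩
  intro s k hk y
  rw [(D1_local B s k hk y).iteratedDeriv_eq l, D1_iter_aff, abs_mul]
  have h1 := hC ((2 ^ s / (2 * Real.pi)) * y - (2 ^ s * (⌊y / (2 * Real.pi)⌋ : ℝ) + k))
  rw [Real.norm_eq_abs] at h1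
  have h2 : |((2 : ℝ) ^ s / (2 * Real.pi)) ^ l| ≤ (2 ^ s) ^ l := by
    rw [abs_of_nonneg (by positivity)]
    apply pow_le_pow_left₀ (by positivity)
    apply div_le_self (by positivity)
    have := Real.pi_gt_three
    linarith
  exact mul_le_mul h2 h1 (abs_nonneg _) (by positivity)

theorem D1_proof : S_D1 := by
  intro hDIFF B l
  obtain ⟨C₁, hC₁, hbd⟩ := D1_bound B l
  refine ⟨(l + 1) * max (2 ^ l) C₁, ?_, ?_⟩
  · have h1 : (1 : ℝ) ≤ 2 ^ l := one_le_pow₀ (by norm_num)
    have h2 : (1 : ℝ) ≤ max (2 ^ l) C₁ := h1.trans (le_max_left _ _)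
    have h3 : (0 : ℝ) ≤ l := Nat.cast_nonneg l
    nlinarith
  intro s x t
  -- each term
  have hterm : ∀ k ∈ range (2 ^ s), |∑ ν ∈ range (l + 1), (-1 : ℝ) ^ (l - ν) *
      (l.choose ν : ℝ) * psi B.f s k (x + ν * t)| ≤
      max (2 ^ l) C₁ * min 1 ((2 ^ s * |t|) ^ l) := by
    intro k hk
    have hk' := mem_range.mp hk
    have e1 : |∑ ν ∈ range (l + 1), (-1 : ℝ) ^ (l - ν) *
      (l.choose ν : ℝ) * psi B.f s k (x + ν * t)| ≤ 2 ^ l := by
      calc |∑ ν ∈ range (l + 1), (-1 : ℝ) ^ (l - ν) *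
          (l.choose ν : ℝ) * psi B.f s k (x + ν * t)|
          ≤ ∑ ν ∈ range (l + 1), |(-1 : ℝ) ^ (l - ν) *
          (l.choose ν : ℝ) * psi B.f s k (x + ν * t)| := abs_sum_le_sum_abs _ _
        _ ≤ ∑ ν ∈ range (l + 1), (l.choose ν : ℝ) := by
          apply sum_le_sum
          intro ν _
          rw [abs_mul, abs_mul, abs_pow, abs_neg, abs_one, one_pow, one_mul, Nat.abs_cast]
          have := B.bd (2 ^ s * Int.fract ((x + ν * t) / (2 * Real.pi)) - k)
          exact mul_le_of_le_one_right (Nat.cast_nonneg _) this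
        _ = 2 ^ l := by
          have := Nat.sum_range_choose l
          exact_mod_cast this
    have e2 : |∑ ν ∈ range (l + 1), (-1 : ℝ) ^ (l - ν) *
      (l.choose ν : ℝ) * psi B.f s k (x + ν * t)| ≤ C₁ * (2 ^ s * |t|) ^ l := by
      have := hDIFF (psi B.f s k) l ((2 ^ s) ^ l * C₁) (D1_contDiff B l s k hk')
        (hbd s k hk') x t
      calc _ ≤ (2 ^ s) ^ l * C₁ * |t| ^ l := this
        _ = _ := by rw [mul_pow]; ring
    rcases le_total 1 ((2 ^ s * |t|) ^ l) with h | h
    · rw [min_eq_left h, mul_one]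
      exact e1.trans (le_max_left _ _)
    · rw [min_eq_right h]
      exact e2.trans (by gcongr; exact le_max_right _ _)
  -- number of terms
  set S : Finset ℕ := (range (l + 1)).image
    (fun ν : ℕ => ⌊(2 : ℝ) ^ s * Int.fract ((x + (ν : ℝ) * t) / (2 * Real.pi))⌋₊) with hS
  have hcard : S.card ≤ l + 1 := by
    calc S.card ≤ (range (l + 1)).card := card_image_le
      _ = l + 1 := card_range _
  have hout : ∀ k ∈ range (2 ^ s), k ∉ S → |∑ ν ∈ range (l + 1), (-1 : ℝ) ^ (l - ν) *
      (l.choose ν : ℝ) * psi B.f s k (x + ν * t)| = 0 := by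
    intro k _ hkS
    rw [abs_eq_zero]
    apply sum_eq_zero
    intro ν hν
    have : psi B.f s k (x + ν * t) = 0 := by
      by_contra hne
      apply hkS
      rw [hS, mem_image]
      refine ⟨ν, hν, ?_⟩
      have h1 := B.supp _ hne
      rw [Nat.floor_eq_iff (by
        have := Int.fract_nonneg ((x + ν * t) / (2 * Real.pi)); positivity)]
      constructor <;> linarith
    rw [this, mul_zero]
  have hnn : 0 ≤ max (2 ^ l) C₁ * min 1 ((2 ^ s * |t|) ^ l) := by
    have : (0 : ℝ) ≤ min 1 ((2 ^ s * |t|) ^ l) := le_min zero_le_one (by positivity)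
    have : (0 : ℝ) ≤ max (2 ^ l) C₁ := hC₁.trans (le_max_right _ _)
    positivity
  calc ∑ k ∈ range (2 ^ s), |∑ ν ∈ range (l + 1), (-1 : ℝ) ^ (l - ν) *
      (l.choose ν : ℝ) * psi B.f s k (x + ν * t)|
      = ∑ k ∈ (range (2 ^ s)).filter (fun k => k ∈ S), |∑ ν ∈ range (l + 1), (-1 : ℝ) ^ (l - ν) *
      (l.choose ν : ℝ) * psi B.f s k (x + ν * t)| := by
        rw [sum_filter]
        apply sum_congr rfl
        intro k hk
        split_ifs with h
        · rfl
        · exact hout k hk h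
    _ ≤ ∑ _k ∈ (range (2 ^ s)).filter (fun k => k ∈ S),
          max (2 ^ l) C₁ * min 1 ((2 ^ s * |t|) ^ l) := by
        apply sum_le_sum
        intro k hk
        exact hterm k (mem_filter.mp hk).1
    _ = (((range (2 ^ s)).filter (fun k => k ∈ S)).card : ℝ) *
          (max (2 ^ l) C₁ * min 1 ((2 ^ s * |t|) ^ l)) := by rw [sum_const, nsmul_eq_mul]
    _ ≤ ((l : ℝ) + 1) * (max (2 ^ l) C₁ * min 1 ((2 ^ s * |t|) ^ l)) := by
        apply mul_le_mul_of_nonneg_right _ hnn
        have h1 : ((range (2 ^ s)).filter (fun k => k ∈ S)).card ≤ S.card := by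
          apply card_le_card
          intro k hk
          exact (mem_filter.mp hk).2
        exact_mod_cast h1.trans hcard
    _ = _ := by ring

end H506W
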