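import Pool.Agent.H506R3.LW.Defs

/-!
# Differences of a smooth function
-/

set_option autoImplicit false

open Finset MeasureTheory
open scoped BigOperators ENNReal

namespace H506W

theorem DIFF_iter (t : ℝ) (l : ℕ) : ∀ (f : ℝ → ℝ) (C : ℝ), ContDiff ℝ l f →
    (∀ y, |iteratedDeriv l f y| ≤ C) → ∀ x : ℝ, |(fwdDiff t)^[l] f x| ≤ C * |t| ^ l := by
  induction l with
  | zero =>
    intro f C _ h x
    have := h x
    simpa using this
  | succ l ih =>
    intro f C hf h x
    have hC : 0 ≤ C := (abs_nonneg _).trans (h 0)
    rw [Function.iterate_succ_apply]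
    have hfl : ContDiff ℝ l f := hf.of_le (by norm_cast; omega)
    have hsh : ContDiff ℝ l (fun y => f (y + t)) := hfl.comp (contDiff_id.add contDiff_const)
    have hg : ContDiff ℝ l (fwdDiff t f) := by
      have : fwdDiff t f = fun y => f (y + t) - f y := rfl
      rw [this]
      exact hsh.sub hfl
    have hder : ∀ y, |iteratedDeriv l (fwdDiff t f) y| ≤ C * |t| := by
      intro y
      have e : fwdDiff t f = (fun y => f (y + t)) - f := rfl
      rw [e, iteratedDeriv_sub hsh.contDiffAt hfl.contDiffAt, iteratedDeriv_comp_add_const]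
      have hd : ∀ z, HasDerivAt (iteratedDeriv l f) (iteratedDeriv (l + 1) f z) z := by
        intro z
        have h1 : Differentiable ℝ (iteratedDeriv l f) :=
          hf.differentiable_iteratedDeriv l (by norm_cast; omega)
        have h2 := (h1 z).hasDerivAt
        rwa [iteratedDeriv_succ]
      have := Convex.norm_image_sub_le_of_norm_hasDerivWithin_le (f := iteratedDeriv l f)
        (f' := iteratedDeriv (l + 1) f) (s := Set.univ) (C := C) (x := y) (y := y + t)
        (fun z _ => (hd z).hasDerivWithinAt) (fun z _ => h z) convex_univ (Set.mem_univ _)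
        (Set.mem_univ _)
      simpa using this
    have := ih (fwdDiff t f) (C * |t|) hg hder x
    calc _ ≤ C * |t| * |t| ^ l := this
      _ = C * |t| ^ (l + 1) := by ring

theorem DIFF_proof : S_DIFF := by
  intro f l C hf h x t
  have := DIFF_iter t l f C hf h x
  rw [fwdDiff_iter_eq_sum_shift] at this
  refine le_trans (le_of_eq ?_) this
  congr 1
  apply Finset.sum_congr rfl
  intro ν _
  rw [zsmul_eq_mul, nsmul_eq_mul]
  push_cast
  ring

end H506W
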