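import Pool.Agent.Helper765.Ent.Defs

/-!
# Linear widths of the mixed Hölder–Nikol'skii classes in the uniform norm: definitions
-/

set_option autoImplicit false

open Finset MeasureTheory
open scoped BigOperators ENNReal

namespace H506W

section abs

/-- An abstract system of rectangles: points `X` (counting measure), rectangles `ι`, shapes `σ`.
`V` is an upper bound of the number of points of a rectangle. -/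
structure Sys (X ι σ : Type) [Fintype X] [DecidableEq X] [Fintype ι] [Fintype σ] where
  /-- shape of a rectangle -/
  sh : ι → σ
  /-- points of a rectangle -/
  R : ι → Finset X
  /-- number of points of a rectangle -/
  V : ℝ
  /-- overlap factor of two shapes -/
  kap : σ → σ → ℝ
  /-- the constant -/
  C1 : ℝ
  V_pos : 0 < V
  C1_pos : 0 < C1
  kap_nonneg : ∀ s t, 0 ≤ kap s t
  disj : ∀ i j, i ≠ j → sh i = sh j → Disjoint (R i) (R j)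
  ov : ∀ i j, ((R i ∩ R j).card : ℝ) ≤ V * kap (sh i) (sh j)
  card_le : ∀ i, ((R i).card : ℝ) ≤ V
  sumk : ∀ s, ∑ t, (kap s t) ^ (1 / 8 : ℝ) ≤ C1

variable {X ι σ : Type} [Fintype X] [DecidableEq X] [Fintype ι] [Fintype σ]

/-- part of `u` with values in `[2^l, 2^(l+1))` -/
noncomputable def lev (u : X → ℝ) (l : ℕ) (x : X) : ℝ :=
  if 2 ^ l ≤ u x ∧ u x < 2 ^ (l + 1) then u x else 0

open Classical in
/-- the bad part of the rectangle `j` -/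
noncomputable def bad (S : Sys X ι σ) (I0 : Finset ι) (u : ι → X → ℝ) (M : ℝ) (L : ℕ) (j : ι) :
    Finset X :=
  (S.R j).filter (fun x => ∃ i ∈ I0, ∃ l ∈ range L, (2 ^ l ≤ u i x ∧ u i x < 2 ^ (l + 1)) ∧
    M / 2 ^ l ≤ ∑ y ∈ S.R j, lev (u i) l y)

end abs

/-! ### abstract statements -/

/-- Lemma B -/
def S_B : Prop := ∀ (X ι σ : Type) [Fintype X] [DecidableEq X] [Fintype ι] [Fintype σ]
  (S : Sys X ι σ) (u : X → ℝ) (lam M : ℝ), 0 < M → 0 < lam → (∀ x, 0 ≤ u x) → (∀ x, u x ≤ lam) →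
  ∑ x, u x ≤ M →
  ∑ i, (∑ x ∈ S.R i, u x) ^ (3 / 2 : ℝ) ≤
    2 * S.C1 * (M ^ (11 / 8 : ℝ) * (lam * S.V) ^ (1 / 8 : ℝ))

/-- measure of the bad sets -/
def S_BAD : Prop := S_B → ∀ (X ι σ : Type) [Fintype X] [DecidableEq X] [Fintype ι] [Fintype σ]
  (S : Sys X ι σ) (I0 : Finset ι) (u : ι → X → ℝ) (M : ℝ) (L : ℕ), 0 < M → (∀ i x, 0 ≤ u i x) →
  (∀ i ∈ I0, ∑ x, u i x ≤ M) →
  ∑ j, ((bad S I0 u M L j).card : ℝ) ≤
    16 * S.C1 * I0.card * (M ^ (7 / 8 : ℝ) * S.V ^ (1 / 8 : ℝ))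

/-- the good part -/
def S_GOOD : Prop := S_B → ∀ (X ι σ : Type) [Fintype X] [DecidableEq X] [Fintype ι] [Fintype σ]
  (S : Sys X ι σ) (I0 : Finset ι) (u : ι → X → ℝ) (M : ℝ) (L : ℕ), 0 < M → (∀ i x, 0 ≤ u i x) →
  (∀ i ∈ I0, ∑ x, u i x ≤ M) → ∀ i ∈ I0, (∀ x, u i x < 2 ^ L) →
  ∑ j, (∑ x ∈ S.R j \ bad S I0 u M L j, u i x) ^ 2 ≤
    256 * S.C1 * (M ^ (15 / 8 : ℝ) * S.V ^ (1 / 8 : ℝ))

/-- intersections with a small set -/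
def S_HAAR : Prop := S_B → ∀ (X ι σ : Type) [Fintype X] [DecidableEq X] [Fintype ι] [Fintype σ]
  (S : Sys X ι σ) (b : Finset X), (b.card : ℝ) ≤ S.V →
  ∑ i, ((S.R i ∩ b).card : ℝ) ^ 2 ≤ 2 * S.C1 * (S.V * b.card)

/-- rank lemma -/
def S_RANK : Prop := ∀ (ι : Type) [Fintype ι] (E : ι → ι → ℂ) (c : ℝ)
  (P : Submodule ℂ (ι → ℂ)), (∀ w ∈ P, ∀ j, (c : ℂ) * w j = ∑ i, w i * E i j) →
  c ^ 2 * (Module.finrank ℂ P : ℝ) ≤ ∑ i, ∑ j, ‖E i j‖ ^ 2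

/-- the core theorem -/
def S_CORE : Prop := ∀ (C1 c0 : ℝ), 0 < C1 → 0 < c0 → ∃ δ : ℝ, 0 < δ ∧
  ∀ (X ι σ : Type) [Fintype X] [DecidableEq X] [Fintype ι] [DecidableEq ι] [Fintype σ]
    (S : Sys X ι σ), S.C1 = C1 →
  ∀ (φ a : ι → X → ℂ) (h : ι → X → ℝ),
    (∀ i x, ‖φ i x‖ ≤ 1) → (∀ i x, x ∉ S.R i → φ i x = 0) →
    (∀ i x, |h i x| ≤ 1) → (∀ i x, x ∉ S.R i → h i x = 0) →
    (∀ i j, ∑ x, φ i x * (h j x : ℂ) = if i = j then ((c0 * S.V : ℝ) : ℂ) else 0) →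
    (∑ x, ∑ i, ‖φ i x - a i x‖ ≤ δ * (Fintype.card ι * S.V)) →
    (Fintype.card ι : ℝ) / 2 ≤ Module.finrank ℂ (Submodule.span ℂ (Set.range a))

/-! ### dyadic rectangles -/

/-- the grid -/
abbrev Gd (d n : ℕ) : Type := Fin d → Fin (2 ^ (n + 1))

/-- the dyadic rectangles of measure `2^(-n)`: shape `s` (sides `2^(-s_j)`, `∑ s_j = n`) and
position `k` (`k_j < 2^(s_j)`) -/
abbrev Rc (d n : ℕ) : Type := {p : (Fin d → Fin (n + 1)) × (Fin d → Fin (2 ^ n)) //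
  p.1 ∈ HypVol.Sh d n ∧ ∀ j, ((p.2 j : Fin (2 ^ n)) : ℕ) < 2 ^ ((p.1 j : Fin (n + 1)) : ℕ)}

/-- shape -/
def rs {d n : ℕ} (p : Rc d n) (j : Fin d) : ℕ := ((p.1.1 j : Fin (n + 1)) : ℕ)

/-- position -/
def rk {d n : ℕ} (p : Rc d n) (j : Fin d) : ℕ := ((p.1.2 j : Fin (2 ^ n)) : ℕ)

/-- points of a rectangle -/
def rc {d n : ℕ} (p : Rc d n) : Finset (Gd d n) :=
  univ.filter (fun x => ∀ j, ((x j : Fin (2 ^ (n + 1))) : ℕ) / 2 ^ (n + 1 - rs p j) = rk p j)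

/-- number of points of a rectangle -/
noncomputable def VV (d n : ℕ) : ℝ := 2 ^ ((n + 1) * d) / 2 ^ n

/-- overlap factor -/
noncomputable def kp {d n : ℕ} (s t : {s // s ∈ HypVol.Sh d n}) : ℝ :=
  ∏ j, (1 / 2 : ℝ) ^ (((t.1 j : Fin (n + 1)) : ℕ) - ((s.1 j : Fin (n + 1)) : ℕ))

/-- overlaps -/
def S_OV : Prop := ∀ (d n : ℕ) (p q : Rc d n), ((rc p ∩ rc q).card : ℝ) ≤
  VV d n * ∏ j, (1 / 2 : ℝ) ^ (rs q j - rs p j)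

/-- sum of the overlap factors -/
def S_SUMK : Prop := ∀ d : ℕ, ∃ C : ℝ, 0 < C ∧ ∀ (n : ℕ) (s : {s // s ∈ HypVol.Sh d n}),
  ∑ t : {s // s ∈ HypVol.Sh d n}, (kp s t) ^ (1 / 8 : ℝ) ≤ C

/-- the number of rectangles -/
def S_CARD : Prop := ∀ d n : ℕ, Fintype.card (Rc d n) = HypVol.shp d n * 2 ^ n

/-- the core theorem follows from the lemmas -/
def T_CORE : Prop := S_B → S_BAD → S_GOOD → S_HAAR → S_RANK → S_CORE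

/-- the system of dyadic rectangles -/
def S_SYS : Prop := ∀ d : ℕ, ∃ C : ℝ, 0 < C ∧ ∀ n : ℕ,
  ∃ S : Sys (Gd d n) (Rc d n) {s // s ∈ HypVol.Sh d n}, S.C1 = C ∧ S.V = VV d n ∧ S.R = rc

/-- assembly of the system -/
def T_SYS : Prop := S_OV → S_SUMK → S_SYS

/-- one-dimensional Haar function on the grid -/
noncomputable def hz (n s k x : ℕ) : ℝ :=
  if x / 2 ^ (n + 1 - s) = k then (if (x / 2 ^ (n - s)) % 2 = 0 then 1 else -1) else 0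

/-- Haar function of a rectangle -/
noncomputable def Hr {d n : ℕ} (p : Rc d n) (x : Gd d n) : ℝ :=
  ∏ j, hz n (rs p j) (rk p j) ((x j : Fin (2 ^ (n + 1))) : ℕ)

/-- a smooth bump with mean zero -/
structure Bump where
  /-- the function -/
  f : ℝ → ℝ
  smooth : ∀ l : ℕ, ContDiff ℝ l f
  supp : ∀ y, f y ≠ 0 → 1 / 8 ≤ y ∧ y ≤ 7 / 8
  bd : ∀ y, |f y| ≤ 1
  /-- integral against the Haar function -/
  c : ℝ
  c_pos : 0 < c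
  left : ∫ y in (0 : ℝ)..(1 / 2), f y = c / 2
  right : ∫ y in (1 / 2 : ℝ)..1, f y = -(c / 2)

/-- there is a bump -/
def S_BUMP : Prop := Nonempty Bump

/-- average of `f (2^s y - k)` over the cell `[x / 2^(n+1), (x+1) / 2^(n+1))` -/
noncomputable def pz (f : ℝ → ℝ) (n s k x : ℕ) : ℝ :=
  2 ^ (n + 1) * ∫ y in ((x : ℝ) / 2 ^ (n + 1))..(((x : ℝ) + 1) / 2 ^ (n + 1)), f (2 ^ s * y - k)

/-- support and size of the averages -/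
def S_PZ : Prop := ∀ (B : Bump) (n s k x : ℕ), s ≤ n → |pz B.f n s k x| ≤ 1 ∧
  (x / 2 ^ (n + 1 - s) ≠ k → pz B.f n s k x = 0)

/-- one-dimensional pairings -/
def S_PH : Prop := ∀ (B : Bump) (n : ℕ),
  (∀ s k : ℕ, s ≤ n → k < 2 ^ s →
    ∑ x ∈ range (2 ^ (n + 1)), pz B.f n s k x * hz n s k x = 2 ^ (n + 1) / 2 ^ s * B.c) ∧
  (∀ s s' k k' : ℕ, s' < s → s ≤ n → k < 2 ^ s →
    ∑ x ∈ range (2 ^ (n + 1)), pz B.f n s k x * hz n s' k' x = 0)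

/-- biorthogonality -/
def S_BIO : Prop := S_PZ → S_PH → ∀ (B : Bump) (d n : ℕ) (p q : Rc d n),
  ∑ x : Gd d n, (∏ j, pz B.f n (rs p j) (rk p j) ((x j : Fin (2 ^ (n + 1))) : ℕ)) * Hr q x =
    if p = q then B.c ^ d * VV d n else 0

/-! ### test functions -/

/-- the class `H^r_∞` with differences of order `l` -/
def HC (d : ℕ) (r : ℝ) (l : ℕ) : Set ((Fin d → ℝ) → ℂ) :=
  {f | (∀ (x : Fin d → ℝ) (j : Fin d), f (Function.update x j (x j + 2 * Real.pi)) = f x) ∧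
    AEStronglyMeasurable f volume ∧ eLpNorm f ⊤ (HypVol.TP d) ≤ 1 ∧
    ∀ e : Finset (Fin d), e.Nonempty → ∀ t : Fin d → ℝ,
      eLpNorm (HypVol.mdiff l e t f) ⊤ (HypVol.TP d) ≤ ENNReal.ofReal (∏ j ∈ e, |t j| ^ r)}

/-- one-dimensional periodic building block -/
noncomputable def psi (f : ℝ → ℝ) (s k : ℕ) (x : ℝ) : ℝ :=
  f (2 ^ s * Int.fract (x / (2 * Real.pi)) - k)

/-- the smooth function of a rectangle -/
noncomputable def Ph {d n : ℕ} (f : ℝ → ℝ) (p : Rc d n) (x : Fin d → ℝ) : ℝ :=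
  ∏ j, psi f (rs p j) (rk p j) (x j)

/-- test function -/
noncomputable def Tf {d n : ℕ} (f : ℝ → ℝ) (w : Rc d n → ℂ) (x : Fin d → ℝ) : ℂ :=
  ∑ p, w p * ((Ph f p x : ℝ) : ℂ)

/-- differences of a smooth function -/
def S_DIFF : Prop := ∀ (f : ℝ → ℝ) (l : ℕ) (C : ℝ), ContDiff ℝ l f →
  (∀ y, |iteratedDeriv l f y| ≤ C) → ∀ x t : ℝ,
  |∑ ν ∈ range (l + 1), (-1 : ℝ) ^ (l - ν) * (l.choose ν : ℝ) * f (x + ν * t)| ≤ C * |t| ^ l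

/-- differences of the one-dimensional blocks -/
def S_D1 : Prop := S_DIFF → ∀ (B : Bump) (l : ℕ), ∃ C : ℝ, 1 ≤ C ∧ ∀ (s : ℕ) (x t : ℝ),
  ∑ k ∈ range (2 ^ s), |∑ ν ∈ range (l + 1), (-1 : ℝ) ^ (l - ν) * (l.choose ν : ℝ) *
    psi B.f s k (x + ν * t)| ≤ C * min 1 ((2 ^ s * |t|) ^ l)

/-- mixed differences of the test functions -/
def S_MD : Prop := ∀ (B : Bump) (l : ℕ) (C : ℝ), 1 ≤ C → (∀ (s : ℕ) (x t : ℝ),
  ∑ k ∈ range (2 ^ s), |∑ ν ∈ range (l + 1), (-1 : ℝ) ^ (l - ν) * (l.choose ν : ℝ) *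
    psi B.f s k (x + ν * t)| ≤ C * min 1 ((2 ^ s * |t|) ^ l)) →
  ∀ (d n : ℕ) (e : Finset (Fin d)) (t x : Fin d → ℝ) (w : Rc d n → ℂ), (∀ p, ‖w p‖ ≤ 1) →
  ‖HypVol.mdiff l e t (Tf B.f w) x‖ ≤ ∑ s ∈ HypVol.Sh d n, ∏ j ∈ e,
    (C * min 1 ((2 ^ ((s j : Fin (n + 1)) : ℕ) * |t j|) ^ l))

/-- summation over the shapes -/
def S_NS : Prop := ∀ (d : ℕ) (r : ℝ) (l : ℕ), 0 < r → r < l → ∃ C : ℝ, 0 < C ∧
  ∀ (n : ℕ) (e : Finset (Fin d)) (t : Fin d → ℝ),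
  ∑ s ∈ HypVol.Sh d n, ∏ j ∈ e, min 1 ((2 ^ ((s j : Fin (n + 1)) : ℕ) * |t j|) ^ l) ≤
    C * (2 : ℝ) ^ (r * n) * ∏ j ∈ e, |t j| ^ r

/-- the test functions belong to the class -/
def S_MEM : Prop := S_DIFF → S_D1 → S_MD → S_NS → ∀ (B : Bump) (d : ℕ) (r : ℝ) (l : ℕ), 0 < r →
  r < l → ∃ c : ℝ, 0 < c ∧ ∀ (n : ℕ) (w : Rc d n → ℂ), (∀ p, ‖w p‖ ≤ 1) →
  (fun x => ((c * (2 : ℝ) ^ (-(r * n)) : ℝ) : ℂ) * Tf B.f w x) ∈ HC d r l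

/-! ### widths -/

/-- linear width of a class in `L_∞` of the torus -/
noncomputable def lw (d : ℕ) (m : ℕ) (F : Set ((Fin d → ℝ) → ℂ)) : ℝ≥0∞ :=
  ⨅ (A : Lp ℂ ⊤ (HypVol.TP d) →L[ℂ] Lp ℂ ⊤ (HypVol.TP d))
    (_ : LinearMap.rank (A : Lp ℂ ⊤ (HypVol.TP d) →ₗ[ℂ] Lp ℂ ⊤ (HypVol.TP d)) ≤ m),
    ⨆ (f : (Fin d → ℝ) → ℂ) (_ : f ∈ F) (hf : MemLp f ⊤ (HypVol.TP d)),
      ‖hf.toLp f - A (hf.toLp f)‖ₑ

/-- averages over the cells -/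
def S_AV : Prop := ∀ (B : Bump) (d n : ℕ), ∃ av : Gd d n → (Lp ℂ ⊤ (HypVol.TP d) →L[ℂ] ℂ),
  (∀ x F, ‖av x F‖ ≤ ‖F‖) ∧ ∀ (p : Rc d n) (x : Gd d n)
    (hM : MemLp (fun y => ((Ph B.f p y : ℝ) : ℂ)) ⊤ (HypVol.TP d)),
    av x (hM.toLp _) =
      ((∏ j, pz B.f n (rs p j) (rk p j) ((x j : Fin (2 ^ (n + 1))) : ℕ) : ℝ) : ℂ)

/-- lower bound in terms of `n` -/
def S_LOWN : Prop := S_CORE → S_SYS → S_CARD → S_PZ → S_PH → S_BIO → S_BUMP → S_DIFF → S_D1 →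
  S_MD → S_NS → S_MEM → S_AV → ∀ (d : ℕ) (r : ℝ) (l : ℕ), 0 < r → r < l → ∃ c : ℝ, 0 < c ∧
  ∀ n m : ℕ, (m : ℝ) < HypVol.shp d n * 2 ^ n / 2 →
    ENNReal.ofReal (c * (2 : ℝ) ^ (-(r * n)) * HypVol.shp d n) ≤ lw d m (HC d r l)

/-- numbers: from `m` to `n` -/
def S_NUML : Prop := ∀ (d : ℕ), 1 ≤ d → ∀ r : ℝ, 0 < r → ∃ c : ℝ, 0 < c ∧ ∀ m : ℕ, 2 ≤ m →
  ∃ n : ℕ, (m : ℝ) < HypVol.shp d n * 2 ^ n / 2 ∧
    c * (m : ℝ) ^ (-r) * (Real.log m) ^ (((d : ℝ) - 1) * (r + 1)) ≤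
      (2 : ℝ) ^ (-(r * n)) * HypVol.shp d n

end H506W
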