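import Pool.Agent.H506R3.LW.Defs

/-!
# Linear widths of the mixed Hölder–Nikol'skii classes in the uniform norm: the upper bound
-/

set_option autoImplicit false

open Finset MeasureTheory
open scoped BigOperators ENNReal

namespace H506W

/-- normalised measure on `[0, 2π)` -/
noncomputable def T1 : Measure ℝ :=
  ENNReal.ofReal (2 * Real.pi)⁻¹ • volume.restrict (Set.Ico 0 (2 * Real.pi))

/-- distance of `t ∈ [0, 2π)` to `2πℤ` -/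
noncomputable def dd (t : ℝ) : ℝ := min t (2 * Real.pi - t)

/-- a family of nonnegative trigonometric kernels of degree `2^s` -/
structure Ker (r : ℝ) where
  /-- coefficients -/
  b : ℕ → ℤ → ℂ
  /-- the kernels -/
  rho : ℕ → ℝ → ℝ
  /-- the constant -/
  C : ℝ
  C_pos : 0 < C
  nonneg : ∀ s t, 0 ≤ rho s t
  eq : ∀ s t, (rho s t : ℂ) =
    ∑ k ∈ Finset.Icc (-(2 : ℤ) ^ s) (2 ^ s), b s k * Complex.exp (-(Complex.I * ((k * t : ℝ) : ℂ)))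
  int : ∀ s, ∫ t, rho s t ∂T1 = 1
  mom : ∀ s, ∫ t, rho s t * (dd t) ^ r ∂T1 ≤ C * (2 : ℝ) ^ (-(r * s))

/-- Jackson kernels -/
def S_KER : Prop := ∀ r : ℝ, 0 < r → Nonempty (Ker r)

/-- differences of the kernels -/
noncomputable def kd {r : ℝ} (K : Ker r) (s : ℕ) (t : ℝ) : ℝ :=
  K.rho s t - (if s = 0 then 0 else K.rho (s - 1) t)

/-- the coefficients `c_ν = (-1)^(ν+1) (l choose ν)`, `c_0 = -1` -/
noncomputable def cc (l ν : ℕ) : ℝ := (-1) ^ (ν + 1) * (l.choose ν : ℝ)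

/-- the sum over `ν ∈ {0..l}^e × {1..l}^(complement of e)` of `∏ c_{ν_j} f(x + ν t)` -/
noncomputable def SSe {d : ℕ} (l : ℕ) (e : Finset (Fin d)) (f : (Fin d → ℝ) → ℂ)
    (x t : Fin d → ℝ) : ℂ :=
  ∑ ν ∈ Fintype.piFinset (fun j : Fin d => if j ∈ e then range (l + 1) else Finset.Icc 1 l),
    ((∏ j, cc l (ν j) : ℝ) : ℂ) * f (fun j => x j + (ν j : ℝ) * t j)

/-- the block of `f` of index `s` -/
noncomputable def Bl {d : ℕ} {r : ℝ} (K : Ker r) (l : ℕ) (s : Fin d → ℕ) (f : (Fin d → ℝ) → ℂ)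
    (x : Fin d → ℝ) : ℂ :=
  ∫ t, SSe l ∅ f x t * ((∏ j, kd K (s j) (t j) : ℝ) : ℂ) ∂(HypVol.TP d)

/-- Borel measurable functions, periodic and bounded by `1` everywhere, of the class -/
def HB (d : ℕ) (r : ℝ) (l : ℕ) : Set ((Fin d → ℝ) → ℂ) :=
  {f | (∀ (x : Fin d → ℝ) (j : Fin d), f (Function.update x j (x j + 2 * Real.pi)) = f x) ∧
    Measurable f ∧ (∀ x, ‖f x‖ ≤ 1) ∧
    ∀ e : Finset (Fin d), e.Nonempty → ∀ t : Fin d → ℝ,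
      eLpNorm (HypVol.mdiff l e t f) ⊤ (HypVol.TP d) ≤ ENNReal.ofReal (∏ j ∈ e, |t j| ^ r)}

/-- good representatives -/
def S_REP : Prop := ∀ (d : ℕ) (r : ℝ) (l : ℕ), ∀ f ∈ HC d r l, ∃ g ∈ HB d r l,
  f =ᵐ[HypVol.TP d] g

/-- inserting the terms with `ν_j = 0` for the `j` with `s_j ≠ 0` -/
def S_W1 : Prop := ∀ (d : ℕ) (r : ℝ) (K : Ker r) (l : ℕ) (s : Fin d → ℕ) (f : (Fin d → ℝ) → ℂ),
  Measurable f → (∀ x, ‖f x‖ ≤ 1) → ∀ x : Fin d → ℝ,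
  Bl K l s f x = ∫ t, SSe l (univ.filter fun j => s j ≠ 0) f x t *
    ((∏ j, kd K (s j) (t j) : ℝ) : ℂ) ∂(HypVol.TP d)

/-- almost everywhere bound of the mixed differences -/
def S_W2 : Prop := ∀ (d : ℕ) (r : ℝ) (l : ℕ), 0 < r → r < l → ∀ f ∈ HB d r l,
  ∀ e : Finset (Fin d), ∀ᵐ x ∂(HypVol.TP d), ∀ᵐ t ∂(HypVol.TP d),
    ‖SSe l e f x t‖ ≤ 2 ^ (l * d) * ∏ j ∈ e, (dd (t j)) ^ r

/-- almost everywhere bound of the distance to `f` -/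
def S_W3 : Prop := ∀ (d : ℕ) (r : ℝ) (l : ℕ), 0 < r → r < l → ∀ f ∈ HB d r l,
  ∀ᵐ x ∂(HypVol.TP d), ∀ᵐ t ∂(HypVol.TP d),
    ‖SSe l ∅ f x t - f x‖ ≤
      ∑ e ∈ (univ : Finset (Finset (Fin d))).erase ∅, ∏ j ∈ e, (dd (t j)) ^ r

/-- size of the blocks -/
def S_BLK : Prop := S_W1 → S_W2 → ∀ (d : ℕ) (r : ℝ) (K : Ker r) (l : ℕ), 0 < r → r < l →
  ∃ C : ℝ, 0 < C ∧ ∀ f ∈ HB d r l, ∀ s : Fin d → ℕ, ∀ᵐ x ∂(HypVol.TP d),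
    ‖Bl K l s f x‖ ≤ C * (2 : ℝ) ^ (-(r * ∑ j, (s j : ℝ)))

/-- convergence of the sums over boxes -/
def S_LIM : Prop := S_W3 → ∀ (d : ℕ) (r : ℝ) (K : Ker r) (l : ℕ), 0 < r → r < l →
  ∃ C : ℝ, 0 < C ∧ ∀ f ∈ HB d r l, ∀ N : ℕ, ∀ᵐ x ∂(HypVol.TP d),
    ‖f x - ∑ s ∈ Fintype.piFinset (fun _ : Fin d => range (N + 1)), Bl K l s f x‖ ≤
      C * (2 : ℝ) ^ (-(r * N))

/-- tails -/
def S_TAIL : Prop := ∀ (d : ℕ), 1 ≤ d → ∀ r : ℝ, 0 < r → ∃ C : ℝ, 0 < C ∧ ∀ n N : ℕ,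
  ∑ s ∈ (Fintype.piFinset (fun _ : Fin d => range (N + 1))).filter (fun s => n < ∑ j, s j),
    (2 : ℝ) ^ (-(r * ∑ j, (s j : ℝ))) ≤ C * (2 : ℝ) ^ (-(r * n)) * ((n : ℝ) + 1) ^ (d - 1)

/-- the indices with sum at most `n` -/
def Bx (d n : ℕ) : Finset (Fin d → ℕ) :=
  (Fintype.piFinset (fun _ : Fin d => range (n + 1))).filter (fun s => ∑ j, s j ≤ n)

/-- the approximation by the hyperbolic sum -/
def S_ERR : Prop := S_W1 → S_W2 → S_W3 → S_BLK → S_LIM → S_TAIL → ∀ (d : ℕ), 1 ≤ d →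
  ∀ (r : ℝ) (K : Ker r) (l : ℕ), 0 < r → r < l → ∃ C : ℝ, 0 < C ∧ ∀ f ∈ HB d r l, ∀ n : ℕ,
    ∀ᵐ x ∂(HypVol.TP d), ‖f x - ∑ s ∈ Bx d n, Bl K l s f x‖ ≤
      C * (2 : ℝ) ^ (-(r * n)) * ((n : ℝ) + 1) ^ (d - 1)

/-- Fourier coefficients of `t ↦ f (x + ν t)` -/
def S_FC : Prop := ∀ (d : ℕ) (f : (Fin d → ℝ) → ℂ),
  (∀ (x : Fin d → ℝ) (j : Fin d), f (Function.update x j (x j + 2 * Real.pi)) = f x) →
  Measurable f → (∀ x, ‖f x‖ ≤ 1) → ∀ (ν : Fin d → ℕ), (∀ j, 1 ≤ ν j) → ∀ (k : Fin d → ℤ)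
  (x : Fin d → ℝ),
  ∫ t, f (fun j => x j + (ν j : ℝ) * t j) *
      Complex.exp (-(Complex.I * ((∑ j, (k j : ℝ) * t j : ℝ) : ℂ))) ∂(HypVol.TP d) =
    if (∀ j, (ν j : ℤ) ∣ k j) then HypVol.fc f (fun j => k j / (ν j : ℤ)) *
      Complex.exp (Complex.I * ((∑ j, ((k j / (ν j : ℤ) : ℤ) : ℝ) * x j : ℝ) : ℂ)) else 0

/-- the blocks come from operators of finite rank -/
def S_OPS : Prop := S_FC → ∀ (d : ℕ) (r : ℝ) (K : Ker r) (l : ℕ) (s : Fin d → ℕ),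
  ∃ A : Lp ℂ ⊤ (HypVol.TP d) →L[ℂ] Lp ℂ ⊤ (HypVol.TP d),
    LinearMap.rank (A : Lp ℂ ⊤ (HypVol.TP d) →ₗ[ℂ] Lp ℂ ⊤ (HypVol.TP d)) ≤
      ((∏ j, (2 * 2 ^ (s j) + 1) : ℕ) : Cardinal) ∧
    ∀ (f : (Fin d → ℝ) → ℂ) (hf : MemLp f ⊤ (HypVol.TP d)),
      (∀ (x : Fin d → ℝ) (j : Fin d), f (Function.update x j (x j + 2 * Real.pi)) = f x) →
      Measurable f → (∀ x, ‖f x‖ ≤ 1) → A (hf.toLp f) =ᵐ[HypVol.TP d] Bl K l s f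

/-- upper bound in terms of `n` -/
def S_UPN : Prop := S_KER → S_REP → S_W1 → S_W2 → S_W3 → S_BLK → S_LIM → S_TAIL → S_ERR →
  S_FC → S_OPS → ∀ (d : ℕ), 1 ≤ d → ∀ (r : ℝ) (l : ℕ), 0 < r → r < l → ∃ C : ℝ, 0 < C ∧
  ∀ n m : ℕ, C * ((2 : ℝ) ^ n * ((n : ℝ) + 1) ^ (d - 1)) ≤ m →
    lw d m (HC d r l) ≤ ENNReal.ofReal (C * (2 : ℝ) ^ (-(r * n)) * ((n : ℝ) + 1) ^ (d - 1))

/-- the width is at most `1` -/
def S_TRIV : Prop := ∀ (d m : ℕ) (r : ℝ) (l : ℕ), lw d m (HC d r l) ≤ 1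

/-- numbers for the upper bound -/
def S_NUMU : Prop := ∀ (d : ℕ), 1 ≤ d → ∀ r C : ℝ, 0 < r → 0 < C → ∃ C' : ℝ, 0 < C' ∧ ∀ m : ℕ,
  2 ≤ m → (1 ≤ C' * (m : ℝ) ^ (-r) * (Real.log m) ^ (((d : ℝ) - 1) * (r + 1))) ∨
  ∃ n : ℕ, C * ((2 : ℝ) ^ n * ((n : ℝ) + 1) ^ (d - 1)) ≤ m ∧
    C * (2 : ℝ) ^ (-(r * n)) * ((n : ℝ) + 1) ^ (d - 1) ≤
      C' * (m : ℝ) ^ (-r) * (Real.log m) ^ (((d : ℝ) - 1) * (r + 1))

end H506W
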