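import Pool.Agent.H506R3.LW.Defs2

/-!
# ERR: approximation by the hyperbolic sum
-/

set_option autoImplicit false

open Finset MeasureTheory
open scoped BigOperators ENNReal

namespace H506W

theorem ERR_proof : S_ERR := by
  intro hW1 hW2 hW3 hBLK hLIM hTAIL d hd r K l hr hrl
  obtain ⟨C1, hC1, h1⟩ := hBLK hW1 hW2 d r K l hr hrl
  obtain ⟨C2, hC2, h2⟩ := hLIM hW3 d r K l hr hrl
  obtain ⟨C3, hC3, h3⟩ := hTAIL d hd r hr
  refine ⟨C2 + C1 * C3, by positivity, ?_⟩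
  intro f hf n
  have hall : ∀ᵐ x ∂(HypVol.TP d), ∀ s : Fin d → ℕ,
      ‖Bl K l s f x‖ ≤ C1 * (2 : ℝ) ^ (-(r * ∑ j, (s j : ℝ))) := by
    rw [ae_all_iff]
    exact fun s => h1 f hf s
  filter_upwards [hall, h2 f hf n] with x hx hx2
  set B := Fintype.piFinset (fun _ : Fin d => range (n + 1)) with hB
  have hsplit : ∑ s ∈ B, Bl K l s f x
      = ∑ s ∈ Bx d n, Bl K l s f x + ∑ s ∈ B.filter (fun s => n < ∑ j, s j), Bl K l s f x := by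
    rw [← Finset.sum_filter_add_sum_filter_not B (fun s => ∑ j, s j ≤ n)]
    congr 1
    apply Finset.sum_congr _ (fun _ _ => rfl)
    apply Finset.filter_congr
    intro s _
    exact not_le
  have e1 : f x - ∑ s ∈ Bx d n, Bl K l s f x
      = (f x - ∑ s ∈ B, Bl K l s f x) + ∑ s ∈ B.filter (fun s => n < ∑ j, s j), Bl K l s f x := by
    rw [hsplit]; ring
  have e2 : ‖∑ s ∈ B.filter (fun s => n < ∑ j, s j), Bl K l s f x‖
      ≤ C1 * (C3 * (2 : ℝ) ^ (-(r * n)) * ((n : ℝ) + 1) ^ (d - 1)) := by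
    calc _ ≤ ∑ s ∈ B.filter (fun s => n < ∑ j, s j), ‖Bl K l s f x‖ := norm_sum_le _ _
      _ ≤ ∑ s ∈ B.filter (fun s => n < ∑ j, s j), C1 * (2 : ℝ) ^ (-(r * ∑ j, (s j : ℝ))) :=
          Finset.sum_le_sum fun s _ => hx s
      _ = C1 * ∑ s ∈ B.filter (fun s => n < ∑ j, s j), (2 : ℝ) ^ (-(r * ∑ j, (s j : ℝ))) := by
          rw [Finset.mul_sum]
      _ ≤ _ := mul_le_mul_of_nonneg_left (h3 n n) hC1.le
  have e3 : C2 * (2 : ℝ) ^ (-(r * n)) ≤ C2 * (2 : ℝ) ^ (-(r * n)) * ((n : ℝ) + 1) ^ (d - 1) := by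
    have h4 : (0 : ℝ) < (2 : ℝ) ^ (-(r * (n : ℝ))) := Real.rpow_pos_of_pos (by norm_num) _
    have h5 : (1 : ℝ) ≤ ((n : ℝ) + 1) ^ (d - 1) :=
      one_le_pow₀ (by have : (0:ℝ) ≤ n := Nat.cast_nonneg n; linarith)
    exact le_mul_of_one_le_right (by positivity) h5
  rw [e1]
  calc _ ≤ ‖f x - ∑ s ∈ B, Bl K l s f x‖
        + ‖∑ s ∈ B.filter (fun s => n < ∑ j, s j), Bl K l s f x‖ := norm_add_le _ _
    _ ≤ C2 * (2 : ℝ) ^ (-(r * n)) * ((n : ℝ) + 1) ^ (d - 1)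
        + C1 * (C3 * (2 : ℝ) ^ (-(r * n)) * ((n : ℝ) + 1) ^ (d - 1)) :=
        add_le_add (hx2.trans e3) e2
    _ = (C2 + C1 * C3) * (2 : ℝ) ^ (-(r * n)) * ((n : ℝ) + 1) ^ (d - 1) := by ring

end H506W
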