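import Pool.Agent.H506R3.LW.Defs2
import Pool.Agent.Helper765.Ent.P_fc_mdiff

/-!
# FC: Fourier coefficients of `t ↦ f (x + ν t)`
-/

set_option autoImplicit false

open Finset MeasureTheory
open scoped BigOperators ENNReal

namespace H506W

theorem FC_prob (d : ℕ) : IsProbabilityMeasure (HypVol.TP d) := HypVol.TP_prob d

theorem FC_int {d : ℕ} (F : (Fin d → ℝ) → ℂ) (hF : Measurable F) (hb : ∀ x, ‖F x‖ ≤ 1) :
    Integrable F (HypVol.TP d) := by
  have := FC_prob d
  exact Integrable.of_bound hF.aestronglyMeasurable 1 (Filter.Eventually.of_forall hb)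

/-- translation invariance -/
theorem FC_tr {d : ℕ} (F : (Fin d → ℝ) → ℂ)
    (hp : ∀ (x : Fin d → ℝ) (j : Fin d), F (Function.update x j (x j + 2 * Real.pi)) = F x)
    (hF : Measurable F) (hb : ∀ x, ‖F x‖ ≤ 1) (h : Fin d → ℝ) :
    ∫ x, F (fun j => x j + h j) ∂(HypVol.TP d) = ∫ x, F x ∂(HypVol.TP d) := by
  have h1 := HypVol.S_fc_mdiff.fcm_tr d F hp (FC_int F hF hb) h 0
  simpa [HypVol.fc] using h1

/-- periodicity of `t ↦ F (x + ν t)` -/
theorem FC_per {d : ℕ} (F : (Fin d → ℝ) → ℂ)
    (hp : ∀ (x : Fin d → ℝ) (j : Fin d), F (Function.update x j (x j + 2 * Real.pi)) = F x)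
    (ν : Fin d → ℕ) (x : Fin d → ℝ) (t : Fin d → ℝ) (j : Fin d) :
    F (fun i => x i + (ν i : ℝ) * Function.update t j (t j + 2 * Real.pi) i) =
      F (fun i => x i + (ν i : ℝ) * t i) := by
  rw [← HypVol.S_fc_mdiff.fcm_per1 d F hp (fun i => x i + (ν i : ℝ) * t i) j (ν j : ℤ)]
  congr 1
  funext i
  by_cases hi : i = j
  · subst hi
    simp only [Function.update_self]
    push_cast
    ring
  · simp only [Function.update_of_ne hi]

/-- invariance under multiplication -/
theorem FC_mul {d : ℕ} (F : (Fin d → ℝ) → ℂ)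
    (hp : ∀ (x : Fin d → ℝ) (j : Fin d), F (Function.update x j (x j + 2 * Real.pi)) = F x)
    (hF : Measurable F) (hb : ∀ x, ‖F x‖ ≤ 1) (ν : Fin d → ℕ) (hν : ∀ j, 1 ≤ ν j) :
    ∫ t, F (fun j => (ν j : ℝ) * t j) ∂(HypVol.TP d) = ∫ x, F x ∂(HypVol.TP d) := by
  have hprob := FC_prob d
  have hν0 : ∀ j, (ν j : ℝ) ≠ 0 := fun j => by
    have := hν j
    positivity
  -- the inner integral does not depend on `x`
  have h1 : ∀ x : Fin d → ℝ, ∫ t, F (fun j => x j + (ν j : ℝ) * t j) ∂(HypVol.TP d) =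
      ∫ t, F (fun j => (ν j : ℝ) * t j) ∂(HypVol.TP d) := by
    intro x
    have h2 := FC_tr (fun t => F (fun j => (ν j : ℝ) * t j)) (fun t j => by
      have h3 := FC_per F hp ν 0 t j
      simpa only [Pi.zero_apply, zero_add] using h3)
      (hF.comp (by fun_prop)) (fun t => hb _) (fun j => x j / ν j)
    rw [← h2]
    refine integral_congr_ae (Filter.Eventually.of_forall fun t => ?_)
    show F _ = F _
    congr 1
    funext j
    have := hν0 j
    field_simp
    ring
  have h2 : ∫ x, (∫ t, F (fun j => x j + (ν j : ℝ) * t j) ∂(HypVol.TP d)) ∂(HypVol.TP d) =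
      ∫ t, F (fun j => (ν j : ℝ) * t j) ∂(HypVol.TP d) := by
    simp only [h1]
    rw [integral_const]
    simp
  have h3 : ∫ x, (∫ t, F (fun j => x j + (ν j : ℝ) * t j) ∂(HypVol.TP d)) ∂(HypVol.TP d) =
      ∫ t, (∫ x, F (fun j => x j + (ν j : ℝ) * t j) ∂(HypVol.TP d)) ∂(HypVol.TP d) := by
    refine integral_integral_swap ?_
    refine Integrable.of_bound (Measurable.aestronglyMeasurable (hF.comp (by fun_prop))) 1
      (Filter.Eventually.of_forall fun p => hb _)
  have h4 : ∀ t : Fin d → ℝ, ∫ x, F (fun j => x j + (ν j : ℝ) * t j) ∂(HypVol.TP d) =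
      ∫ x, F x ∂(HypVol.TP d) := fun t => FC_tr F hp hF hb (fun j => (ν j : ℝ) * t j)
  rw [← h2, h3]
  simp only [h4]
  rw [integral_const]
  simp

theorem FC_proof : S_FC := by
  intro d f hp hf hb ν hν k x
  have hprob := FC_prob d
  have hν0 : ∀ j, (ν j : ℝ) ≠ 0 := fun j => by
    have := hν j
    positivity
  set I : (Fin d → ℝ) → ℂ := fun x => ∫ t, f (fun j => x j + (ν j : ℝ) * t j) *
      Complex.exp (-(Complex.I * ((∑ j, (k j : ℝ) * t j : ℝ) : ℂ))) ∂(HypVol.TP d) with hI
  -- translation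
  have hA : ∀ x h : Fin d → ℝ, I (fun j => x j + (ν j : ℝ) * h j) =
      Complex.exp (Complex.I * ((∑ j, (k j : ℝ) * h j : ℝ) : ℂ)) * I x := by
    intro x h
    have h1 := HypVol.S_fc_mdiff.fcm_tr d (fun t => f (fun j => x j + (ν j : ℝ) * t j))
      (fun t j => FC_per f hp ν x t j) (FC_int _ (hf.comp (by fun_prop)) (fun t => hb _)) h k
    have h2 : I x = HypVol.fc (fun t => f (fun j => x j + (ν j : ℝ) * t j)) k := rfl
    rw [h2, ← h1]
    refine integral_congr_ae (Filter.Eventually.of_forall fun t => ?_)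
    beta_reduce
    congr 2
    funext j
    ring
  show I x = _
  by_cases hdiv : ∀ j, (ν j : ℤ) ∣ k j
  · rw [if_pos hdiv]
    have hk : ∀ j, (k j : ℝ) = (ν j : ℝ) * ((k j / (ν j : ℤ) : ℤ) : ℝ) := by
      intro j
      have h1 := Int.mul_ediv_cancel' (hdiv j)
      have h2 : (((ν j : ℤ) * (k j / (ν j : ℤ)) : ℤ) : ℝ) = (k j : ℝ) := by rw [h1]
      rw [← h2]
      push_cast
      ring
    -- value at zero
    have h0 : I (fun _ => 0) = HypVol.fc f (fun j => k j / (ν j : ℤ)) := by
      have h1 := FC_mul (fun y => f y * Complex.exp (-(Complex.I *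
        ((∑ j, ((k j / (ν j : ℤ) : ℤ) : ℝ) * y j : ℝ) : ℂ))))
        (fun y j => HypVol.S_fc_mdiff.fcm_eper d f hp (fun j => k j / (ν j : ℤ)) y j)
        (hf.mul (Continuous.measurable (by fun_prop))) (fun y => by
          rw [norm_mul, Complex.norm_exp]
          have h2 := hb y
          simpa using h2) ν hν
      have h2 : HypVol.fc f (fun j => k j / (ν j : ℤ)) = ∫ y, f y * Complex.exp (-(Complex.I *
        ((∑ j, ((k j / (ν j : ℤ) : ℤ) : ℝ) * y j : ℝ) : ℂ))) ∂(HypVol.TP d) := rfl
      rw [h2, ← h1]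
      refine integral_congr_ae (Filter.Eventually.of_forall fun t => ?_)
      beta_reduce
      have h3 : (fun j => (0 : ℝ) + (ν j : ℝ) * t j) = fun j => (ν j : ℝ) * t j := by
        funext j
        ring
      have h4 : ∑ j, (k j : ℝ) * t j =
          ∑ j, ((k j / (ν j : ℤ) : ℤ) : ℝ) * ((ν j : ℝ) * t j) := by
        refine Finset.sum_congr rfl fun j _ => ?_
        rw [hk j]
        ring
      rw [h3, h4]
    have h1 := hA (fun _ => 0) (fun j => x j / ν j)
    have h2 : (fun j => (0 : ℝ) + (ν j : ℝ) * (x j / ν j)) = x := by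
      funext j
      have := hν0 j
      field_simp
      ring
    rw [h2, h0] at h1
    rw [h1, mul_comm]
    congr 4
    refine Finset.sum_congr rfl fun j _ => ?_
    rw [hk j]
    have := hν0 j
    field_simp
  · rw [if_neg hdiv]
    push Not at hdiv
    obtain ⟨j, hj⟩ := hdiv
    have h1 := hA x (Pi.single j (2 * Real.pi / ν j))
    have h2 : I (fun i => x i + (ν i : ℝ) * (Pi.single j (2 * Real.pi / ν j) : Fin d → ℝ) i) =
        I x := by
      rw [hI]
      beta_reduce
      refine integral_congr_ae (Filter.Eventually.of_forall fun t => ?_)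
      beta_reduce
      congr 1
      rw [← hp (fun i => x i + (ν i : ℝ) * t i) j]
      congr 1
      funext i
      by_cases hi : i = j
      · subst hi
        simp only [Function.update_self, Pi.single_eq_same]
        have := hν0 i
        field_simp
        ring
      · simp only [Function.update_of_ne hi, Pi.single_eq_of_ne hi]
        ring
    have h3 : ∑ i, (k i : ℝ) * (Pi.single j (2 * Real.pi / ν j) : Fin d → ℝ) i =
        (k j : ℝ) * (2 * Real.pi / ν j) := by
      rw [Finset.sum_eq_single j]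
      · rw [Pi.single_eq_same]
      · intro i _ hi
        rw [Pi.single_eq_of_ne hi, mul_zero]
      · intro h
        exact absurd (Finset.mem_univ j) h
    rw [h2, h3] at h1
    have h4 : Complex.exp (Complex.I * (((k j : ℝ) * (2 * Real.pi / ν j) : ℝ) : ℂ)) ≠ 1 := by
      intro he
      rw [Complex.exp_eq_one_iff] at he
      obtain ⟨n, hn⟩ := he
      apply hj
      have h5 : (k j : ℝ) = (ν j : ℝ) * n := by
        have h6 : ((((k j : ℝ) * (2 * Real.pi / ν j) : ℝ) : ℂ)) = ((n * (2 * Real.pi) : ℝ) : ℂ) := by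
          have h7 : Complex.I * ((((k j : ℝ) * (2 * Real.pi / ν j) : ℝ) : ℂ)) =
              Complex.I * ((n * (2 * Real.pi) : ℝ) : ℂ) := by
            rw [hn]
            push_cast
            ring
          exact mul_left_cancel₀ Complex.I_ne_zero h7
        have h8 : (k j : ℝ) * (2 * Real.pi / ν j) = n * (2 * Real.pi) := by exact_mod_cast h6
        have h9 := hν0 j
        have h10 := Real.pi_pos
        field_simp at h8
        linarith
      refine ⟨n, ?_⟩
      exact_mod_cast h5
    by_contra hne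
    apply h4
    have h5 : (1 : ℂ) * I x =
        Complex.exp (Complex.I * (((k j : ℝ) * (2 * Real.pi / ν j) : ℝ) : ℂ)) * I x := by
      rw [one_mul]
      exact h1
    exact (mul_right_cancel₀ hne h5).symm

end H506W
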