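import Pool.Agent.H506R3.LW.Defs

set_option autoImplicit false

open Finset
open scoped BigOperators

namespace H506W

theorem GOOD_lev_nonneg {X : Type} (u : X → ℝ) (hu : ∀ x, 0 ≤ u x) (l : ℕ) (x : X) :
    0 ≤ lev u l x := by
  unfold lev
  split_ifs
  · exact hu x
  · exact le_rfl

theorem GOOD_lev_le {X : Type} (u : X → ℝ) (hu : ∀ x, 0 ≤ u x) (l : ℕ) (x : X) :
    lev u l x ≤ u x := by
  unfold lev
  split_ifs
  · exact le_rfl
  · exact hu x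

theorem GOOD_lev_lt {X : Type} (u : X → ℝ) (l : ℕ) (x : X) :
    lev u l x ≤ 2 ^ (l + 1) := by
  unfold lev
  split_ifs with h
  · exact h.2.le
  · positivity

theorem GOOD_decomp {X : Type} (u : X → ℝ) (hu : ∀ x, 0 ≤ u x) (L : ℕ) (x : X)
    (h : u x < 2 ^ L) :
    u x ≤ (if u x < 1 then u x else 0) + ∑ l ∈ range L, lev u l x := by
  have hs : 0 ≤ ∑ l ∈ range L, lev u l x :=
    Finset.sum_nonneg fun l _ => GOOD_lev_nonneg u hu l x
  split_ifs with h1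
  · linarith
  · push Not at h1
    obtain ⟨n, hn1, hn2⟩ := exists_nat_pow_near h1 (by norm_num : (1 : ℝ) < 2)
    have hnL : n < L := by
      by_contra hc
      push Not at hc
      have : (2 : ℝ) ^ L ≤ 2 ^ n := pow_le_pow_right₀ (by norm_num) hc
      linarith
    have h2 : lev u n x = u x := by
      unfold lev
      rw [if_pos ⟨hn1, hn2⟩]
    have h3 := Finset.single_le_sum (f := fun l => lev u l x)
      (fun l _ => GOOD_lev_nonneg u hu l x) (Finset.mem_range.mpr hnL)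
    simp only [h2] at h3
    linarith

/-- `y ^ 2 ≤ a ^ (1/2) y ^ (3/2)` for `0 ≤ y ≤ a` -/
theorem GOOD_sq {y a : ℝ} (hy : 0 ≤ y) (hya : y ≤ a) :
    y ^ 2 ≤ a ^ (1 / 2 : ℝ) * y ^ (3 / 2 : ℝ) := by
  have h1 : y ^ 2 = y ^ (1 / 2 : ℝ) * y ^ (3 / 2 : ℝ) := by
    rw [← Real.rpow_add_of_nonneg hy (by norm_num) (by norm_num)]
    norm_num
  rw [h1]
  exact mul_le_mul_of_nonneg_right (Real.rpow_le_rpow hy hya (by norm_num)) (by positivity)

/-- weighted Cauchy-Schwarz -/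
theorem GOOD_cs (L : ℕ) (ρ : ℝ) (hρ : 0 < ρ) (a : ℝ) (G : ℕ → ℝ) :
    (a + ∑ l ∈ range L, G l) ^ 2 ≤
      (1 + ∑ l ∈ range L, ρ ^ l) * (a ^ 2 + ∑ l ∈ range L, G l ^ 2 / ρ ^ l) := by
  have hW : 0 ≤ ∑ l ∈ range L, ρ ^ l := Finset.sum_nonneg fun l _ => (pow_pos hρ l).le
  have hT : 0 ≤ ∑ l ∈ range L, G l ^ 2 / ρ ^ l :=
    Finset.sum_nonneg fun l _ => div_nonneg (sq_nonneg _) (pow_pos hρ l).le
  have h := Finset.sum_sq_le_sum_mul_sum_of_sq_le_mul (range L)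
    (r := G) (f := fun l => ρ ^ l) (g := fun l => G l ^ 2 / ρ ^ l)
    (fun l _ => (pow_pos hρ l).le) (fun l _ => div_nonneg (sq_nonneg _) (pow_pos hρ l).le)
    (fun l _ => by
      have : ρ ^ l ≠ 0 := (pow_pos hρ l).ne'
      exact le_of_eq (mul_div_cancel₀ _ this).symm)
  set W := ∑ l ∈ range L, ρ ^ l
  set T := ∑ l ∈ range L, G l ^ 2 / ρ ^ l
  set b := ∑ l ∈ range L, G l
  have h1 : (2 * a * b) ^ 2 ≤ (T + W * a ^ 2) ^ 2 := by
    nlinarith [sq_nonneg (T - W * a ^ 2), mul_le_mul_of_nonneg_left h (sq_nonneg a)]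
  have h2 := (le_abs_self _).trans (abs_le_of_sq_le_sq h1 (by positivity))
  nlinarith

theorem GOOD_rho : ∃ ρ τ : ℝ, 0 < ρ ∧ ρ ≤ 0.9171 ∧ 0 < τ ∧ τ ≤ 1.0906 ∧ ρ * τ = 1 ∧
    ρ ^ 8 = 1 / 2 ∧ τ ^ 8 = 2 ∧ τ = (2 : ℝ) ^ (1 / 8 : ℝ) := by
  have h2 : (0 : ℝ) < 2 ^ (1 / 8 : ℝ) := by positivity
  have h8 : ((2 : ℝ) ^ (1 / 8 : ℝ)) ^ 8 = 2 := by
    rw [← Real.rpow_natCast, ← Real.rpow_mul (by norm_num)]
    norm_num
  refine ⟨((2 : ℝ) ^ (1 / 8 : ℝ))⁻¹, (2 : ℝ) ^ (1 / 8 : ℝ), inv_pos.mpr h2, ?_, h2, ?_,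
    inv_mul_cancel₀ h2.ne', ?_, h8, rfl⟩
  · by_contra hc
    push Not at hc
    have h3 : (0.9171 : ℝ) ^ 8 < (((2 : ℝ) ^ (1 / 8 : ℝ))⁻¹) ^ 8 :=
      pow_lt_pow_left₀ hc (by norm_num) (by norm_num)
    rw [inv_pow, h8] at h3
    norm_num at h3
  · by_contra hc
    push Not at hc
    have h3 : (1.0906 : ℝ) ^ 8 < ((2 : ℝ) ^ (1 / 8 : ℝ)) ^ 8 :=
      pow_lt_pow_left₀ hc (by norm_num) (by norm_num)
    rw [h8] at h3
    norm_num at h3
  · rw [inv_pow, h8]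
    norm_num

theorem GOOD_proof : S_GOOD := by
  intro hB X ι σ _ _ _ _ S I0 u M L hM hu hsum i hi hL
  classical
  obtain ⟨ρ, τ, hρ, hρ1, hτ, hτ1, hρτ, hρ8, hτ8, hτe⟩ := GOOD_rho
  have hv : ∀ x, 0 ≤ u i x := hu i
  have hvM : ∑ x, u i x ≤ M := hsum i hi
  have hV := S.V_pos
  have hC := S.C1_pos
  set K : ℝ := M ^ (15 / 8 : ℝ) * S.V ^ (1 / 8 : ℝ) with hK
  have hKpos : 0 < K := by positivity
  have hMM : M ^ (1 / 2 : ℝ) * M ^ (11 / 8 : ℝ) = M ^ (15 / 8 : ℝ) := by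
    rw [← Real.rpow_add hM]
    norm_num
  set low : X → ℝ := fun x => if u i x < 1 then u i x else 0 with hlow
  have hlow0 : ∀ x, 0 ≤ low x := by
    intro x
    simp only [hlow]
    split_ifs
    · exact hv x
    · exact le_rfl
  have hlow1 : ∀ x, low x ≤ 1 := by
    intro x
    simp only [hlow]
    split_ifs with h
    · exact h.le
    · exact zero_le_one
  have hlowu : ∀ x, low x ≤ u i x := by
    intro x
    simp only [hlow]
    split_ifs with h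
    · exact le_rfl
    · exact hv x
  set G : ℕ → ι → ℝ := fun l j => ∑ x ∈ S.R j \ bad S I0 u M L j, lev (u i) l x with hG
  -- low part
  have hlowsum : ∑ j, (∑ x ∈ S.R j, low x) ^ 2 ≤ 2 * S.C1 * K := by
    have h1 : ∑ x, low x ≤ M := (Finset.sum_le_sum fun x _ => hlowu x).trans hvM
    have h2 := hB X ι σ S low 1 M hM one_pos hlow0 hlow1 h1
    have h3 : ∀ j, (∑ x ∈ S.R j, low x) ^ 2 ≤
        M ^ (1 / 2 : ℝ) * (∑ x ∈ S.R j, low x) ^ (3 / 2 : ℝ) := by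
      intro j
      refine GOOD_sq (Finset.sum_nonneg fun x _ => hlow0 x) ?_
      exact (Finset.sum_le_univ_sum_of_nonneg hlow0).trans h1
    calc ∑ j, (∑ x ∈ S.R j, low x) ^ 2
        ≤ ∑ j, M ^ (1 / 2 : ℝ) * (∑ x ∈ S.R j, low x) ^ (3 / 2 : ℝ) :=
          Finset.sum_le_sum fun j _ => h3 j
      _ = M ^ (1 / 2 : ℝ) * ∑ j, (∑ x ∈ S.R j, low x) ^ (3 / 2 : ℝ) := by rw [Finset.mul_sum]
      _ ≤ M ^ (1 / 2 : ℝ) * (2 * S.C1 * (M ^ (11 / 8 : ℝ) * (1 * S.V) ^ (1 / 8 : ℝ))) :=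
          mul_le_mul_of_nonneg_left h2 (by positivity)
      _ = 2 * S.C1 * K := by
          rw [hK, one_mul, ← hMM]
          ring
  -- the level parts
  have hlev : ∀ l ∈ range L, ∑ j, G l j ^ 2 / ρ ^ l ≤ 2 * S.C1 * K * τ * (ρ ^ 2) ^ l := by
    intro l hl
    have hl0 := GOOD_lev_nonneg (u i) hv l
    have h1 : ∑ x, lev (u i) l x ≤ M :=
      (Finset.sum_le_sum fun x _ => GOOD_lev_le (u i) hv l x).trans hvM
    have h2 := hB X ι σ S (lev (u i) l) (2 ^ (l + 1)) M hM (by positivity) hl0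
      (GOOD_lev_lt (u i) l) h1
    have h3 : ∀ j, G l j ^ 2 ≤
        (M / 2 ^ l) ^ (1 / 2 : ℝ) * (∑ x ∈ S.R j, lev (u i) l x) ^ (3 / 2 : ℝ) := by
      intro j
      have hY0 : 0 ≤ ∑ x ∈ S.R j, lev (u i) l x := Finset.sum_nonneg fun x _ => hl0 x
      by_cases hY : M / 2 ^ l ≤ ∑ x ∈ S.R j, lev (u i) l x
      · have h0 : G l j = 0 := by
          simp only [hG]
          refine Finset.sum_eq_zero fun x hx => ?_
          rw [Finset.mem_sdiff] at hx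
          by_contra hne
          refine hx.2 ?_
          unfold bad
          rw [Finset.mem_filter]
          refine ⟨hx.1, i, hi, l, hl, ?_, hY⟩
          by_contra hcon
          refine hne ?_
          unfold lev
          rw [if_neg hcon]
        rw [h0, zero_pow two_ne_zero]
        exact mul_nonneg (Real.rpow_nonneg (by positivity) _) (Real.rpow_nonneg hY0 _)
      · push Not at hY
        have h4 : G l j ≤ ∑ x ∈ S.R j, lev (u i) l x :=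
          Finset.sum_le_sum_of_subset_of_nonneg Finset.sdiff_subset fun x _ _ => hl0 x
        have h5 : 0 ≤ G l j := Finset.sum_nonneg fun x _ => hl0 x
        exact (pow_le_pow_left₀ h5 h4 2).trans (GOOD_sq hY0 hY.le)
    have hp1 : (M / 2 ^ l) ^ (1 / 2 : ℝ) = M ^ (1 / 2 : ℝ) * ρ ^ (4 * l) := by
      have hr : (ρ ^ (4 * l)) ^ 2 = (1 / 2 ^ l : ℝ) := by
        rw [← pow_mul, show 4 * l * 2 = 8 * l by ring, pow_mul, hρ8, div_pow, one_pow]
      have hr2 : ((1 / 2 ^ l : ℝ)) ^ (1 / 2 : ℝ) = ρ ^ (4 * l) := by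
        rw [← hr, ← Real.sqrt_eq_rpow, Real.sqrt_sq (by positivity)]
      rw [div_eq_mul_one_div, Real.mul_rpow hM.le (by positivity), hr2]
    have hp2 : ((2 : ℝ) ^ (l + 1) * S.V) ^ (1 / 8 : ℝ) = τ ^ (l + 1) * S.V ^ (1 / 8 : ℝ) := by
      rw [Real.mul_rpow (by positivity) hV.le]
      congr 1
      rw [hτe, ← Real.rpow_natCast, ← Real.rpow_natCast, ← Real.rpow_mul (by norm_num),
        ← Real.rpow_mul (by norm_num), mul_comm]
    have hsumG : ∑ j, G l j ^ 2 ≤ 2 * S.C1 * K * (ρ ^ (4 * l) * τ ^ (l + 1)) := by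
      calc ∑ j, G l j ^ 2
          ≤ ∑ j, (M / 2 ^ l) ^ (1 / 2 : ℝ) * (∑ x ∈ S.R j, lev (u i) l x) ^ (3 / 2 : ℝ) :=
            Finset.sum_le_sum fun j _ => h3 j
        _ = (M / 2 ^ l) ^ (1 / 2 : ℝ) * ∑ j, (∑ x ∈ S.R j, lev (u i) l x) ^ (3 / 2 : ℝ) := by
            rw [Finset.mul_sum]
        _ ≤ (M / 2 ^ l) ^ (1 / 2 : ℝ) *
            (2 * S.C1 * (M ^ (11 / 8 : ℝ) * ((2 : ℝ) ^ (l + 1) * S.V) ^ (1 / 8 : ℝ))) :=
            mul_le_mul_of_nonneg_left h2 (by positivity)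
        _ = 2 * S.C1 * K * (ρ ^ (4 * l) * τ ^ (l + 1)) := by
            rw [hK, ← hMM, hp1, hp2]
            ring
    have hρl : 0 < ρ ^ l := pow_pos hρ l
    calc ∑ j, G l j ^ 2 / ρ ^ l = (∑ j, G l j ^ 2) / ρ ^ l := by rw [Finset.sum_div]
      _ ≤ (2 * S.C1 * K * (ρ ^ (4 * l) * τ ^ (l + 1))) / ρ ^ l :=
          div_le_div_of_nonneg_right hsumG hρl.le
      _ = 2 * S.C1 * K * τ * (ρ ^ 2) ^ l := by
          rw [div_eq_iff hρl.ne']
          have hx : ρ ^ (4 * l) * τ ^ (l + 1) = τ * (ρ ^ 2) ^ l * ρ ^ l * (ρ * τ) ^ l := by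
            rw [mul_pow, ← pow_mul, pow_succ, show 4 * l = 2 * l + l + l by ring, pow_add,
              pow_add]
            ring
          rw [hx, hρτ, one_pow]
          ring
  -- pointwise decomposition
  have hpt : ∀ j, (∑ x ∈ S.R j \ bad S I0 u M L j, u i x) ^ 2 ≤
      (1 + ∑ l ∈ range L, ρ ^ l) *
        ((∑ x ∈ S.R j, low x) ^ 2 + ∑ l ∈ range L, G l j ^ 2 / ρ ^ l) := by
    intro j
    have h1 : ∑ x ∈ S.R j \ bad S I0 u M L j, u i x ≤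
        (∑ x ∈ S.R j, low x) + ∑ l ∈ range L, G l j := by
      calc ∑ x ∈ S.R j \ bad S I0 u M L j, u i x
          ≤ ∑ x ∈ S.R j \ bad S I0 u M L j, (low x + ∑ l ∈ range L, lev (u i) l x) :=
            Finset.sum_le_sum fun x _ => GOOD_decomp (u i) hv L x (hL x)
        _ = (∑ x ∈ S.R j \ bad S I0 u M L j, low x) + ∑ l ∈ range L, G l j := by
            rw [Finset.sum_add_distrib, Finset.sum_comm]
        _ ≤ _ := by
            have := Finset.sum_le_sum_of_subset_of_nonneg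
              (Finset.sdiff_subset (s := S.R j) (t := bad S I0 u M L j)) (f := low)
              fun x _ _ => hlow0 x
            linarith
    have h0 : 0 ≤ ∑ x ∈ S.R j \ bad S I0 u M L j, u i x := Finset.sum_nonneg fun x _ => hv x
    exact (pow_le_pow_left₀ h0 h1 2).trans (GOOD_cs L ρ hρ _ _)
  have hg1 : ∑ l ∈ range L, ρ ^ l ≤ 12.07 := by
    have h1 : (1 - ρ) * ∑ l ∈ range L, ρ ^ l ≤ 1 := by
      rw [mul_neg_geom_sum]
      have := pow_pos hρ L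
      linarith
    have h0 : 0 ≤ ∑ l ∈ range L, ρ ^ l := Finset.sum_nonneg fun l _ => (pow_pos hρ l).le
    nlinarith
  have hg2 : ∑ l ∈ range L, (ρ ^ 2) ^ l ≤ 6.3 := by
    have h1 : (1 - ρ ^ 2) * ∑ l ∈ range L, (ρ ^ 2) ^ l ≤ 1 := by
      rw [mul_neg_geom_sum]
      have := pow_pos (pow_pos hρ 2) L
      linarith
    have h0 : 0 ≤ ∑ l ∈ range L, (ρ ^ 2) ^ l :=
      Finset.sum_nonneg fun l _ => (pow_pos (pow_pos hρ 2) l).le
    have h2 : ρ ^ 2 ≤ 0.8411 := by nlinarith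
    nlinarith
  have hg0 : 0 ≤ ∑ l ∈ range L, ρ ^ l := Finset.sum_nonneg fun l _ => (pow_pos hρ l).le
  have hg20 : 0 ≤ ∑ l ∈ range L, (ρ ^ 2) ^ l :=
    Finset.sum_nonneg fun l _ => (pow_pos (pow_pos hρ 2) l).le
  have hCK : 0 < S.C1 * K := mul_pos hC hKpos
  calc ∑ j, (∑ x ∈ S.R j \ bad S I0 u M L j, u i x) ^ 2
      ≤ ∑ j, (1 + ∑ l ∈ range L, ρ ^ l) *
        ((∑ x ∈ S.R j, low x) ^ 2 + ∑ l ∈ range L, G l j ^ 2 / ρ ^ l) :=
        Finset.sum_le_sum fun j _ => hpt j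
    _ = (1 + ∑ l ∈ range L, ρ ^ l) *
        (∑ j, (∑ x ∈ S.R j, low x) ^ 2 + ∑ l ∈ range L, ∑ j, G l j ^ 2 / ρ ^ l) := by
        rw [← Finset.mul_sum, Finset.sum_add_distrib]
        congr 2
        exact Finset.sum_comm
    _ ≤ (1 + ∑ l ∈ range L, ρ ^ l) *
        (2 * S.C1 * K + ∑ l ∈ range L, 2 * S.C1 * K * τ * (ρ ^ 2) ^ l) := by
        refine mul_le_mul_of_nonneg_left ?_ (by linarith)
        exact add_le_add hlowsum (Finset.sum_le_sum hlev)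
    _ = (1 + ∑ l ∈ range L, ρ ^ l) * (2 + 2 * (τ * ∑ l ∈ range L, (ρ ^ 2) ^ l)) *
        (S.C1 * K) := by
        rw [← Finset.mul_sum]
        ring
    _ ≤ 256 * (S.C1 * K) := by
        refine mul_le_mul_of_nonneg_right ?_ hCK.le
        have h1 : τ * ∑ l ∈ range L, (ρ ^ 2) ^ l ≤ 1.0906 * 6.3 :=
          mul_le_mul hτ1 hg2 hg20 (by norm_num)
        have h2 : 0 ≤ τ * ∑ l ∈ range L, (ρ ^ 2) ^ l := mul_nonneg hτ.le hg20
        calc (1 + ∑ l ∈ range L, ρ ^ l) * (2 + 2 * (τ * ∑ l ∈ range L, (ρ ^ 2) ^ l))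
            ≤ (1 + 12.07) * (2 + 2 * (1.0906 * 6.3)) :=
              mul_le_mul (by linarith) (by linarith) (by linarith) (by norm_num)
          _ ≤ 256 := by norm_num
    _ = 256 * S.C1 * (M ^ (15 / 8 : ℝ) * S.V ^ (1 / 8 : ℝ)) := by rw [hK]; ring

end H506W
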