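import Pool.Agent.H506R3.LW.Defs

open Finset MeasureTheory
open scoped BigOperators ENNReal

namespace H506W

theorem HAAR_proof : S_HAAR := by
  intro hB X ι σ _ _ _ _ S b hb
  have hV := S.V_pos
  have hC := S.C1_pos
  rcases b.eq_empty_or_nonempty with h0 | hne
  · subst h0
    simp
  have hM : (0 : ℝ) < b.card := by exact_mod_cast hne.card_pos
  set M : ℝ := (b.card : ℝ) with hMdef
  have hcard : ∀ i, ∑ x ∈ S.R i, (if x ∈ b then (1 : ℝ) else 0) = ((S.R i ∩ b).card : ℝ) := by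
    intro i
    rw [← Finset.sum_filter, Finset.sum_const, nsmul_eq_mul, mul_one, Finset.filter_mem_eq_inter]
  have h1 := hB X ι σ S (fun x => if x ∈ b then 1 else 0) 1 M hM one_pos
    (fun x => by split_ifs <;> norm_num) (fun x => by split_ifs <;> norm_num)
    (by
      rw [← Finset.sum_filter, Finset.sum_const, nsmul_eq_mul, mul_one, Finset.filter_mem_eq_inter,
        Finset.univ_inter])
  simp only [hcard, one_mul] at h1
  have h2 : ∀ i, ((S.R i ∩ b).card : ℝ) ^ 2 ≤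
      M ^ (1 / 2 : ℝ) * ((S.R i ∩ b).card : ℝ) ^ (3 / 2 : ℝ) := by
    intro i
    have hn0 : (0 : ℝ) ≤ ((S.R i ∩ b).card : ℝ) := Nat.cast_nonneg _
    have hnM : ((S.R i ∩ b).card : ℝ) ≤ M := by
      rw [hMdef]
      exact_mod_cast Finset.card_le_card Finset.inter_subset_right
    have e : ((S.R i ∩ b).card : ℝ) ^ 2 =
        ((S.R i ∩ b).card : ℝ) ^ (1 / 2 : ℝ) * ((S.R i ∩ b).card : ℝ) ^ (3 / 2 : ℝ) := by
      rw [← Real.rpow_add_of_nonneg hn0 (by norm_num) (by norm_num)]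
      norm_num
    rw [e]
    exact mul_le_mul_of_nonneg_right (Real.rpow_le_rpow hn0 hnM (by norm_num))
      (Real.rpow_nonneg hn0 _)
  have h3 : M ^ (1 / 2 : ℝ) * M ^ (11 / 8 : ℝ) = M * M ^ (7 / 8 : ℝ) := by
    rw [← Real.rpow_add hM]
    nth_rewrite 2 [← Real.rpow_one M]
    rw [← Real.rpow_add hM]
    norm_num
  have h4 : M ^ (7 / 8 : ℝ) * S.V ^ (1 / 8 : ℝ) ≤ S.V := by
    calc M ^ (7 / 8 : ℝ) * S.V ^ (1 / 8 : ℝ) ≤ S.V ^ (7 / 8 : ℝ) * S.V ^ (1 / 8 : ℝ) :=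
          mul_le_mul_of_nonneg_right (Real.rpow_le_rpow hM.le hb (by norm_num))
            (Real.rpow_nonneg hV.le _)
      _ = S.V := by
          rw [← Real.rpow_add hV]; norm_num
  calc ∑ i, ((S.R i ∩ b).card : ℝ) ^ 2
      ≤ ∑ i, M ^ (1 / 2 : ℝ) * ((S.R i ∩ b).card : ℝ) ^ (3 / 2 : ℝ) :=
        Finset.sum_le_sum fun i _ => h2 i
    _ = M ^ (1 / 2 : ℝ) * ∑ i, ((S.R i ∩ b).card : ℝ) ^ (3 / 2 : ℝ) := by
        rw [Finset.mul_sum]
    _ ≤ M ^ (1 / 2 : ℝ) * (2 * S.C1 * (M ^ (11 / 8 : ℝ) * S.V ^ (1 / 8 : ℝ))) :=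
        mul_le_mul_of_nonneg_left h1 (Real.rpow_nonneg hM.le _)
    _ = 2 * S.C1 * ((M ^ (1 / 2 : ℝ) * M ^ (11 / 8 : ℝ)) * S.V ^ (1 / 8 : ℝ)) := by ring
    _ = 2 * S.C1 * (M * (M ^ (7 / 8 : ℝ) * S.V ^ (1 / 8 : ℝ))) := by rw [h3]; ring
    _ ≤ 2 * S.C1 * (M * S.V) := by
        apply mul_le_mul_of_nonneg_left _ (by positivity)
        exact mul_le_mul_of_nonneg_left h4 hM.le
    _ = 2 * S.C1 * (S.V * M) := by ring

end H506W
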