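import Pool.Agent.H506R3.LW.Defs2

/-!
# Jackson kernels
-/

set_option autoImplicit false

open Finset MeasureTheory
open scoped BigOperators ENNReal

namespace H506W

/-- Dirichlet type sum -/
noncomputable def KER_D (N : ℕ) (t : ℝ) : ℂ :=
  ∑ j ∈ range N, Complex.exp (Complex.I * ((j * t : ℝ) : ℂ))

/-- its power -/
noncomputable def KER_F (q N : ℕ) (t : ℝ) : ℝ := (‖KER_D N t‖ ^ 2) ^ q

theorem KER_D_cont (N : ℕ) : Continuous (KER_D N) := by
  unfold KER_D
  fun_prop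

theorem KER_F_cont (q N : ℕ) : Continuous (KER_F q N) := by
  unfold KER_F
  exact ((KER_D_cont N).norm.pow 2).pow q

theorem KER_F_nonneg (q N : ℕ) (t : ℝ) : 0 ≤ KER_F q N t := by
  unfold KER_F
  positivity

theorem KER_sq (N : ℕ) (t : ℝ) : ((‖KER_D N t‖ ^ 2 : ℝ) : ℂ) =
    ∑ p ∈ range N ×ˢ range N,
      Complex.exp (-(Complex.I * (((((p.2 : ℤ) - (p.1 : ℤ) : ℤ) : ℝ) * t : ℝ) : ℂ))) := by
  have h : ((‖KER_D N t‖ ^ 2 : ℝ) : ℂ) = KER_D N t * (starRingEnd ℂ) (KER_D N t) := by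
    rw [Complex.mul_conj, Complex.normSq_eq_norm_sq]
  rw [h, KER_D, map_sum, Finset.sum_mul_sum, Finset.sum_product]
  refine Finset.sum_congr rfl fun j _ => Finset.sum_congr rfl fun j' _ => ?_
  rw [← Complex.exp_conj, ← Complex.exp_add]
  congr 1
  rw [map_mul, Complex.conj_I, Complex.conj_ofReal]
  push_cast
  ring

theorem KER_trig (q N n : ℕ) (hn : q * (N - 1) ≤ n) : ∃ b : ℤ → ℂ, ∀ t : ℝ,
    (KER_F q N t : ℂ) = ∑ k ∈ Finset.Icc (-(n : ℤ)) n,
      b k * Complex.exp (-(Complex.I * ((k * t : ℝ) : ℂ))) := by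
  set Ω : Finset (Fin q → ℕ × ℕ) := Fintype.piFinset (fun _ : Fin q => range N ×ˢ range N) with hΩ
  set κ : (Fin q → ℕ × ℕ) → ℤ := fun φ => ∑ i, (((φ i).2 : ℤ) - ((φ i).1 : ℤ)) with hκd
  have hκ : ∀ φ ∈ Ω, κ φ ∈ Finset.Icc (-(n : ℤ)) n := by
    intro φ hφ
    rw [hΩ, Fintype.mem_piFinset] at hφ
    have h1 : |κ φ| ≤ (n : ℤ) := by
      calc |κ φ| ≤ ∑ i, |((φ i).2 : ℤ) - ((φ i).1 : ℤ)| := Finset.abs_sum_le_sum_abs _ _
        _ ≤ ∑ _i : Fin q, ((N - 1 : ℕ) : ℤ) := by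
            refine Finset.sum_le_sum fun i _ => ?_
            have h2 := hφ i
            rw [Finset.mem_product, Finset.mem_range, Finset.mem_range] at h2
            rw [abs_le]
            constructor <;> omega
        _ = ((q * (N - 1) : ℕ) : ℤ) := by
            rw [Finset.sum_const, Finset.card_univ, Fintype.card_fin, nsmul_eq_mul]
            push_cast
            ring
        _ ≤ n := by exact_mod_cast hn
    rw [Finset.mem_Icc]
    exact abs_le.1 h1
  refine ⟨fun k => ((Ω.filter (fun φ => κ φ = k)).card : ℂ), fun t => ?_⟩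
  have h1 : (KER_F q N t : ℂ) =
      ∑ φ ∈ Ω, Complex.exp (-(Complex.I * (((κ φ : ℝ) * t : ℝ) : ℂ))) := by
    rw [KER_F, Complex.ofReal_pow, KER_sq]
    have h2 := Finset.prod_univ_sum (fun _ : Fin q => range N ×ˢ range N)
      (fun _ p => Complex.exp (-(Complex.I * (((((p.2 : ℤ) - (p.1 : ℤ) : ℤ) : ℝ) * t : ℝ) : ℂ))))
    rw [Finset.prod_const, Finset.card_univ, Fintype.card_fin] at h2
    rw [h2]
    refine Finset.sum_congr rfl fun φ _ => ?_
    rw [← Complex.exp_sum]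
    congr 1
    rw [Finset.sum_neg_distrib, ← Finset.mul_sum, hκd]
    congr 2
    push_cast
    rw [Finset.sum_mul]
  rw [h1, ← Finset.sum_fiberwise_of_maps_to hκ]
  refine Finset.sum_congr rfl fun k _ => ?_
  rw [Finset.sum_congr rfl (g := fun _ => Complex.exp (-(Complex.I * (((k : ℝ) * t : ℝ) : ℂ))))
    (fun φ hφ => by rw [(Finset.mem_filter.1 hφ).2]), Finset.sum_const, nsmul_eq_mul]

theorem KER_T1 (f : ℝ → ℝ) :
    ∫ t, f t ∂T1 = (2 * Real.pi)⁻¹ * ∫ t in Set.Ico 0 (2 * Real.pi), f t := by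
  rw [T1, integral_smul_measure, ENNReal.toReal_ofReal (by positivity), smul_eq_mul]

theorem KER_norm_le (N : ℕ) (t : ℝ) : ‖KER_D N t‖ ≤ N := by
  unfold KER_D
  refine (norm_sum_le _ _).trans ?_
  have : ∀ j ∈ range N, ‖Complex.exp (Complex.I * ((j * t : ℝ) : ℂ))‖ ≤ 1 := by
    intro j _
    rw [mul_comm, Complex.norm_exp_ofReal_mul_I]
  refine (Finset.sum_le_sum this).trans ?_
  simp

theorem KER_norm_ge (N : ℕ) (t : ℝ) (h0 : 0 ≤ t) (h1 : N * t ≤ 1) : (N : ℝ) / 2 ≤ ‖KER_D N t‖ := by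
  refine le_trans ?_ (Complex.re_le_norm _)
  unfold KER_D
  rw [Complex.re_sum]
  have h2 : ∀ j ∈ range N, (1 / 2 : ℝ) ≤ (Complex.exp (Complex.I * ((j * t : ℝ) : ℂ))).re := by
    intro j hj
    rw [mul_comm, Complex.exp_ofReal_mul_I_re]
    have hj' : (j : ℝ) ≤ N := by exact_mod_cast (Finset.mem_range.1 hj).le
    have h3 : (j : ℝ) * t ≤ 1 := (mul_le_mul_of_nonneg_right hj' h0).trans h1
    have h4 : 0 ≤ (j : ℝ) * t := by positivity
    have h5 := Real.one_sub_sq_div_two_le_cos (x := (j : ℝ) * t)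
    nlinarith
  calc (N : ℝ) / 2 = ∑ _j ∈ range N, (1 / 2 : ℝ) := by
        rw [Finset.sum_const, Finset.card_range, nsmul_eq_mul]
        ring
    _ ≤ _ := Finset.sum_le_sum h2

theorem KER_dd_nonneg {t : ℝ} (ht : t ∈ Set.Ico 0 (2 * Real.pi)) : 0 ≤ dd t := by
  unfold dd
  exact le_min ht.1 (by linarith [ht.2])

theorem KER_norm_dd (N : ℕ) (t : ℝ) (ht : t ∈ Set.Ico 0 (2 * Real.pi)) :
    ‖KER_D N t‖ * dd t ≤ Real.pi := by
  have hpi := Real.pi_pos
  have h1 : KER_D N t * (Complex.exp (Complex.I * (t : ℂ)) - 1) =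
      Complex.exp (Complex.I * (t : ℂ)) ^ N - 1 := by
    rw [← geom_sum_mul]
    congr 1
    unfold KER_D
    refine Finset.sum_congr rfl fun j _ => ?_
    rw [← Complex.exp_nat_mul]
    congr 1
    push_cast
    ring
  have h2 : ‖Complex.exp (Complex.I * (t : ℂ)) ^ N - 1‖ ≤ 2 := by
    refine (norm_sub_le _ _).trans ?_
    rw [norm_pow, mul_comm, Complex.norm_exp_ofReal_mul_I, one_pow, norm_one]
    norm_num
  have h3 : ‖Complex.exp (Complex.I * (t : ℂ)) - 1‖ = 2 * Real.sin (t / 2) := by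
    rw [Complex.norm_exp_I_mul_ofReal_sub_one, Real.norm_of_nonneg]
    have : 0 ≤ Real.sin (t / 2) :=
      Real.sin_nonneg_of_nonneg_of_le_pi (by linarith [ht.1]) (by linarith [ht.2])
    positivity
  have h4 : dd t / Real.pi ≤ Real.sin (t / 2) := by
    rcases le_total t Real.pi with h | h
    · have h5 := Real.mul_le_sin (x := t / 2) (by linarith [ht.1]) (by linarith)
      have h6 : dd t ≤ t := min_le_left _ _
      have h7 : 2 / Real.pi * (t / 2) = t / Real.pi := by ring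
      rw [h7] at h5
      exact (div_le_div_of_nonneg_right h6 hpi.le).trans h5
    · have h5 := Real.mul_le_sin (x := Real.pi - t / 2) (by linarith [ht.2]) (by linarith)
      rw [Real.sin_pi_sub] at h5
      have h6 : dd t ≤ 2 * Real.pi - t := min_le_right _ _
      have h7 : 2 / Real.pi * (Real.pi - t / 2) = (2 * Real.pi - t) / Real.pi := by
        field_simp
      rw [h7] at h5
      exact (div_le_div_of_nonneg_right h6 hpi.le).trans h5
  have h5 := congrArg norm h1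
  rw [norm_mul, h3] at h5
  have h6 : ‖KER_D N t‖ * (2 * (dd t / Real.pi)) ≤ 2 := by
    calc ‖KER_D N t‖ * (2 * (dd t / Real.pi)) ≤ ‖KER_D N t‖ * (2 * Real.sin (t / 2)) :=
          mul_le_mul_of_nonneg_left (by linarith) (norm_nonneg _)
      _ ≤ 2 := by rw [h5]; exact h2
  have h7 : ‖KER_D N t‖ * (2 * (dd t / Real.pi)) = ‖KER_D N t‖ * dd t * 2 / Real.pi := by ring
  rw [h7, div_le_iff₀ hpi] at h6
  linarith

/-- pointwise bound -/
theorem KER_point (q N : ℕ) (hN : 1 ≤ N) (r : ℝ) (hr : 0 < r) (hq : r + 2 ≤ 2 * q) (D x : ℝ)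
    (hD : 0 ≤ D) (hx : 0 ≤ x) (h1 : D ≤ N) (h2 : D * x ≤ Real.pi) :
    (D ^ 2) ^ q * x ^ r ≤
      Real.pi ^ (2 * q) * (N : ℝ) ^ (2 * (q : ℝ) - r) * (2 * (1 + (N * x) ^ 2)⁻¹) := by
  have hpi := Real.pi_gt_three
  have hN1 : (1 : ℝ) ≤ N := by exact_mod_cast hN
  have hN0 : (0 : ℝ) < N := by linarith
  rw [← pow_mul]
  have hpow : (N : ℝ) ^ (2 * (q : ℝ) - r) = (N : ℝ) ^ (2 * q) * (N : ℝ) ^ (-r) := by
    rw [sub_eq_add_neg, Real.rpow_add hN0]
    congr 1
    rw [← Real.rpow_natCast]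
    push_cast
    rfl
  rcases le_or_gt (N * x) 1 with h | h
  · have a1 : D ^ (2 * q) ≤ (N : ℝ) ^ (2 * q) := pow_le_pow_left₀ hD h1 _
    have a2 : x ^ r ≤ (N : ℝ) ^ (-r) := by
      have : x ≤ (N : ℝ)⁻¹ := by
        rw [← one_div, le_div_iff₀ hN0]
        linarith
      refine (Real.rpow_le_rpow hx this hr.le).trans (le_of_eq ?_)
      rw [Real.inv_rpow hN0.le, Real.rpow_neg hN0.le]
    have a3 : 1 ≤ 2 * (1 + (N * x) ^ 2)⁻¹ := by
      rw [← div_eq_mul_inv, le_div_iff₀ (by positivity)]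
      have : 0 ≤ (N : ℝ) * x := by positivity
      nlinarith
    have a4 : (1 : ℝ) ≤ Real.pi ^ (2 * q) := one_le_pow₀ (by linarith)
    calc D ^ (2 * q) * x ^ r ≤ (N : ℝ) ^ (2 * q) * (N : ℝ) ^ (-r) :=
          mul_le_mul a1 a2 (by positivity) (by positivity)
      _ = (1 * (N : ℝ) ^ (2 * (q : ℝ) - r)) * 1 := by rw [hpow]; ring
      _ ≤ _ := by
          apply mul_le_mul _ a3 (by norm_num) (by positivity)
          exact mul_le_mul_of_nonneg_right a4 (by positivity)
  · have hx0 : 0 < x := by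
      rcases hx.eq_or_lt with h0 | h0
      · rw [← h0, mul_zero] at h
        linarith
      · exact h0
    have a1 : D ≤ Real.pi / x := by rwa [le_div_iff₀ hx0]
    have a2 : D ^ (2 * q) ≤ Real.pi ^ (2 * q) * x ^ (-(2 * (q : ℝ))) := by
      refine (pow_le_pow_left₀ hD a1 _).trans (le_of_eq ?_)
      rw [div_pow, Real.rpow_neg hx, ← Real.rpow_natCast x]
      push_cast
      rfl
    have a3 : x ^ (-(2 * (q : ℝ))) * x ^ r = (N : ℝ) ^ (2 * (q : ℝ) - r) *
        (N * x) ^ (r - 2 * (q : ℝ)) := by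
      rw [← Real.rpow_add hx0, Real.mul_rpow hN0.le hx, ← mul_assoc, ← Real.rpow_add hN0]
      have e1 : 2 * (q : ℝ) - r + (r - 2 * q) = 0 := by ring
      have e2 : -(2 * (q : ℝ)) + r = r - 2 * q := by ring
      rw [e1, e2, Real.rpow_zero, one_mul]
    have a4 : (N * x) ^ (r - 2 * (q : ℝ)) ≤ 2 * (1 + (N * x) ^ 2)⁻¹ := by
      have b1 : (N * x) ^ (r - 2 * (q : ℝ)) ≤ (N * x) ^ (-2 : ℝ) :=
        Real.rpow_le_rpow_of_exponent_le h.le (by linarith)
      refine b1.trans ?_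
      rw [Real.rpow_neg (by positivity), ← div_eq_mul_inv, ← one_div,
        div_le_div_iff₀ (by positivity) (by positivity)]
      have e3 : (N * x) ^ (2 : ℝ) = (N * x) ^ 2 := Real.rpow_two _
      rw [e3]
      nlinarith
    calc D ^ (2 * q) * x ^ r ≤ (Real.pi ^ (2 * q) * x ^ (-(2 * (q : ℝ)))) * x ^ r :=
          mul_le_mul_of_nonneg_right a2 (by positivity)
      _ = (Real.pi ^ (2 * q) * (N : ℝ) ^ (2 * (q : ℝ) - r)) * (N * x) ^ (r - 2 * (q : ℝ)) := by
          rw [mul_assoc, a3]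
          ring
      _ ≤ _ := mul_le_mul_of_nonneg_left a4 (by positivity)

theorem KER_int_univ (N : ℕ) (hN : 1 ≤ N) :
    Integrable (fun t : ℝ => (1 + (N * t) ^ 2)⁻¹) ∧
      ∫ t : ℝ, (1 + (N * t) ^ 2)⁻¹ = Real.pi / N := by
  have hN0 : (0 : ℝ) < N := by exact_mod_cast hN
  constructor
  · exact integrable_inv_one_add_sq.comp_mul_left' hN0.ne'
  · have := Measure.integral_comp_mul_left (fun x : ℝ => (1 + x ^ 2)⁻¹) (N : ℝ)
    rw [this, integral_univ_inv_one_add_sq, smul_eq_mul, abs_of_pos (by positivity)]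
    ring

/-- the upper bound -/
theorem KER_upper (q N : ℕ) (hN : 1 ≤ N) (r : ℝ) (hr : 0 < r) (hq : r + 2 ≤ 2 * q) :
    ∫ t in Set.Ico 0 (2 * Real.pi), KER_F q N t * (dd t) ^ r ≤
      Real.pi ^ (2 * q) * (N : ℝ) ^ (2 * (q : ℝ) - r) * (4 * (Real.pi / N)) := by
  have hN0 : (0 : ℝ) < N := by exact_mod_cast hN
  set A : ℝ := Real.pi ^ (2 * q) * (N : ℝ) ^ (2 * (q : ℝ) - r) with hA
  have hA0 : 0 ≤ A := by positivity
  obtain ⟨i1, v1⟩ := KER_int_univ N hN
  have i2 : Integrable (fun t : ℝ => (1 + (N * (2 * Real.pi - t)) ^ 2)⁻¹) :=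
    i1.comp_sub_left (2 * Real.pi)
  have v2 : ∫ t : ℝ, (1 + (N * (2 * Real.pi - t)) ^ 2)⁻¹ = Real.pi / N := by
    rw [← v1]
    exact integral_sub_left_eq_self (fun t : ℝ => (1 + (N * t) ^ 2)⁻¹) volume (2 * Real.pi)
  set g : ℝ → ℝ := fun t => A * (2 * ((1 + (N * t) ^ 2)⁻¹ + (1 + (N * (2 * Real.pi - t)) ^ 2)⁻¹))
    with hg
  have ig : Integrable g := ((i1.add i2).const_mul 2).const_mul A
  have g0 : ∀ t, 0 ≤ g t := fun t => by
    simp only [hg]
    positivity
  calc ∫ t in Set.Ico 0 (2 * Real.pi), KER_F q N t * (dd t) ^ r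
      ≤ ∫ t in Set.Ico 0 (2 * Real.pi), g t := by
        apply integral_mono_of_nonneg
        · filter_upwards [ae_restrict_mem measurableSet_Ico] with t ht
          exact mul_nonneg (KER_F_nonneg q N t) (Real.rpow_nonneg (KER_dd_nonneg ht) _)
        · exact ig.integrableOn
        · filter_upwards [ae_restrict_mem measurableSet_Ico] with t ht
          have h1 := KER_point q N hN r hr hq ‖KER_D N t‖ (dd t) (norm_nonneg _)
            (KER_dd_nonneg ht) (KER_norm_le N t) (KER_norm_dd N t ht)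
          refine h1.trans ?_
          rw [← hA]
          simp only [hg]
          apply mul_le_mul_of_nonneg_left _ hA0
          apply mul_le_mul_of_nonneg_left _ (by norm_num)
          have p1 : 0 ≤ (1 + (N * t) ^ 2)⁻¹ := by positivity
          have p2 : 0 ≤ (1 + (N * (2 * Real.pi - t)) ^ 2)⁻¹ := by positivity
          unfold dd
          rcases min_choice t (2 * Real.pi - t) with h | h
          · rw [h]
            linarith
          · rw [h]
            linarith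
    _ ≤ ∫ t, g t := setIntegral_le_integral ig (Filter.Eventually.of_forall g0)
    _ = A * (4 * (Real.pi / N)) := by
        simp only [hg]
        rw [integral_const_mul, integral_const_mul, integral_add i1 i2, v1, v2]
        ring

/-- the lower bound -/
theorem KER_lower (q N : ℕ) (hN : 1 ≤ N) :
    (1 / (N : ℝ)) * ((N : ℝ) / 2) ^ (2 * q) ≤ ∫ t in Set.Ico 0 (2 * Real.pi), KER_F q N t := by
  have hN1 : (1 : ℝ) ≤ N := by exact_mod_cast hN
  have hN0 : (0 : ℝ) < N := by linarith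
  have hpi := Real.pi_gt_three
  have hint : ∀ a b : ℝ, IntegrableOn (KER_F q N) (Set.Ico a b) := fun a b =>
    ((KER_F_cont q N).integrableOn_Icc).mono_set Set.Ico_subset_Icc_self
  have hle : 1 / (N : ℝ) ≤ 2 * Real.pi := by
    have : 1 / (N : ℝ) ≤ 1 := by rw [div_le_one hN0]; exact hN1
    linarith
  calc (1 / (N : ℝ)) * ((N : ℝ) / 2) ^ (2 * q)
      = ∫ _t in Set.Ico 0 (1 / (N : ℝ)), ((N : ℝ) / 2) ^ (2 * q) := by
        rw [setIntegral_const, smul_eq_mul, Measure.real, Real.volume_Ico, sub_zero,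
          ENNReal.toReal_ofReal (by positivity)]
    _ ≤ ∫ t in Set.Ico 0 (1 / (N : ℝ)), KER_F q N t := by
        apply setIntegral_mono_on _ (hint _ _) measurableSet_Ico
        · intro t ht
          have h1 : (N : ℝ) * t ≤ 1 := by
            have := ht.2.le
            rw [le_div_iff₀ hN0] at this
            linarith
          have h2 := KER_norm_ge N t ht.1 h1
          unfold KER_F
          rw [pow_mul]
          exact pow_le_pow_left₀ (by positivity) (pow_le_pow_left₀ (by positivity) h2 2) q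
        · exact integrableOn_const (by simp)
    _ ≤ ∫ t in Set.Ico 0 (2 * Real.pi), KER_F q N t := by
        apply setIntegral_mono_set (hint _ _)
        · exact Filter.Eventually.of_forall fun t => KER_F_nonneg q N t
        · exact (Set.Ico_subset_Ico_right hle).eventuallyLE

theorem KER_proof : S_KER := by
  intro r hr
  obtain ⟨q, hq⟩ : ∃ q : ℕ, r + 2 ≤ 2 * q := by
    obtain ⟨q, hq⟩ := exists_nat_ge ((r + 2) / 2)
    exact ⟨q, by linarith⟩
  have hq0 : 0 < q := by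
    rcases Nat.eq_zero_or_pos q with h | h
    · subst h
      norm_num at hq
      linarith
    · exact h
  have hq0' : (0 : ℝ) < q := by exact_mod_cast hq0
  set N : ℕ → ℕ := fun s => 2 ^ s / q + 1 with hNd
  have hN1 : ∀ s, 1 ≤ N s := fun s => by simp [hNd]
  have hNq : ∀ s, q * (N s - 1) ≤ 2 ^ s := fun s => by
    simp only [hNd, Nat.add_sub_cancel]
    exact Nat.mul_div_le _ _
  have hNge : ∀ s, (2 : ℝ) ^ s / q ≤ N s := fun s => by
    simp only [hNd]
    rw [div_le_iff₀ hq0']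
    have h1 : 2 ^ s < (2 ^ s / q + 1) * q := by
      have h2 := Nat.div_add_mod (2 ^ s) q
      have h3 := Nat.mod_lt (2 ^ s) hq0
      nlinarith
    exact_mod_cast h1.le
  choose b hb using fun s => KER_trig q (N s) (2 ^ s) (hNq s)
  set Z : ℕ → ℝ := fun s => ∫ t, KER_F q (N s) t ∂T1 with hZd
  have hZge : ∀ s, (2 * Real.pi)⁻¹ * ((1 / (N s : ℝ)) * ((N s : ℝ) / 2) ^ (2 * q)) ≤ Z s := by
    intro s
    simp only [hZd]
    rw [KER_T1]
    exact mul_le_mul_of_nonneg_left (KER_lower q (N s) (hN1 s)) (by positivity)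
  have hZ : ∀ s, 0 < Z s := by
    intro s
    refine lt_of_lt_of_le ?_ (hZge s)
    have : (0 : ℝ) < N s := by exact_mod_cast hN1 s
    positivity
  refine ⟨{
    b := fun s k => b s k / (Z s : ℂ)
    rho := fun s t => KER_F q (N s) t / Z s
    C := 4 * Real.pi * (2 * Real.pi) ^ (2 * q) * (q : ℝ) ^ r
    C_pos := by positivity
    nonneg := fun s t => div_nonneg (KER_F_nonneg _ _ _) (hZ s).le
    eq := ?_
    int := ?_
    mom := ?_ }⟩
  · intro s t
    rw [Complex.ofReal_div, hb s t, Finset.sum_div]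
    have e : Finset.Icc (-((2 ^ s : ℕ) : ℤ)) ((2 ^ s : ℕ) : ℤ) =
        Finset.Icc (-(2 : ℤ) ^ s) (2 ^ s) := by
      push_cast
      rfl
    rw [e]
    refine Finset.sum_congr rfl fun k _ => ?_
    ring
  · intro s
    rw [integral_div]
    exact div_self (hZ s).ne'
  · intro s
    have hN0 : (0 : ℝ) < N s := by exact_mod_cast hN1 s
    have h1 : ∫ t, KER_F q (N s) t / Z s * (dd t) ^ r ∂T1 =
        (∫ t, KER_F q (N s) t * (dd t) ^ r ∂T1) / Z s := by
      rw [← integral_div]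
      congr 1
      funext t
      ring
    rw [h1, div_le_iff₀ (hZ s), KER_T1]
    have h2 := KER_upper q (N s) (hN1 s) r hr hq
    have h3 : (N s : ℝ) ^ (-r) ≤ (q : ℝ) ^ r * (2 : ℝ) ^ (-(r * s)) := by
      have h4 := Real.rpow_le_rpow_of_nonpos (x := (2 : ℝ) ^ s / q) (y := N s) (z := -r)
        (by positivity) (hNge s) (by linarith)
      refine h4.trans (le_of_eq ?_)
      rw [Real.div_rpow (by positivity) hq0'.le, Real.rpow_neg hq0'.le r, div_inv_eq_mul,
        ← Real.rpow_natCast, ← Real.rpow_mul (by norm_num), mul_comm]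
      congr 2
      ring
    have h5 : (N s : ℝ) ^ (2 * (q : ℝ) - r) = (N s : ℝ) ^ (2 * q) * (N s : ℝ) ^ (-r) := by
      rw [sub_eq_add_neg, Real.rpow_add hN0]
      congr 1
      rw [← Real.rpow_natCast]
      push_cast
      rfl
    have h6 : (2 * Real.pi)⁻¹ * (∫ t in Set.Ico 0 (2 * Real.pi), KER_F q (N s) t * (dd t) ^ r) ≤
        (2 * Real.pi)⁻¹ * (Real.pi ^ (2 * q) * (N s : ℝ) ^ (2 * (q : ℝ) - r) *
          (4 * (Real.pi / N s))) :=
      mul_le_mul_of_nonneg_left h2 (by positivity)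
    refine h6.trans ?_
    have h7 : (2 * Real.pi)⁻¹ * (Real.pi ^ (2 * q) * (N s : ℝ) ^ (2 * (q : ℝ) - r) *
          (4 * (Real.pi / N s))) =
        (4 * Real.pi * (2 * Real.pi) ^ (2 * q) * (N s : ℝ) ^ (-r)) *
          ((2 * Real.pi)⁻¹ * ((1 / (N s : ℝ)) * ((N s : ℝ) / 2) ^ (2 * q))) := by
      rw [h5, mul_pow, div_pow]
      have : (2 : ℝ) ^ (2 * q) ≠ 0 := by positivity
      field_simp
    rw [h7]
    have h8 : 4 * Real.pi * (2 * Real.pi) ^ (2 * q) * (N s : ℝ) ^ (-r) ≤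
        4 * Real.pi * (2 * Real.pi) ^ (2 * q) * (q : ℝ) ^ r * (2 : ℝ) ^ (-(r * s)) := by
      rw [mul_assoc (4 * Real.pi * (2 * Real.pi) ^ (2 * q))]
      exact mul_le_mul_of_nonneg_left h3 (by positivity)
    exact mul_le_mul h8 (hZge s) (by positivity) (by positivity)

end H506W
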