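import Pool.Agent.H506R3.LW.Defs2

/-!
# LIM: sums over boxes
-/

set_option autoImplicit false

open Finset MeasureTheory
open scoped BigOperators ENNReal

namespace H506W

instance LIM_prob : IsProbabilityMeasure T1 := by
  refine ⟨?_⟩
  have h2 : (0 : ℝ) < 2 * Real.pi := by positivity
  unfold T1
  rw [Measure.smul_apply, Measure.restrict_apply_univ, Real.volume_Ico, sub_zero, smul_eq_mul,
    ← ENNReal.ofReal_mul (by positivity), inv_mul_cancel₀ h2.ne', ENNReal.ofReal_one]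

theorem LIM_TP (d : ℕ) : HypVol.TP d = Measure.pi (fun _ : Fin d => T1) := rfl

instance LIM_probP (d : ℕ) : IsProbabilityMeasure (HypVol.TP d) := by
  rw [LIM_TP]
  infer_instance

theorem LIM_rho_cont {r : ℝ} (K : Ker r) (s : ℕ) : Continuous (K.rho s) := by
  have h1 : K.rho s = fun t => (∑ k ∈ Finset.Icc (-(2 : ℤ) ^ s) (2 ^ s),
      K.b s k * Complex.exp (-(Complex.I * ((k * t : ℝ) : ℂ)))).re := by
    funext t
    rw [← K.eq s t, Complex.ofReal_re]
  rw [h1]
  fun_prop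

theorem LIM_rho_bdd {r : ℝ} (K : Ker r) (s : ℕ) : ∃ B : ℝ, ∀ t, |K.rho s t| ≤ B := by
  refine ⟨∑ k ∈ Finset.Icc (-(2 : ℤ) ^ s) (2 ^ s), ‖K.b s k‖, fun t => ?_⟩
  have h1 : |K.rho s t| = ‖(K.rho s t : ℂ)‖ := by
    rw [Complex.norm_real, Real.norm_eq_abs]
  rw [h1, K.eq s t]
  refine (norm_sum_le _ _).trans (Finset.sum_le_sum fun k _ => ?_)
  rw [norm_mul]
  have h2 : ‖Complex.exp (-(Complex.I * ((k * t : ℝ) : ℂ)))‖ = 1 := by
    rw [show -(Complex.I * ((k * t : ℝ) : ℂ)) = ((-(k * t) : ℝ) : ℂ) * Complex.I by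
      push_cast; ring]
    exact Complex.norm_exp_ofReal_mul_I _
  rw [h2, mul_one]

theorem LIM_kd_cont {r : ℝ} (K : Ker r) (s : ℕ) : Continuous (kd K s) := by
  unfold kd
  by_cases hs : s = 0
  · simp only [hs, if_true]
    exact (LIM_rho_cont K 0).sub continuous_const
  · simp only [hs, if_false]
    exact (LIM_rho_cont K s).sub (LIM_rho_cont K (s - 1))

theorem LIM_kd_bdd {r : ℝ} (K : Ker r) (s : ℕ) : ∃ B : ℝ, ∀ t, |kd K s t| ≤ B := by
  obtain ⟨B1, h1⟩ := LIM_rho_bdd K s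
  obtain ⟨B2, h2⟩ := LIM_rho_bdd K (s - 1)
  refine ⟨B1 + B2, fun t => ?_⟩
  have hB2 : 0 ≤ B2 := (abs_nonneg _).trans (h2 0)
  unfold kd
  split_ifs
  · rw [sub_zero]
    linarith [h1 t]
  · exact (abs_sub _ _).trans (add_le_add (h1 t) (h2 t))

theorem LIM_tel {r : ℝ} (K : Ker r) (N : ℕ) (t : ℝ) :
    ∑ s ∈ range (N + 1), kd K s t = K.rho N t := by
  induction N with
  | zero => simp [kd]
  | succ N ih =>
    rw [Finset.sum_range_succ, ih]
    simp [kd]

theorem LIM_SSe_meas {d : ℕ} (l : ℕ) (e : Finset (Fin d)) (f : (Fin d → ℝ) → ℂ)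
    (hf : Measurable f) (x : Fin d → ℝ) : Measurable (fun t => SSe l e f x t) := by
  unfold SSe
  refine Finset.measurable_sum _ fun ν _ => measurable_const.mul (hf.comp ?_)
  exact measurable_pi_lambda _ fun j =>
    measurable_const.add (measurable_const.mul (measurable_pi_apply j))

theorem LIM_SSe_bdd {d : ℕ} (l : ℕ) (e : Finset (Fin d)) (f : (Fin d → ℝ) → ℂ)
    (hf : ∀ x, ‖f x‖ ≤ 1) (x : Fin d → ℝ) : ∃ B : ℝ, ∀ t, ‖SSe l e f x t‖ ≤ B := by
  refine ⟨∑ ν ∈ Fintype.piFinset (fun j : Fin d => if j ∈ e then range (l + 1)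
    else Finset.Icc 1 l), ‖((∏ j, cc l (ν j) : ℝ) : ℂ)‖, fun t => ?_⟩
  unfold SSe
  refine (norm_sum_le _ _).trans (Finset.sum_le_sum fun ν _ => ?_)
  rw [norm_mul]
  exact mul_le_of_le_one_right (norm_nonneg _) (hf _)

/-- bounded measurable functions are integrable -/
theorem LIM_int {d : ℕ} {g : (Fin d → ℝ) → ℂ} (hg : Measurable g) (B : ℝ)
    (hB : ∀ t, ‖g t‖ ≤ B) : Integrable g (HypVol.TP d) :=
  Integrable.of_bound hg.aestronglyMeasurable B (Filter.Eventually.of_forall hB)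

theorem LIM_prod_meas {d : ℕ} {g : Fin d → ℝ → ℝ} (hg : ∀ j, Measurable (g j)) :
    Measurable (fun t : Fin d → ℝ => ((∏ j, g j (t j) : ℝ) : ℂ)) :=
  Complex.measurable_ofReal.comp
    (Finset.measurable_prod _ fun j _ => (hg j).comp (measurable_pi_apply j))

theorem LIM_prod_bdd {d : ℕ} {g : Fin d → ℝ → ℝ} (B : Fin d → ℝ) (hg : ∀ j t, |g j t| ≤ B j)
    (t : Fin d → ℝ) : ‖((∏ j, g j (t j) : ℝ) : ℂ)‖ ≤ ∏ j, B j := by
  rw [Complex.norm_real, Real.norm_eq_abs, Finset.abs_prod]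
  exact Finset.prod_le_prod (fun j _ => abs_nonneg _) (fun j _ => hg j _)

theorem LIM_ddr {r : ℝ} (hr : 0 < r) : ∀ᵐ t ∂T1, 0 ≤ dd t ^ r ∧ |dd t ^ r| ≤ (2 * Real.pi) ^ r := by
  have h1 : ∀ᵐ t ∂T1, t ∈ Set.Ico (0 : ℝ) (2 * Real.pi) := by
    unfold T1
    apply Measure.ae_smul_measure
    exact ae_restrict_mem measurableSet_Ico
  filter_upwards [h1] with t ht
  have h2 : 0 ≤ dd t := le_min ht.1 (by linarith [ht.2])
  have h3 : dd t ≤ 2 * Real.pi := (min_le_left _ _).trans ht.2.le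
  have h4 : 0 ≤ dd t ^ r := Real.rpow_nonneg h2 r
  exact ⟨h4, by rw [abs_of_nonneg h4]; exact Real.rpow_le_rpow h2 h3 hr.le⟩

theorem LIM_dd_meas (r : ℝ) : Measurable (fun t => dd t ^ r) := by
  unfold dd
  exact (measurable_id.min (measurable_const.sub measurable_id)).pow_const r

theorem LIM_int1 {r : ℝ} (hr : 0 < r) (K : Ker r) (N : ℕ) :
    Integrable (fun t => K.rho N t) T1 ∧ Integrable (fun t => K.rho N t * dd t ^ r) T1 := by
  obtain ⟨B, hB⟩ := LIM_rho_bdd K N
  have hc := (LIM_rho_cont K N).measurable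
  have hB0 : 0 ≤ B := (abs_nonneg _).trans (hB 0)
  constructor
  · exact Integrable.of_bound hc.aestronglyMeasurable B (Filter.Eventually.of_forall hB)
  · refine Integrable.of_bound (hc.mul (LIM_dd_meas r)).aestronglyMeasurable
      (B * (2 * Real.pi) ^ r) ?_
    filter_upwards [LIM_ddr hr] with t ht
    rw [norm_mul]
    exact mul_le_mul (hB t) ht.2 (norm_nonneg _) hB0

theorem LIM_proof : S_LIM := by
  intro hW3 d r K l hr hrl
  have hK := K.C_pos
  refine ⟨(2 : ℝ) ^ d * (max 1 K.C) ^ d, by positivity, ?_⟩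
  intro f hf N
  have hfm : Measurable f := hf.2.1
  have hfb : ∀ x, ‖f x‖ ≤ 1 := hf.2.2.1
  filter_upwards [hW3 d r l hr hrl f hf] with x hx
  obtain ⟨BS, hBS⟩ := LIM_SSe_bdd l ∅ f hfb x
  have hSm := LIM_SSe_meas l ∅ f hfm x
  have hBS0 : 0 ≤ BS := (norm_nonneg _).trans (hBS 0)
  -- the sum of the blocks
  have hsum : ∑ s ∈ Fintype.piFinset (fun _ : Fin d => range (N + 1)), Bl K l s f x =
      ∫ t, SSe l ∅ f x t * ((∏ j, K.rho N (t j) : ℝ) : ℂ) ∂(HypVol.TP d) := by
    unfold Bl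
    rw [← integral_finset_sum]
    · congr 1
      funext t
      rw [← Finset.mul_sum]
      congr 1
      rw [← Complex.ofReal_sum]
      congr 1
      refine (Finset.prod_univ_sum (fun _ : Fin d => range (N + 1))
        (fun (j : Fin d) (s : ℕ) => kd K s (t j))).symm.trans ?_
      exact Finset.prod_congr rfl fun j _ => LIM_tel K N (t j)
    · intro s _
      choose B hB using fun j : Fin d => LIM_kd_bdd K (s j)
      refine LIM_int (hSm.mul (LIM_prod_meas fun j => (LIM_kd_cont K (s j)).measurable))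
        (BS * ∏ j, B j) fun t => ?_
      rw [norm_mul]
      exact mul_le_mul (hBS t) (LIM_prod_bdd B hB t) (norm_nonneg _) hBS0
  obtain ⟨B, hB⟩ := LIM_rho_bdd K N
  have hpm : Measurable (fun t : Fin d → ℝ => ((∏ j, K.rho N (t j) : ℝ) : ℂ)) :=
    LIM_prod_meas fun _ => (LIM_rho_cont K N).measurable
  have hpb : ∀ t : Fin d → ℝ, ‖((∏ j, K.rho N (t j) : ℝ) : ℂ)‖ ≤ ∏ _j : Fin d, B :=
    LIM_prod_bdd (fun _ => B) (fun _ => hB)
  have hB0 : 0 ≤ B := (abs_nonneg _).trans (hB 0)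
  have hpB0 : 0 ≤ ∏ _j : Fin d, B := Finset.prod_nonneg fun _ _ => hB0
  have hint1 : Integrable (fun t => SSe l ∅ f x t * ((∏ j, K.rho N (t j) : ℝ) : ℂ))
      (HypVol.TP d) := by
    refine LIM_int (hSm.mul hpm) (BS * ∏ _j : Fin d, B) fun t => ?_
    rw [norm_mul]
    exact mul_le_mul (hBS t) (hpb t) (norm_nonneg _) hBS0
  have hint2 : Integrable (fun t : Fin d → ℝ => f x * ((∏ j, K.rho N (t j) : ℝ) : ℂ))
      (HypVol.TP d) := by
    refine LIM_int (measurable_const.mul hpm) (‖f x‖ * ∏ _j : Fin d, B) fun t => ?_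
    rw [norm_mul]
    exact mul_le_mul_of_nonneg_left (hpb t) (norm_nonneg _)
  have hone : ∫ t, ((∏ j, K.rho N (t j) : ℝ) : ℂ) ∂(HypVol.TP d) = 1 := by
    rw [integral_complex_ofReal, LIM_TP,
      integral_fintype_prod_eq_prod (μ := fun _ : Fin d => T1) (fun _ : Fin d => K.rho N)]
    rw [Finset.prod_congr rfl fun j _ => K.int N]
    simp
  have hfx : f x = ∫ t, f x * ((∏ j, K.rho N (t j) : ℝ) : ℂ) ∂(HypVol.TP d) := by
    rw [integral_const_mul, hone, mul_one]
  have hdiff : f x - ∑ s ∈ Fintype.piFinset (fun _ : Fin d => range (N + 1)), Bl K l s f x =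
      ∫ t, (f x - SSe l ∅ f x t) * ((∏ j, K.rho N (t j) : ℝ) : ℂ) ∂(HypVol.TP d) := by
    rw [hsum]
    conv_lhs => rw [hfx]
    rw [← integral_sub hint2 hint1]
    congr 1
    funext t
    ring
  rw [hdiff]
  -- the majorant
  set G : Finset (Fin d) → (Fin d → ℝ) → ℝ := fun e t =>
    ∏ j, (K.rho N (t j) * (if j ∈ e then dd (t j) ^ r else 1)) with hG
  have hGint : ∀ e, Integrable (G e) (HypVol.TP d) := by
    intro e
    rw [LIM_TP]
    refine Integrable.fintype_prod (μ := fun _ : Fin d => T1) (f := fun j t =>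
      K.rho N t * (if j ∈ e then dd t ^ r else 1)) fun j => ?_
    by_cases hj : j ∈ e
    · simp only [hj, if_true]
      exact (LIM_int1 hr K N).2
    · simp only [hj, if_false, mul_one]
      exact (LIM_int1 hr K N).1
  have hae : ∀ᵐ t ∂(HypVol.TP d), ‖(f x - SSe l ∅ f x t) * ((∏ j, K.rho N (t j) : ℝ) : ℂ)‖ ≤
      ∑ e ∈ (univ : Finset (Finset (Fin d))).erase ∅, G e t := by
    filter_upwards [hx] with t ht
    rw [norm_mul, norm_sub_rev]
    have h1 : ‖((∏ j, K.rho N (t j) : ℝ) : ℂ)‖ = ∏ j, K.rho N (t j) := by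
      rw [Complex.norm_real, Real.norm_of_nonneg (Finset.prod_nonneg fun j _ => K.nonneg N _)]
    rw [h1]
    refine (mul_le_mul_of_nonneg_right ht
      (Finset.prod_nonneg fun j _ => K.nonneg N _)).trans (le_of_eq ?_)
    rw [Finset.sum_mul]
    apply Finset.sum_congr rfl
    intro e _
    rw [hG]
    simp only
    rw [Finset.prod_mul_distrib, Finset.prod_ite_mem, Finset.univ_inter]
    ring
  refine (norm_integral_le_of_norm_le (integrable_finset_sum _ fun e _ => hGint e) hae).trans ?_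
  rw [integral_finset_sum _ fun e _ => hGint e]
  have hpow : (2 : ℝ) ^ (-(r * N)) ≤ 1 := by
    apply Real.rpow_le_one_of_one_le_of_nonpos (by norm_num)
    have : 0 ≤ r * N := by positivity
    linarith
  have hpow0 : 0 ≤ (2 : ℝ) ^ (-(r * N)) := by positivity
  have hterm : ∀ e ∈ (univ : Finset (Finset (Fin d))).erase ∅, ∫ t, G e t ∂(HypVol.TP d) ≤
      (max 1 K.C) ^ d * (2 : ℝ) ^ (-(r * N)) := by
    intro e he
    have hne : e.Nonempty := Finset.nonempty_iff_ne_empty.2 (Finset.ne_of_mem_erase he)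
    rw [hG]
    simp only
    rw [LIM_TP, integral_fintype_prod_eq_prod (μ := fun _ : Fin d => T1) (fun (j : Fin d) t =>
      K.rho N t * (if j ∈ e then dd t ^ r else 1))]
    have h1 : ∀ j : Fin d, ∫ t, K.rho N t * (if j ∈ e then dd t ^ r else 1) ∂T1 =
        if j ∈ e then ∫ t, K.rho N t * dd t ^ r ∂T1 else 1 := by
      intro j
      by_cases hj : j ∈ e
      · simp only [hj, if_true]
      · simp only [hj, if_false, mul_one]
        exact K.int N
    rw [Finset.prod_congr rfl fun j _ => h1 j, Finset.prod_ite_mem, Finset.univ_inter,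
      Finset.prod_const]
    have h2 : 0 ≤ ∫ t, K.rho N t * dd t ^ r ∂T1 := by
      apply integral_nonneg_of_ae
      filter_upwards [LIM_ddr hr] with t ht
      exact mul_nonneg (K.nonneg N t) ht.1
    have h3 : (∫ t, K.rho N t * dd t ^ r ∂T1) ^ e.card ≤
        (K.C * (2 : ℝ) ^ (-(r * N))) ^ e.card := pow_le_pow_left₀ h2 (K.mom N) _
    refine h3.trans ?_
    rw [mul_pow]
    have hcard : e.card ≤ d := by
      have := Finset.card_le_univ e
      simpa using this
    apply mul_le_mul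
    · calc K.C ^ e.card ≤ (max 1 K.C) ^ e.card := pow_le_pow_left₀ hK.le (le_max_right _ _) _
        _ ≤ (max 1 K.C) ^ d := pow_le_pow_right₀ (le_max_left _ _) hcard
    · calc ((2 : ℝ) ^ (-(r * N))) ^ e.card ≤ ((2 : ℝ) ^ (-(r * N))) ^ 1 :=
            pow_le_pow_of_le_one hpow0 hpow hne.card_pos
        _ = _ := pow_one _
    · positivity
    · positivity
  refine (Finset.sum_le_sum hterm).trans ?_
  rw [Finset.sum_const, nsmul_eq_mul]
  have hcard : (((univ : Finset (Finset (Fin d))).erase ∅).card : ℝ) ≤ 2 ^ d := by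
    have h1 : ((univ : Finset (Finset (Fin d))).erase ∅).card ≤
        (univ : Finset (Finset (Fin d))).card := Finset.card_le_card (Finset.erase_subset _ _)
    rw [Finset.card_univ, Fintype.card_finset, Fintype.card_fin] at h1
    exact_mod_cast h1
  rw [mul_assoc]
  exact mul_le_mul_of_nonneg_right hcard (by positivity)

end H506W
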