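import Pool.Agent.H506R3.LW.Defs

/-!
# Lower bound in terms of `n`
-/

set_option autoImplicit false

open Finset MeasureTheory
open scoped BigOperators ENNReal

namespace H506W

theorem LOWN_toLp_sum {α ι : Type} [MeasurableSpace α] (μ : Measure α) (w : ι → ℂ)
    (φ : ι → α → ℂ) (h : ∀ i, MemLp (φ i) ⊤ μ) (s : Finset ι) (g : α → ℂ) (hg : MemLp g ⊤ μ)
    (hgs : ∀ x, g x = ∑ i ∈ s, w i * φ i x) :
    hg.toLp g = ∑ i ∈ s, w i • (h i).toLp (φ i) := by
  classical
  induction s using Finset.induction_on generalizing g with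
  | empty =>
    have h0 : g = 0 := funext fun x => by rw [hgs x]; simp
    subst h0
    rw [Finset.sum_empty]
    exact MemLp.toLp_zero hg
  | insert a s ha ih =>
    have hg' : MemLp (fun x => ∑ i ∈ s, w i * φ i x) ⊤ μ :=
      memLp_finsetSum s (fun i _ => (h i).const_mul (w i))
    have e := ih (fun x => ∑ i ∈ s, w i * φ i x) hg' (fun x => rfl)
    rw [Finset.sum_insert ha, ← e, ← MemLp.toLp_const_smul, ← MemLp.toLp_add]
    apply MemLp.toLp_congr
    refine Filter.Eventually.of_forall fun x => ?_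
    rw [hgs x, Finset.sum_insert ha]
    rfl

theorem LOWN_phase {ι : Type} [Fintype ι] (e : ι → ℂ) : ∃ w : ι → ℂ, (∀ p, ‖w p‖ ≤ 1) ∧
    ∑ p, w p * e p = ((∑ p, ‖e p‖ : ℝ) : ℂ) := by
  refine ⟨fun p => if e p = 0 then 0 else (starRingEnd ℂ) (e p) / (‖e p‖ : ℂ), ?_, ?_⟩
  · intro p
    dsimp only
    split_ifs with h
    · simp
    · rw [norm_div, RCLike.norm_conj, Complex.norm_real, norm_norm, div_self]
      exact norm_ne_zero_iff.2 h
  · rw [Complex.ofReal_sum]
    refine Finset.sum_congr rfl fun p _ => ?_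
    dsimp only
    split_ifs with h
    · simp [h]
    · have h1 : (‖e p‖ : ℂ) ≠ 0 := by
        rw [Ne, Complex.ofReal_eq_zero]
        exact norm_ne_zero_iff.2 h
      rw [div_mul_eq_mul_div, div_eq_iff h1, mul_comm, Complex.mul_conj, Complex.normSq_eq_norm_sq]
      push_cast
      ring

theorem LOWN_meas (B : Bump) {d n : ℕ} (p : Rc d n) :
    MemLp (fun y => ((Ph B.f p y : ℝ) : ℂ)) ⊤ (HypVol.TP d) := by
  have hf : Measurable B.f := (B.smooth 0).continuous.measurable
  have h1 : Measurable (fun y : Fin d → ℝ => Ph B.f p y) := by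
    unfold Ph psi
    refine Finset.measurable_prod _ fun j _ => ?_
    exact hf.comp (((measurable_fract.comp ((measurable_pi_apply j).div_const _)).const_mul
      _).sub_const _)
  refine memLp_top_of_bound (C := 1) (Complex.measurable_ofReal.comp h1).aestronglyMeasurable
    (Filter.Eventually.of_forall fun y => ?_)
  rw [Complex.norm_real, Real.norm_eq_abs]
  unfold Ph
  rw [Finset.abs_prod]
  exact Finset.prod_le_one (fun j _ => abs_nonneg _) (fun j _ => B.bd _)

theorem LOWN_hz (n s k x : ℕ) : |hz n s k x| ≤ 1 ∧ (x / 2 ^ (n + 1 - s) ≠ k → hz n s k x = 0) := by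
  unfold hz
  constructor
  · split_ifs <;> simp
  · intro h
    rw [if_neg h]

theorem LOWN_proof : S_LOWN := by
  classical
  intro hCORE hSYS hCARD hPZ hPH hBIO hBUMP hDIFF hD1 hMD hNS hMEM hAV d r l hr hrl
  obtain ⟨B⟩ := hBUMP
  obtain ⟨C, hC, hS⟩ := hSYS d
  obtain ⟨δ, hδ, hcore⟩ := hCORE C (B.c ^ d) hC (pow_pos B.c_pos d)
  obtain ⟨c1, hc1, hmem⟩ := hMEM hDIFF hD1 hMD hNS B d r l hr hrl
  refine ⟨c1 * δ, by positivity, fun n m hm => ?_⟩
  obtain ⟨S, hS1, hS2, hS3⟩ := hS n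
  obtain ⟨av, hav1, hav2⟩ := hAV B d n
  unfold lw
  refine le_iInf₂ fun A hA => ?_
  by_contra hlt
  rw [not_le] at hlt
  set q : ℝ := (2 : ℝ) ^ (-(r * n)) with hq
  have hqpos : 0 < q := by positivity
  set Φ : Rc d n → Lp ℂ ⊤ (HypVol.TP d) := fun p => (LOWN_meas B p).toLp _ with hΦ
  set φ : Rc d n → Gd d n → ℂ := fun p x =>
    ((∏ j, pz B.f n (rs p j) (rk p j) ((x j : Fin (2 ^ (n + 1))) : ℕ) : ℝ) : ℂ) with hφ
  set a : Rc d n → Gd d n → ℂ := fun p x => av x (A (Φ p)) with ha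
  have hrs : ∀ (p : Rc d n) (j : Fin d), rs p j ≤ n := by
    intro p j
    have := (p.1.1 j).2
    unfold rs
    omega
  have hnotin : ∀ (p : Rc d n) (x : Gd d n), x ∉ rc p → ∃ j,
      ((x j : Fin (2 ^ (n + 1))) : ℕ) / 2 ^ (n + 1 - rs p j) ≠ rk p j := by
    intro p x hx
    unfold rc at hx
    simp only [Finset.mem_filter, Finset.mem_univ, true_and, not_forall] at hx
    exact hx
  -- pointwise bound
  have key : ∀ x : Gd d n, ∑ p, ‖φ p x - a p x‖ ≤ δ * HypVol.shp d n := by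
    intro x
    obtain ⟨w, hw1, hw2⟩ := LOWN_phase (fun p => φ p x - a p x)
    have hf : (fun x => ((c1 * q : ℝ) : ℂ) * Tf B.f w x) ∈ HC d r l := hmem n w hw1
    have hTf : MemLp (Tf B.f w) ⊤ (HypVol.TP d) :=
      memLp_finsetSum Finset.univ (fun p _ => (LOWN_meas B p).const_mul (w p))
    have hfm : MemLp (fun x => ((c1 * q : ℝ) : ℂ) * Tf B.f w x) ⊤ (HypVol.TP d) :=
      hTf.const_mul _
    have h1 : ‖hfm.toLp _ - A (hfm.toLp _)‖ₑ < ENNReal.ofReal (c1 * δ * q * HypVol.shp d n) := by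
      refine lt_of_le_of_lt ?_ hlt
      refine le_iSup_of_le (fun x => ((c1 * q : ℝ) : ℂ) * Tf B.f w x) ?_
      refine le_iSup_of_le hf ?_
      exact le_iSup_of_le hfm le_rfl
    rw [← ofReal_norm, ENNReal.ofReal_lt_ofReal_iff_of_nonneg (norm_nonneg _)] at h1
    have h2 : hfm.toLp _ = ((c1 * q : ℝ) : ℂ) • ∑ p, w p • Φ p := by
      rw [← LOWN_toLp_sum (HypVol.TP d) w (fun p y => ((Ph B.f p y : ℝ) : ℂ)) (LOWN_meas B)
        Finset.univ (Tf B.f w) hTf (fun x => rfl), ← MemLp.toLp_const_smul]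
      rfl
    have h3 : av x (hfm.toLp _ - A (hfm.toLp _)) =
        ((c1 * q : ℝ) : ℂ) * ((∑ p, ‖φ p x - a p x‖ : ℝ) : ℂ) := by
      rw [h2, ← hw2]
      simp only [map_sub, map_smul, map_sum, smul_eq_mul]
      rw [← mul_sub, ← Finset.sum_sub_distrib]
      congr 1
      refine Finset.sum_congr rfl fun p _ => ?_
      rw [mul_sub]
      congr 1
      rw [hΦ, hφ]
      simp only
      rw [hav2 p x (LOWN_meas B p)]
    have h4 := hav1 x (hfm.toLp _ - A (hfm.toLp _))
    rw [h3, norm_mul, Complex.norm_real, Complex.norm_real, Real.norm_eq_abs, Real.norm_eq_abs,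
      abs_of_pos (by positivity), abs_of_nonneg (Finset.sum_nonneg fun p _ => norm_nonneg _)] at h4
    have h5 : c1 * q * ∑ p, ‖φ p x - a p x‖ < c1 * q * (δ * HypVol.shp d n) := by
      refine lt_of_le_of_lt h4 (h1.trans_le (le_of_eq ?_))
      ring
    exact (lt_of_mul_lt_mul_left h5 (by positivity)).le
  have hcard : (Fintype.card (Rc d n) : ℝ) = HypVol.shp d n * 2 ^ n := by
    rw [hCARD d n]; push_cast; rfl
  have htot : ∑ x, ∑ p, ‖φ p x - a p x‖ ≤ δ * (Fintype.card (Rc d n) * S.V) := by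
    refine (Finset.sum_le_sum fun x _ => key x).trans (le_of_eq ?_)
    rw [Finset.sum_const, Finset.card_univ, hS2, hcard, nsmul_eq_mul]
    have e1 : (Fintype.card (Gd d n) : ℝ) = 2 ^ ((n + 1) * d) := by
      rw [Fintype.card_fun, Fintype.card_fin, Fintype.card_fin]
      push_cast
      rw [pow_mul]
    rw [e1]
    unfold VV
    field_simp
  have hfin := hcore (Gd d n) (Rc d n) {s // s ∈ HypVol.Sh d n} S hS1 φ a Hr
    (by
      intro p x
      simp only [hφ]
      rw [Complex.norm_real, Real.norm_eq_abs, Finset.abs_prod]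
      exact Finset.prod_le_one (fun j _ => abs_nonneg _)
        (fun j _ => (hPZ B n _ _ _ (hrs p j)).1))
    (by
      intro p x hx
      rw [hS3] at hx
      obtain ⟨j, hj⟩ := hnotin p x hx
      simp only [hφ]
      rw [Finset.prod_eq_zero (Finset.mem_univ j) ((hPZ B n _ _ _ (hrs p j)).2 hj)]
      simp)
    (by
      intro p x
      unfold Hr
      rw [Finset.abs_prod]
      exact Finset.prod_le_one (fun j _ => abs_nonneg _) (fun j _ => (LOWN_hz _ _ _ _).1))
    (by
      intro p x hx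
      rw [hS3] at hx
      obtain ⟨j, hj⟩ := hnotin p x hx
      unfold Hr
      exact Finset.prod_eq_zero (Finset.mem_univ j) ((LOWN_hz _ _ _ _).2 hj))
    (by
      intro p p'
      have h1 := hBIO hPZ hPH B d n p p'
      simp only [hφ]
      rw [hS2]
      have h2 : ∑ x : Gd d n, (((∏ j, pz B.f n (rs p j) (rk p j)
          ((x j : Fin (2 ^ (n + 1))) : ℕ) : ℝ)) : ℂ) * ((Hr p' x : ℝ) : ℂ) =
          ((∑ x : Gd d n, (∏ j, pz B.f n (rs p j) (rk p j)
          ((x j : Fin (2 ^ (n + 1))) : ℕ)) * Hr p' x : ℝ) : ℂ) := by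
        rw [Complex.ofReal_sum]
        exact Finset.sum_congr rfl fun x _ => (Complex.ofReal_mul _ _).symm
      rw [h2, h1]
      split_ifs <;> simp)
    htot
  have hrank : Module.finrank ℂ (Submodule.span ℂ (Set.range a)) ≤ m := by
    set AL : Lp ℂ ⊤ (HypVol.TP d) →ₗ[ℂ] Lp ℂ ⊤ (HypVol.TP d) :=
      (A : Lp ℂ ⊤ (HypVol.TP d) →ₗ[ℂ] Lp ℂ ⊤ (HypVol.TP d)) with hAL
    set T : Lp ℂ ⊤ (HypVol.TP d) →ₗ[ℂ] (Gd d n → ℂ) :=
      LinearMap.pi (fun x => (av x : Lp ℂ ⊤ (HypVol.TP d) →ₗ[ℂ] ℂ)) with hT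
    have h1 : Submodule.span ℂ (Set.range a) ≤ (LinearMap.range AL).map T := by
      rw [Submodule.span_le]
      rintro _ ⟨p, rfl⟩
      refine ⟨A (Φ p), ⟨Φ p, rfl⟩, ?_⟩
      funext x
      rfl
    have h2 : Module.rank ℂ (LinearMap.range AL) ≤ m := hA
    have h3 : Module.Finite ℂ (LinearMap.range AL) := by
      rw [← Module.rank_lt_aleph0_iff]
      exact h2.trans_lt Cardinal.natCast_lt_aleph0
    calc Module.finrank ℂ (Submodule.span ℂ (Set.range a))
        ≤ Module.finrank ℂ ((LinearMap.range AL).map T) := Submodule.finrank_mono h1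
      _ ≤ Module.finrank ℂ (LinearMap.range AL) := Submodule.finrank_map_le _ _
      _ ≤ m := Module.finrank_le_of_rank_le h2
  rw [hcard] at hfin
  have hr' : ((Module.finrank ℂ (Submodule.span ℂ (Set.range a)) : ℕ) : ℝ) ≤ m := by
    exact_mod_cast hrank
  linarith

end H506W
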