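import Pool.Agent.H506R3.LW.Defs

set_option autoImplicit false

open Finset MeasureTheory
open scoped BigOperators ENNReal

namespace H506W

/-- coefficients of the difference -/
noncomputable def MD_c {d : ℕ} (l : ℕ) (e : Finset (Fin d)) (j : Fin d) (ν : ℕ) : ℝ :=
  if j ∈ e then (-1 : ℝ) ^ (l - ν) * (l.choose ν : ℝ) else 1

/-- index sets of the difference -/
def MD_A {d : ℕ} (l : ℕ) (e : Finset (Fin d)) (j : Fin d) : Finset ℕ :=
  if j ∈ e then range (l + 1) else {0}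

/-- one-dimensional factor -/
noncomputable def MD_D {d : ℕ} (f : ℝ → ℝ) (l : ℕ) (e : Finset (Fin d)) (t x : Fin d → ℝ)
    (s : ℕ) (j : Fin d) (k : ℕ) : ℝ :=
  ∑ ν ∈ MD_A l e j, MD_c l e j ν * psi f s k (x j + (ν : ℝ) * t j)

theorem MD_fact {d n : ℕ} (f : ℝ → ℝ) (l : ℕ) (e : Finset (Fin d)) (t x : Fin d → ℝ)
    (w : Rc d n → ℂ) :
    HypVol.mdiff l e t (Tf f w) x =
      ∑ p, w p * ((∏ j, MD_D f l e t x (rs p j) j (rk p j) : ℝ) : ℂ) := by
  unfold HypVol.mdiff Tf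
  simp_rw [mul_sum]
  rw [sum_comm]
  refine sum_congr rfl fun p _ => ?_
  unfold MD_D
  rw [prod_univ_sum]
  push_cast
  rw [mul_sum]
  refine sum_congr rfl fun ν _ => ?_
  have h1 : (∏ j ∈ e, ((-1 : ℂ) ^ (l - ν j) * ((l.choose (ν j) : ℕ) : ℂ))) =
      ∏ j, ((MD_c l e j (ν j) : ℝ) : ℂ) := by
    have h2 : ∀ j : Fin d, ((MD_c l e j (ν j) : ℝ) : ℂ) =
        if j ∈ e then (-1 : ℂ) ^ (l - ν j) * ((l.choose (ν j) : ℕ) : ℂ) else 1 := by
      intro j
      unfold MD_c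
      split_ifs
      · push_cast; rfl
      · simp
    rw [prod_congr rfl (fun j _ => h2 j), prod_ite_mem, univ_inter]
  rw [h1, prod_mul_distrib]
  unfold Ph
  push_cast
  ring

theorem MD_psi (B : Bump) (s : ℕ) (x : ℝ) : ∑ k ∈ range (2 ^ s), |psi B.f s k x| ≤ 1 := by
  by_cases h : ∃ k ∈ range (2 ^ s), psi B.f s k x ≠ 0
  · obtain ⟨k, hk, hk0⟩ := h
    have h1 := B.supp _ hk0
    rw [sum_eq_single k]
    · exact B.bd _
    · intro k' _ hne
      rw [abs_eq_zero]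
      by_contra h2
      have h3 := B.supp _ h2
      apply hne
      have h4 : (k' : ℝ) < k + 1 := by linarith [h1.1, h1.2, h3.1, h3.2]
      have h5 : (k : ℝ) < k' + 1 := by linarith [h1.1, h1.2, h3.1, h3.2]
      have h6 : k' < k + 1 := by exact_mod_cast h4
      have h7 : k < k' + 1 := by exact_mod_cast h5
      omega
    · intro h2; exact absurd hk h2
  · push Not at h
    rw [sum_eq_zero]
    · norm_num
    · intro k hk
      rw [h k hk, abs_zero]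

theorem MD_shape {d n : ℕ} (b : ℕ → Fin d → ℕ → ℝ) (hb : ∀ s j k, 0 ≤ b s j k) :
    ∑ p : Rc d n, ∏ j, b (rs p j) j (rk p j) ≤
      ∑ s ∈ HypVol.Sh d n, ∏ j, ∑ k ∈ range (2 ^ ((s j : Fin (n + 1)) : ℕ)),
        b ((s j : Fin (n + 1)) : ℕ) j k := by
  classical
  set P : Finset ((Fin d → Fin (n + 1)) × (Fin d → Fin (2 ^ n))) :=
    (HypVol.Sh d n ×ˢ univ).filter (fun p => ∀ j, ((p.2 j : Fin (2 ^ n)) : ℕ) <
      2 ^ ((p.1 j : Fin (n + 1)) : ℕ)) with hP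
  have h1 : ∑ p : Rc d n, ∏ j, b (rs p j) j (rk p j) =
      ∑ p ∈ P, ∏ j, b ((p.1 j : Fin (n + 1)) : ℕ) j ((p.2 j : Fin (2 ^ n)) : ℕ) := by
    symm
    refine sum_subtype P (fun p => ?_)
      (fun p => ∏ j, b ((p.1 j : Fin (n + 1)) : ℕ) j ((p.2 j : Fin (2 ^ n)) : ℕ))
    rw [hP, mem_filter, mem_product]
    simp
  rw [h1, hP, sum_filter, sum_product]
  refine sum_le_sum fun s _ => ?_
  rw [← sum_filter]
  have h2 : (univ.filter (fun k : Fin d → Fin (2 ^ n) => ∀ j, ((k j : Fin (2 ^ n)) : ℕ) <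
      2 ^ ((s j : Fin (n + 1)) : ℕ))) = Fintype.piFinset (fun j => univ.filter
        (fun i : Fin (2 ^ n) => (i : ℕ) < 2 ^ ((s j : Fin (n + 1)) : ℕ))) := by
    ext k
    simp [Fintype.mem_piFinset]
  rw [h2]
  have h3 := (prod_univ_sum (fun j : Fin d => univ.filter
        (fun i : Fin (2 ^ n) => (i : ℕ) < 2 ^ ((s j : Fin (n + 1)) : ℕ)))
        (fun j i => b ((s j : Fin (n + 1)) : ℕ) j ((i : Fin (2 ^ n)) : ℕ))).symm
  rw [h3]
  refine prod_le_prod (fun j _ => sum_nonneg fun i _ => hb _ _ _) fun j _ => ?_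
  have h4 : ∑ i ∈ univ.filter (fun i : Fin (2 ^ n) => (i : ℕ) < 2 ^ ((s j : Fin (n + 1)) : ℕ)),
      b ((s j : Fin (n + 1)) : ℕ) j ((i : Fin (2 ^ n)) : ℕ) =
      ∑ k ∈ (univ.filter (fun i : Fin (2 ^ n) =>
        (i : ℕ) < 2 ^ ((s j : Fin (n + 1)) : ℕ))).map Fin.valEmbedding,
          b ((s j : Fin (n + 1)) : ℕ) j k := by
    rw [sum_map]; rfl
  rw [h4]
  refine sum_le_sum_of_subset_of_nonneg ?_ (fun k _ _ => hb _ _ _)
  intro k hk
  rw [mem_map] at hk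
  obtain ⟨i, hi, rfl⟩ := hk
  rw [mem_filter] at hi
  exact mem_range.2 hi.2

theorem MD_proof : S_MD := by
  intro B l C hC h1 d n e t x w hw
  rw [MD_fact]
  refine (norm_sum_le _ _).trans ?_
  have h2 : ∑ p : Rc d n, ‖w p * ((∏ j, MD_D B.f l e t x (rs p j) j (rk p j) : ℝ) : ℂ)‖ ≤
      ∑ p : Rc d n, ∏ j, |MD_D B.f l e t x (rs p j) j (rk p j)| := by
    refine sum_le_sum fun p _ => ?_
    rw [norm_mul, Complex.norm_real, Real.norm_eq_abs, abs_prod]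
    have h0 : 0 ≤ ∏ j, |MD_D B.f l e t x (rs p j) j (rk p j)| :=
      prod_nonneg fun j _ => abs_nonneg _
    calc ‖w p‖ * ∏ j, |MD_D B.f l e t x (rs p j) j (rk p j)|
        ≤ 1 * ∏ j, |MD_D B.f l e t x (rs p j) j (rk p j)| :=
          mul_le_mul_of_nonneg_right (hw p) h0
      _ = _ := one_mul _
  refine h2.trans ?_
  refine (MD_shape (fun s j k => |MD_D B.f l e t x s j k|) (fun s j k => abs_nonneg _)).trans ?_
  refine sum_le_sum fun s _ => ?_
  have h3 : ∏ j ∈ e, (C * min 1 ((2 ^ ((s j : Fin (n + 1)) : ℕ) * |t j|) ^ l)) =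
      ∏ j : Fin d, if j ∈ e then (C * min 1 ((2 ^ ((s j : Fin (n + 1)) : ℕ) * |t j|) ^ l)) else 1 := by
    rw [prod_ite_mem, univ_inter]
  rw [h3]
  refine prod_le_prod (fun j _ => sum_nonneg fun k _ => abs_nonneg _) fun j _ => ?_
  by_cases hj : j ∈ e
  · rw [if_pos hj]
    refine le_trans (le_of_eq ?_) (h1 ((s j : Fin (n + 1)) : ℕ) (x j) (t j))
    refine sum_congr rfl fun k _ => ?_
    unfold MD_D MD_A MD_c
    simp only [if_pos hj]
  · rw [if_neg hj]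
    refine le_trans (le_of_eq ?_) (MD_psi B ((s j : Fin (n + 1)) : ℕ) (x j))
    refine sum_congr rfl fun k _ => ?_
    unfold MD_D MD_A MD_c
    simp [if_neg hj]

end H506W
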