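import Pool.Agent.H506R3.LW.Defs

set_option autoImplicit false

open Finset MeasureTheory
open scoped BigOperators ENNReal

namespace H506W

theorem MEM_mdiff_smul {d : ℕ} (l : ℕ) (e : Finset (Fin d)) (t : Fin d → ℝ) (a : ℂ)
    (f : (Fin d → ℝ) → ℂ) (x : Fin d → ℝ) :
    HypVol.mdiff l e t (fun x => a * f x) x = a * HypVol.mdiff l e t f x := by
  unfold HypVol.mdiff
  rw [Finset.mul_sum]
  refine Finset.sum_congr rfl fun ν _ => ?_
  ring

theorem MEM_mdiff_empty {d : ℕ} (l : ℕ) (t : Fin d → ℝ) (f : (Fin d → ℝ) → ℂ) (x : Fin d → ℝ) :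
    HypVol.mdiff l ∅ t f x = f x := by
  unfold HypVol.mdiff
  have h1 : Fintype.piFinset (fun j : Fin d => if j ∈ (∅ : Finset (Fin d)) then
      Finset.range (l + 1) else ({0} : Finset ℕ)) = {fun _ => 0} := by
    ext ν
    simp only [Fintype.mem_piFinset, Finset.notMem_empty, if_false, Finset.mem_singleton]
    constructor
    · intro h; funext j; exact h j
    · intro h j; rw [h]
  rw [h1, Finset.sum_singleton]
  simp

theorem MEM_psi_per (f : ℝ → ℝ) (s k : ℕ) (x : ℝ) : psi f s k (x + 2 * Real.pi) = psi f s k x := by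
  unfold psi
  have h : (x + 2 * Real.pi) / (2 * Real.pi) = x / (2 * Real.pi) + 1 := by
    rw [add_div, div_self (by positivity)]
  rw [h, Int.fract_add_one]

theorem MEM_Tf_per {d n : ℕ} (f : ℝ → ℝ) (w : Rc d n → ℂ) (x : Fin d → ℝ) (j : Fin d) :
    Tf f w (Function.update x j (x j + 2 * Real.pi)) = Tf f w x := by
  unfold Tf
  refine Finset.sum_congr rfl fun p _ => ?_
  congr 2
  unfold Ph
  refine Finset.prod_congr rfl fun i _ => ?_
  by_cases h : i = j
  · subst h
    rw [Function.update_self, MEM_psi_per]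
  · rw [Function.update_of_ne h]

theorem MEM_meas {d n : ℕ} (f : ℝ → ℝ) (hf : Measurable f) (w : Rc d n → ℂ) :
    Measurable (Tf f w) := by
  unfold Tf
  refine Finset.measurable_sum _ fun p _ => ?_
  refine Measurable.const_mul ?_ _
  refine Complex.measurable_ofReal.comp ?_
  unfold Ph
  refine Finset.measurable_prod _ fun j _ => ?_
  unfold psi
  refine hf.comp ?_
  refine Measurable.sub_const ?_ _
  refine Measurable.const_mul ?_ _
  exact measurable_fract.comp ((measurable_pi_apply j).div_const _)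

theorem MEM_proof : S_MEM := by
  intro h1 h2 h3 h4 B d r l hr hrl
  obtain ⟨C, hC, hD⟩ := h2 h1 B l
  obtain ⟨C', hC', hN⟩ := h4 d r l hr hrl
  have hCd : 0 < C ^ d := by positivity
  refine ⟨1 / (C ^ d * C'), by positivity, ?_⟩
  intro n w hw
  -- the main estimate
  have key : ∀ (e : Finset (Fin d)) (t x : Fin d → ℝ),
      ‖HypVol.mdiff l e t (fun x => ((1 / (C ^ d * C') * (2 : ℝ) ^ (-(r * n)) : ℝ) : ℂ) *
        Tf B.f w x) x‖ ≤ ∏ j ∈ e, |t j| ^ r := by
    intro e t x
    rw [MEM_mdiff_smul, norm_mul, Complex.norm_real, Real.norm_of_nonneg (by positivity)]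
    have k1 := h3 B l C hC hD d n e t x w hw
    have k2 : ∑ s ∈ HypVol.Sh d n, ∏ j ∈ e,
        (C * min 1 ((2 ^ ((s j : Fin (n + 1)) : ℕ) * |t j|) ^ l)) ≤
        C ^ d * (C' * (2 : ℝ) ^ (r * n) * ∏ j ∈ e, |t j| ^ r) := by
      have k3 : ∑ s ∈ HypVol.Sh d n, ∏ j ∈ e,
          (C * min 1 ((2 ^ ((s j : Fin (n + 1)) : ℕ) * |t j|) ^ l)) =
          C ^ e.card * ∑ s ∈ HypVol.Sh d n, ∏ j ∈ e,
            min 1 ((2 ^ ((s j : Fin (n + 1)) : ℕ) * |t j|) ^ l) := by
        rw [Finset.mul_sum]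
        refine Finset.sum_congr rfl fun s _ => ?_
        rw [Finset.prod_mul_distrib, Finset.prod_const]
      rw [k3]
      have k4 : C ^ e.card ≤ C ^ d := by
        refine pow_le_pow_right₀ hC ?_
        have := Finset.card_le_univ e
        rwa [Fintype.card_fin] at this
      refine mul_le_mul k4 (hN n e t) ?_ hCd.le
      exact Finset.sum_nonneg fun s _ => Finset.prod_nonneg fun j _ =>
        le_min zero_le_one (by positivity)
    have k5 : (2 : ℝ) ^ (-(r * n)) * (2 : ℝ) ^ (r * n) = 1 := by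
      rw [← Real.rpow_add (by norm_num)]
      simp
    calc 1 / (C ^ d * C') * (2 : ℝ) ^ (-(r * n)) * ‖HypVol.mdiff l e t (Tf B.f w) x‖
        ≤ 1 / (C ^ d * C') * (2 : ℝ) ^ (-(r * n)) *
          (C ^ d * (C' * (2 : ℝ) ^ (r * n) * ∏ j ∈ e, |t j| ^ r)) :=
          mul_le_mul_of_nonneg_left (k1.trans k2) (by positivity)
      _ = (1 / (C ^ d * C') * (C ^ d * C')) * ((2 : ℝ) ^ (-(r * n)) * (2 : ℝ) ^ (r * n)) *
          ∏ j ∈ e, |t j| ^ r := by ring
      _ = ∏ j ∈ e, |t j| ^ r := by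
          rw [k5, one_div, inv_mul_cancel₀ (by positivity)]; ring
  refine ⟨?_, ?_, ?_, ?_⟩
  · intro x j
    show _ * Tf B.f w (Function.update x j (x j + 2 * Real.pi)) = _ * Tf B.f w x
    rw [MEM_Tf_per]
  · refine Measurable.aestronglyMeasurable ?_
    exact (MEM_meas B.f ((B.smooth 0).continuous.measurable) w).const_mul _
  · rw [eLpNorm_exponent_top]
    have := eLpNormEssSup_le_of_ae_bound (μ := HypVol.TP d) (C := 1)
      (f := fun x => ((1 / (C ^ d * C') * (2 : ℝ) ^ (-(r * n)) : ℝ) : ℂ) * Tf B.f w x)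
      (Filter.Eventually.of_forall fun x => by
        have h := key ∅ 0 x
        rwa [MEM_mdiff_empty, Finset.prod_empty] at h)
    rwa [ENNReal.ofReal_one] at this
  · intro e _ t
    rw [eLpNorm_exponent_top]
    exact eLpNormEssSup_le_of_ae_bound (Filter.Eventually.of_forall fun x => key e t x)

end H506W
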