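import Pool.Agent.H506R3.LW.Defs

set_option autoImplicit false

/-! Task NS: summation over the shapes. -/

open Finset MeasureTheory
open scoped BigOperators ENNReal

namespace H506W

theorem NS_geom (q : ℝ) (h0 : 0 ≤ q) (h1 : q < 1) (N : ℕ) :
    ∑ i ∈ range N, q ^ i ≤ (1 - q)⁻¹ := by
  rw [← tsum_geometric_of_lt_one h0 h1]
  exact (summable_geometric_of_lt_one h0 h1).sum_le_tsum _ (fun i _ => pow_nonneg h0 i)

theorem NS_one (r : ℝ) (l : ℕ) (hr : 0 < r) (hl : r < l) : ∃ C : ℝ, 1 ≤ C ∧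
    ∀ (n : ℕ) (a : ℝ), 0 ≤ a →
      ∑ s ∈ range (n + 1), (2 : ℝ) ^ (-(r * (s : ℝ))) * min 1 ((2 ^ s * a) ^ l) ≤ C * a ^ r := by
  set q : ℝ := max ((2 : ℝ) ^ (-r)) ((2 : ℝ) ^ (-((l : ℝ) - r))) with hq
  have hq0 : 0 < q := lt_of_lt_of_le (Real.rpow_pos_of_pos two_pos _) (le_max_left _ _)
  have hq1 : q < 1 := by
    refine max_lt ?_ ?_
    · exact Real.rpow_lt_one_of_one_lt_of_neg one_lt_two (by linarith)
    · exact Real.rpow_lt_one_of_one_lt_of_neg one_lt_two (by linarith)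
  have hinv : 1 ≤ (1 - q)⁻¹ := (one_le_inv₀ (by linarith)).mpr (by linarith)
  refine ⟨2 * (1 - q)⁻¹, by linarith, ?_⟩
  intro n a ha
  rcases ha.eq_or_lt with ha0 | ha0
  · subst ha0
    have hl1 : l ≠ 0 := by
      rintro rfl
      norm_num at hl
      linarith
    have : ∑ s ∈ range (n + 1), (2 : ℝ) ^ (-(r * (s : ℝ))) * min 1 ((2 ^ s * (0 : ℝ)) ^ l) = 0 := by
      refine Finset.sum_eq_zero fun s _ => ?_
      rw [mul_zero, zero_pow hl1]
      simp
    rw [this, Real.zero_rpow hr.ne', mul_zero]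
  · have hex : ∃ k : ℕ, 1 ≤ (2 : ℝ) ^ k * a := by
      obtain ⟨k, hk⟩ := pow_unbounded_of_one_lt (1 / a) (one_lt_two : (1 : ℝ) < 2)
      refine ⟨k, ?_⟩
      rw [div_lt_iff₀ ha0] at hk
      exact hk.le
    classical
    set k := Nat.find hex with hk
    have hk1 : 1 ≤ (2 : ℝ) ^ k * a := Nat.find_spec hex
    have hk2 : ∀ s, s < k → (2 : ℝ) ^ s * a < 1 := fun s hs => by
      have := Nat.find_min hex hs
      linarith
    have har : 0 < a ^ r := Real.rpow_pos_of_pos ha0 _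
    have hsplit : ∀ s : ℕ, (2 : ℝ) ^ (-(r * (s : ℝ))) = a ^ r * ((2 : ℝ) ^ s * a) ^ (-r) := by
      intro s
      rw [Real.mul_rpow (by positivity) ha, ← Real.rpow_natCast, ← Real.rpow_mul (by norm_num),
        Real.rpow_neg ha]
      field_simp
    have hbd : ∀ s : ℕ, (2 : ℝ) ^ (-(r * (s : ℝ))) * min 1 ((2 ^ s * a) ^ l) ≤
        a ^ r * (if s < k then q ^ (k - 1 - s) else q ^ (s - k)) := by
      intro s
      have hy0 : 0 < (2 : ℝ) ^ s * a := by positivity
      split_ifs with hs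
      · have h1 : (2 : ℝ) ^ (-(r * (s : ℝ))) * min 1 ((2 ^ s * a) ^ l) ≤
            (2 : ℝ) ^ (-(r * (s : ℝ))) * ((2 ^ s * a) ^ l) :=
          mul_le_mul_of_nonneg_left (min_le_right _ _) (Real.rpow_nonneg (by norm_num) _)
        have h2 : (2 : ℝ) ^ (-(r * (s : ℝ))) * ((2 ^ s * a) ^ l) =
            a ^ r * (((2 : ℝ) ^ s * a) ^ ((l : ℝ) - r)) := by
          rw [hsplit s, mul_assoc, ← Real.rpow_natCast ((2 : ℝ) ^ s * a) l,
            ← Real.rpow_add hy0]
          congr 2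
          ring
        have h3 : (2 : ℝ) ^ s * a ≤ ((2 : ℝ) ^ (k - 1 - s))⁻¹ := by
          have h4 := hk2 (k - 1) (by omega)
          have h5 : (2 : ℝ) ^ (k - 1) = 2 ^ s * 2 ^ (k - 1 - s) := by
            rw [← pow_add]
            congr 1
            omega
          rw [le_inv_comm₀ hy0 (by positivity), ← one_div, le_div_iff₀ hy0]
          rw [h5] at h4
          nlinarith
        have h4 : ((2 : ℝ) ^ s * a) ^ ((l : ℝ) - r) ≤ q ^ (k - 1 - s) := by
          calc ((2 : ℝ) ^ s * a) ^ ((l : ℝ) - r)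
              ≤ (((2 : ℝ) ^ (k - 1 - s))⁻¹) ^ ((l : ℝ) - r) :=
                Real.rpow_le_rpow hy0.le h3 (by linarith)
            _ = ((2 : ℝ) ^ (-((l : ℝ) - r))) ^ (k - 1 - s) := by
                rw [Real.inv_rpow (by positivity), ← Real.rpow_natCast, ← Real.rpow_mul (by norm_num),
                  ← Real.rpow_neg (by norm_num), ← Real.rpow_natCast, ← Real.rpow_mul (by norm_num)]
                congr 1
                ring
            _ ≤ q ^ (k - 1 - s) := pow_le_pow_left₀ (Real.rpow_nonneg (by norm_num) _)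
                (le_max_right _ _) _
        rw [h2] at h1
        exact h1.trans (mul_le_mul_of_nonneg_left h4 har.le)
      · have h1 : (2 : ℝ) ^ (-(r * (s : ℝ))) * min 1 ((2 ^ s * a) ^ l) ≤
            (2 : ℝ) ^ (-(r * (s : ℝ))) * 1 :=
          mul_le_mul_of_nonneg_left (min_le_left _ _) (Real.rpow_nonneg (by norm_num) _)
        rw [mul_one, hsplit s] at h1
        have h3 : (2 : ℝ) ^ (s - k) ≤ (2 : ℝ) ^ s * a := by
          have h5 : (2 : ℝ) ^ s = 2 ^ (s - k) * 2 ^ k := by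
            rw [← pow_add]
            congr 1
            omega
          rw [h5, mul_assoc]
          exact le_mul_of_one_le_right (by positivity) hk1
        have h4 : ((2 : ℝ) ^ s * a) ^ (-r) ≤ q ^ (s - k) := by
          calc ((2 : ℝ) ^ s * a) ^ (-r)
              ≤ ((2 : ℝ) ^ (s - k)) ^ (-r) :=
                Real.rpow_le_rpow_of_nonpos (by positivity) h3 (by linarith)
            _ = ((2 : ℝ) ^ (-r)) ^ (s - k) := by
                rw [← Real.rpow_natCast, ← Real.rpow_mul (by norm_num),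
                  ← Real.rpow_natCast, ← Real.rpow_mul (by norm_num)]
                congr 1
                ring
            _ ≤ q ^ (s - k) := pow_le_pow_left₀ (Real.rpow_nonneg (by norm_num) _)
                (le_max_left _ _) _
        rw [← hsplit s] at h1
        calc (2 : ℝ) ^ (-(r * (s : ℝ))) * min 1 ((2 ^ s * a) ^ l)
            ≤ (2 : ℝ) ^ (-(r * (s : ℝ))) := h1
          _ = a ^ r * ((2 : ℝ) ^ s * a) ^ (-r) := hsplit s
          _ ≤ a ^ r * q ^ (s - k) := mul_le_mul_of_nonneg_left h4 har.le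
    set g : ℕ → ℝ := fun s => if s < k then q ^ (k - 1 - s) else q ^ (s - k) with hg
    have hg0 : ∀ s, 0 ≤ g s := by
      intro s
      simp only [hg]
      split_ifs <;> positivity
    have hsum : ∑ s ∈ range (n + 1), g s ≤ 2 * (1 - q)⁻¹ := by
      calc ∑ s ∈ range (n + 1), g s ≤ ∑ s ∈ range (k + (n + 1)), g s :=
            Finset.sum_le_sum_of_subset_of_nonneg
              (Finset.range_subset_range.mpr (by omega)) (fun s _ _ => hg0 s)
        _ = ∑ s ∈ range k, g s + ∑ s ∈ range (n + 1), g (k + s) := Finset.sum_range_add _ _ _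
        _ = ∑ s ∈ range k, q ^ s + ∑ s ∈ range (n + 1), q ^ s := by
            congr 1
            · rw [← Finset.sum_range_reflect (fun s => q ^ s) k]
              refine Finset.sum_congr rfl fun s hs => ?_
              simp only [hg, if_pos (Finset.mem_range.mp hs)]
            · refine Finset.sum_congr rfl fun s _ => ?_
              simp only [hg]
              rw [if_neg (by omega)]
              congr 1
              omega
        _ ≤ (1 - q)⁻¹ + (1 - q)⁻¹ := add_le_add (NS_geom q hq0.le hq1 _) (NS_geom q hq0.le hq1 _)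
        _ = 2 * (1 - q)⁻¹ := by ring
    calc ∑ s ∈ range (n + 1), (2 : ℝ) ^ (-(r * (s : ℝ))) * min 1 ((2 ^ s * a) ^ l)
        ≤ ∑ s ∈ range (n + 1), a ^ r * g s := Finset.sum_le_sum fun s _ => hbd s
      _ = a ^ r * ∑ s ∈ range (n + 1), g s := by rw [Finset.mul_sum]
      _ ≤ a ^ r * (2 * (1 - q)⁻¹) := mul_le_mul_of_nonneg_left hsum har.le
      _ = 2 * (1 - q)⁻¹ * a ^ r := by ring

theorem NS_zero (r : ℝ) (hr : 0 < r) : ∃ C : ℝ, 1 ≤ C ∧
    ∀ n : ℕ, ∑ s ∈ range (n + 1), (2 : ℝ) ^ (-(r * (s : ℝ))) ≤ C := by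
  have h1 : (2 : ℝ) ^ (-r) < 1 := Real.rpow_lt_one_of_one_lt_of_neg one_lt_two (by linarith)
  have h0 : 0 < (2 : ℝ) ^ (-r) := Real.rpow_pos_of_pos two_pos _
  refine ⟨(1 - (2 : ℝ) ^ (-r))⁻¹, (one_le_inv₀ (by linarith)).mpr (by linarith), fun n => ?_⟩
  refine le_trans (le_of_eq ?_) (NS_geom _ h0.le h1 (n + 1))
  refine Finset.sum_congr rfl fun s _ => ?_
  rw [← Real.rpow_natCast, ← Real.rpow_mul (by norm_num)]
  congr 1
  ring

theorem NS_proof : S_NS := by
  classical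
  intro d r l hr hl
  obtain ⟨C1, hC1, h1⟩ := NS_one r l hr hl
  obtain ⟨C2, hC2, h2⟩ := NS_zero r hr
  refine ⟨(C1 * C2) ^ d, by positivity, ?_⟩
  intro n e t
  set B : Fin d → ℕ → ℝ := fun j s => if j ∈ e then min 1 ((2 ^ s * |t j|) ^ l) else 1 with hB
  have hB0 : ∀ j s, 0 ≤ B j s := by
    intro j s
    simp only [hB]
    split_ifs
    · exact le_min zero_le_one (by positivity)
    · exact zero_le_one
  have hprod : ∀ s : Fin d → Fin (n + 1),
      ∏ j ∈ e, min 1 ((2 ^ ((s j : Fin (n + 1)) : ℕ) * |t j|) ^ l) =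
        ∏ j, B j ((s j : Fin (n + 1)) : ℕ) := by
    intro s
    simp only [hB]
    rw [Finset.prod_ite_mem, Finset.univ_inter]
  have hterm : ∀ s ∈ HypVol.Sh d n,
      ∏ j ∈ e, min 1 ((2 ^ ((s j : Fin (n + 1)) : ℕ) * |t j|) ^ l) =
        (2 : ℝ) ^ (r * n) * ∏ j, ((2 : ℝ) ^ (-(r * (((s j : Fin (n + 1)) : ℕ) : ℝ))) *
          B j ((s j : Fin (n + 1)) : ℕ)) := by
    intro s hs
    have hsn : ∑ j, ((s j : Fin (n + 1)) : ℕ) = n := by
      simpa [HypVol.Sh] using hs
    rw [hprod s, Finset.prod_mul_distrib, ← mul_assoc]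
    have h3 : ∏ j, (2 : ℝ) ^ (-(r * (((s j : Fin (n + 1)) : ℕ) : ℝ))) =
        (2 : ℝ) ^ (-(r * (n : ℝ))) := by
      rw [← Real.rpow_sum_of_pos two_pos]
      congr 1
      rw [Finset.sum_neg_distrib, ← Finset.mul_sum]
      congr 2
      rw [← Nat.cast_sum, hsn]
    rw [h3, ← Real.rpow_add two_pos, add_neg_cancel, Real.rpow_zero, one_mul]
  rw [Finset.sum_congr rfl hterm, ← Finset.mul_sum]
  have hle : ∑ s ∈ HypVol.Sh d n, ∏ j, ((2 : ℝ) ^ (-(r * (((s j : Fin (n + 1)) : ℕ) : ℝ))) *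
      B j ((s j : Fin (n + 1)) : ℕ)) ≤ ∏ j, ∑ s ∈ range (n + 1),
        ((2 : ℝ) ^ (-(r * (s : ℝ))) * B j s) := by
    calc ∑ s ∈ HypVol.Sh d n, ∏ j, ((2 : ℝ) ^ (-(r * (((s j : Fin (n + 1)) : ℕ) : ℝ))) *
          B j ((s j : Fin (n + 1)) : ℕ))
        ≤ ∑ s : Fin d → Fin (n + 1), ∏ j, ((2 : ℝ) ^ (-(r * (((s j : Fin (n + 1)) : ℕ) : ℝ))) *
          B j ((s j : Fin (n + 1)) : ℕ)) :=
          Finset.sum_le_sum_of_subset_of_nonneg (Finset.subset_univ _) (fun s _ _ =>
            Finset.prod_nonneg fun j _ => mul_nonneg (Real.rpow_nonneg (by norm_num) _) (hB0 _ _))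
      _ = ∏ j, ∑ s : Fin (n + 1), ((2 : ℝ) ^ (-(r * ((s : ℕ) : ℝ))) * B j (s : ℕ)) := by
          rw [Finset.prod_univ_sum]
          simp
      _ = ∏ j, ∑ s ∈ range (n + 1), ((2 : ℝ) ^ (-(r * (s : ℝ))) * B j s) := by
          refine Finset.prod_congr rfl fun j _ => ?_
          exact Fin.sum_univ_eq_sum_range
            (fun s : ℕ => (2 : ℝ) ^ (-(r * (s : ℝ))) * B j s) (n + 1)
  have hle2 : ∏ j, ∑ s ∈ range (n + 1), ((2 : ℝ) ^ (-(r * (s : ℝ))) * B j s) ≤
      ∏ j : Fin d, ((C1 * C2) * (if j ∈ e then |t j| ^ r else 1)) := by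
    refine Finset.prod_le_prod (fun j _ => Finset.sum_nonneg fun s _ =>
      mul_nonneg (Real.rpow_nonneg (by norm_num) _) (hB0 _ _)) fun j _ => ?_
    simp only [hB]
    split_ifs with hj
    · have h3 := h1 n |t j| (abs_nonneg _)
      have h4 : 0 ≤ |t j| ^ r := Real.rpow_nonneg (abs_nonneg _) _
      have h5 : C1 * |t j| ^ r ≤ C1 * C2 * |t j| ^ r := by
        refine mul_le_mul_of_nonneg_right ?_ h4
        nlinarith
      exact h3.trans h5
    · simp only [mul_one]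
      have h3 := h2 n
      nlinarith
  rw [Finset.prod_mul_distrib, Finset.prod_const, Finset.prod_ite_mem, Finset.univ_inter,
    Finset.card_univ, Fintype.card_fin] at hle2
  have h6 := mul_le_mul_of_nonneg_left (hle.trans hle2)
    (Real.rpow_nonneg (by norm_num : (0 : ℝ) ≤ 2) (r * n))
  refine h6.trans (le_of_eq ?_)
  ring

end H506W
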