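import Pool.Agent.H506R3.LW.Defs
import Pool.Agent.HypVol.L_shp_lower
import Pool.Agent.HypVol.L_shp_upper

set_option autoImplicit false

open Finset MeasureTheory
open scoped BigOperators ENNReal

namespace H506W

lemma NUML_shp_zero (d : ℕ) : HypVol.shp d 0 = 1 := by
  unfold HypVol.shp HypVol.Sh
  have h : (Finset.univ.filter (fun s : Fin d → Fin (0+1) => ∑ j, ((s j : Fin (0 + 1)) : ℕ) = 0)) = Finset.univ := by
    apply Finset.filter_true_of_mem
    intro s _
    apply Finset.sum_eq_zero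
    intro j _
    have := (s j).isLt
    omega
  rw [h]
  simp

theorem NUML_proof : S_NUML := by
  intro d hd r hr
  obtain ⟨c1, hc1, hlow⟩ := HypVol.Sol_shp_lower.shp_lower d hd
  obtain ⟨C1, hC1, hup⟩ := HypVol.Sol_shp_upper.shp_upper d hd
  set e : ℕ := d - 1 with he
  have hde : (d : ℝ) - 1 = (e : ℝ) := by
    rw [he, Nat.cast_sub hd, Nat.cast_one]
  set c3 : ℝ := min (c1 / 2 ^ e) 1 with hc3
  have hc3p : 0 < c3 := lt_min (by positivity) one_pos
  set C2 : ℝ := |Real.log C1| + e + 1 with hC2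
  have hC2p : 0 < C2 := by positivity
  set E : ℝ := (e : ℝ) * (r + 1) with hE
  have hE0 : 0 ≤ E := by positivity
  refine ⟨(4 / c3) ^ (-r) * c1 * C2 ^ (-E), by positivity, ?_⟩
  intro m hm
  have hmp : (0:ℝ) < m := by
    have : 0 < m := by omega
    exact_mod_cast this
  -- existence of n
  have hex : ∃ n : ℕ, (m : ℝ) < HypVol.shp d n * 2 ^ n / 2 := by
    have h1 : Filter.Tendsto (fun n : ℕ => c1 / 2 * (2:ℝ) ^ n) Filter.atTop Filter.atTop :=
      (tendsto_pow_atTop_atTop_of_one_lt one_lt_two).const_mul_atTop (by positivity)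
    obtain ⟨n, hn, hn1⟩ := ((h1.eventually_gt_atTop (m:ℝ)).and (Filter.eventually_ge_atTop 1)).exists
    refine ⟨n, hn.trans_le ?_⟩
    have h2 := hlow n hn1
    have h3 : (1:ℝ) ≤ (n:ℝ) ^ e := one_le_pow₀ (by exact_mod_cast hn1)
    have h4 : c1 ≤ HypVol.shp d n := by
      calc c1 = c1 * 1 := (mul_one _).symm
        _ ≤ c1 * (n:ℝ) ^ e := by gcongr
        _ ≤ _ := h2
    have h5 : (0:ℝ) < 2 ^ n := by positivity
    nlinarith
  classical
  set n := Nat.find hex with hn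
  have hnm : (m : ℝ) < HypVol.shp d n * 2 ^ n / 2 := Nat.find_spec hex
  have hn0 : n ≠ 0 := by
    intro h0
    rw [h0, NUML_shp_zero] at hnm
    have : (2:ℝ) ≤ m := by exact_mod_cast hm
    norm_num at hnm
    linarith
  have hn1 : 1 ≤ n := Nat.one_le_iff_ne_zero.mpr hn0
  obtain ⟨k, hk⟩ : ∃ k, n = k + 1 := ⟨n - 1, by omega⟩
  have hkm : (HypVol.shp d k : ℝ) * 2 ^ k / 2 ≤ m := by
    have := Nat.find_min hex (m := k) (by omega)
    exact not_lt.mp this
  have hnR : (1:ℝ) ≤ n := by exact_mod_cast hn1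
  set N : ℝ := (n:ℝ) ^ e with hN
  have hNp : 0 < N := by positivity
  have hklow : c3 * N ≤ HypVol.shp d k := by
    rcases Nat.eq_zero_or_pos k with h0 | h0
    · rw [h0, NUML_shp_zero]
      have h1 : n = 1 := by omega
      rw [hN, h1]
      simp only [Nat.cast_one, one_pow, mul_one]
      exact min_le_right _ _
    · have h1 := hlow k h0
      have h2 : (n:ℝ) / 2 ≤ k := by
        have : (n:ℝ) = k + 1 := by rw [hk]; push_cast; ring
        have h3 : (1:ℝ) ≤ k := by exact_mod_cast h0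
        rw [this]
        linarith
      calc c3 * N ≤ c1 / 2 ^ e * N := by
            have := min_le_left (c1 / 2 ^ e) 1
            gcongr
        _ = c1 * ((n:ℝ) / 2) ^ e := by
            rw [div_pow, hN]
            ring
        _ ≤ c1 * (k:ℝ) ^ e := by gcongr
        _ ≤ _ := h1
  have h2n : (2:ℝ) ^ n ≤ 4 / c3 * m * N⁻¹ := by
    have h1 : c3 * N * 2 ^ k ≤ 2 * m := by
      have : c3 * N * 2 ^ k ≤ HypVol.shp d k * 2 ^ k := by gcongr
      linarith
    have h2 : (2:ℝ) ^ n = 2 * 2 ^ k := by rw [hk, pow_succ]; ring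
    have h3 : 4 / c3 * m * N⁻¹ = (4 * m) / (c3 * N) := by field_simp
    rw [h3, le_div_iff₀ (by positivity), h2]
    linarith
  have hpow : (4 / c3) ^ (-r) * (m:ℝ) ^ (-r) * N ^ r ≤ (2:ℝ) ^ (-(r * n)) := by
    have h1 : (2:ℝ) ^ (-(r * n)) = ((2:ℝ) ^ n) ^ (-r) := by
      rw [← Real.rpow_natCast 2 n, ← Real.rpow_mul (by norm_num)]
      congr 1
      ring
    have h2 : (4 / c3 * m * N⁻¹) ^ (-r) = (4 / c3) ^ (-r) * (m:ℝ) ^ (-r) * N ^ r := by
      rw [Real.mul_rpow (by positivity) (by positivity), Real.mul_rpow (by positivity) (by positivity)]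
      congr 1
      rw [Real.rpow_neg (by positivity), Real.inv_rpow hNp.le, inv_inv]
    rw [h1, ← h2]
    exact Real.rpow_le_rpow_of_nonpos (by positivity) h2n (by linarith)
  have hshp : c1 * N ≤ HypVol.shp d n := hlow n hn1
  have hNE : (n:ℝ) ^ E = N ^ r * N := by
    rw [hE, Real.rpow_mul (by positivity), Real.rpow_natCast, Real.rpow_add_one hNp.ne']
  have hlog : Real.log m ≤ C2 * n := by
    have h1 : (m:ℝ) ≤ C1 * N * 2 ^ n := by
      have h2 := hup n hn1
      have h3 : (HypVol.shp d n : ℝ) * 2 ^ n ≤ C1 * N * 2 ^ n := by gcongr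
      have h4 : (0:ℝ) ≤ HypVol.shp d n * 2 ^ n := by positivity
      linarith
    have h5 : Real.log m ≤ Real.log (C1 * N * 2 ^ n) := Real.log_le_log hmp h1
    rw [Real.log_mul (by positivity) (by positivity), Real.log_mul hC1.ne' hNp.ne', hN, Real.log_pow,
      Real.log_pow] at h5
    have h6 : Real.log n ≤ n := (Real.log_le_sub_one_of_pos (by positivity)).trans (by linarith)
    have h7 : Real.log 2 ≤ 1 := by
      have := Real.log_le_sub_one_of_pos (show (0:ℝ) < 2 by norm_num)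
      linarith
    have h8 : Real.log C1 ≤ |Real.log C1| * n := by
      calc Real.log C1 ≤ |Real.log C1| * 1 := by rw [mul_one]; exact le_abs_self _
        _ ≤ |Real.log C1| * n := by gcongr
    have h9 : (e:ℝ) * Real.log n ≤ e * n := by gcongr
    have h10 : (n:ℝ) * Real.log 2 ≤ n * 1 := by gcongr
    calc Real.log m ≤ |Real.log C1| * n + e * n + n * 1 := by linarith
      _ = C2 * n := by rw [hC2]; ring
  have hlog0 : 0 ≤ Real.log m := Real.log_nonneg (by exact_mod_cast (by omega : 1 ≤ m))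
  have hlogE : C2 ^ (-E) * (Real.log m) ^ E ≤ (n:ℝ) ^ E := by
    have h1 : (Real.log m) ^ E ≤ (C2 * n) ^ E := Real.rpow_le_rpow hlog0 hlog hE0
    rw [Real.mul_rpow hC2p.le (by positivity)] at h1
    calc C2 ^ (-E) * (Real.log m) ^ E ≤ C2 ^ (-E) * (C2 ^ E * (n:ℝ) ^ E) := by gcongr
      _ = (n:ℝ) ^ E := by
        rw [← mul_assoc, ← Real.rpow_add hC2p]
        simp
  refine ⟨n, hnm, ?_⟩
  rw [hde]
  calc (4 / c3) ^ (-r) * c1 * C2 ^ (-E) * (m:ℝ) ^ (-r) * (Real.log m) ^ E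
      = (4 / c3) ^ (-r) * c1 * (m:ℝ) ^ (-r) * (C2 ^ (-E) * (Real.log m) ^ E) := by ring
    _ ≤ (4 / c3) ^ (-r) * c1 * (m:ℝ) ^ (-r) * (n:ℝ) ^ E := by gcongr
    _ = ((4 / c3) ^ (-r) * (m:ℝ) ^ (-r) * N ^ r) * (c1 * N) := by rw [hNE]; ring
    _ ≤ (2:ℝ) ^ (-(r * n)) * HypVol.shp d n := by gcongr

end H506W
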