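import Mathlib
import Pool.Agent.H506R3.LW.Defs2

/-! Task NUMU: numbers for the upper bound. -/

set_option autoImplicit false

open Finset MeasureTheory
open scoped BigOperators ENNReal

namespace H506W

theorem NUMU_find (e : ℕ) (C M : ℝ) (hC : 0 < C) (hM : C ≤ M) :
    ∃ n : ℕ, C * ((2 : ℝ) ^ n * ((n : ℝ) + 1) ^ e) ≤ M ∧
      M < C * ((2 : ℝ) ^ (n + 1) * ((n : ℝ) + 2) ^ e) := by
  classical
  have hex : ∃ N : ℕ, M < C * ((2 : ℝ) ^ N * ((N : ℝ) + 1) ^ e) := by
    obtain ⟨N, hN⟩ := pow_unbounded_of_one_lt (M / C) (one_lt_two (α := ℝ))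
    refine ⟨N, ?_⟩
    have h1 : M < C * 2 ^ N := by
      rw [div_lt_iff₀ hC] at hN
      linarith
    have h2 : (1 : ℝ) ≤ ((N : ℝ) + 1) ^ e := one_le_pow₀ (by linarith [Nat.cast_nonneg (α := ℝ) N])
    have h3 : (0 : ℝ) < C * 2 ^ N := by positivity
    nlinarith
  have hspec := Nat.find_spec hex
  have hmin := fun k => Nat.find_min hex (m := k)
  set N := Nat.find hex with hN
  have hN0 : N ≠ 0 := by
    intro h0
    rw [h0] at hspec
    simp at hspec
    linarith
  obtain ⟨n, hn⟩ := Nat.exists_eq_succ_of_ne_zero hN0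
  refine ⟨n, ?_, ?_⟩
  · exact not_lt.1 (hmin n (by omega))
  · rw [hn] at hspec
    have h1 : ((n.succ : ℕ) : ℝ) + 1 = (n : ℝ) + 2 := by push_cast; ring
    rw [h1] at hspec
    exact hspec

theorem NUMU_proof : S_NUMU := by
  intro d hd r C hr hC
  set e : ℕ := d - 1 with he
  have hde : (d : ℝ) - 1 = (e : ℝ) := by
    rw [he, Nat.cast_sub hd, Nat.cast_one]
  set E : ℝ := ((d : ℝ) - 1) * (r + 1) with hE
  have hE0 : 0 ≤ E := by
    rw [hE, hde]; positivity
  have hl2 : 0 < Real.log 2 := Real.log_pos one_lt_two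
  set K : ℝ := 1 / Real.log 2 + |Real.log C| / (Real.log 2) ^ 2 + 2 / Real.log 2 with hK
  have hK0 : 0 < K := by positivity
  refine ⟨C ^ r * (Real.log 2) ^ (-E) + C * (2 * C) ^ r * K ^ E, by positivity, ?_⟩
  intro m hm
  have hm2 : (2 : ℝ) ≤ m := by exact_mod_cast hm
  have hm0 : (0 : ℝ) < m := by linarith
  have hlm : Real.log 2 ≤ Real.log m := Real.log_le_log (by norm_num) hm2
  have hlm0 : 0 < Real.log m := lt_of_lt_of_le hl2 hlm
  have hX0 : (0 : ℝ) < (m : ℝ) ^ (-r) := Real.rpow_pos_of_pos hm0 _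
  have hY0 : 0 < Real.log m ^ E := Real.rpow_pos_of_pos hlm0 _
  by_cases hmC : (m : ℝ) < C
  · left
    have h1 : C ^ (-r) ≤ (m : ℝ) ^ (-r) :=
      Real.rpow_le_rpow_of_nonpos hm0 hmC.le (by linarith)
    have h2 : Real.log 2 ^ E ≤ Real.log m ^ E := Real.rpow_le_rpow hl2.le hlm hE0
    have h3 : C ^ r * (Real.log 2) ^ (-E) * (C ^ (-r) * Real.log 2 ^ E) = 1 := by
      have h4 : C ^ r * C ^ (-r) = 1 := by
        rw [← Real.rpow_add hC]; simp
      have h5 : Real.log 2 ^ (-E) * Real.log 2 ^ E = 1 := by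
        rw [← Real.rpow_add hl2]; simp
      calc _ = (C ^ r * C ^ (-r)) * (Real.log 2 ^ (-E) * Real.log 2 ^ E) := by ring
        _ = 1 := by rw [h4, h5, one_mul]
    have h6 : C ^ (-r) * Real.log 2 ^ E ≤ (m : ℝ) ^ (-r) * Real.log m ^ E :=
      mul_le_mul h1 h2 (by positivity) (by positivity)
    calc (1 : ℝ) = C ^ r * (Real.log 2) ^ (-E) * (C ^ (-r) * Real.log 2 ^ E) := h3.symm
      _ ≤ C ^ r * (Real.log 2) ^ (-E) * ((m : ℝ) ^ (-r) * Real.log m ^ E) :=
        mul_le_mul_of_nonneg_left h6 (by positivity)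
      _ ≤ (C ^ r * (Real.log 2) ^ (-E) + C * (2 * C) ^ r * K ^ E) *
          ((m : ℝ) ^ (-r) * Real.log m ^ E) := by
        apply mul_le_mul_of_nonneg_right _ (by positivity)
        have : 0 ≤ C * (2 * C) ^ r * K ^ E := by positivity
        linarith
      _ = _ := by ring
  · right
    push Not at hmC
    obtain ⟨n, h1, h2⟩ := NUMU_find e C m hC hmC
    refine ⟨n, h1, ?_⟩
    have hn0 : (0 : ℝ) ≤ n := Nat.cast_nonneg n
    have hn2 : (0 : ℝ) < (n : ℝ) + 2 := by linarith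
    -- bound for n + 2
    have h3 : (n : ℝ) + 2 ≤ K * Real.log m := by
      have h4 : (2 : ℝ) ^ n ≤ m / C := by
        rw [le_div_iff₀ hC]
        have h5 : (1 : ℝ) ≤ ((n : ℝ) + 1) ^ e := one_le_pow₀ (by linarith)
        have h6 : (0 : ℝ) < 2 ^ n * C := by positivity
        nlinarith
      have h5 : (n : ℝ) * Real.log 2 ≤ Real.log m - Real.log C := by
        rw [← Real.log_div hm0.ne' hC.ne', ← Real.log_pow]
        exact Real.log_le_log (by positivity) h4
      have h6 : (n : ℝ) * Real.log 2 ≤ Real.log m + |Real.log C| := by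
        linarith [neg_abs_le (Real.log C)]
      have h7 : |Real.log C| ≤ |Real.log C| / Real.log 2 * Real.log m := by
        rw [div_mul_eq_mul_div, le_div_iff₀ hl2]
        exact mul_le_mul_of_nonneg_left hlm (abs_nonneg _)
      have h8 : (n : ℝ) ≤ (1 / Real.log 2 + |Real.log C| / (Real.log 2) ^ 2) * Real.log m := by
        have h9 : (n : ℝ) ≤ (Real.log m + |Real.log C| / Real.log 2 * Real.log m) / Real.log 2 := by
          rw [le_div_iff₀ hl2]; linarith
        refine h9.trans (le_of_eq ?_)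
        field_simp
      have h10 : (2 : ℝ) ≤ 2 / Real.log 2 * Real.log m := by
        rw [div_mul_eq_mul_div, le_div_iff₀ hl2]
        linarith
      calc (n : ℝ) + 2 ≤ (1 / Real.log 2 + |Real.log C| / (Real.log 2) ^ 2) * Real.log m +
            2 / Real.log 2 * Real.log m := by linarith
        _ = K * Real.log m := by rw [hK]; ring
    -- bound for 2 ^ (-(r n))
    have h4 : ((2 : ℝ) ^ n)⁻¹ ≤ 2 * C * ((n : ℝ) + 2) ^ e * (m : ℝ)⁻¹ := by
      have h5 : (0 : ℝ) < 2 ^ n := by positivity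
      rw [inv_le_iff_one_le_mul₀ h5]
      have h6 : (m : ℝ) ≤ 2 ^ n * (2 * C * ((n : ℝ) + 2) ^ e) := by
        rw [pow_succ] at h2
        linarith
      calc (1 : ℝ) = m * (m : ℝ)⁻¹ := by field_simp
        _ ≤ 2 ^ n * (2 * C * ((n : ℝ) + 2) ^ e) * (m : ℝ)⁻¹ :=
          mul_le_mul_of_nonneg_right h6 (by positivity)
        _ = _ := by ring
    have h5 : (2 : ℝ) ^ (-(r * n)) ≤ (2 * C) ^ r * ((n : ℝ) + 2) ^ ((e : ℝ) * r) * (m : ℝ) ^ (-r) := by
      have h6 : (2 : ℝ) ^ (-(r * n)) = (((2 : ℝ) ^ n)⁻¹) ^ r := by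
        rw [← Real.rpow_natCast, ← Real.rpow_neg (by norm_num), ← Real.rpow_mul (by norm_num)]
        congr 1; ring
      rw [h6]
      refine (Real.rpow_le_rpow (by positivity) h4 hr.le).trans (le_of_eq ?_)
      rw [Real.mul_rpow (by positivity) (by positivity), Real.mul_rpow (by positivity)
        (by positivity), Real.inv_rpow hm0.le, ← Real.rpow_neg hm0.le, ← Real.rpow_natCast,
        ← Real.rpow_mul hn2.le]
    have h6 : ((n : ℝ) + 1) ^ e ≤ ((n : ℝ) + 2) ^ (e : ℝ) := by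
      rw [Real.rpow_natCast]
      exact pow_le_pow_left₀ (by linarith) (by linarith) _
    have h7 : ((n : ℝ) + 2) ^ ((e : ℝ) * r) * ((n : ℝ) + 2) ^ (e : ℝ) = ((n : ℝ) + 2) ^ E := by
      rw [← Real.rpow_add hn2, hE, hde]
      congr 1; ring
    have h8 : ((n : ℝ) + 2) ^ E ≤ K ^ E * Real.log m ^ E := by
      rw [← Real.mul_rpow hK0.le hlm0.le]
      exact Real.rpow_le_rpow hn2.le h3 hE0
    calc C * (2 : ℝ) ^ (-(r * n)) * ((n : ℝ) + 1) ^ e
        ≤ C * ((2 * C) ^ r * ((n : ℝ) + 2) ^ ((e : ℝ) * r) * (m : ℝ) ^ (-r)) *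
          ((n : ℝ) + 2) ^ (e : ℝ) := by
          apply mul_le_mul (mul_le_mul_of_nonneg_left h5 hC.le) h6 (by positivity) (by positivity)
      _ = C * (2 * C) ^ r * (((n : ℝ) + 2) ^ ((e : ℝ) * r) * ((n : ℝ) + 2) ^ (e : ℝ)) *
          (m : ℝ) ^ (-r) := by ring
      _ = C * (2 * C) ^ r * ((n : ℝ) + 2) ^ E * (m : ℝ) ^ (-r) := by rw [h7]
      _ ≤ C * (2 * C) ^ r * (K ^ E * Real.log m ^ E) * (m : ℝ) ^ (-r) := by
          apply mul_le_mul_of_nonneg_right _ hX0.le
          exact mul_le_mul_of_nonneg_left h8 (by positivity)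
      _ = C * (2 * C) ^ r * K ^ E * ((m : ℝ) ^ (-r) * Real.log m ^ E) := by ring
      _ ≤ (C ^ r * (Real.log 2) ^ (-E) + C * (2 * C) ^ r * K ^ E) *
          ((m : ℝ) ^ (-r) * Real.log m ^ E) := by
          apply mul_le_mul_of_nonneg_right _ (by positivity)
          have : 0 ≤ C ^ r * (Real.log 2) ^ (-E) := by positivity
          linarith
      _ = _ := by ring

end H506W
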