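import Pool.Agent.H506R3.LW.Defs2
import Pool.Agent.HypVol.L_TP_prob

/-!
# Linear widths, upper bound: the blocks come from operators of finite rank
-/

set_option autoImplicit false

open Finset MeasureTheory
open scoped BigOperators ENNReal

namespace H506W

/-- exponential -/
noncomputable def OPSe {d : ℕ} (m : Fin d → ℤ) (x : Fin d → ℝ) : ℂ :=
  Complex.exp (Complex.I * ((∑ j, (m j : ℝ) * x j : ℝ) : ℂ))

/-- exponential with the opposite sign -/
noncomputable def OPSn {d : ℕ} (m : Fin d → ℤ) (x : Fin d → ℝ) : ℂ :=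
  Complex.exp (-(Complex.I * ((∑ j, (m j : ℝ) * x j : ℝ) : ℂ)))

lemma OPSe_norm {d : ℕ} (m : Fin d → ℤ) (x : Fin d → ℝ) : ‖OPSe m x‖ = 1 := by
  unfold OPSe
  rw [mul_comm]
  exact Complex.norm_exp_ofReal_mul_I _

lemma OPSn_norm {d : ℕ} (m : Fin d → ℤ) (x : Fin d → ℝ) : ‖OPSn m x‖ = 1 := by
  unfold OPSn
  have : -(Complex.I * ((∑ j, (m j : ℝ) * x j : ℝ) : ℂ)) =
      ((-(∑ j, (m j : ℝ) * x j) : ℝ) : ℂ) * Complex.I := by
    push_cast; ring
  rw [this]
  exact Complex.norm_exp_ofReal_mul_I _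

lemma OPSe_cont {d : ℕ} (m : Fin d → ℤ) : Continuous (OPSe m) := by
  unfold OPSe; fun_prop

lemma OPSn_cont {d : ℕ} (m : Fin d → ℤ) : Continuous (OPSn m) := by
  unfold OPSn; fun_prop

lemma OPSe_mem {d : ℕ} (m : Fin d → ℤ) : MemLp (OPSe m) ⊤ (HypVol.TP d) :=
  memLp_top_of_bound (OPSe_cont m).aestronglyMeasurable 1
    (Filter.Eventually.of_forall fun x => (OPSe_norm m x).le)

lemma OPS_int {d : ℕ} (F : Lp ℂ ⊤ (HypVol.TP d)) (m : Fin d → ℤ) :
    Integrable (fun x => F x * OPSn m x) (HypVol.TP d) := by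
  haveI := HypVol.TP_prob d
  refine ((Lp.memLp F).integrable le_top).mul_bdd (c := 1) (OPSn_cont m).aestronglyMeasurable ?_
  exact Filter.Eventually.of_forall fun x => (OPSn_norm m x).le

/-- Fourier coefficient as a functional -/
noncomputable def OPSphi {d : ℕ} (m : Fin d → ℤ) : Lp ℂ ⊤ (HypVol.TP d) →L[ℂ] ℂ :=
  LinearMap.mkContinuous
    { toFun := fun F => ∫ x, F x * OPSn m x ∂(HypVol.TP d)
      map_add' := by
        intro F G
        have h : (fun x => (F + G : Lp ℂ ⊤ (HypVol.TP d)) x * OPSn m x) =ᵐ[HypVol.TP d]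
            fun x => F x * OPSn m x + G x * OPSn m x := by
          filter_upwards [Lp.coeFn_add F G] with x hx
          rw [hx, Pi.add_apply, add_mul]
        rw [integral_congr_ae h, integral_add (OPS_int F m) (OPS_int G m)]
      map_smul' := by
        intro c F
        have h : (fun x => (c • F : Lp ℂ ⊤ (HypVol.TP d)) x * OPSn m x) =ᵐ[HypVol.TP d]
            fun x => c * (F x * OPSn m x) := by
          filter_upwards [Lp.coeFn_smul c F] with x hx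
          rw [hx, Pi.smul_apply, smul_eq_mul, mul_assoc]
        rw [integral_congr_ae h, integral_const_mul, RingHom.id_apply, smul_eq_mul] }
    1 (by
      intro F
      haveI := HypVol.TP_prob d
      have h1 : ∀ᵐ x ∂(HypVol.TP d), ‖F x‖ ≤ ‖F‖ := by
        have h2 := ae_le_eLpNormEssSup (f := (F : (Fin d → ℝ) → ℂ)) (μ := HypVol.TP d)
        have h3 : eLpNormEssSup (F : (Fin d → ℝ) → ℂ) (HypVol.TP d) ≠ ⊤ := by
          have := Lp.eLpNorm_ne_top F
          rwa [eLpNorm_exponent_top] at this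
        filter_upwards [h2] with x hx
        rw [Lp.norm_def, eLpNorm_exponent_top]
        have h4 := ENNReal.toReal_mono h3 hx
        simpa using h4
      have h5 : ∀ᵐ x ∂(HypVol.TP d), ‖F x * OPSn m x‖ ≤ ‖F‖ := by
        filter_upwards [h1] with x hx
        rw [norm_mul, OPSn_norm, mul_one]
        exact hx
      have h6 := norm_integral_le_of_norm_le_const h5
      simpa using h6)

lemma OPSphi_apply {d : ℕ} (m : Fin d → ℤ) (F : Lp ℂ ⊤ (HypVol.TP d)) :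
    OPSphi m F = ∫ x, F x * OPSn m x ∂(HypVol.TP d) := rfl

lemma OPSphi_toLp {d : ℕ} (m : Fin d → ℤ) (f : (Fin d → ℝ) → ℂ) (hf : MemLp f ⊤ (HypVol.TP d)) :
    OPSphi m (hf.toLp f) = HypVol.fc f m := by
  rw [OPSphi_apply]
  unfold HypVol.fc
  refine integral_congr_ae ?_
  filter_upwards [hf.coeFn_toLp] with x hx
  rw [hx]
  rfl

/-- the exponential as an element of `L_∞` -/
noncomputable def OPSL {d : ℕ} (m : Fin d → ℤ) : Lp ℂ ⊤ (HypVol.TP d) := (OPSe_mem m).toLp _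

lemma OPS_sum {d : ℕ} {α : Type} (I : Finset α) (c : α → ℂ) (m : α → (Fin d → ℤ)) :
    ((∑ a ∈ I, c a • OPSL (m a) : Lp ℂ ⊤ (HypVol.TP d)) : (Fin d → ℝ) → ℂ) =ᵐ[HypVol.TP d]
      fun x => ∑ a ∈ I, c a * OPSe (m a) x := by
  classical
  induction I using Finset.induction_on with
  | empty =>
    simp only [Finset.sum_empty]
    exact Lp.coeFn_zero _ _ _
  | insert a I ha ih =>
    simp only [Finset.sum_insert ha]
    filter_upwards [Lp.coeFn_add (c a • OPSL (m a)) (∑ a ∈ I, c a • OPSL (m a)), ih,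
      Lp.coeFn_smul (c a) (OPSL (m a)), (OPSe_mem (m a)).coeFn_toLp] with x h1 h2 h3 h4
    rw [h1, Pi.add_apply, h2, h3, Pi.smul_apply, smul_eq_mul]
    congr 2

/-- the box -/
noncomputable def OPSB {d : ℕ} (s : Fin d → ℕ) : Finset (Fin d → ℤ) :=
  Fintype.piFinset fun j => Finset.Icc (-(2 : ℤ) ^ (s j)) (2 ^ (s j))

lemma OPSB_card {d : ℕ} (s : Fin d → ℕ) : (OPSB s).card = ∏ j, (2 * 2 ^ (s j) + 1) := by
  unfold OPSB
  rw [Fintype.card_piFinset]
  refine Finset.prod_congr rfl fun j _ => ?_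
  rw [Int.card_Icc]
  have : (2 : ℤ) ^ (s j) + 1 - -(2 : ℤ) ^ (s j) = ((2 * 2 ^ (s j) + 1 : ℕ) : ℤ) := by
    push_cast; ring
  rw [this, Int.toNat_natCast]

/-- coefficients of `kd` -/
noncomputable def OPSb {r : ℝ} (K : Ker r) (s : ℕ) (k : ℤ) : ℂ :=
  K.b s k - (if s ≠ 0 ∧ k ∈ Finset.Icc (-(2 : ℤ) ^ (s - 1)) (2 ^ (s - 1)) then K.b (s - 1) k else 0)

lemma OPSb_kd {r : ℝ} (K : Ker r) (s : ℕ) (t : ℝ) : ((kd K s t : ℝ) : ℂ) =
    ∑ k ∈ Finset.Icc (-(2 : ℤ) ^ s) (2 ^ s), OPSb K s k *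
      Complex.exp (-(Complex.I * ((k * t : ℝ) : ℂ))) := by
  unfold kd OPSb
  simp only [sub_mul, Finset.sum_sub_distrib]
  rw [Complex.ofReal_sub, K.eq s t]
  congr 1
  by_cases hs : s = 0
  · simp [hs]
  · rw [if_neg hs, K.eq (s - 1) t]
    have hsub : Finset.Icc (-(2 : ℤ) ^ (s - 1)) (2 ^ (s - 1)) ⊆
        Finset.Icc (-(2 : ℤ) ^ s) (2 ^ s) := by
      have h : (2 : ℤ) ^ (s - 1) ≤ 2 ^ s := pow_le_pow_right₀ (by norm_num) (Nat.sub_le _ _)
      exact Finset.Icc_subset_Icc (by linarith) h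
    rw [← Finset.sum_subset hsub]
    · refine Finset.sum_congr rfl fun k hk => ?_
      rw [if_pos ⟨hs, hk⟩]
    · intro k _ hk
      rw [if_neg (fun h => hk h.2), zero_mul]

lemma OPS_prod {d : ℕ} {r : ℝ} (K : Ker r) (s : Fin d → ℕ) (t : Fin d → ℝ) :
    ((∏ j, kd K (s j) (t j) : ℝ) : ℂ) =
      ∑ k ∈ OPSB s, (∏ j, OPSb K (s j) (k j)) * OPSn k t := by
  rw [Complex.ofReal_prod]
  simp only [OPSb_kd]
  rw [Finset.prod_univ_sum]
  refine Finset.sum_congr rfl fun k _ => ?_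
  rw [Finset.prod_mul_distrib]
  congr 1
  unfold OPSn
  rw [← Complex.exp_sum]
  congr 1
  push_cast
  rw [Finset.mul_sum, Finset.sum_neg_distrib]

/-- the index set -/
noncomputable def OPSI {d : ℕ} (l : ℕ) (s : Fin d → ℕ) : Finset ((Fin d → ℕ) × (Fin d → ℤ)) :=
  ((Fintype.piFinset fun _ : Fin d => Finset.Icc 1 l) ×ˢ OPSB s).filter
    fun p => ∀ j, ((p.1 j : ℕ) : ℤ) ∣ p.2 j

/-- quotient -/
def OPSm {d : ℕ} (p : (Fin d → ℕ) × (Fin d → ℤ)) (j : Fin d) : ℤ := p.2 j / (p.1 j : ℤ)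

/-- coefficient -/
noncomputable def OPSc {d : ℕ} {r : ℝ} (K : Ker r) (l : ℕ) (s : Fin d → ℕ)
    (p : (Fin d → ℕ) × (Fin d → ℤ)) : ℂ :=
  ((∏ j, cc l (p.1 j) : ℝ) : ℂ) * ∏ j, OPSb K (s j) (p.2 j)

lemma OPSm_mem {d : ℕ} (l : ℕ) (s : Fin d → ℕ) (p : (Fin d → ℕ) × (Fin d → ℤ))
    (hp : p ∈ OPSI l s) : OPSm p ∈ OPSB s := by
  unfold OPSI at hp
  rw [Finset.mem_filter, Finset.mem_product] at hp
  obtain ⟨⟨h1, h2⟩, h3⟩ := hp
  unfold OPSB at h2 ⊢
  rw [Fintype.mem_piFinset] at h1 h2 ⊢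
  intro j
  have e1 := h1 j
  have e2 := h2 j
  rw [Finset.mem_Icc] at e1 e2 ⊢
  unfold OPSm
  obtain ⟨q, hq⟩ := h3 j
  have hν : (1 : ℤ) ≤ (p.1 j : ℤ) := by exact_mod_cast e1.1
  have hν0 : ((p.1 j : ℕ) : ℤ) ≠ 0 := by omega
  rw [hq, Int.mul_ediv_cancel_left _ hν0]
  rw [hq] at e2
  have hpow : (0 : ℤ) < 2 ^ (s j) := by positivity
  constructor
  · by_contra hcon
    push Not at hcon
    have : (p.1 j : ℤ) * q ≤ 1 * q := by
      apply mul_le_mul_of_nonpos_right hν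
      linarith
    linarith [e2.1]
  · by_contra hcon
    push Not at hcon
    have : 1 * q ≤ (p.1 j : ℤ) * q := by
      apply mul_le_mul_of_nonneg_right hν
      linarith
    linarith [e2.2]

lemma OPS_Bl (hFC : S_FC) {d : ℕ} {r : ℝ} (K : Ker r) (l : ℕ) (s : Fin d → ℕ)
    (f : (Fin d → ℝ) → ℂ)
    (hper : ∀ (x : Fin d → ℝ) (j : Fin d), f (Function.update x j (x j + 2 * Real.pi)) = f x)
    (hm : Measurable f) (hb : ∀ x, ‖f x‖ ≤ 1) (x : Fin d → ℝ) :
    Bl K l s f x = ∑ p ∈ OPSI l s, (OPSc K l s p * HypVol.fc f (OPSm p)) * OPSe (OPSm p) x := by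
  haveI := HypVol.TP_prob d
  unfold Bl
  have h1 : ∀ t : Fin d → ℝ, SSe l ∅ f x t * ((∏ j, kd K (s j) (t j) : ℝ) : ℂ) =
      ∑ p ∈ (Fintype.piFinset fun _ : Fin d => Finset.Icc 1 l) ×ˢ OPSB s,
        OPSc K l s p * (f (fun j => x j + (p.1 j : ℝ) * t j) * OPSn p.2 t) := by
    intro t
    rw [OPS_prod]
    unfold SSe
    simp only [Finset.notMem_empty, if_false]
    rw [Finset.sum_mul_sum, ← Finset.sum_product']
    refine Finset.sum_congr rfl fun p _ => ?_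
    unfold OPSc
    ring
  simp only [h1]
  have hint : ∀ p ∈ (Fintype.piFinset fun _ : Fin d => Finset.Icc 1 l) ×ˢ OPSB s,
      Integrable (fun t : Fin d → ℝ => OPSc K l s p *
        (f (fun j => x j + (p.1 j : ℝ) * t j) * OPSn p.2 t)) (HypVol.TP d) := by
    intro p _
    refine Integrable.const_mul ?_ _
    have hmeas : Measurable fun t : Fin d → ℝ => f (fun j => x j + (p.1 j : ℝ) * t j) :=
      hm.comp (by fun_prop)
    refine Integrable.of_bound (hmeas.aestronglyMeasurable.mul (OPSn_cont p.2).aestronglyMeasurable)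
      1 (Filter.Eventually.of_forall fun t => ?_)
    rw [norm_mul, OPSn_norm, mul_one]
    exact hb _
  rw [integral_finsetSum _ hint]
  unfold OPSI
  rw [Finset.sum_filter]
  refine Finset.sum_congr rfl fun p hp => ?_
  rw [integral_const_mul]
  rw [Finset.mem_product, Fintype.mem_piFinset] at hp
  have hν : ∀ j, 1 ≤ p.1 j := fun j => (Finset.mem_Icc.mp (hp.1 j)).1
  have h2 := hFC d f hper hm hb p.1 hν p.2 x
  have h3 : ∫ t, f (fun j => x j + (p.1 j : ℝ) * t j) * OPSn p.2 t ∂(HypVol.TP d) =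
      if (∀ j, (p.1 j : ℤ) ∣ p.2 j) then HypVol.fc f (fun j => p.2 j / (p.1 j : ℤ)) *
      Complex.exp (Complex.I * ((∑ j, ((p.2 j / (p.1 j : ℤ) : ℤ) : ℝ) * x j : ℝ) : ℂ)) else 0 := h2
  rw [h3]
  split_ifs with h
  · have e : (fun j => p.2 j / (p.1 j : ℤ)) = OPSm p := rfl
    rw [e]
    unfold OPSe OPSm
    ring
  · rw [mul_zero]

theorem OPS_proof : S_OPS := by
  intro hFC d r K l s
  classical
  obtain ⟨A, hA⟩ : ∃ A : Lp ℂ ⊤ (HypVol.TP d) →L[ℂ] Lp ℂ ⊤ (HypVol.TP d), ∀ F,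
      A F = ∑ p ∈ OPSI l s, (OPSc K l s p * OPSphi (OPSm p) F) • OPSL (OPSm p) := by
    refine ⟨∑ p ∈ OPSI l s, OPSc K l s p • (OPSphi (OPSm p)).smulRight (OPSL (OPSm p)), ?_⟩
    intro F
    rw [ContinuousLinearMap.sum_apply]
    refine Finset.sum_congr rfl fun p _ => ?_
    rw [ContinuousLinearMap.smul_apply, ContinuousLinearMap.smulRight_apply, smul_smul]
  refine ⟨A, ?_, ?_⟩
  · have hrange : LinearMap.range (A : Lp ℂ ⊤ (HypVol.TP d) →ₗ[ℂ] Lp ℂ ⊤ (HypVol.TP d)) ≤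
        Submodule.span ℂ (((OPSB s).image (fun m => OPSL (d := d) m) :
          Finset (Lp ℂ ⊤ (HypVol.TP d))) : Set (Lp ℂ ⊤ (HypVol.TP d))) := by
      rintro _ ⟨F, rfl⟩
      rw [ContinuousLinearMap.coe_coe, hA]
      refine Submodule.sum_mem _ fun p hp => Submodule.smul_mem _ _ (Submodule.subset_span ?_)
      rw [Finset.mem_coe, Finset.mem_image]
      exact ⟨OPSm p, OPSm_mem l s p hp, rfl⟩
    calc LinearMap.rank (A : Lp ℂ ⊤ (HypVol.TP d) →ₗ[ℂ] Lp ℂ ⊤ (HypVol.TP d))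
        ≤ Module.rank ℂ (Submodule.span ℂ (((OPSB s).image (fun m => OPSL (d := d) m) :
          Finset (Lp ℂ ⊤ (HypVol.TP d))) : Set (Lp ℂ ⊤ (HypVol.TP d)))) :=
          Submodule.rank_mono hrange
      _ ≤ (((OPSB s).image (fun m => OPSL (d := d) m)).card : Cardinal) := rank_span_finset_le _
      _ ≤ ((OPSB s).card : Cardinal) := by
          exact_mod_cast Finset.card_image_le
      _ = _ := by rw [OPSB_card]
  · intro f hf hper hm hb
    have h1 := OPS_sum (d := d) (OPSI l s) (fun p => OPSc K l s p * OPSphi (OPSm p) (hf.toLp f)) OPSm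
    rw [hA]
    filter_upwards [h1] with x hx
    rw [hx, OPS_Bl hFC K l s f hper hm hb x]
    refine Finset.sum_congr rfl fun p _ => ?_
    simp only [OPSphi_toLp]

end H506W
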