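import Pool.Agent.H506R3.LW.Defs

/-! Task OV (helper617): overlap of two dyadic rectangles. -/

set_option autoImplicit false

open Finset MeasureTheory
open scoped BigOperators ENNReal

namespace H506W

lemma OV_one (N m k : ℕ) (hm : 0 < m) :
    (univ.filter (fun x : Fin N => (x : ℕ) / m = k)).card ≤ m := by
  have h1 : ((univ.filter (fun x : Fin N => (x : ℕ) / m = k)).image (fun x : Fin N => (x : ℕ))) ⊆
      Finset.Ico (k * m) (k * m + m) := by
    intro y hy
    rw [mem_image] at hy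
    obtain ⟨x, hx, rfl⟩ := hy
    rw [mem_filter] at hx
    rw [mem_Ico]
    have h2 := Nat.div_add_mod (x : ℕ) m
    have h3 := Nat.mod_lt (x : ℕ) hm
    rw [hx.2] at h2
    rw [mul_comm k m]
    constructor
    · omega
    · omega
  have h2 := card_le_card h1
  rw [card_image_of_injective _ Fin.val_injective, Nat.card_Ico] at h2
  omega

lemma OV_two (N n a b k l : ℕ) :
    (univ.filter (fun x : Fin N => (x : ℕ) / 2 ^ (n + 1 - a) = k ∧
      (x : ℕ) / 2 ^ (n + 1 - b) = l)).card ≤ 2 ^ (n + 1 - max a b) := by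
  rcases le_total a b with h | h
  · rw [max_eq_right h]
    refine le_trans (card_le_card ?_) (OV_one N (2 ^ (n + 1 - b)) l (by positivity))
    intro x hx
    rw [mem_filter] at hx ⊢
    exact ⟨hx.1, hx.2.2⟩
  · rw [max_eq_left h]
    refine le_trans (card_le_card ?_) (OV_one N (2 ^ (n + 1 - a)) k (by positivity))
    intro x hx
    rw [mem_filter] at hx ⊢
    exact ⟨hx.1, hx.2.1⟩

lemma OV_real (n a b : ℕ) (ha : a ≤ n) (hb : b ≤ n) :
    (2 : ℝ) ^ (n + 1 - max a b) = 2 ^ (n + 1) * ((1 / 2 : ℝ) ^ a * (1 / 2 : ℝ) ^ (b - a)) := by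
  have h1 : n + 1 = (n + 1 - max a b) + (a + (b - a)) := by
    rcases le_total a b with h | h
    · rw [max_eq_right h]; omega
    · rw [max_eq_left h]; omega
  have h2 : (1 / 2 : ℝ) ^ a * (1 / 2 : ℝ) ^ (b - a) = (1 / 2 : ℝ) ^ (a + (b - a)) := by
    rw [pow_add]
  rw [h2]
  conv_rhs => rw [h1, pow_add]
  rw [mul_assoc, ← mul_pow]
  norm_num

theorem OV_proof : S_OV := by
  intro d n p q
  have hsub : rc p ∩ rc q ⊆ Fintype.piFinset (fun j : Fin d =>
      univ.filter (fun x : Fin (2 ^ (n + 1)) => (x : ℕ) / 2 ^ (n + 1 - rs p j) = rk p j ∧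
        (x : ℕ) / 2 ^ (n + 1 - rs q j) = rk q j)) := by
    intro x hx
    rw [mem_inter, rc, rc, mem_filter, mem_filter] at hx
    rw [Fintype.mem_piFinset]
    intro j
    rw [mem_filter]
    exact ⟨mem_univ _, hx.1.2 j, hx.2.2 j⟩
  have h1 : (rc p ∩ rc q).card ≤ ∏ j : Fin d, 2 ^ (n + 1 - max (rs p j) (rs q j)) := by
    refine le_trans (card_le_card hsub) ?_
    rw [Fintype.card_piFinset]
    apply Finset.prod_le_prod'
    intro j _
    exact OV_two _ n (rs p j) (rs q j) (rk p j) (rk q j)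
  have h2 : ((rc p ∩ rc q).card : ℝ) ≤ ∏ j : Fin d, (2 : ℝ) ^ (n + 1 - max (rs p j) (rs q j)) := by
    have h3 : ((rc p ∩ rc q).card : ℝ) ≤
        ((∏ j : Fin d, 2 ^ (n + 1 - max (rs p j) (rs q j)) : ℕ) : ℝ) := by
      exact_mod_cast h1
    rw [Nat.cast_prod] at h3
    simpa using h3
  refine le_trans h2 (le_of_eq ?_)
  have hp : ∀ (p : Rc d n) (j : Fin d), rs p j ≤ n := fun p j => Nat.lt_succ_iff.1 (p.1.1 j).2
  have hsum : ∑ j : Fin d, rs p j = n := by
    have h4 := p.2.1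
    unfold HypVol.Sh at h4
    rw [mem_filter] at h4
    exact h4.2
  have h5 : ∀ j : Fin d, (2 : ℝ) ^ (n + 1 - max (rs p j) (rs q j)) =
      2 ^ (n + 1) * ((1 / 2 : ℝ) ^ (rs p j) * (1 / 2 : ℝ) ^ (rs q j - rs p j)) :=
    fun j => OV_real n _ _ (hp p j) (hp q j)
  rw [Finset.prod_congr rfl (fun j _ => h5 j), Finset.prod_mul_distrib, Finset.prod_mul_distrib,
    Finset.prod_const, Finset.prod_pow_eq_pow_sum, hsum, card_univ, Fintype.card_fin, ← pow_mul]
  unfold VV
  rw [one_div_pow, div_eq_mul_one_div]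
  ring

end H506W
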