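import Pool.Agent.H506R3.LW.Defs

/-! PH: one-dimensional pairings of the averages of the smooth bump with the Haar functions. -/

set_option autoImplicit false

open Finset MeasureTheory
open scoped BigOperators ENNReal

namespace H506W

/-- the rescaled function -/
noncomputable def PH_g (f : ℝ → ℝ) (P k : ℕ) (u : ℝ) : ℝ := f (u / (2 * P) - k)

theorem PH_pz (f : ℝ → ℝ) (n s k x : ℕ) (hs : s ≤ n) :
    pz f n s k x = ∫ u in (x : ℝ)..((x + 1 : ℕ) : ℝ), PH_g f (2 ^ (n - s)) k u := by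
  have h2 : (2 : ℝ) ^ (n + 1) ≠ 0 := by positivity
  have h := intervalIntegral.integral_comp_div (a := (x : ℝ)) (b := (x : ℝ) + 1)
    (fun y => f (2 ^ s * y - k)) h2
  rw [smul_eq_mul] at h
  unfold pz
  rw [← h]
  push_cast
  apply intervalIntegral.integral_congr
  intro u _
  unfold PH_g
  show f (2 ^ s * (u / 2 ^ (n + 1)) - k) = f (u / (2 * ((2 ^ (n - s) : ℕ) : ℝ)) - k)
  congr 2
  have e : (2 : ℝ) ^ (n + 1) = 2 ^ s * (2 * 2 ^ (n - s)) := by
    rw [← pow_succ', ← pow_add]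
    congr 1
    omega
  rw [e]
  push_cast
  field_simp

theorem PH_cont (B : Bump) (P k : ℕ) : Continuous (PH_g B.f P k) := by
  have h := (B.smooth 0).continuous
  unfold PH_g
  exact h.comp (by fun_prop)

theorem PH_sum (B : Bump) (n s k : ℕ) (hs : s ≤ n) (a b : ℕ) (hab : a ≤ b) :
    ∑ x ∈ Ico a b, pz B.f n s k x = ∫ u in (a : ℝ)..(b : ℝ), PH_g B.f (2 ^ (n - s)) k u := by
  rw [← intervalIntegral.sum_integral_adjacent_intervals_Ico (a := fun j : ℕ => (j : ℝ)) hab]
  · exact Finset.sum_congr rfl fun x _ => PH_pz B.f n s k x hs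
  · intro j _
    exact (PH_cont B _ k).intervalIntegrable _ _

theorem PH_int (B : Bump) (P k : ℕ) (hP : 0 < P) (α β : ℝ) :
    ∫ u in (2 * P * (k + α) : ℝ)..(2 * P * (k + β) : ℝ), PH_g B.f P k u =
      2 * P * ∫ y in α..β, B.f y := by
  have hc : (2 * P : ℝ) ≠ 0 := by positivity
  unfold PH_g
  rw [intervalIntegral.integral_comp_div_sub (f := B.f) hc, smul_eq_mul]
  have e1 : (2 * P * (k + α) : ℝ) / (2 * P) - k = α := by field_simp; ring
  have e2 : (2 * P * (k + β) : ℝ) / (2 * P) - k = β := by field_simp; ring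
  rw [e1, e2]

theorem PH_left (B : Bump) (n s k : ℕ) (hs : s ≤ n) :
    ∑ x ∈ Ico (2 * 2 ^ (n - s) * k) (2 * 2 ^ (n - s) * k + 2 ^ (n - s)), pz B.f n s k x =
      2 * 2 ^ (n - s) * (B.c / 2) := by
  rw [PH_sum B n s k hs _ _ (Nat.le_add_right _ _)]
  have h := PH_int B (2 ^ (n - s)) k (by positivity) 0 (1 / 2)
  rw [B.left] at h
  have e1 : ((2 * 2 ^ (n - s) * k : ℕ) : ℝ) = 2 * ((2 ^ (n - s) : ℕ) : ℝ) * (k + 0) := by
    push_cast; ring
  have e2 : ((2 * 2 ^ (n - s) * k + 2 ^ (n - s) : ℕ) : ℝ) =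
      2 * ((2 ^ (n - s) : ℕ) : ℝ) * (k + 1 / 2) := by
    push_cast; ring
  rw [e1, e2, h]
  push_cast
  ring

theorem PH_right (B : Bump) (n s k : ℕ) (hs : s ≤ n) :
    ∑ x ∈ Ico (2 * 2 ^ (n - s) * k + 2 ^ (n - s)) (2 * 2 ^ (n - s) * (k + 1)), pz B.f n s k x =
      -(2 * 2 ^ (n - s) * (B.c / 2)) := by
  rw [PH_sum B n s k hs _ _ (by nlinarith [Nat.zero_le (2 ^ (n - s))])]
  have h := PH_int B (2 ^ (n - s)) k (by positivity) (1 / 2) 1
  rw [B.right] at h
  have e1 : ((2 * 2 ^ (n - s) * (k + 1) : ℕ) : ℝ) = 2 * ((2 ^ (n - s) : ℕ) : ℝ) * (k + 1) := by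
    push_cast; ring
  have e2 : ((2 * 2 ^ (n - s) * k + 2 ^ (n - s) : ℕ) : ℝ) =
      2 * ((2 ^ (n - s) : ℕ) : ℝ) * (k + 1 / 2) := by
    push_cast; ring
  rw [e1, e2, h]
  push_cast
  ring

theorem PH_zero (B : Bump) (n s k x : ℕ) (hs : s ≤ n)
    (hx : x + 1 ≤ 2 * 2 ^ (n - s) * k ∨ 2 * 2 ^ (n - s) * (k + 1) ≤ x) : pz B.f n s k x = 0 := by
  rw [PH_pz B.f n s k x hs]
  have hP : (0 : ℝ) < 2 * ((2 ^ (n - s) : ℕ) : ℝ) := by positivity
  have h : ∀ u ∈ Set.uIcc (x : ℝ) ((x + 1 : ℕ) : ℝ), PH_g B.f (2 ^ (n - s)) k u = 0 := by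
    intro u hu
    rw [Set.uIcc_of_le (by push_cast; linarith)] at hu
    by_contra hne
    obtain ⟨h1, h2⟩ := B.supp _ hne
    rcases hx with hx | hx
    · have hx' : ((x + 1 : ℕ) : ℝ) ≤ 2 * ((2 ^ (n - s) : ℕ) : ℝ) * k := by exact_mod_cast hx
      have h3 : u / (2 * ((2 ^ (n - s) : ℕ) : ℝ)) ≤ k := by
        rw [div_le_iff₀ hP]
        linarith [hu.2]
      linarith
    · have hx' : 2 * ((2 ^ (n - s) : ℕ) : ℝ) * (k + 1) ≤ x := by exact_mod_cast hx
      have h3 : (k : ℝ) + 1 ≤ u / (2 * ((2 ^ (n - s) : ℕ) : ℝ)) := by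
        rw [le_div_iff₀ hP]
        linarith [hu.1]
      linarith
  rw [intervalIntegral.integral_congr (g := fun _ => (0 : ℝ)) h]
  simp

/-- splitting of the sum over the grid -/
theorem PH_split (F : ℕ → ℝ) (N a b c : ℕ) (hab : a ≤ b) (hbc : b ≤ c) (hcN : c ≤ N)
    (h1 : ∀ x, x < a → F x = 0) (h2 : ∀ x, c ≤ x → F x = 0) :
    ∑ x ∈ range N, F x = ∑ x ∈ Ico a b, F x + ∑ x ∈ Ico b c, F x := by
  rw [Finset.range_eq_Ico, ← Finset.sum_Ico_consecutive F (Nat.zero_le a) (by omega : a ≤ N),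
    ← Finset.sum_Ico_consecutive F (by omega : a ≤ c) hcN,
    ← Finset.sum_Ico_consecutive F hab hbc]
  rw [Finset.sum_eq_zero (s := Ico 0 a) (fun x hx => h1 x (Finset.mem_Ico.1 hx).2),
    Finset.sum_eq_zero (s := Ico c N) (fun x hx => h2 x (Finset.mem_Ico.1 hx).1)]
  ring

theorem PH_proof : S_PH := by
  intro B n
  have hpow : ∀ s, s ≤ n → 2 ^ (n + 1 - s) = 2 * 2 ^ (n - s) := by
    intro s hs
    rw [← pow_succ']
    congr 1
    omega
  have hN : ∀ s k, s ≤ n → k < 2 ^ s → 2 * 2 ^ (n - s) * (k + 1) ≤ 2 ^ (n + 1) := by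
    intro s k hs hk
    have e : 2 ^ (n + 1) = 2 * 2 ^ (n - s) * 2 ^ s := by
      rw [← hpow s hs, ← pow_add]
      congr 1
      omega
    rw [e]
    exact Nat.mul_le_mul_left _ hk
  have hPos : ∀ s, 0 < 2 ^ (n - s) := fun s => by positivity
  refine ⟨?_, ?_⟩
  · intro s k hs hk
    have hP := hPos s
    rw [PH_split _ (2 ^ (n + 1)) (2 * 2 ^ (n - s) * k) (2 * 2 ^ (n - s) * k + 2 ^ (n - s))
      (2 * 2 ^ (n - s) * (k + 1)) (Nat.le_add_right _ _) (by nlinarith) (hN s k hs hk)]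
    · have e1 : ∑ x ∈ Ico (2 * 2 ^ (n - s) * k) (2 * 2 ^ (n - s) * k + 2 ^ (n - s)),
          pz B.f n s k x * hz n s k x = 2 * 2 ^ (n - s) * (B.c / 2) := by
        rw [← PH_left B n s k hs]
        apply Finset.sum_congr rfl
        intro x hx
        rw [Finset.mem_Ico] at hx
        have h1 : x / 2 ^ (n + 1 - s) = k := by
          rw [hpow s hs]
          apply Nat.div_eq_of_lt_le
          · rw [mul_comm]; exact hx.1
          · nlinarith [hx.2]
        have h2 : x / 2 ^ (n - s) = 2 * k := by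
          apply Nat.div_eq_of_lt_le
          · nlinarith [hx.1]
          · nlinarith [hx.2]
        unfold hz
        rw [if_pos h1, h2, if_pos (by omega), mul_one]
      have e2 : ∑ x ∈ Ico (2 * 2 ^ (n - s) * k + 2 ^ (n - s)) (2 * 2 ^ (n - s) * (k + 1)),
          pz B.f n s k x * hz n s k x = 2 * 2 ^ (n - s) * (B.c / 2) := by
        have h3 := PH_right B n s k hs
        rw [← neg_eq_iff_eq_neg] at h3
        rw [← h3, ← Finset.sum_neg_distrib]
        apply Finset.sum_congr rfl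
        intro x hx
        rw [Finset.mem_Ico] at hx
        have h1 : x / 2 ^ (n + 1 - s) = k := by
          rw [hpow s hs]
          apply Nat.div_eq_of_lt_le
          · nlinarith [hx.1]
          · nlinarith [hx.2]
        have h2 : x / 2 ^ (n - s) = 2 * k + 1 := by
          apply Nat.div_eq_of_lt_le
          · nlinarith [hx.1]
          · nlinarith [hx.2]
        unfold hz
        rw [if_pos h1, h2, if_neg (by omega)]
        ring
      rw [e1, e2]
      have e3 : (2 : ℝ) ^ (n + 1) / 2 ^ s = 2 * 2 ^ (n - s) := by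
        rw [div_eq_iff (by positivity), ← pow_succ', ← pow_add]
        congr 1
        omega
      rw [e3]
      ring
    · intro x hx
      rw [PH_zero B n s k x hs (Or.inl hx), zero_mul]
    · intro x hx
      rw [PH_zero B n s k x hs (Or.inr hx), zero_mul]
  · intro s s' k k' hss hs hk
    have hP := hPos s
    rw [PH_split _ (2 ^ (n + 1)) (2 * 2 ^ (n - s) * k) (2 * 2 ^ (n - s) * k + 2 ^ (n - s))
      (2 * 2 ^ (n - s) * (k + 1)) (Nat.le_add_right _ _) (by nlinarith) (hN s k hs hk)]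
    · -- the Haar function is constant on the block
      obtain ⟨v, hv⟩ : ∃ v : ℝ, ∀ x, 2 * 2 ^ (n - s) * k ≤ x → x < 2 * 2 ^ (n - s) * (k + 1) →
          hz n s' k' x = v := by
        refine ⟨if k / 2 ^ (s - s') = k' then (if (k / 2 ^ (s - s' - 1)) % 2 = 0 then 1 else -1)
          else 0, ?_⟩
        intro x hx1 hx2
        have h1 : x / 2 ^ (n + 1 - s) = k := by
          rw [hpow s hs]
          apply Nat.div_eq_of_lt_le
          · rw [mul_comm]; exact hx1
          · rw [mul_comm]; exact hx2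
        have h2 : x / 2 ^ (n + 1 - s') = k / 2 ^ (s - s') := by
          have e : 2 ^ (n + 1 - s') = 2 ^ (n + 1 - s) * 2 ^ (s - s') := by
            rw [← pow_add]; congr 1; omega
          rw [e, ← Nat.div_div_eq_div_mul, h1]
        have h3 : x / 2 ^ (n - s') = k / 2 ^ (s - s' - 1) := by
          have e : 2 ^ (n - s') = 2 ^ (n + 1 - s) * 2 ^ (s - s' - 1) := by
            rw [← pow_add]; congr 1; omega
          rw [e, ← Nat.div_div_eq_div_mul, h1]
        unfold hz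
        rw [h2, h3]
      have e1 : ∑ x ∈ Ico (2 * 2 ^ (n - s) * k) (2 * 2 ^ (n - s) * k + 2 ^ (n - s)),
          pz B.f n s k x * hz n s' k' x = 2 * 2 ^ (n - s) * (B.c / 2) * v := by
        rw [← PH_left B n s k hs, Finset.sum_mul]
        apply Finset.sum_congr rfl
        intro x hx
        rw [Finset.mem_Ico] at hx
        rw [hv x hx.1 (by nlinarith [hx.2])]
      have e2 : ∑ x ∈ Ico (2 * 2 ^ (n - s) * k + 2 ^ (n - s)) (2 * 2 ^ (n - s) * (k + 1)),
          pz B.f n s k x * hz n s' k' x = -(2 * 2 ^ (n - s) * (B.c / 2)) * v := by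
        rw [← PH_right B n s k hs, Finset.sum_mul]
        apply Finset.sum_congr rfl
        intro x hx
        rw [Finset.mem_Ico] at hx
        rw [hv x (by nlinarith [hx.1]) hx.2]
      rw [e1, e2]
      ring
    · intro x hx
      rw [PH_zero B n s k x hs (Or.inl hx), zero_mul]
    · intro x hx
      rw [PH_zero B n s k x hs (Or.inr hx), zero_mul]

end H506W
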