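import Pool.Agent.H506R3.LW.Defs

/-!
# Averages of the bump on cells
-/

set_option autoImplicit false

open Finset MeasureTheory
open scoped BigOperators ENNReal

namespace H506W

theorem PZ_cell_len (n x : ℕ) :
    (((x : ℝ) + 1) / 2 ^ (n + 1) - (x : ℝ) / 2 ^ (n + 1)) = 1 / 2 ^ (n + 1) := by
  rw [← sub_div]; congr 1; ring

theorem PZ_f_zero (B : Bump) {y : ℝ} (h : y ≤ 0 ∨ 1 ≤ y) : B.f y = 0 := by
  by_contra hne
  have := B.supp y hne
  rcases h with h | h <;> linarith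

theorem PZ_proof : S_PZ := by
  intro B n s k x hs
  have hp : (0 : ℝ) < 2 ^ (n + 1) := by positivity
  constructor
  · unfold pz
    rw [abs_mul, abs_of_pos hp]
    have h1 : ‖∫ y in ((x : ℝ) / 2 ^ (n + 1))..(((x : ℝ) + 1) / 2 ^ (n + 1)), B.f (2 ^ s * y - k)‖ ≤
        1 * |((x : ℝ) + 1) / 2 ^ (n + 1) - (x : ℝ) / 2 ^ (n + 1)| :=
      intervalIntegral.norm_integral_le_of_norm_le_const (fun y _ => B.bd _)
    rw [PZ_cell_len, abs_of_pos (by positivity), one_mul, Real.norm_eq_abs] at h1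
    calc 2 ^ (n + 1) * |∫ y in ((x : ℝ) / 2 ^ (n + 1))..(((x : ℝ) + 1) / 2 ^ (n + 1)),
          B.f (2 ^ s * y - k)| ≤ 2 ^ (n + 1) * (1 / 2 ^ (n + 1)) :=
          mul_le_mul_of_nonneg_left h1 hp.le
      _ = 1 := by field_simp
  · intro hk
    unfold pz
    have h0 : ∫ y in ((x : ℝ) / 2 ^ (n + 1))..(((x : ℝ) + 1) / 2 ^ (n + 1)),
        B.f (2 ^ s * y - k) = ∫ _ in ((x : ℝ) / 2 ^ (n + 1))..(((x : ℝ) + 1) / 2 ^ (n + 1)),
          (0 : ℝ) := by
      apply intervalIntegral.integral_congr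
      intro y hy
      have hle : (x : ℝ) / 2 ^ (n + 1) ≤ ((x : ℝ) + 1) / 2 ^ (n + 1) := by
        apply div_le_div_of_nonneg_right _ hp.le
        linarith
      rw [Set.uIcc_of_le hle] at hy
      obtain ⟨hy1, hy2⟩ := hy
      set q := x / 2 ^ (n + 1 - s) with hq
      have hm : 0 < 2 ^ (n + 1 - s) := by positivity
      have q1 : q * 2 ^ (n + 1 - s) ≤ x := Nat.div_mul_le_self _ _
      have q2 : x < (q + 1) * 2 ^ (n + 1 - s) := by
        have := Nat.lt_mul_div_succ x hm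
        rw [mul_comm]
        exact this
      have e : (2 : ℝ) ^ (n + 1) = 2 ^ s * 2 ^ (n + 1 - s) := by
        rw [← pow_add]; congr 1; omega
      have hS : (0 : ℝ) < 2 ^ s := by positivity
      have hM : (0 : ℝ) < 2 ^ (n + 1 - s) := by positivity
      have r1 : (q : ℝ) * 2 ^ (n + 1 - s) ≤ x := by exact_mod_cast q1
      have r2 : (x : ℝ) + 1 ≤ ((q : ℝ) + 1) * 2 ^ (n + 1 - s) := by exact_mod_cast q2
      rw [e, div_le_iff₀ (by positivity)] at hy1
      rw [e, le_div_iff₀ (by positivity)] at hy2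
      have t1 : (q : ℝ) ≤ 2 ^ s * y := by
        have : (q : ℝ) * 2 ^ (n + 1 - s) ≤ (2 ^ s * y) * 2 ^ (n + 1 - s) := by
          calc (q : ℝ) * 2 ^ (n + 1 - s) ≤ x := r1
            _ ≤ y * (2 ^ s * 2 ^ (n + 1 - s)) := hy1
            _ = _ := by ring
        exact le_of_mul_le_mul_right this hM
      have t2 : 2 ^ s * y ≤ (q : ℝ) + 1 := by
        have : (2 ^ s * y) * 2 ^ (n + 1 - s) ≤ ((q : ℝ) + 1) * 2 ^ (n + 1 - s) := by
          calc (2 ^ s * y) * 2 ^ (n + 1 - s) = y * (2 ^ s * 2 ^ (n + 1 - s)) := by ring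
            _ ≤ x + 1 := hy2
            _ ≤ _ := r2
        exact le_of_mul_le_mul_right this hM
      apply PZ_f_zero
      rcases lt_or_gt_of_ne hk with h | h
      · left
        have : (q : ℝ) + 1 ≤ k := by exact_mod_cast h
        linarith
      · right
        have : (k : ℝ) + 1 ≤ q := by exact_mod_cast h
        linarith
    rw [h0]
    simp

end H506W
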