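import Pool.Agent.H506R3.LW.Defs

/-!
# Rank lemma (task RANK)
-/

set_option autoImplicit false

open Finset
open scoped BigOperators

namespace H506W

theorem RANK_proof : S_RANK := by
  intro ι _ E c P hP
  classical
  let L : (ι → ℂ) ≃ₗ[ℂ] EuclideanSpace ℂ ι := (WithLp.linearEquiv 2 ℂ (ι → ℂ)).symm
  let P' : Submodule ℂ (EuclideanSpace ℂ ι) := P.map (L : (ι → ℂ) →ₗ[ℂ] EuclideanSpace ℂ ι)
  have hfin : Module.finrank ℂ P' = Module.finrank ℂ P := LinearEquiv.finrank_map_eq L P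
  let b := stdOrthonormalBasis ℂ P'
  have hbP : ∀ k, (fun i => (b k : EuclideanSpace ℂ ι) i) ∈ P := by
    intro k
    obtain ⟨w, hw, hw2⟩ := (b k).2
    have : (fun i => (b k : EuclideanSpace ℂ ι) i) = w := by
      funext i
      rw [← hw2]
      rfl
    rw [this]
    exact hw
  -- orthonormal family in the big space
  have hon : Orthonormal ℂ (fun k => (b k : EuclideanSpace ℂ ι)) := by
    have := b.orthonormal
    exact this.comp_linearIsometry P'.subtypeₗᵢ
  let v : ι → EuclideanSpace ℂ ι := fun j => WithLp.toLp 2 (fun i => (starRingEnd ℂ) (E i j))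
  have hv : ∀ j, ‖v j‖ ^ 2 = ∑ i, ‖E i j‖ ^ 2 := by
    intro j
    rw [EuclideanSpace.norm_sq_eq]
    refine Finset.sum_congr rfl fun i _ => ?_
    simp [v]
  have hin : ∀ j k, inner ℂ (v j) (b k : EuclideanSpace ℂ ι) =
      (c : ℂ) * (b k : EuclideanSpace ℂ ι) j := by
    intro j k
    rw [hP _ (hbP k) j, PiLp.inner_apply]
    refine Finset.sum_congr rfl fun i _ => ?_
    simp [v, mul_comm]
  have hbes : ∀ j, ∑ k, ‖inner ℂ (v j) (b k : EuclideanSpace ℂ ι)‖ ^ 2 ≤ ‖v j‖ ^ 2 := by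
    intro j
    have h1 := hon.sum_inner_products_le (x := v j) (s := Finset.univ)
    refine le_trans (le_of_eq ?_) h1
    refine Finset.sum_congr rfl fun k _ => ?_
    rw [← inner_conj_symm, RCLike.norm_conj]
  have hone : ∀ k, ∑ j, ‖(b k : EuclideanSpace ℂ ι) j‖ ^ 2 = 1 := by
    intro k
    rw [← EuclideanSpace.norm_sq_eq, hon.1 k]
    norm_num
  calc c ^ 2 * (Module.finrank ℂ P : ℝ)
      = ∑ k, ∑ j, ‖(c : ℂ) * (b k : EuclideanSpace ℂ ι) j‖ ^ 2 := by
        have : ∀ k, ∑ j, ‖(c : ℂ) * (b k : EuclideanSpace ℂ ι) j‖ ^ 2 = c ^ 2 := by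
          intro k
          simp only [norm_mul, mul_pow]
          rw [← Finset.mul_sum, hone k]
          simp
        simp only [this]
        simp [hfin, mul_comm]
    _ = ∑ j, ∑ k, ‖inner ℂ (v j) (b k : EuclideanSpace ℂ ι)‖ ^ 2 := by
        rw [Finset.sum_comm]
        refine Finset.sum_congr rfl fun j _ => Finset.sum_congr rfl fun k _ => ?_
        rw [hin]
    _ ≤ ∑ j, ‖v j‖ ^ 2 := Finset.sum_le_sum fun j _ => hbes j
    _ = ∑ j, ∑ i, ‖E i j‖ ^ 2 := Finset.sum_congr rfl fun j _ => hv j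
    _ = ∑ i, ∑ j, ‖E i j‖ ^ 2 := Finset.sum_comm

end H506W
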