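import Pool.Agent.H506R3.LW.Defs2
import Pool.Agent.Helper765.Ent.P_fc_mdiff

/-! Good representatives of the functions of the class -/

set_option autoImplicit false

open Finset MeasureTheory
open scoped BigOperators ENNReal

namespace H506W

open HypVol.S_fc_mdiff

theorem REP_ac (d : ℕ) : HypVol.TP d ≪ (volume : Measure (Fin d → ℝ)) := by
  have h1 : HypVol.TP d = (ENNReal.ofReal (2 * Real.pi)⁻¹) ^ d •
      (volume : Measure (Fin d → ℝ)).restrict
        (Set.pi Set.univ fun _ => Set.Ico 0 (2 * Real.pi)) := by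
    unfold HypVol.TP
    rw [volume_pi, Measure.restrict_pi_pi]
    have : IsFiniteMeasure (volume.restrict (Set.Ico (0:ℝ) (2 * Real.pi))) := ⟨by
      rw [Measure.restrict_apply_univ, Real.volume_Ico]
      exact ENNReal.ofReal_lt_top⟩
    have h2 : IsFiniteMeasure
        (ENNReal.ofReal (2 * Real.pi)⁻¹ • volume.restrict (Set.Ico (0:ℝ) (2 * Real.pi))) :=
      Measure.smul_finite _ ENNReal.ofReal_ne_top
    refine Measure.pi_eq fun s hs => ?_
    rw [Measure.smul_apply, Measure.pi_pi, smul_eq_mul]
    simp only [Measure.smul_apply, smul_eq_mul]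
    rw [Finset.prod_mul_distrib, Finset.prod_const, Finset.card_univ, Fintype.card_fin]
  rw [h1]
  exact (Measure.smul_absolutelyContinuous).trans
    (Measure.absolutelyContinuous_of_le Measure.restrict_le_self)

theorem REP_per (d : ℕ) (f : (Fin d → ℝ) → ℂ)
    (hp : ∀ (x : Fin d → ℝ) (j : Fin d), f (Function.update x j (x j + 2 * Real.pi)) = f x)
    (x h : Fin d → ℝ) : f (fun j => fcm_T (h j) (x j)) = f (fun j => x j + h j) := by
  have h3 := fcm_per d f hp (fun j => fcm_T (h j) (x j))
    (fun j => ⌊(x j + h j) / (2 * Real.pi)⌋) Finset.univ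
  rw [← h3]
  congr 1
  funext j
  simp only [Finset.mem_univ, if_true]
  unfold fcm_T
  have hp : (0:ℝ) < 2 * Real.pi := by positivity
  rw [← add_mul, Int.fract_add_floor, div_mul_cancel₀ _ hp.ne']

theorem REP_proof : S_REP := by
  intro d r l f hf
  obtain ⟨hper, hmeas, hnorm, hdiff⟩ := hf
  have hm : AEStronglyMeasurable f (HypVol.TP d) := hmeas.mono_ac (REP_ac d)
  have hle : ∀ᵐ x ∂(HypVol.TP d), ‖f x‖ ≤ 1 := by
    rw [eLpNorm_exponent_top] at hnorm
    filter_upwards [ae_le_eLpNormEssSup (f := f) (μ := HypVol.TP d)] with x hx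
    have h2 := hx.trans hnorm
    rw [← ofReal_norm, ENNReal.ofReal_le_one] at h2
    exact h2
  -- a Borel function bounded by one
  set g1 : (Fin d → ℝ) → ℂ := fun y => if ‖hm.mk f y‖ ≤ 1 then hm.mk f y else 0 with hg1
  have hg1m : Measurable g1 := by
    refine Measurable.ite ?_ hm.stronglyMeasurable_mk.measurable measurable_const
    exact measurableSet_le hm.stronglyMeasurable_mk.measurable.norm measurable_const
  have hg1f : f =ᵐ[HypVol.TP d] g1 := by
    filter_upwards [hle, hm.ae_eq_mk] with x h1 h2
    rw [hg1]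
    simp only
    rw [← h2, if_pos h1]
  have hg1b : ∀ x, ‖g1 x‖ ≤ 1 := by
    intro x
    rw [hg1]
    simp only
    split_ifs with h
    · exact h
    · simp
  -- its periodic extension
  set g : (Fin d → ℝ) → ℂ := fun x => g1 (fun j => fcm_T 0 (x j)) with hg
  have hgp : ∀ (x : Fin d → ℝ) (j : Fin d), g (Function.update x j (x j + 2 * Real.pi)) = g x := by
    intro x j
    rw [hg]
    simp only
    congr 1
    funext i
    by_cases hi : i = j
    · subst hi
      rw [Function.update_self]
      unfold fcm_T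
      have hp : (2 * Real.pi) ≠ 0 := by positivity
      rw [add_zero, add_zero, add_div, div_self hp, Int.fract_add_one]
    · rw [Function.update_of_ne hi]
  have hgm : Measurable g := by
    refine hg1m.comp ?_
    exact measurable_pi_lambda _ fun j => (fcm_T_meas 0).comp (measurable_pi_apply j)
  -- translates
  have htr : ∀ h : Fin d → ℝ, ∀ᵐ x ∂(HypVol.TP d), g (fun j => x j + h j) = f (fun j => x j + h j) := by
    intro h
    have h1 := (fcm_TP d h).quasiMeasurePreserving.ae_eq_comp hg1f
    filter_upwards [h1] with x hx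
    simp only [Function.comp] at hx
    rw [REP_per d f hper x h] at hx
    rw [hx, hg]
    simp only
    congr 1
    funext j
    unfold fcm_T
    rw [add_zero]
  have hgf : f =ᵐ[HypVol.TP d] g := by
    filter_upwards [htr 0] with x hx
    simpa using hx.symm
  refine ⟨g, ⟨hgp, hgm, fun x => hg1b _, fun e he t => ?_⟩, hgf⟩
  refine le_trans (le_of_eq ?_) (hdiff e he t)
  refine eLpNorm_congr_ae ?_
  have h2 : ∀ᵐ x ∂(HypVol.TP d), ∀ ν ∈ Fintype.piFinset
      (fun j : Fin d => if j ∈ e then Finset.range (l + 1) else {0}),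
      g (fun j => x j + (ν j : ℝ) * t j) = f (fun j => x j + (ν j : ℝ) * t j) :=
    (Finset.eventually_all _).2 fun ν _ => htr fun j => (ν j : ℝ) * t j
  filter_upwards [h2] with x hx
  unfold HypVol.mdiff
  exact Finset.sum_congr rfl fun ν hν => by rw [hx ν hν]

end H506W
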