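import Pool.Agent.H506R3.LW.Defs

/-!
Task SUMK: sum of the overlap factors.
-/

set_option autoImplicit false

open Finset MeasureTheory
open scoped BigOperators ENNReal

namespace H506W

/-- the ratio -/
noncomputable def SUMK_q : ℝ := (1 / 2 : ℝ) ^ (1 / 16 : ℝ)

theorem SUMK_q_pos : 0 < SUMK_q := Real.rpow_pos_of_pos (by norm_num) _

theorem SUMK_q_lt : SUMK_q < 1 := Real.rpow_lt_one (by norm_num) (by norm_num) (by norm_num)

theorem SUMK_geom (m : ℕ) : ∑ i ∈ range m, SUMK_q ^ i ≤ 1 / (1 - SUMK_q) := by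
  have h1 : 0 < 1 - SUMK_q := by linarith [SUMK_q_lt]
  rw [le_div_iff₀ h1, mul_comm, mul_neg_geom_sum]
  have := pow_pos SUMK_q_pos m
  linarith

theorem SUMK_one (a n : ℕ) :
    ∑ k ∈ range (n + 1), SUMK_q ^ ((k - a) + (a - k)) ≤ 2 / (1 - SUMK_q) := by
  have h0 : ∀ k : ℕ, 0 ≤ SUMK_q ^ ((k - a) + (a - k)) := fun k => (pow_pos SUMK_q_pos _).le
  calc ∑ k ∈ range (n + 1), SUMK_q ^ ((k - a) + (a - k))
      ≤ ∑ k ∈ range (a + (n + 1)), SUMK_q ^ ((k - a) + (a - k)) :=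
        sum_le_sum_of_subset_of_nonneg
          (fun k hk => mem_range.2 (by have := mem_range.1 hk; omega)) (fun k _ _ => h0 k)
    _ = ∑ k ∈ range a, SUMK_q ^ ((k - a) + (a - k)) +
        ∑ i ∈ range (n + 1), SUMK_q ^ ((a + i - a) + (a - (a + i))) := by
        rw [sum_range_add]
    _ ≤ 1 / (1 - SUMK_q) + 1 / (1 - SUMK_q) := by
        refine add_le_add ?_ ?_
        · have e1 : ∑ k ∈ range a, SUMK_q ^ ((k - a) + (a - k)) =
              ∑ k ∈ range a, (fun i => SUMK_q ^ (i + 1)) (a - 1 - k) := by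
            refine sum_congr rfl fun k hk => ?_
            have hk' := mem_range.1 hk
            show SUMK_q ^ _ = SUMK_q ^ _
            congr 1
            omega
          rw [e1, sum_range_reflect (fun i => SUMK_q ^ (i + 1)) a]
          refine le_trans (sum_le_sum fun i _ => ?_) (SUMK_geom a)
          exact pow_le_pow_of_le_one SUMK_q_pos.le SUMK_q_lt.le (Nat.le_succ i)
        · have e2 : ∑ i ∈ range (n + 1), SUMK_q ^ ((a + i - a) + (a - (a + i))) =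
              ∑ i ∈ range (n + 1), SUMK_q ^ i := by
            refine sum_congr rfl fun i _ => ?_
            congr 1
            omega
          rw [e2]
          exact SUMK_geom _
    _ = 2 / (1 - SUMK_q) := by ring

theorem SUMK_kp {d n : ℕ} (s t : {s // s ∈ HypVol.Sh d n}) :
    (kp s t) ^ (1 / 8 : ℝ) = ∏ j, SUMK_q ^ ((((t.1 j : Fin (n + 1)) : ℕ) -
      ((s.1 j : Fin (n + 1)) : ℕ)) + (((s.1 j : Fin (n + 1)) : ℕ) -
      ((t.1 j : Fin (n + 1)) : ℕ))) := by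
  have hs : ∑ j, ((s.1 j : Fin (n + 1)) : ℕ) = n := (mem_filter.1 s.2).2
  have ht : ∑ j, ((t.1 j : Fin (n + 1)) : ℕ) = n := (mem_filter.1 t.2).2
  have hbal : ∑ j, (((t.1 j : Fin (n + 1)) : ℕ) - ((s.1 j : Fin (n + 1)) : ℕ)) =
      ∑ j, (((s.1 j : Fin (n + 1)) : ℕ) - ((t.1 j : Fin (n + 1)) : ℕ)) := by
    have h1 : ∑ j, ((((t.1 j : Fin (n + 1)) : ℕ) - ((s.1 j : Fin (n + 1)) : ℕ)) +
        ((s.1 j : Fin (n + 1)) : ℕ)) =
        ∑ j, ((((s.1 j : Fin (n + 1)) : ℕ) - ((t.1 j : Fin (n + 1)) : ℕ)) +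
        ((t.1 j : Fin (n + 1)) : ℕ)) := sum_congr rfl fun j _ => by omega
    rw [sum_add_distrib, sum_add_distrib, hs, ht] at h1
    omega
  set D : ℕ := ∑ j, (((t.1 j : Fin (n + 1)) : ℕ) - ((s.1 j : Fin (n + 1)) : ℕ)) with hD
  have hkp : kp s t = (1 / 2 : ℝ) ^ D := by
    unfold kp
    rw [prod_pow_eq_pow_sum]
  rw [prod_pow_eq_pow_sum, sum_add_distrib, ← hbal, ← hD, hkp]
  unfold SUMK_q
  rw [← Real.rpow_natCast (1 / 2 : ℝ) D, ← Real.rpow_mul (by norm_num),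
    ← Real.rpow_natCast _ (D + D), ← Real.rpow_mul (by norm_num)]
  congr 1
  push_cast
  ring

theorem SUMK_proof : S_SUMK := by
  intro d
  have h1 : 0 < 1 - SUMK_q := by linarith [SUMK_q_lt]
  refine ⟨(2 / (1 - SUMK_q)) ^ d, by positivity, ?_⟩
  intro n s
  have h2 : ∀ t : {s // s ∈ HypVol.Sh d n}, (kp s t) ^ (1 / 8 : ℝ) =
      (fun t : Fin d → Fin (n + 1) => ∏ j, SUMK_q ^ ((((t j : Fin (n + 1)) : ℕ) -
      ((s.1 j : Fin (n + 1)) : ℕ)) + (((s.1 j : Fin (n + 1)) : ℕ) -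
      ((t j : Fin (n + 1)) : ℕ)))) t.1 := fun t => SUMK_kp s t
  set G : (Fin d → Fin (n + 1)) → ℝ := fun t => ∏ j, SUMK_q ^ ((((t j : Fin (n + 1)) : ℕ) -
      ((s.1 j : Fin (n + 1)) : ℕ)) + (((s.1 j : Fin (n + 1)) : ℕ) -
      ((t j : Fin (n + 1)) : ℕ))) with hG
  rw [sum_congr rfl fun t _ => h2 t, sum_coe_sort (HypVol.Sh d n) G]
  calc ∑ t ∈ HypVol.Sh d n, G t
      ≤ ∑ t : Fin d → Fin (n + 1), ∏ j, SUMK_q ^ ((((t j : Fin (n + 1)) : ℕ) -
      ((s.1 j : Fin (n + 1)) : ℕ)) + (((s.1 j : Fin (n + 1)) : ℕ) -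
      ((t j : Fin (n + 1)) : ℕ))) :=
        sum_le_sum_of_subset_of_nonneg (subset_univ _)
          (fun t _ _ => prod_nonneg fun j _ => (pow_pos SUMK_q_pos _).le)
    _ = ∏ j : Fin d, ∑ k : Fin (n + 1), SUMK_q ^ (((k : ℕ) -
      ((s.1 j : Fin (n + 1)) : ℕ)) + (((s.1 j : Fin (n + 1)) : ℕ) - (k : ℕ))) := by
        rw [prod_univ_sum, Fintype.piFinset_univ]
    _ ≤ ∏ j : Fin d, (2 / (1 - SUMK_q)) := by
        refine prod_le_prod (fun j _ => sum_nonneg fun k _ => (pow_pos SUMK_q_pos _).le)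
          (fun j _ => ?_)
        rw [Fin.sum_univ_eq_sum_range (fun k => SUMK_q ^ ((k -
          ((s.1 j : Fin (n + 1)) : ℕ)) + (((s.1 j : Fin (n + 1)) : ℕ) - k))) (n + 1)]
        exact SUMK_one _ _
    _ = (2 / (1 - SUMK_q)) ^ d := by
        rw [prod_const, card_univ, Fintype.card_fin]

end H506W
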