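import Pool.Agent.H506R3.LW.Defs

set_option autoImplicit false

open Finset MeasureTheory
open scoped BigOperators ENNReal

namespace H506W

theorem SYS_disj {d n : ℕ} (i j : Rc d n) (hij : i ≠ j) (hs : i.1.1 = j.1.1) :
    Disjoint (rc i) (rc j) := by
  rw [Finset.disjoint_left]
  intro x hx hy
  apply hij
  unfold rc at hx hy
  have hx2 := (Finset.mem_filter.1 hx).2
  have hy2 := (Finset.mem_filter.1 hy).2
  apply Subtype.ext
  refine Prod.ext hs ?_
  funext c
  apply Fin.ext
  have h1 := hx2 c
  have h2 := hy2 c
  have h3 : rs i c = rs j c := by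
    unfold rs
    rw [hs]
  rw [h3] at h1
  have h4 : rk i c = rk j c := h1.symm.trans h2
  exact h4

theorem SYS_card {d n : ℕ} (hOV : S_OV) (i : Rc d n) : ((rc i).card : ℝ) ≤ VV d n := by
  have h := hOV d n i i
  rw [Finset.inter_self] at h
  simpa using h

theorem SYS_proof : T_SYS := by
  intro hOV hSK d
  obtain ⟨C, hC, hs⟩ := hSK d
  refine ⟨C, hC, fun n => ⟨{
    sh := fun p => ⟨p.1.1, p.2.1⟩
    R := rc
    V := VV d n
    kap := kp
    C1 := C
    V_pos := by unfold VV; positivity
    C1_pos := hC
    kap_nonneg := fun s t => by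
      unfold kp
      exact Finset.prod_nonneg fun j _ => by positivity
    disj := fun i j hij h => SYS_disj i j hij (congrArg Subtype.val h)
    ov := fun i j => hOV d n i j
    card_le := fun i => SYS_card hOV i
    sumk := fun s => hs n s }, rfl, rfl, rfl⟩⟩

end H506W
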