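import Pool.Agent.H506R3.LW.Defs2

/-! Task TAIL (helper617): tails of the sums over the indices. -/

set_option autoImplicit false

open Finset MeasureTheory
open scoped BigOperators ENNReal

namespace H506W

lemma TAIL_card (e N m : ℕ) :
    ((Fintype.piFinset (fun _ : Fin (e + 1) => range (N + 1))).filter
      (fun s => ∑ j, s j = m)).card ≤ (m + 1) ^ e := by
  have h1 : (Fintype.piFinset (fun _ : Fin e => range (m + 1))).card = (m + 1) ^ e := by
    rw [Fintype.card_piFinset]
    simp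
  rw [← h1]
  apply Finset.card_le_card_of_injOn (fun s : Fin (e + 1) → ℕ => fun j : Fin e => s j.succ)
  · intro s hs
    have hs' := (mem_filter.1 (mem_coe.1 hs)).2
    rw [mem_coe, Fintype.mem_piFinset]
    intro j
    rw [mem_range]
    have h2 : s j.succ ≤ ∑ i, s i := Finset.single_le_sum (f := fun i => s i)
      (fun _ _ => Nat.zero_le _) (mem_univ j.succ)
    change s j.succ < m + 1
    omega
  · intro s hs s' hs' hss
    have a1 := (mem_filter.1 (mem_coe.1 hs)).2
    have a2 := (mem_filter.1 (mem_coe.1 hs')).2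
    rw [Fin.sum_univ_succ] at a1 a2
    have a3 : ∀ j : Fin e, s j.succ = s' j.succ := fun j => congrFun hss j
    have a4 : ∑ j : Fin e, s j.succ = ∑ j : Fin e, s' j.succ :=
      Finset.sum_congr rfl (fun j _ => a3 j)
    have a5 : s 0 = s' 0 := by omega
    funext i
    refine Fin.cases a5 (fun j => a3 j) i

lemma TAIL_summable (e : ℕ) (q : ℝ) (hq0 : 0 < q) (hq1 : q < 1) :
    Summable (fun j : ℕ => ((j : ℝ) + 1) ^ e * q ^ j) := by
  have h1 : Summable (fun j : ℕ => (j : ℝ) ^ e * q ^ j) :=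
    summable_pow_mul_geometric_of_norm_lt_one e (by
      rw [Real.norm_eq_abs, abs_of_pos hq0]
      exact hq1)
  have h2 := (summable_nat_add_iff 1).2 h1
  have h3 := h2.mul_left (q⁻¹)
  refine h3.congr ?_
  intro j
  push_cast
  rw [pow_succ q j]
  field_simp

theorem TAIL_proof : S_TAIL := by
  intro d hd r hr
  obtain ⟨e, rfl⟩ : ∃ e, d = e + 1 := ⟨d - 1, by omega⟩
  set q : ℝ := (2 : ℝ) ^ (-r) with hq
  have hq0 : 0 < q := Real.rpow_pos_of_pos (by norm_num) _
  have hq1 : q < 1 := Real.rpow_lt_one_of_one_lt_of_neg (by norm_num) (by linarith)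
  have hsum := TAIL_summable e q hq0 hq1
  have hqn : ∀ m : ℕ, (2 : ℝ) ^ (-(r * (m : ℝ))) = q ^ m := by
    intro m
    rw [hq, ← Real.rpow_natCast, ← Real.rpow_mul (by norm_num)]
    congr 1
    ring
  have hg0 : ∀ j : ℕ, 0 ≤ ((j : ℝ) + 1) ^ e * q ^ j := fun j => by positivity
  refine ⟨∑' j : ℕ, ((j : ℝ) + 1) ^ e * q ^ j, ?_, ?_⟩
  · have h1 : ((0 : ℕ) : ℝ) + 1 = 1 := by norm_num
    have h2 : (((0 : ℕ) : ℝ) + 1) ^ e * q ^ 0 ≤ ∑' j : ℕ, ((j : ℝ) + 1) ^ e * q ^ j :=
      hsum.le_tsum 0 (fun j _ => hg0 j)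
    rw [h1, one_pow, pow_zero, one_mul] at h2
    linarith
  · intro n N
    have h1 : ∀ s : Fin (e + 1) → ℕ, (2 : ℝ) ^ (-(r * ∑ j, (s j : ℝ))) = q ^ (∑ j, s j) := by
      intro s
      rw [← hqn]
      push_cast
      rfl
    rw [Finset.sum_congr rfl (fun s _ => h1 s)]
    set F := (Fintype.piFinset (fun _ : Fin (e + 1) => range (N + 1))).filter
      (fun s => n < ∑ j, s j) with hF
    set M := (e + 1) * N + 1 with hM
    have hmaps : ∀ s ∈ F, ∑ j, s j ∈ Finset.Ioo n M := by
      intro s hs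
      rw [hF, mem_filter, Fintype.mem_piFinset] at hs
      rw [Finset.mem_Ioo]
      refine ⟨hs.2, ?_⟩
      have h2 : ∑ j, s j ≤ ∑ _j : Fin (e + 1), N := by
        apply Finset.sum_le_sum
        intro j _
        have := mem_range.1 (hs.1 j)
        omega
      rw [Finset.sum_const, card_univ, Fintype.card_fin, smul_eq_mul] at h2
      omega
    rw [← Finset.sum_fiberwise_of_maps_to hmaps]
    have h3 : ∀ m ∈ Finset.Ioo n M, ∑ s ∈ F.filter (fun s => ∑ j, s j = m), q ^ (∑ j, s j) ≤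
        ((n : ℝ) + 1) ^ e * q ^ n * ((((m - n : ℕ) : ℝ) + 1) ^ e * q ^ (m - n)) := by
      intro m hm
      rw [Finset.mem_Ioo] at hm
      have h4 : ∑ s ∈ F.filter (fun s => ∑ j, s j = m), q ^ (∑ j, s j) =
          ((F.filter (fun s => ∑ j, s j = m)).card : ℝ) * q ^ m := by
        rw [Finset.sum_congr rfl (fun s hs => by rw [(mem_filter.1 hs).2]), Finset.sum_const,
          nsmul_eq_mul]
      rw [h4]
      have h5 : ((F.filter (fun s => ∑ j, s j = m)).card : ℝ) ≤ ((m : ℝ) + 1) ^ e := by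
        have h6 : (F.filter (fun s => ∑ j, s j = m)).card ≤ (m + 1) ^ e := by
          refine le_trans (card_le_card ?_) (TAIL_card e N m)
          intro s hs
          rw [mem_filter, hF, mem_filter] at hs
          rw [mem_filter]
          exact ⟨hs.1.1, hs.2⟩
        exact_mod_cast h6
      have h7 : (m : ℝ) + 1 ≤ ((n : ℝ) + 1) * (((m - n : ℕ) : ℝ) + 1) := by
        rw [Nat.cast_sub hm.1.le]
        have h8 : (n : ℝ) + 1 ≤ m := by exact_mod_cast hm.1
        have h9 : (0 : ℝ) ≤ n := Nat.cast_nonneg _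
        nlinarith
      calc ((F.filter (fun s => ∑ j, s j = m)).card : ℝ) * q ^ m
          ≤ ((m : ℝ) + 1) ^ e * q ^ m := mul_le_mul_of_nonneg_right h5 (by positivity)
        _ ≤ (((n : ℝ) + 1) * (((m - n : ℕ) : ℝ) + 1)) ^ e * q ^ m := by
            apply mul_le_mul_of_nonneg_right _ (by positivity)
            exact pow_le_pow_left₀ (by positivity) h7 e
        _ = ((n : ℝ) + 1) ^ e * q ^ n * ((((m - n : ℕ) : ℝ) + 1) ^ e * q ^ (m - n)) := by
            have h10 : q ^ m = q ^ n * q ^ (m - n) := by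
              rw [← pow_add]
              congr 1
              omega
            rw [h10, mul_pow]
            ring
    refine le_trans (Finset.sum_le_sum h3) ?_
    rw [← Finset.mul_sum, hqn, Nat.add_sub_cancel]
    have h11 : ∑ m ∈ Finset.Ioo n M, (((m - n : ℕ) : ℝ) + 1) ^ e * q ^ (m - n) ≤
        ∑' j : ℕ, ((j : ℝ) + 1) ^ e * q ^ j := by
      have h12 : ∑ m ∈ Finset.Ioo n M, (((m - n : ℕ) : ℝ) + 1) ^ e * q ^ (m - n) =
          ∑ j ∈ (Finset.Ioo n M).image (fun m => m - n), ((j : ℝ) + 1) ^ e * q ^ j := by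
        rw [Finset.sum_image]
        intro a ha b hb hab
        have ha' := Finset.mem_Ioo.1 (mem_coe.1 ha)
        have hb' := Finset.mem_Ioo.1 (mem_coe.1 hb)
        simp only at hab
        omega
      rw [h12]
      exact hsum.sum_le_tsum _ (fun j _ => hg0 j)
    have h13 : 0 ≤ ((n : ℝ) + 1) ^ e * q ^ n := by positivity
    have h14 := mul_le_mul_of_nonneg_left h11 h13
    refine le_trans h14 (le_of_eq ?_)
    ring

end H506W
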