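import Pool.Agent.H506R3.LW.Defs2

/-!
# TRIV: the width is at most `1` (helper771)
-/

set_option autoImplicit false

open Finset MeasureTheory
open scoped BigOperators ENNReal

namespace H506W

theorem TRIV_proof : S_TRIV := by
  intro d m r l
  unfold lw
  refine iInf_le_of_le (0 : Lp ℂ ⊤ (HypVol.TP d) →L[ℂ] Lp ℂ ⊤ (HypVol.TP d)) ?_
  refine iInf_le_of_le ?_ ?_
  · rw [ContinuousLinearMap.toLinearMap_zero, LinearMap.rank_zero]
    exact zero_le
  · refine iSup_le fun f => iSup_le fun hf => iSup_le fun hm => ?_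
    rw [zero_apply, sub_zero, Lp.enorm_toLp]
    exact hf.2.2.1

end H506W
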