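import Pool.Agent.H506R3.LW.Defs2

/-! Task UPN: upper bound of the linear widths in terms of `n`. -/

set_option autoImplicit false

open Finset MeasureTheory
open scoped BigOperators ENNReal

namespace H506W

lemma UPN_count1 (d n : ℕ) :
    ∑ s ∈ Bx (d + 1) n, 2 ^ (∑ j, s j) ≤ (n + 1) ^ d * 2 ^ (n + 1) := by
  classical
  set φ : (Fin (d + 1) → ℕ) → (Fin d → ℕ) × ℕ := fun s => (fun j => s j.succ, ∑ j, s j) with hφ
  have hinj : Function.Injective φ := by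
    intro s t hst
    simp only [hφ, Prod.mk.injEq] at hst
    obtain ⟨h1, h2⟩ := hst
    rw [Fin.sum_univ_succ, Fin.sum_univ_succ] at h2
    have h3 : ∀ j : Fin d, s j.succ = t j.succ := fun j => congrFun h1 j
    have h4 : s 0 = t 0 := by
      rw [Finset.sum_congr rfl fun j _ => h3 j] at h2
      omega
    funext j
    refine Fin.cases h4 (fun i => h3 i) j
  have h1 : ∑ s ∈ Bx (d + 1) n, 2 ^ (∑ j, s j) =
      ∑ y ∈ (Bx (d + 1) n).image φ, 2 ^ y.2 := by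
    rw [Finset.sum_image (fun a _ b _ h => hinj h)]
  rw [h1]
  have hsub : (Bx (d + 1) n).image φ ⊆
      (Fintype.piFinset (fun _ : Fin d => range (n + 1))) ×ˢ range (n + 1) := by
    intro y hy
    obtain ⟨s, hs, rfl⟩ := Finset.mem_image.1 hy
    unfold Bx at hs
    rw [Finset.mem_filter, Fintype.mem_piFinset] at hs
    rw [Finset.mem_product, Fintype.mem_piFinset]
    exact ⟨fun j => hs.1 j.succ, Finset.mem_range.2 (Nat.lt_succ_of_le hs.2)⟩
  refine (Finset.sum_le_sum_of_subset hsub).trans ?_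
  rw [Finset.sum_product]
  simp only [Finset.sum_const, Fintype.card_piFinset, Finset.card_range, Finset.prod_const,
    Finset.card_univ, Fintype.card_fin, smul_eq_mul]
  refine Nat.mul_le_mul_left _ ?_
  have := Nat.geomSum_eq (m := 2) le_rfl (n + 1)
  rw [this]
  simp

lemma UPN_count (d n : ℕ) (hd : 1 ≤ d) :
    ∑ s ∈ Bx d n, ∏ j, (2 * 2 ^ (s j) + 1) ≤ 3 ^ d * 2 * (2 ^ n * (n + 1) ^ (d - 1)) := by
  obtain ⟨d, rfl⟩ : ∃ e, d = e + 1 := ⟨d - 1, by omega⟩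
  calc ∑ s ∈ Bx (d + 1) n, ∏ j, (2 * 2 ^ (s j) + 1)
      ≤ ∑ s ∈ Bx (d + 1) n, 3 ^ (d + 1) * 2 ^ (∑ j, s j) := by
        refine Finset.sum_le_sum fun s _ => ?_
        rw [← Finset.prod_pow_eq_pow_sum]
        have : (3 : ℕ) ^ (d + 1) = ∏ _j : Fin (d + 1), 3 := by simp
        rw [this, ← Finset.prod_mul_distrib]
        refine Finset.prod_le_prod' fun j _ => ?_
        have : 1 ≤ 2 ^ (s j) := Nat.one_le_two_pow
        omega
    _ = 3 ^ (d + 1) * ∑ s ∈ Bx (d + 1) n, 2 ^ (∑ j, s j) := by rw [Finset.mul_sum]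
    _ ≤ 3 ^ (d + 1) * ((n + 1) ^ d * 2 ^ (n + 1)) := Nat.mul_le_mul_left _ (UPN_count1 d n)
    _ = _ := by
        rw [Nat.add_sub_cancel]
        ring

theorem UPN_proof : S_UPN := by
  intro hKER hREP hW1 hW2 hW3 hBLK hLIM hTAIL hERR hFC hOPS d hd r l hr hrl
  obtain ⟨K⟩ := hKER r hr
  obtain ⟨C1, hC1, hE⟩ := hERR hW1 hW2 hW3 hBLK hLIM hTAIL d hd r K l hr hrl
  refine ⟨max C1 (3 ^ d * 2), lt_max_of_lt_left hC1, fun n m hm => ?_⟩
  choose A hAr hAf using fun s : Fin d → ℕ => hOPS hFC d r K l s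
  set B : Lp ℂ ⊤ (HypVol.TP d) →L[ℂ] Lp ℂ ⊤ (HypVol.TP d) := ∑ s ∈ Bx d n, A s with hB
  have hrank : LinearMap.rank (B : Lp ℂ ⊤ (HypVol.TP d) →ₗ[ℂ] Lp ℂ ⊤ (HypVol.TP d)) ≤
      (m : Cardinal) := by
    have e1 : (B : Lp ℂ ⊤ (HypVol.TP d) →ₗ[ℂ] Lp ℂ ⊤ (HypVol.TP d)) =
        ∑ s ∈ Bx d n, (A s : Lp ℂ ⊤ (HypVol.TP d) →ₗ[ℂ] Lp ℂ ⊤ (HypVol.TP d)) := by
      rw [hB]
      ext1 x
      simp
    rw [e1]
    refine (LinearMap.rank_finsetSum_le _ _).trans ?_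
    refine (Finset.sum_le_sum fun s _ => hAr s).trans ?_
    rw [← Nat.cast_sum]
    have h1 := UPN_count d n hd
    have h2 : 3 ^ d * 2 * (2 ^ n * (n + 1) ^ (d - 1)) ≤ m := by
      have h3 : ((3 ^ d * 2 * (2 ^ n * (n + 1) ^ (d - 1)) : ℕ) : ℝ) ≤ (m : ℝ) := by
        push_cast
        refine le_trans ?_ hm
        exact mul_le_mul_of_nonneg_right (le_max_right _ _) (by positivity)
      exact_mod_cast h3
    exact_mod_cast h1.trans h2
  refine iInf₂_le_of_le B hrank ?_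
  refine iSup_le fun f => iSup_le fun hf => iSup_le fun hfm => ?_
  obtain ⟨g, hg, hfg⟩ := hREP d r l f hf
  have hgm : MemLp g ⊤ (HypVol.TP d) := (memLp_congr_ae hfg).1 hfm
  have htoLp : hfm.toLp f = hgm.toLp g := MemLp.toLp_congr _ _ hfg
  rw [htoLp]
  have hsum : (B (hgm.toLp g) : (Fin d → ℝ) → ℂ) =ᵐ[HypVol.TP d]
      fun x => ∑ s ∈ Bx d n, Bl K l s g x := by
    have e1 : B (hgm.toLp g) = ∑ s ∈ Bx d n, A s (hgm.toLp g) := by
      rw [hB]
      simp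
    rw [e1]
    refine (Lp.coeFn_finsetSum _ _).trans ?_
    have h2 : ∀ᵐ x ∂(HypVol.TP d), ∀ s ∈ Bx d n,
        (A s (hgm.toLp g) : (Fin d → ℝ) → ℂ) x = Bl K l s g x := by
      refine (Filter.eventually_all_finset (Bx d n)).2 fun s _ => ?_
      exact hAf s g hgm hg.1 hg.2.1 hg.2.2.1
    filter_upwards [h2] with x hx
    simp only [Finset.sum_apply]
    exact Finset.sum_congr rfl fun s hs => hx s hs
  rw [Lp.enorm_def, eLpNorm_exponent_top]
  have hbd : ∀ᵐ x ∂(HypVol.TP d),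
      ‖((hgm.toLp g - B (hgm.toLp g) : Lp ℂ ⊤ (HypVol.TP d)) : (Fin d → ℝ) → ℂ) x‖ ≤
        C1 * (2 : ℝ) ^ (-(r * n)) * ((n : ℝ) + 1) ^ (d - 1) := by
    filter_upwards [Lp.coeFn_sub (hgm.toLp g) (B (hgm.toLp g)), hgm.coeFn_toLp, hsum,
      hE g hg n] with x h1 h2 h3 h4
    rw [h1, Pi.sub_apply, h2, h3]
    exact h4
  refine (eLpNormEssSup_le_of_ae_bound hbd).trans (ENNReal.ofReal_le_ofReal ?_)
  refine mul_le_mul_of_nonneg_right (mul_le_mul_of_nonneg_right (le_max_left _ _) ?_) ?_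
  · positivity
  · positivity

end H506W
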