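import Pool.Agent.H506R3.LW.Defs2
import Pool.Agent.HypVol.L_TP_prob

/-!
# Task W1: inserting the terms with `ν_j = 0`
-/

set_option autoImplicit false

open Finset MeasureTheory
open scoped BigOperators ENNReal

namespace H506W

lemma W1_TP (d : ℕ) : HypVol.TP d = Measure.pi (fun _ : Fin d => T1) := rfl

lemma W1_sf : IsProbabilityMeasure T1 := by
  unfold T1
  have hpi := Real.pi_pos
  refine ⟨?_⟩
  rw [Measure.smul_apply, Measure.restrict_apply MeasurableSet.univ, Set.univ_inter,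
    Real.volume_Ico, sub_zero, smul_eq_mul, ← ENNReal.ofReal_mul (by positivity),
    inv_mul_cancel₀ (by positivity), ENNReal.ofReal_one]

lemma W1_rho_eq {r : ℝ} (K : Ker r) (s : ℕ) : K.rho s = fun t =>
    (∑ k ∈ Finset.Icc (-(2 : ℤ) ^ s) (2 ^ s),
      K.b s k * Complex.exp (-(Complex.I * ((k * t : ℝ) : ℂ)))).re := by
  funext t
  rw [← K.eq, Complex.ofReal_re]

lemma W1_rho_cont {r : ℝ} (K : Ker r) (s : ℕ) : Continuous (K.rho s) := by
  rw [W1_rho_eq]
  fun_prop

lemma W1_rho_bd {r : ℝ} (K : Ker r) (s : ℕ) : ∃ M : ℝ, ∀ t, |K.rho s t| ≤ M := by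
  refine ⟨∑ k ∈ Finset.Icc (-(2 : ℤ) ^ s) (2 ^ s), ‖K.b s k‖, fun t => ?_⟩
  have h1 : |K.rho s t| = ‖(K.rho s t : ℂ)‖ := by
    rw [Complex.norm_real, Real.norm_eq_abs]
  rw [h1, K.eq]
  refine (norm_sum_le _ _).trans (Finset.sum_le_sum fun k _ => ?_)
  rw [norm_mul]
  have h2 : ‖Complex.exp (-(Complex.I * ((k * t : ℝ) : ℂ)))‖ = 1 := by
    have : -(Complex.I * ((k * t : ℝ) : ℂ)) = ((-(k * t) : ℝ) : ℂ) * Complex.I := by
      push_cast; ring
    rw [this, Complex.norm_exp_ofReal_mul_I]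
  rw [h2, mul_one]

lemma W1_kd_cont {r : ℝ} (K : Ker r) (s : ℕ) : Continuous (kd K s) := by
  unfold kd
  split_ifs with h
  · simpa using W1_rho_cont K s
  · exact (W1_rho_cont K s).sub (W1_rho_cont K (s - 1))

lemma W1_kd_bd {r : ℝ} (K : Ker r) (s : ℕ) : ∃ M : ℝ, 0 ≤ M ∧ ∀ t, |kd K s t| ≤ M := by
  obtain ⟨M1, h1⟩ := W1_rho_bd K s
  obtain ⟨M2, h2⟩ := W1_rho_bd K (s - 1)
  have p1 : 0 ≤ M1 := (abs_nonneg _).trans (h1 0)
  have p2 : 0 ≤ M2 := (abs_nonneg _).trans (h2 0)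
  refine ⟨M1 + M2, by positivity, fun t => ?_⟩
  unfold kd
  split_ifs with h
  · rw [sub_zero]; linarith [h1 t]
  · refine (abs_sub _ _).trans ?_
    linarith [h1 t, h2 t]

lemma W1_kd_int {r : ℝ} (K : Ker r) (s : ℕ) (hs : s ≠ 0) :
    ∫ t, ((kd K s t : ℝ) : ℂ) ∂T1 = 0 := by
  have hI : ∀ s, Integrable (K.rho s) T1 := by
    intro s
    by_contra h
    have h1 := K.int s
    rw [integral_undef h] at h1
    exact zero_ne_one h1
  rw [integral_complex_ofReal]
  have h2 : ∫ t, kd K s t ∂T1 = 0 := by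
    unfold kd
    simp only [if_neg hs]
    rw [integral_sub (hI s) (hI (s - 1)), K.int, K.int, sub_self]
  rw [h2, Complex.ofReal_zero]

lemma W1_zero (n : ℕ) (j : Fin (n + 1)) (F : (Fin (n + 1) → ℝ) → ℂ)
    (hF : ∀ t y, F (Function.update t j y) = F t) (g : ℝ → ℂ) (hg : ∫ y, g y ∂T1 = 0) :
    ∫ t, F t * g (t j) ∂(HypVol.TP (n + 1)) = 0 := by
  haveI := W1_sf
  rw [W1_TP]
  have mp := (measurePreserving_piFinSuccAbove (fun _ : Fin (n + 1) => T1) j).symm
  rw [← mp.integral_comp']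
  have h1 : ∀ q : ℝ × (Fin n → ℝ),
      F ((MeasurableEquiv.piFinSuccAbove (fun _ : Fin (n + 1) => ℝ) j).symm q) *
        g (((MeasurableEquiv.piFinSuccAbove (fun _ : Fin (n + 1) => ℝ) j).symm q) j) =
      g q.1 * F (j.insertNth (0 : ℝ) q.2) := by
    rintro ⟨y, z⟩
    have e1 : (MeasurableEquiv.piFinSuccAbove (fun _ : Fin (n + 1) => ℝ) j).symm (y, z) =
        j.insertNth y z := rfl
    have e2 : (j.insertNth y z : Fin (n + 1) → ℝ) =
        Function.update (j.insertNth (0 : ℝ) z : Fin (n + 1) → ℝ) j y := by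
      funext i
      by_cases hi : i = j
      · subst hi; simp
      · rw [Function.update_of_ne hi]
        obtain ⟨k, rfl⟩ := Fin.exists_succAbove_eq hi
        simp
    rw [e1, Fin.insertNth_apply_same, mul_comm]
    congr 1
    rw [e2, hF]
  rw [integral_congr_ae (Filter.Eventually.of_forall h1),
    integral_prod_mul (fun y => g y) (fun z : Fin n → ℝ => F (j.insertNth (0 : ℝ) z)), hg,
    zero_mul]

lemma W1_term_int {d : ℕ} {r : ℝ} (K : Ker r) (s : Fin d → ℕ) (f : (Fin d → ℝ) → ℂ)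
    (hf : Measurable f) (hb : ∀ x, ‖f x‖ ≤ 1) (x : Fin d → ℝ) (c : ℂ) (ν : Fin d → ℕ) :
    Integrable (fun t : Fin d → ℝ => (c * f (fun j => x j + (ν j : ℝ) * t j)) *
      ((∏ j, kd K (s j) (t j) : ℝ) : ℂ)) (HypVol.TP d) := by
  haveI := HypVol.TP_prob d
  choose M hM0 hM using fun j => W1_kd_bd K (s j)
  refine Integrable.of_bound ?_ (‖c‖ * 1 * ∏ j, M j) (Filter.Eventually.of_forall fun t => ?_)
  · refine Measurable.aestronglyMeasurable ?_
    refine Measurable.mul (Measurable.const_mul (hf.comp ?_) c) ?_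
    · exact measurable_pi_lambda _ fun j => (measurable_const.add
        ((measurable_pi_apply j).const_mul _))
    · refine Complex.measurable_ofReal.comp ?_
      refine Finset.measurable_prod _ fun j _ => ?_
      exact (W1_kd_cont K (s j)).measurable.comp (measurable_pi_apply j)
  · rw [norm_mul, norm_mul, Complex.norm_real, Real.norm_eq_abs, Finset.abs_prod]
    refine mul_le_mul ?_ ?_ (Finset.prod_nonneg fun j _ => abs_nonneg _) (by positivity)
    · exact mul_le_mul_of_nonneg_left (hb _) (norm_nonneg _)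
    · exact Finset.prod_le_prod (fun j _ => abs_nonneg _) fun j _ => hM j _

lemma W1_SSe_int {d : ℕ} {r : ℝ} (K : Ker r) (l : ℕ) (s : Fin d → ℕ) (f : (Fin d → ℝ) → ℂ)
    (hf : Measurable f) (hb : ∀ x, ‖f x‖ ≤ 1) (x : Fin d → ℝ) (e : Finset (Fin d)) :
    ∫ t, SSe l e f x t * ((∏ j, kd K (s j) (t j) : ℝ) : ℂ) ∂(HypVol.TP d) =
      ∑ ν ∈ Fintype.piFinset (fun j : Fin d => if j ∈ e then range (l + 1) else Finset.Icc 1 l),
        ∫ t, ((((∏ j, cc l (ν j) : ℝ) : ℂ) * f (fun j => x j + (ν j : ℝ) * t j)) *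
          ((∏ j, kd K (s j) (t j) : ℝ) : ℂ)) ∂(HypVol.TP d) := by
  rw [← integral_finset_sum _ fun ν _ => W1_term_int K s f hf hb x _ ν]
  refine integral_congr_ae (Filter.Eventually.of_forall fun t => ?_)
  show SSe l e f x t * _ = _
  unfold SSe
  rw [Finset.sum_mul]

lemma W1_term_zero {d : ℕ} {r : ℝ} (K : Ker r) (s : Fin d → ℕ) (f : (Fin d → ℝ) → ℂ)
    (x : Fin d → ℝ) (c : ℂ) (ν : Fin d → ℕ) (j : Fin d) (hj : s j ≠ 0) (hν : ν j = 0) :
    ∫ t, ((c * f (fun j => x j + (ν j : ℝ) * t j)) *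
          ((∏ j, kd K (s j) (t j) : ℝ) : ℂ)) ∂(HypVol.TP d) = 0 := by
  classical
  obtain ⟨n, rfl⟩ : ∃ n, d = n + 1 := ⟨d - 1, by have := j.pos; omega⟩
  have h1 := W1_zero n j (fun t => c * f (fun j => x j + (ν j : ℝ) * t j) *
    ((∏ i ∈ univ.erase j, kd K (s i) (t i) : ℝ) : ℂ)) ?_ (fun y => ((kd K (s j) y : ℝ) : ℂ))
    (W1_kd_int K (s j) hj)
  · rw [← h1]
    refine integral_congr_ae (Filter.Eventually.of_forall fun t => ?_)
    show (c * f (fun j => x j + (ν j : ℝ) * t j)) * ((∏ i, kd K (s i) (t i) : ℝ) : ℂ) =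
      c * f (fun j => x j + (ν j : ℝ) * t j) *
      ((∏ i ∈ univ.erase j, kd K (s i) (t i) : ℝ) : ℂ) * ((kd K (s j) (t j) : ℝ) : ℂ)
    rw [← Finset.mul_prod_erase univ (fun i => kd K (s i) (t i)) (Finset.mem_univ j)]
    push_cast
    ring
  · intro t y
    have e1 : (fun i => x i + (ν i : ℝ) * Function.update t j y i) =
        fun i => x i + (ν i : ℝ) * t i := by
      funext i
      by_cases hi : i = j
      · subst hi; rw [hν]; simp
      · rw [Function.update_of_ne hi]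
    have e2 : ∏ i ∈ univ.erase j, kd K (s i) (Function.update t j y i) =
        ∏ i ∈ univ.erase j, kd K (s i) (t i) := by
      refine Finset.prod_congr rfl fun i hi => ?_
      rw [Function.update_of_ne (Finset.ne_of_mem_erase hi)]
    show c * f (fun i => x i + (ν i : ℝ) * Function.update t j y i) *
      ((∏ i ∈ univ.erase j, kd K (s i) (Function.update t j y i) : ℝ) : ℂ) = _
    rw [e1, e2]

theorem W1_proof : S_W1 := by
  intro d r K l s f hf hb x
  unfold Bl
  rw [W1_SSe_int K l s f hf hb x ∅, W1_SSe_int K l s f hf hb x (univ.filter fun j => s j ≠ 0)]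
  refine Finset.sum_subset ?_ ?_
  · intro ν hν
    rw [Fintype.mem_piFinset] at hν ⊢
    intro j
    have h1 := hν j
    rw [if_neg (Finset.notMem_empty j), Finset.mem_Icc] at h1
    split_ifs
    · rw [Finset.mem_range]; omega
    · rw [Finset.mem_Icc]; exact h1
  · intro ν hν hν'
    rw [Fintype.mem_piFinset] at hν hν'
    push_neg at hν'
    obtain ⟨j, hj⟩ := hν'
    rw [if_neg (Finset.notMem_empty j)] at hj
    have h1 := hν j
    split_ifs at h1 with hjs
    · rw [Finset.mem_filter] at hjs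
      rw [Finset.mem_range] at h1
      rw [Finset.mem_Icc] at hj
      have h0 : ν j = 0 := by omega
      exact W1_term_zero K s f x _ ν j hjs.2 h0
    · exact absurd h1 hj

end H506W
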