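import Pool.Agent.H506R3.LW.Defs2
import Pool.Agent.Helper765.Ent.P_fc_mdiff
import Pool.Agent.HypVol.L_TP_prob

set_option autoImplicit false

open Finset MeasureTheory
open scoped BigOperators ENNReal

namespace H506W

/-- translations modulo `2π` -/
theorem W2_shift {d : ℕ} (g : (Fin d → ℝ) → ℂ)
    (hp : ∀ (x : Fin d → ℝ) (j : Fin d), g (Function.update x j (x j + 2 * Real.pi)) = g x)
    (P : ℂ → Prop) (h : Fin d → ℝ) (hP : ∀ᵐ x ∂(HypVol.TP d), P (g x)) :
    ∀ᵐ x ∂(HypVol.TP d), P (g (fun j => x j + h j)) := by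
  have h1 := (HypVol.S_fc_mdiff.fcm_TP d h).quasiMeasurePreserving.ae hP
  filter_upwards [h1] with x hx
  have h3 := HypVol.S_fc_mdiff.fcm_per d g hp (fun j => HypVol.S_fc_mdiff.fcm_T (h j) (x j))
    (fun j => ⌊(x j + h j) / (2 * Real.pi)⌋) Finset.univ
  rw [← h3] at hx
  have h4 : (fun j => if j ∈ (Finset.univ : Finset (Fin d)) then
      HypVol.S_fc_mdiff.fcm_T (h j) (x j) + ((⌊(x j + h j) / (2 * Real.pi)⌋ : ℤ) : ℝ) *
        (2 * Real.pi) else HypVol.S_fc_mdiff.fcm_T (h j) (x j)) = fun j => x j + h j := by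
    funext j
    simp only [Finset.mem_univ, if_true]
    unfold HypVol.S_fc_mdiff.fcm_T
    have hp : (0:ℝ) < 2 * Real.pi := by positivity
    rw [← add_mul, Int.fract_add_floor, div_mul_cancel₀ _ hp.ne']
  rw [h4] at hx
  exact hx

theorem W2_per {d : ℕ} (f : (Fin d → ℝ) → ℂ)
    (hp : ∀ (x : Fin d → ℝ) (j : Fin d), f (Function.update x j (x j + 2 * Real.pi)) = f x)
    (l : ℕ) (e : Finset (Fin d)) (t : Fin d → ℝ) (x : Fin d → ℝ) (j : Fin d) :
    HypVol.mdiff l e t f (Function.update x j (x j + 2 * Real.pi)) = HypVol.mdiff l e t f x := by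
  unfold HypVol.mdiff
  refine Finset.sum_congr rfl fun ν _ => ?_
  congr 1
  rw [← hp (fun j => x j + (ν j : ℝ) * t j) j]
  congr 1
  funext i
  by_cases hi : i = j
  · subst hi
    simp only [Function.update_self]
    ring
  · simp only [Function.update_of_ne hi]

/-- almost everywhere bound of the differences -/
theorem W2_bd {d : ℕ} {r : ℝ} {l : ℕ} {f : (Fin d → ℝ) → ℂ} (hf : f ∈ HB d r l)
    (e : Finset (Fin d)) (t : Fin d → ℝ) :
    ∀ᵐ x ∂(HypVol.TP d), ‖HypVol.mdiff l e t f x‖ ≤ ∏ j ∈ e, |t j| ^ r := by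
  obtain ⟨_, _, hb, hd⟩ := hf
  rcases e.eq_empty_or_nonempty with rfl | he
  · refine Filter.Eventually.of_forall fun x => ?_
    have h1 : HypVol.mdiff l ∅ t f x = f x := by
      unfold HypVol.mdiff
      have h2 : Fintype.piFinset (fun j : Fin d => if j ∈ (∅ : Finset (Fin d)) then
          Finset.range (l + 1) else {0}) = {fun _ => 0} := by
        ext ν
        simp only [Fintype.mem_piFinset, Finset.notMem_empty, if_false, Finset.mem_singleton]
        constructor
        · intro h; funext j; exact h j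
        · rintro rfl j; rfl
      rw [h2, Finset.sum_singleton]
      simp
    rw [h1, Finset.prod_empty]
    exact hb x
  · have h0 : 0 ≤ ∏ j ∈ e, |t j| ^ r :=
      Finset.prod_nonneg fun j _ => Real.rpow_nonneg (abs_nonneg _) _
    have h1 := hd e he t
    rw [eLpNorm_exponent_top] at h1
    have h2 : ∀ᵐ y ∂(HypVol.TP d), ‖HypVol.mdiff l e t f y‖ₑ ≤
      eLpNormEssSup (HypVol.mdiff l e t f) (HypVol.TP d) := ae_le_eLpNormEssSup
    filter_upwards [h2] with y hy
    have h3 := le_trans hy h1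
    rw [← ofReal_norm, ENNReal.ofReal_le_ofReal_iff h0] at h3
    exact h3

theorem W2_cc (l ν : ℕ) (h : ν ≤ l) :
    ((cc l ν : ℝ) : ℂ) = (-1) ^ (l + 1) * ((-1 : ℂ) ^ (l - ν) * ((l.choose ν : ℕ) : ℂ)) := by
  unfold cc
  obtain ⟨k, rfl⟩ := Nat.exists_eq_add_of_le h
  rw [Nat.add_sub_cancel_left]
  push_cast
  rw [← mul_assoc, ← pow_add]
  congr 1
  have h1 : ν + k + 1 + k = (ν + 1) + 2 * k := by ring
  rw [h1, pow_add _ (ν + 1) (2 * k), pow_mul]
  norm_num

/-- decomposition of the sum -/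
theorem W2_dec {d : ℕ} (l : ℕ) (e : Finset (Fin d)) (f : (Fin d → ℝ) → ℂ) (x t : Fin d → ℝ) :
    SSe l e f x t = ∑ ν' ∈ Fintype.piFinset (fun j : Fin d => if j ∈ e then {0} else
      Finset.Icc 1 l), (∏ j, (if j ∈ e then (1 : ℂ) else ((cc l (ν' j) : ℝ) : ℂ))) *
        (((-1) ^ (l + 1)) ^ e.card * HypVol.mdiff l e t f (fun j => x j + (ν' j : ℝ) * t j)) := by
  unfold HypVol.mdiff SSe
  simp only [Finset.mul_sum]
  rw [← Finset.sum_product']
  refine Finset.sum_nbij' (fun μ => (fun j => if j ∈ e then 0 else μ j,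
    fun j => if j ∈ e then μ j else 0)) (fun p j => p.1 j + p.2 j) ?_ ?_ ?_ ?_ ?_
  · intro μ hμ
    rw [Fintype.mem_piFinset] at hμ
    rw [Finset.mem_product, Fintype.mem_piFinset, Fintype.mem_piFinset]
    constructor
    · intro j
      have h := hμ j
      by_cases hj : j ∈ e
      · simp [hj]
      · simpa [hj] using h
    · intro j
      have h := hμ j
      by_cases hj : j ∈ e
      · simpa [hj] using h
      · simp [hj]
  · rintro ⟨a, b⟩ hab
    rw [Finset.mem_product, Fintype.mem_piFinset, Fintype.mem_piFinset] at hab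
    rw [Fintype.mem_piFinset]
    intro j
    have h1 := hab.1 j
    have h2 := hab.2 j
    by_cases hj : j ∈ e
    · simp only [hj, if_true, Finset.mem_singleton] at h1 h2 ⊢
      rw [h1, zero_add]; exact h2
    · simp only [hj, if_false, Finset.mem_singleton] at h1 h2 ⊢
      rw [h2, add_zero]; exact h1
  · intro μ _
    funext j
    by_cases hj : j ∈ e <;> simp [hj]
  · rintro ⟨a, b⟩ hab
    rw [Finset.mem_product, Fintype.mem_piFinset, Fintype.mem_piFinset] at hab
    refine Prod.ext ?_ ?_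
    · funext j
      have h1 := hab.1 j
      have h2 := hab.2 j
      by_cases hj : j ∈ e
      · simp only [hj, if_true, Finset.mem_singleton] at h1 h2 ⊢
        exact h1.symm
      · simp only [hj, if_false, Finset.mem_singleton] at h1 h2 ⊢
        rw [h2, add_zero]
    · funext j
      have h1 := hab.1 j
      have h2 := hab.2 j
      by_cases hj : j ∈ e
      · simp only [hj, if_true, Finset.mem_singleton] at h1 h2 ⊢
        rw [h1, zero_add]
      · simp only [hj, if_false, Finset.mem_singleton] at h1 h2 ⊢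
        exact h2.symm
  · intro μ hμ
    rw [Fintype.mem_piFinset] at hμ
    have hf : f (fun j => x j + (μ j : ℝ) * t j) =
        f (fun j => x j + ((if j ∈ e then 0 else μ j : ℕ) : ℝ) * t j +
          ((if j ∈ e then μ j else 0 : ℕ) : ℝ) * t j) := by
      congr 1
      funext j
      by_cases hj : j ∈ e <;> simp [hj]
    have hprod : ((∏ j, cc l (μ j) : ℝ) : ℂ) =
        (∏ j, (if j ∈ e then (1 : ℂ) else ((cc l (if j ∈ e then 0 else μ j) : ℝ) : ℂ))) *
        (((-1) ^ (l + 1)) ^ e.card * ∏ j ∈ e, ((-1 : ℂ) ^ (l - (if j ∈ e then μ j else 0)) *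
          ((l.choose (if j ∈ e then μ j else 0) : ℕ) : ℂ))) := by
      have h1 : ((-1 : ℂ) ^ (l + 1)) ^ e.card * ∏ j ∈ e, ((-1 : ℂ) ^ (l - (if j ∈ e then μ j
          else 0)) * ((l.choose (if j ∈ e then μ j else 0) : ℕ) : ℂ)) =
          ∏ j, (if j ∈ e then ((cc l (μ j) : ℝ) : ℂ) else 1) := by
        rw [← Finset.prod_const, ← Finset.prod_mul_distrib, Finset.prod_ite, Finset.prod_const_one,
          mul_one, Finset.filter_mem_eq_inter, Finset.univ_inter]
        refine Finset.prod_congr rfl fun j hj => ?_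
        have h2 := hμ j
        simp only [hj, if_true, Finset.mem_range] at h2 ⊢
        rw [W2_cc l (μ j) (by omega)]
      rw [h1, ← Finset.prod_mul_distrib, Complex.ofReal_prod]
      refine Finset.prod_congr rfl fun j _ => ?_
      by_cases hj : j ∈ e <;> simp [hj]
    rw [hf, hprod]
    ring

theorem W2_sum {d : ℕ} (l : ℕ) (e : Finset (Fin d)) :
    ∑ ν' ∈ Fintype.piFinset (fun j : Fin d => if j ∈ e then {0} else Finset.Icc 1 l),
      ∏ j, (if j ∈ e then (1 : ℝ) else |cc l (ν' j)|) ≤ 2 ^ (l * d) := by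
  rw [← Finset.prod_univ_sum (fun j : Fin d => if j ∈ e then {0} else Finset.Icc 1 l)
    (fun j ν => if j ∈ e then (1 : ℝ) else |cc l ν|)]
  have h1 : ∀ j ∈ (Finset.univ : Finset (Fin d)), (∑ ν ∈ (if j ∈ e then {0} else Finset.Icc 1 l),
      if j ∈ e then (1 : ℝ) else |cc l ν|) ≤ 2 ^ l := by
    intro j _
    by_cases hj : j ∈ e
    · simp only [hj, if_true, Finset.sum_singleton]
      exact one_le_pow₀ (by norm_num)
    · simp only [hj, if_false]
      have h2 : ∀ ν ∈ Finset.Icc 1 l, |cc l ν| = (l.choose ν : ℝ) := by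
        intro ν _
        unfold cc
        rw [abs_mul, abs_pow, abs_neg, abs_one, one_pow, one_mul, Nat.abs_cast]
      rw [Finset.sum_congr rfl h2]
      have h3 : ∑ ν ∈ Finset.Icc 1 l, (l.choose ν : ℝ) ≤
          ∑ ν ∈ Finset.range (l + 1), (l.choose ν : ℝ) := by
        apply Finset.sum_le_sum_of_subset_of_nonneg
        · intro ν hν
          rw [Finset.mem_Icc] at hν
          rw [Finset.mem_range]
          omega
        · intro ν _ _
          positivity
      have h4 : ∑ ν ∈ Finset.range (l + 1), (l.choose ν : ℝ) = 2 ^ l := by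
        exact_mod_cast Nat.sum_range_choose l
      linarith
  calc ∏ j, (∑ ν ∈ (if j ∈ e then {0} else Finset.Icc 1 l),
      if j ∈ e then (1 : ℝ) else |cc l ν|) ≤ ∏ _j : Fin d, (2 : ℝ) ^ l := by
        refine Finset.prod_le_prod (fun j _ => ?_) h1
        refine Finset.sum_nonneg fun ν _ => ?_
        split_ifs
        · norm_num
        · exact abs_nonneg _
    _ = 2 ^ (l * d) := by
        rw [Finset.prod_const, Finset.card_univ, Fintype.card_fin, pow_mul]

theorem W2_dd (t : ℝ) (h : t ∈ Set.Ico 0 (2 * Real.pi)) :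
    |(if t ≤ Real.pi then t else t - 2 * Real.pi)| = dd t := by
  obtain ⟨h1, h2⟩ := h
  unfold dd
  split_ifs with h3
  · rw [abs_of_nonneg h1, min_eq_left (by linarith)]
  · rw [abs_of_neg (by linarith), min_eq_right (by linarith)]
    ring

theorem W2_shift_t {d : ℕ} (f : (Fin d → ℝ) → ℂ)
    (hp : ∀ (x : Fin d → ℝ) (j : Fin d), f (Function.update x j (x j + 2 * Real.pi)) = f x)
    (l : ℕ) (e : Finset (Fin d)) (x t : Fin d → ℝ) :
    SSe l e f x t = SSe l e f x (fun j => if t j ≤ Real.pi then t j else t j - 2 * Real.pi) := by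
  unfold SSe
  refine Finset.sum_congr rfl fun ν _ => ?_
  congr 1
  have h3 := HypVol.S_fc_mdiff.fcm_per d f hp
    (fun j => x j + (ν j : ℝ) * (if t j ≤ Real.pi then t j else t j - 2 * Real.pi))
    (fun j => if t j ≤ Real.pi then 0 else (ν j : ℤ)) Finset.univ
  rw [← h3]
  congr 1
  funext j
  simp only [Finset.mem_univ, if_true]
  by_cases hj : t j ≤ Real.pi
  · simp [hj]
  · simp only [hj, if_false]
    push_cast
    ring

theorem W2_fixed {d : ℕ} {r : ℝ} {l : ℕ} {f : (Fin d → ℝ) → ℂ} (hf : f ∈ HB d r l)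
    (e : Finset (Fin d)) (t : Fin d → ℝ) (ht : ∀ j, t j ∈ Set.Ico 0 (2 * Real.pi)) :
    ∀ᵐ x ∂(HypVol.TP d), ‖SSe l e f x t‖ ≤ 2 ^ (l * d) * ∏ j ∈ e, (dd (t j)) ^ r := by
  have hp := hf.1
  obtain ⟨t', ht'⟩ : ∃ t' : Fin d → ℝ, t' = fun j =>
    if t j ≤ Real.pi then t j else t j - 2 * Real.pi := ⟨_, rfl⟩
  have hprod : ∏ j ∈ e, (dd (t j)) ^ r = ∏ j ∈ e, |t' j| ^ r := by
    refine Finset.prod_congr rfl fun j _ => ?_
    rw [ht', W2_dd (t j) (ht j)]
  have hP0 : 0 ≤ ∏ j ∈ e, |t' j| ^ r :=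
    Finset.prod_nonneg fun j _ => Real.rpow_nonneg (abs_nonneg _) _
  have hall : ∀ᵐ x ∂(HypVol.TP d), ∀ ν' ∈ Fintype.piFinset (fun j : Fin d => if j ∈ e then {0}
      else Finset.Icc 1 l), ‖HypVol.mdiff l e t' f (fun j => x j + (ν' j : ℝ) * t' j)‖ ≤
        ∏ j ∈ e, |t' j| ^ r := by
    rw [Finset.eventually_all]
    intro ν' _
    exact W2_shift (HypVol.mdiff l e t' f) (W2_per f hp l e t')
      (fun z => ‖z‖ ≤ ∏ j ∈ e, |t' j| ^ r) (fun j => (ν' j : ℝ) * t' j) (W2_bd hf e t')
  filter_upwards [hall] with x hx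
  rw [W2_shift_t f hp, ← ht', W2_dec, hprod]
  calc ‖∑ ν' ∈ Fintype.piFinset (fun j : Fin d => if j ∈ e then {0} else Finset.Icc 1 l),
        (∏ j, (if j ∈ e then (1 : ℂ) else ((cc l (ν' j) : ℝ) : ℂ))) *
        (((-1) ^ (l + 1)) ^ e.card *
          HypVol.mdiff l e t' f (fun j => x j + (ν' j : ℝ) * t' j))‖
      ≤ ∑ ν' ∈ Fintype.piFinset (fun j : Fin d => if j ∈ e then {0} else Finset.Icc 1 l),
        (∏ j, (if j ∈ e then (1 : ℝ) else |cc l (ν' j)|)) * ∏ j ∈ e, |t' j| ^ r := by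
        refine norm_sum_le_of_le _ fun ν' hν' => ?_
        rw [norm_mul, norm_mul, norm_pow, norm_pow, norm_neg, norm_one, one_pow, one_pow, one_mul]
        have h1 : ‖∏ j, (if j ∈ e then (1 : ℂ) else ((cc l (ν' j) : ℝ) : ℂ))‖ =
            ∏ j, (if j ∈ e then (1 : ℝ) else |cc l (ν' j)|) := by
          rw [norm_prod]
          refine Finset.prod_congr rfl fun j _ => ?_
          by_cases hj : j ∈ e
          · simp [hj]
          · simp only [hj, if_false, Complex.norm_real, Real.norm_eq_abs]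
        rw [h1]
        refine mul_le_mul_of_nonneg_left (hx ν' hν') ?_
        refine Finset.prod_nonneg fun j _ => ?_
        split_ifs
        · norm_num
        · exact abs_nonneg _
    _ = (∑ ν' ∈ Fintype.piFinset (fun j : Fin d => if j ∈ e then {0} else Finset.Icc 1 l),
        ∏ j, (if j ∈ e then (1 : ℝ) else |cc l (ν' j)|)) * ∏ j ∈ e, |t' j| ^ r := by
        rw [Finset.sum_mul]
    _ ≤ 2 ^ (l * d) * ∏ j ∈ e, |t' j| ^ r := mul_le_mul_of_nonneg_right (W2_sum l e) hP0

theorem W2_cube (d : ℕ) : ∀ᵐ t ∂(HypVol.TP d), ∀ j, t j ∈ Set.Ico 0 (2 * Real.pi) := by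
  rw [ae_all_iff]
  intro j
  unfold HypVol.TP
  have hs : ∀ i : Fin d, SigmaFinite (ENNReal.ofReal (2 * Real.pi)⁻¹ •
      (volume : Measure ℝ).restrict (Set.Ico 0 (2 * Real.pi))) := by
    intro i
    have : IsFiniteMeasure (ENNReal.ofReal (2 * Real.pi)⁻¹ •
        (volume : Measure ℝ).restrict (Set.Ico 0 (2 * Real.pi))) := by
      constructor
      rw [Measure.smul_apply, Measure.restrict_apply_univ, Real.volume_Ico, smul_eq_mul]
      exact ENNReal.mul_lt_top ENNReal.ofReal_lt_top ENNReal.ofReal_lt_top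
    infer_instance
  have h1 : ∀ᵐ s ∂(ENNReal.ofReal (2 * Real.pi)⁻¹ •
      (volume : Measure ℝ).restrict (Set.Ico 0 (2 * Real.pi))), s ∈ Set.Ico 0 (2 * Real.pi) :=
    Measure.ae_smul_measure (ae_restrict_mem measurableSet_Ico) _
  exact (@Measure.tendsto_eval_ae_ae (Fin d) (fun _ => ℝ) _ _ _ hs j).eventually h1

theorem W2_meas {d : ℕ} (l : ℕ) (e : Finset (Fin d)) (f : (Fin d → ℝ) → ℂ) (hf : Measurable f) :
    Measurable fun p : (Fin d → ℝ) × (Fin d → ℝ) => SSe l e f p.1 p.2 := by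
  unfold SSe
  refine Finset.measurable_sum _ fun ν _ => ?_
  refine measurable_const.mul (hf.comp ?_)
  refine measurable_pi_lambda _ fun j => ?_
  exact ((measurable_pi_apply j).comp measurable_fst).add
    (((measurable_pi_apply j).comp measurable_snd).const_mul _)

theorem W2_proof : S_W2 := by
  intro d r l _ _ f hf e
  have hprob : IsProbabilityMeasure (HypVol.TP d) := HypVol.TP_prob d
  rw [Measure.ae_ae_comm (p := fun x t => ‖SSe l e f x t‖ ≤
    2 ^ (l * d) * ∏ j ∈ e, (dd (t j)) ^ r)]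
  · filter_upwards [W2_cube d] with t ht
    exact W2_fixed hf e t ht
  · refine measurableSet_le (W2_meas l e f hf.2.1).norm ?_
    refine measurable_const.mul (Finset.measurable_prod _ fun j _ => ?_)
    have h1 : Measurable dd := by
      unfold dd
      exact measurable_id.min (measurable_const.sub measurable_id)
    exact (h1.comp ((measurable_pi_apply j).comp measurable_snd)).pow_const r

end H506W
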