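import Pool.Agent.H506R3.LW.Defs2

/-!
# W3: almost everywhere bound of the distance to `f`
-/

set_option autoImplicit false

open Finset MeasureTheory
open scoped BigOperators ENNReal

namespace H506W

/-- insertion of the zero terms -/
lemma W3_ins {d : ℕ} (l : ℕ) (G : (Fin d → ℕ) → ℂ) :
    ∑ ν ∈ Fintype.piFinset (fun _ : Fin d => Finset.Icc 1 l),
      ((∏ j, cc l (ν j) : ℝ) : ℂ) * G ν =
    ∑ ν ∈ Fintype.piFinset (fun _ : Fin d => range (l + 1)),
      (∏ j, ((cc l (ν j) : ℂ) + (if ν j = 0 then 1 else 0))) * G ν := by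
  have h1 : ∑ ν ∈ Fintype.piFinset (fun _ : Fin d => Finset.Icc 1 l),
      ((∏ j, cc l (ν j) : ℝ) : ℂ) * G ν =
      ∑ ν ∈ Fintype.piFinset (fun _ : Fin d => Finset.Icc 1 l),
      (∏ j, ((cc l (ν j) : ℂ) + (if ν j = 0 then 1 else 0))) * G ν := by
    apply Finset.sum_congr rfl
    intro ν hν
    rw [Fintype.mem_piFinset] at hν
    congr 1
    rw [Complex.ofReal_prod]
    apply Finset.prod_congr rfl
    intro j _
    have := hν j
    rw [Finset.mem_Icc] at this
    rw [if_neg (by omega), add_zero]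
  rw [h1]
  apply Finset.sum_subset
  · intro ν hν
    rw [Fintype.mem_piFinset] at hν ⊢
    intro j
    have := hν j
    rw [Finset.mem_Icc] at this
    rw [Finset.mem_range]
    omega
  · intro ν hν hν'
    rw [Fintype.mem_piFinset] at hν hν'
    push Not at hν'
    obtain ⟨j, hj⟩ := hν'
    have h2 := hν j
    rw [Finset.mem_range] at h2
    rw [Finset.mem_Icc] at hj
    have h3 : ν j = 0 := by omega
    rw [Finset.prod_eq_zero (Finset.mem_univ j), zero_mul]
    rw [h3, if_pos rfl]
    simp [cc]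

lemma W3_sign (l n : ℕ) (h : n ≤ l) : ((cc l n : ℝ) : ℂ) =
    (-1 : ℂ) ^ (l + 1) * ((-1 : ℂ) ^ (l - n) * ((l.choose n : ℕ) : ℂ)) := by
  unfold cc
  push_cast
  rw [← mul_assoc]
  congr 1
  obtain ⟨m, rfl⟩ := Nat.exists_eq_add_of_le h
  have e : n + m - n = m := by omega
  rw [e, ← pow_add]
  have e2 : n + m + 1 + m = (n + 1) + 2 * m := by ring
  rw [e2, pow_add (-1 : ℂ) (n + 1) (2 * m), pow_mul]
  simp

/-- the terms of one set of coordinates -/
lemma W3_one {d : ℕ} (l : ℕ) (e : Finset (Fin d)) (G : (Fin d → ℕ) → ℂ) :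
    ∑ ν ∈ Fintype.piFinset (fun _ : Fin d => range (l + 1)),
      ((∏ j ∈ e, (cc l (ν j) : ℂ)) * ∏ j ∈ univ \ e, (if ν j = 0 then (1 : ℂ) else 0)) * G ν =
    ((-1 : ℂ) ^ (l + 1)) ^ e.card *
    ∑ ν ∈ Fintype.piFinset (fun j : Fin d => if j ∈ e then Finset.range (l + 1) else {0}),
      (∏ j ∈ e, ((-1 : ℂ) ^ (l - ν j) * ((l.choose (ν j) : ℕ) : ℂ))) * G ν := by
  rw [Finset.mul_sum]
  symm
  have h1 : ∑ ν ∈ Fintype.piFinset (fun j : Fin d => if j ∈ e then Finset.range (l + 1) else {0}),
      ((-1 : ℂ) ^ (l + 1)) ^ e.card *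
        ((∏ j ∈ e, ((-1 : ℂ) ^ (l - ν j) * ((l.choose (ν j) : ℕ) : ℂ))) * G ν) =
      ∑ ν ∈ Fintype.piFinset (fun j : Fin d => if j ∈ e then Finset.range (l + 1) else {0}),
      ((∏ j ∈ e, (cc l (ν j) : ℂ)) * ∏ j ∈ univ \ e, (if ν j = 0 then (1 : ℂ) else 0)) * G ν := by
    apply Finset.sum_congr rfl
    intro ν hν
    rw [Fintype.mem_piFinset] at hν
    have h2 : ∏ j ∈ univ \ e, (if ν j = 0 then (1 : ℂ) else 0) = 1 := by
      apply Finset.prod_eq_one
      intro j hj
      rw [Finset.mem_sdiff] at hj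
      have := hν j
      rw [if_neg hj.2, Finset.mem_singleton] at this
      rw [if_pos this]
    have h3 : ∏ j ∈ e, (cc l (ν j) : ℂ) = ((-1 : ℂ) ^ (l + 1)) ^ e.card *
        ∏ j ∈ e, ((-1 : ℂ) ^ (l - ν j) * ((l.choose (ν j) : ℕ) : ℂ)) := by
      rw [← Finset.prod_const, ← Finset.prod_mul_distrib]
      apply Finset.prod_congr rfl
      intro j hj
      have := hν j
      rw [if_pos hj, Finset.mem_range] at this
      exact W3_sign l (ν j) (by omega)
    rw [h2, h3]
    ring
  rw [h1]
  apply Finset.sum_subset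
  · intro ν hν
    rw [Fintype.mem_piFinset] at hν ⊢
    intro j
    have := hν j
    by_cases hj : j ∈ e
    · rwa [if_pos hj] at this
    · rw [if_neg hj, Finset.mem_singleton] at this
      rw [this, Finset.mem_range]
      omega
  · intro ν hν hν'
    rw [Fintype.mem_piFinset] at hν hν'
    push Not at hν'
    obtain ⟨j, hj⟩ := hν'
    have h2 := hν j
    by_cases hje : j ∈ e
    · rw [if_pos hje] at hj
      exact absurd h2 hj
    · rw [if_neg hje, Finset.mem_singleton] at hj
      rw [Finset.prod_eq_zero (s := univ \ e) (i := j) (by simp [hje]) (if_neg hj), mul_zero,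
        zero_mul]

/-- the sum over the positive indices is a signed sum of mixed differences -/
lemma W3_alg {d : ℕ} (l : ℕ) (f : (Fin d → ℝ) → ℂ) (x t : Fin d → ℝ) :
    SSe l ∅ f x t = ∑ e : Finset (Fin d), ((-1 : ℂ) ^ (l + 1)) ^ e.card *
      HypVol.mdiff l e t f x := by
  unfold SSe HypVol.mdiff
  have h0 : Fintype.piFinset (fun j : Fin d => if j ∈ (∅ : Finset (Fin d)) then range (l + 1)
      else Finset.Icc 1 l) = Fintype.piFinset (fun _ : Fin d => Finset.Icc 1 l) := by
    congr 1
  rw [h0, W3_ins l (fun ν => f (fun j => x j + (ν j : ℝ) * t j))]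
  simp only [Finset.prod_add, Finset.powerset_univ]
  rw [Finset.sum_congr rfl (fun ν _ => Finset.sum_mul _ _ _), Finset.sum_comm]
  apply Finset.sum_congr rfl
  intro e _
  exact W3_one l e (fun ν => f (fun j => x j + (ν j : ℝ) * t j))

lemma W3_empty {d : ℕ} (l : ℕ) (f : (Fin d → ℝ) → ℂ) (x t : Fin d → ℝ) :
    HypVol.mdiff l ∅ t f x = f x := by
  unfold HypVol.mdiff
  have h0 : Fintype.piFinset (fun j : Fin d => if j ∈ (∅ : Finset (Fin d)) then
      Finset.range (l + 1) else {0}) = {fun _ => 0} := by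
    ext ν
    rw [Fintype.mem_piFinset, Finset.mem_singleton]
    constructor
    · intro h
      funext j
      have := h j
      rwa [if_neg (by simp), Finset.mem_singleton] at this
    · intro h j
      rw [h, if_neg (by simp), Finset.mem_singleton]
  rw [h0, Finset.sum_singleton]
  simp

/-- pointwise bound of the distance -/
lemma W3_pt {d : ℕ} (l : ℕ) (f : (Fin d → ℝ) → ℂ) (x t : Fin d → ℝ) :
    ‖SSe l ∅ f x t - f x‖ ≤ ∑ e ∈ (univ : Finset (Finset (Fin d))).erase ∅,
      ‖HypVol.mdiff l e t f x‖ := by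
  rw [W3_alg, ← Finset.add_sum_erase _ _ (Finset.mem_univ (∅ : Finset (Fin d))), W3_empty,
    Finset.card_empty, pow_zero, one_mul, add_sub_cancel_left]
  refine (norm_sum_le _ _).trans (Finset.sum_le_sum fun e _ => ?_)
  rw [norm_mul, norm_pow, norm_pow, norm_neg, norm_one, one_pow, one_pow, one_mul]

/-- shifts by multiples of the period -/
lemma W3_per {d : ℕ} (f : (Fin d → ℝ) → ℂ)
    (hf : ∀ (x : Fin d → ℝ) (j : Fin d), f (Function.update x j (x j + 2 * Real.pi)) = f x)
    (x : Fin d → ℝ) (j : Fin d) (n : ℕ) :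
    f (Function.update x j (x j + n * (2 * Real.pi))) = f x := by
  induction n with
  | zero => simp
  | succ n ih =>
    have := hf (Function.update x j (x j + n * (2 * Real.pi))) j
    rw [Function.update_idem, Function.update_self, ih] at this
    rw [← this]
    congr 2
    push_cast
    ring

lemma W3_per' {d : ℕ} (f : (Fin d → ℝ) → ℂ)
    (hf : ∀ (x : Fin d → ℝ) (j : Fin d), f (Function.update x j (x j + 2 * Real.pi)) = f x)
    (n : Fin d → ℕ) (x : Fin d → ℝ) :
    f (fun j => x j + n j * (2 * Real.pi)) = f x := by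
  have key : ∀ s : Finset (Fin d),
      f (fun j => if j ∈ s then x j + n j * (2 * Real.pi) else x j) = f x := by
    intro s
    induction s using Finset.induction_on with
    | empty => simp
    | insert a s ha ih =>
      rw [← ih]
      have := W3_per f hf (fun j => if j ∈ s then x j + n j * (2 * Real.pi) else x j) a (n a)
      rw [← this]
      congr 1
      funext j
      by_cases hj : j = a
      · subst hj
        rw [Function.update_self, if_pos (Finset.mem_insert_self j s), if_neg ha]
      · rw [Function.update_of_ne hj]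
        by_cases hjs : j ∈ s
        · rw [if_pos (Finset.mem_insert_of_mem hjs), if_pos hjs]
        · rw [if_neg (by rw [Finset.mem_insert]; tauto), if_neg hjs]
  have := key univ
  simpa using this

/-- the representative of a step in `(-π, π]` -/
noncomputable def W3_tt (t : ℝ) : ℝ := if t ≤ Real.pi then t else t - 2 * Real.pi

lemma W3_abs {t : ℝ} (h0 : 0 ≤ t) (h1 : t < 2 * Real.pi) : |W3_tt t| = dd t := by
  unfold W3_tt dd
  split_ifs with h
  · rw [abs_of_nonneg h0, min_eq_left (by linarith)]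
  · push Not at h
    rw [abs_of_nonpos (by linarith), min_eq_right (by linarith)]
    ring

lemma W3_mdiff {d : ℕ} (l : ℕ) (e : Finset (Fin d)) (f : (Fin d → ℝ) → ℂ)
    (hf : ∀ (x : Fin d → ℝ) (j : Fin d), f (Function.update x j (x j + 2 * Real.pi)) = f x)
    (x t : Fin d → ℝ) :
    HypVol.mdiff l e t f x = HypVol.mdiff l e (fun j => W3_tt (t j)) f x := by
  unfold HypVol.mdiff
  apply Finset.sum_congr rfl
  intro ν _
  congr 1
  have := W3_per' f hf (fun j => if t j ≤ Real.pi then 0 else ν j)
    (fun j => x j + (ν j : ℝ) * W3_tt (t j))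
  rw [← this]
  congr 1
  funext j
  unfold W3_tt
  split_ifs with h
  · simp
  · ring

lemma W3_ae_t (d : ℕ) : ∀ᵐ t ∂(HypVol.TP d), ∀ j, 0 ≤ t j ∧ t j < 2 * Real.pi := by
  unfold HypVol.TP
  have hfin : IsFiniteMeasure (ENNReal.ofReal (2 * Real.pi)⁻¹ •
      volume.restrict (Set.Ico 0 (2 * Real.pi))) := Measure.smul_finite _ ENNReal.ofReal_ne_top
  rw [Filter.eventually_all]
  intro j
  have h : ∀ᵐ s ∂(ENNReal.ofReal (2 * Real.pi)⁻¹ •
      volume.restrict (Set.Ico 0 (2 * Real.pi))), 0 ≤ s ∧ s < 2 * Real.pi := by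
    apply Measure.ae_smul_measure
    filter_upwards [ae_restrict_mem measurableSet_Ico] with s hs
    exact hs
  exact (Measure.tendsto_eval_ae_ae (μ := fun _ : Fin d => ENNReal.ofReal (2 * Real.pi)⁻¹ •
    volume.restrict (Set.Ico 0 (2 * Real.pi))) (i := j)).eventually h

lemma W3_fin (d : ℕ) : IsFiniteMeasure (HypVol.TP d) := by
  unfold HypVol.TP
  have hfin : IsFiniteMeasure (ENNReal.ofReal (2 * Real.pi)⁻¹ •
      volume.restrict (Set.Ico 0 (2 * Real.pi))) := Measure.smul_finite _ ENNReal.ofReal_ne_top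
  infer_instance

theorem W3_proof : S_W3 := by
  intro d r l hr _ f hf
  obtain ⟨hper, hmeas, -, hcl⟩ := hf
  have hfin := W3_fin d
  rw [Measure.ae_ae_comm]
  · filter_upwards [W3_ae_t d] with t ht
    have h1 : ∀ᵐ x ∂(HypVol.TP d), ∀ e : Finset (Fin d), e.Nonempty →
        ‖HypVol.mdiff l e t f x‖ ≤ ∏ j ∈ e, (dd (t j)) ^ r := by
      rw [ae_all_iff]
      intro e
      by_cases he : e.Nonempty
      · have h2 := hcl e he (fun j => W3_tt (t j))
        rw [eLpNorm_exponent_top] at h2
        filter_upwards [enorm_ae_le_eLpNormEssSup (HypVol.mdiff l e (fun j => W3_tt (t j)) f)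
          (HypVol.TP d)] with x hx _
        have h3 := hx.trans h2
        rw [W3_mdiff l e f hper x t]
        have h4 : ∏ j ∈ e, |W3_tt (t j)| ^ r = ∏ j ∈ e, (dd (t j)) ^ r := by
          apply Finset.prod_congr rfl
          intro j _
          rw [W3_abs (ht j).1 (ht j).2]
        rw [h4] at h3
        rw [← ofReal_norm, ENNReal.ofReal_le_ofReal_iff] at h3
        · exact h3
        · apply Finset.prod_nonneg
          intro j _
          apply Real.rpow_nonneg
          rw [← W3_abs (ht j).1 (ht j).2]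
          exact abs_nonneg _
      · exact Filter.Eventually.of_forall fun x h => absurd h he
    filter_upwards [h1] with x hx
    refine (W3_pt l f x t).trans (Finset.sum_le_sum fun e he => ?_)
    apply hx e
    rw [Finset.nonempty_iff_ne_empty]
    exact (Finset.mem_erase.1 he).1
  · have hm1 : Measurable fun p : (Fin d → ℝ) × (Fin d → ℝ) => SSe l ∅ f p.1 p.2 := by
      unfold SSe
      apply Finset.measurable_sum
      intro ν _
      apply Measurable.const_mul
      apply hmeas.comp
      fun_prop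
    have hm2 : Measurable fun p : (Fin d → ℝ) × (Fin d → ℝ) => f p.1 := hmeas.comp measurable_fst
    apply measurableSet_le
    · exact (hm1.sub hm2).norm
    · apply Finset.measurable_sum
      intro e _
      apply Finset.measurable_prod
      intro j _
      unfold dd
      apply Measurable.pow_const
      fun_prop

end H506W
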